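import Pool.Agent.Lib_MP_752436_gt.Defs2

/-!
The second derivative of `T * exp E` at a critical point.
-/

open MeasureTheory Metric Set
open scoped ContDiff ENNReal

namespace Pool.Agent.Lib_MP_752436_gt

/-- A2 (file Calc.lean) -/
theorem critical_mul_exp {T E : EuclideanSpace ℝ (Fin 2) → ℝ} (hT : ContDiff ℝ ∞ T)
    (hE : ContDiff ℝ ∞ E) {x : EuclideanSpace ℝ (Fin 2)} (hx : 0 < T x)
    (hc : fderiv ℝ (fun y => T y * Real.exp (E y)) x = 0) :
    (∀ u, fderiv ℝ T x u = - (T x * fderiv ℝ E x u)) ∧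
    ∀ u w, fderiv ℝ (fderiv ℝ (fun y => T y * Real.exp (E y))) x u w =
      Real.exp (E x) * (fderiv ℝ (fderiv ℝ T) x u w - fderiv ℝ T x u * fderiv ℝ T x w / T x
        + T x * fderiv ℝ (fderiv ℝ E) x u w) := by
  have hTd : ∀ y, HasFDerivAt T (fderiv ℝ T y) y := fun y =>
    (hT.differentiable (by simp) y).hasFDerivAt
  have hEd : ∀ y, HasFDerivAt E (fderiv ℝ E y) y := fun y =>
    (hE.differentiable (by simp) y).hasFDerivAt
  have hT2 : HasFDerivAt (fderiv ℝ T) (fderiv ℝ (fderiv ℝ T) x) x :=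
    (((hT.fderiv_right (m := 1) (by norm_cast)).differentiable (by simp)) x).hasFDerivAt
  have hE2 : HasFDerivAt (fderiv ℝ E) (fderiv ℝ (fderiv ℝ E) x) x :=
    (((hE.fderiv_right (m := 1) (by norm_cast)).differentiable (by simp)) x).hasFDerivAt
  have h1 : ∀ y, HasFDerivAt (fun y => T y * Real.exp (E y))
      (Real.exp (E y) • (fderiv ℝ T y + T y • fderiv ℝ E y)) y := by
    intro y
    refine ((hTd y).mul (hEd y).exp).congr_fderiv ?_
    ext u
    simp only [_root_.add_apply, _root_.smul_apply, smul_eq_mul]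
    ring
  have h2 : fderiv ℝ (fun y => T y * Real.exp (E y)) =
      fun y => Real.exp (E y) • (fderiv ℝ T y + T y • fderiv ℝ E y) :=
    funext fun y => (h1 y).fderiv
  have h3 : fderiv ℝ T x + T x • fderiv ℝ E x = 0 := by
    rw [(h1 x).fderiv] at hc
    exact (smul_eq_zero.1 hc).resolve_left (Real.exp_ne_zero _)
  have h4 : ∀ u, fderiv ℝ T x u = - (T x * fderiv ℝ E x u) := by
    intro u
    have := congrArg (fun L => L u) h3
    simp only [_root_.add_apply, _root_.smul_apply, smul_eq_mul,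
      _root_.zero_apply] at this
    linarith
  refine ⟨h4, fun u w => ?_⟩
  have h5 : HasFDerivAt (fun y => fderiv ℝ T y + T y • fderiv ℝ E y)
      (fderiv ℝ (fderiv ℝ T) x + (T x • fderiv ℝ (fderiv ℝ E) x
        + (fderiv ℝ T x).smulRight (fderiv ℝ E x))) x :=
    hT2.add ((hTd x).smul hE2)
  have h6 : HasFDerivAt (fun y => Real.exp (E y) • (fderiv ℝ T y + T y • fderiv ℝ E y))
      (Real.exp (E x) • (fderiv ℝ (fderiv ℝ T) x + (T x • fderiv ℝ (fderiv ℝ E) x
        + (fderiv ℝ T x).smulRight (fderiv ℝ E x)))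
        + (Real.exp (E x) • fderiv ℝ E x).smulRight (fderiv ℝ T x + T x • fderiv ℝ E x)) x :=
    (hEd x).exp.smul h5
  rw [h2, h6.fderiv, h3]
  simp only [_root_.add_apply, _root_.smul_apply, smul_eq_mul,
    ContinuousLinearMap.smulRight_apply, smul_zero, add_zero]
  have h7 : fderiv ℝ E x w = - (fderiv ℝ T x w / T x) := by
    rw [h4 w]
    field_simp
  rw [h7]
  ring

end Pool.Agent.Lib_MP_752436_gt
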