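import Pool.Agent.Lib_MP_752436_gt.Defs2

/-!
# The negative direction: the two-case estimate with a large parameter
-/

open MeasureTheory Metric Set
open scoped ContDiff

namespace Pool.Agent.Lib_MP_752436_gt

/-- a uniform version of the condition on critical points -/
theorem negDir_uniform {ψ : EuclideanSpace ℝ (Fin 2) → ℝ}
    (hψ : ContDiff ℝ ∞ ψ)
    (hcrit : ∀ x ∈ closedBall (0 : EuclideanSpace ℝ (Fin 2)) 1, fderiv ℝ ψ x = 0 →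
      ∃ u, fderiv ℝ (fderiv ℝ ψ) x u u < 0) :
    ∃ η : ℝ, 0 < η ∧ ∀ x ∈ closedBall (0 : EuclideanSpace ℝ (Fin 2)) 1, ‖fderiv ℝ ψ x‖ ≤ η →
      ∃ u, ‖u‖ = 1 ∧ fderiv ℝ (fderiv ℝ ψ) x u u ≤ -η := by
  have h1 : ContDiff ℝ ∞ (fderiv ℝ ψ) := hψ.fderiv_right (by simp)
  have h2 : ContDiff ℝ ∞ (fderiv ℝ (fderiv ℝ ψ)) := h1.fderiv_right (by simp)
  have hK : IsCompact (closedBall (0 : EuclideanSpace ℝ (Fin 2)) 1) := isCompact_closedBall _ _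
  refine hK.induction_on (p := fun s => ∃ η : ℝ, 0 < η ∧ ∀ x ∈ s, ‖fderiv ℝ ψ x‖ ≤ η →
      ∃ u, ‖u‖ = 1 ∧ fderiv ℝ (fderiv ℝ ψ) x u u ≤ -η) ⟨1, one_pos, by simp⟩ ?_ ?_ ?_
  · rintro s t hst ⟨η, hη, h⟩
    exact ⟨η, hη, fun x hx => h x (hst hx)⟩
  · rintro s t ⟨η, hη, h⟩ ⟨η', hη', h'⟩
    refine ⟨min η η', lt_min hη hη', ?_⟩
    rintro x (hx | hx) hle
    · obtain ⟨u, hu, hu2⟩ := h x hx (hle.trans (min_le_left _ _))
      exact ⟨u, hu, hu2.trans (neg_le_neg (min_le_left _ _))⟩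
    · obtain ⟨u, hu, hu2⟩ := h' x hx (hle.trans (min_le_right _ _))
      exact ⟨u, hu, hu2.trans (neg_le_neg (min_le_right _ _))⟩
  · intro x hx
    by_cases h0 : fderiv ℝ ψ x = 0
    · obtain ⟨u, hu⟩ := hcrit x hx h0
      have hu0 : u ≠ 0 := by
        rintro rfl
        simp at hu
      have hn : 0 < ‖u‖ := norm_pos_iff.2 hu0
      set v : EuclideanSpace ℝ (Fin 2) := ‖u‖⁻¹ • u with hv
      have hvn : ‖v‖ = 1 := by
        rw [hv, norm_smul, norm_inv, norm_norm, inv_mul_cancel₀ hn.ne']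
      have hvneg : fderiv ℝ (fderiv ℝ ψ) x v v < 0 := by
        rw [hv]
        simp only [map_smul, smul_apply, smul_eq_mul]
        have : 0 < ‖u‖⁻¹ := inv_pos.2 hn
        have h3 : 0 < ‖u‖⁻¹ * ‖u‖⁻¹ := mul_pos this this
        have h4 := mul_pos h3 (neg_pos.2 hu)
        linarith only [h4]
      set η : ℝ := -(fderiv ℝ (fderiv ℝ ψ) x v v) / 2 with hη
      have hη0 : 0 < η := by rw [hη]; linarith only [hvneg]
      have hcont : Continuous (fun y => fderiv ℝ (fderiv ℝ ψ) y v v) := by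
        have := h2.continuous
        exact (this.clm_apply continuous_const).clm_apply continuous_const
      have hev : {y | fderiv ℝ (fderiv ℝ ψ) y v v < -η} ∈ nhds x := by
        refine (isOpen_lt hcont continuous_const).mem_nhds ?_
        show fderiv ℝ (fderiv ℝ ψ) x v v < -η
        rw [hη]; linarith only [hvneg]
      exact ⟨_, mem_nhdsWithin_of_mem_nhds hev, η, hη0, fun y hy _ => ⟨v, hvn, le_of_lt hy⟩⟩
    · have hn : 0 < ‖fderiv ℝ ψ x‖ := norm_pos_iff.2 h0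
      have hcont : Continuous (fun y => ‖fderiv ℝ ψ y‖) := h1.continuous.norm
      have hev : {y | ‖fderiv ℝ ψ x‖ / 2 < ‖fderiv ℝ ψ y‖} ∈ nhds x := by
        refine (isOpen_lt continuous_const hcont).mem_nhds ?_
        show ‖fderiv ℝ ψ x‖ / 2 < ‖fderiv ℝ ψ x‖
        exact half_lt_self hn
      refine ⟨_, mem_nhdsWithin_of_mem_nhds hev, ‖fderiv ℝ ψ x‖ / 2, half_pos hn, ?_⟩
      intro y hy hle
      exact absurd hy (not_lt.2 hle)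

/-- a unit vector in the direction of the gradient -/
theorem exists_unit_grad (L : EuclideanSpace ℝ (Fin 2) →L[ℝ] ℝ) (hL : L ≠ 0) :
    ∃ u, ‖u‖ = 1 ∧ L u = ‖L‖ := by
  set g := (InnerProductSpace.toDual ℝ (EuclideanSpace ℝ (Fin 2))).symm L with hg
  have hgn : ‖g‖ = ‖L‖ := LinearIsometryEquiv.norm_map _ _
  have hpos : 0 < ‖L‖ := norm_pos_iff.2 hL
  have hLg : ∀ w, L w = inner ℝ g w := by
    intro w
    rw [hg, InnerProductSpace.toDual_symm_apply]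
  refine ⟨‖L‖⁻¹ • g, ?_, ?_⟩
  · rw [norm_smul, norm_inv, norm_norm, hgn, inv_mul_cancel₀ hpos.ne']
  · rw [hLg, inner_smul_right, real_inner_self_eq_norm_sq, hgn]
    field_simp

theorem exists_bound_unitDisc {V : Type*} [NormedAddCommGroup V]
    {f : EuclideanSpace ℝ (Fin 2) → V} (hf : Continuous f) :
    ∃ C : ℝ, 0 ≤ C ∧ ∀ x ∈ closedBall (0 : EuclideanSpace ℝ (Fin 2)) 1, ‖f x‖ ≤ C := by
  obtain ⟨C, hC⟩ := (isCompact_closedBall
    (0 : EuclideanSpace ℝ (Fin 2)) 1).exists_bound_of_continuousOn hf.continuousOn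
  exact ⟨C, (norm_nonneg (f 0)).trans (hC 0 (by simp)), hC⟩

/-- the constants of the two-case estimate -/
theorem negDir_consts {m C1 C2 C3 η : ℝ} (hm : 0 < m) (hC1p : 0 ≤ C1) (hC2p : 0 ≤ C2)
    (hC3p : 0 ≤ C3) (hη : 0 < η) : ∃ κ t0 s0 : ℝ, 0 < κ ∧ 0 < t0 ∧ 1 ≤ s0 ∧ κ * C2 ≤ m / 8 ∧
      C1 * t0 ≤ m / 8 ∧ t0 ≤ m / 2 ∧ κ ≤ s0 * t0 ∧ 2 * C3 ≤ s0 * η ∧ 2 * κ ≤ s0 * η ∧
      C1 ≤ s0 * η := by
  have a1 : 0 < 8 * (C1 + 1) := by linarith only [hC1p]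
  have a2 : 0 < 8 * (C2 + 1) := by linarith only [hC2p]
  have hκ0 : 0 < m / (8 * (C2 + 1)) := div_pos hm a2
  have ht0 : 0 < min (m / (8 * (C1 + 1))) (m / 2) := lt_min (div_pos hm a1) (half_pos hm)
  have key : ∀ C : ℝ, 0 ≤ C → 0 < 8 * (C + 1) → C * (m / (8 * (C + 1))) ≤ m / 8 := by
    intro C hC h8
    rw [mul_div_assoc', div_le_div_iff₀ h8 (by norm_num)]
    linarith only [hm]
  obtain ⟨κ, hκ⟩ : ∃ κ : ℝ, κ = m / (8 * (C2 + 1)) := ⟨_, rfl⟩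
  obtain ⟨t0, ht⟩ : ∃ t0 : ℝ, t0 = min (m / (8 * (C1 + 1))) (m / 2) := ⟨_, rfl⟩
  rw [← hκ] at hκ0
  rw [← ht] at ht0
  have h1 : 0 ≤ κ / t0 := div_nonneg hκ0.le ht0.le
  have h2 : 0 ≤ 2 * C3 / η := div_nonneg (mul_nonneg zero_le_two hC3p) hη.le
  have h3 : 0 ≤ 2 * κ / η := div_nonneg (mul_nonneg zero_le_two hκ0.le) hη.le
  have h4 : 0 ≤ C1 / η := div_nonneg hC1p hη.le
  refine ⟨κ, t0, 1 + κ / t0 + 2 * C3 / η + 2 * κ / η + C1 / η, hκ0, ht0,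
    by linarith only [h1, h2, h3, h4], ?_, ?_, ?_, ?_, ?_, ?_, ?_⟩
  · rw [hκ, mul_comm]
    exact key C2 hC2p a2
  · refine le_trans (mul_le_mul_of_nonneg_left ?_ hC1p) (key C1 hC1p a1)
    rw [ht]
    exact min_le_left _ _
  · rw [ht]
    exact min_le_right _ _
  · rw [← div_le_iff₀ ht0]
    linarith only [h1, h2, h3, h4]
  · rw [← div_le_iff₀ hη]
    linarith only [h1, h2, h3, h4]
  · rw [← div_le_iff₀ hη]
    linarith only [h1, h2, h3, h4]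
  · rw [← div_le_iff₀ hη]
    linarith only [h1, h2, h3, h4]

private theorem nd_case1 {m C1 C2 κ t0 s lam t L : ℝ} (hC1p : 0 ≤ C1) (hC2p : 0 ≤ C2)
    (hκ0 : 0 < κ) (hs0 : 0 < s) (hκC2 : κ * C2 ≤ m / 8) (ht0C1 : C1 * t0 ≤ m / 8) (hm : 0 < m)
    (hsa : κ ≤ s * t0) (hlam : lam * κ = s ^ 2) (ht : 0 < t) (hcase : s * t ≤ κ)
    (hgr : m / 2 ≤ L ^ 2) : C1 - L * L / t + t * (lam * C2) < 0 := by
  have hτt0 : t ≤ t0 := le_of_mul_le_mul_left (hcase.trans hsa) hs0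
  have h1 : 0 ≤ s * t := mul_nonneg hs0.le ht.le
  have hlt : lam * t ^ 2 ≤ κ := by
    have h2 : (s * t) * (s * t) ≤ κ * κ := mul_le_mul hcase hcase h1 hκ0.le
    have h3 : (lam * t ^ 2) * κ ≤ κ * κ := by
      have h4 : (lam * t ^ 2) * κ = (s * t) * (s * t) := by linear_combination t ^ 2 * hlam
      rw [h4]
      exact h2
    exact le_of_mul_le_mul_right h3 hκ0
  have h6 : t * (C1 - L * L / t + t * (lam * C2)) = C1 * t - L ^ 2 + (lam * t ^ 2) * C2 := by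
    field_simp
  have h7 : C1 * t ≤ C1 * t0 := mul_le_mul_of_nonneg_left hτt0 hC1p
  have h8 : (lam * t ^ 2) * C2 ≤ κ * C2 := mul_le_mul_of_nonneg_right hlt hC2p
  have h5 : t * (C1 - L * L / t + t * (lam * C2)) < 0 := by
    rw [h6]
    linarith only [h7, h8, hκC2, ht0C1, hgr, hm]
  by_contra hcon
  push Not at hcon
  exact absurd (mul_nonneg ht.le hcon) (not_le.2 h5)

private theorem nd_case2 {C3 η κ s lam t P A B U : ℝ} (hη : 0 < η) (hκ0 : 0 < κ) (hs1 : 1 ≤ s)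
    (hC3p : 0 ≤ C3) (hsb : 2 * C3 ≤ s * η) (hsc : 2 * κ ≤ s * η) (hlam : lam * κ = s ^ 2)
    (hlam0 : 0 < lam) (hlt : s < lam * t) (hU : 0 ≤ U) (h3 : |A| ≤ C3 * U) (h4 : |B| ≤ U)
    (h1 : P = -(A / (lam * t) + B / lam)) : |P| ≤ η * U := by
  have hs0 : 0 < s := lt_of_lt_of_le one_pos hs1
  have hlt0 : 0 < lam * t := hs0.trans hlt
  have h5 : |A / (lam * t)| ≤ (η / 2) * U := by
    rw [abs_div, abs_of_pos hlt0, div_le_iff₀ hlt0]
    have h6 : C3 ≤ η / 2 * (lam * t) := by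
      have := mul_le_mul_of_nonneg_left hlt.le hη.le
      linarith only [this, hsb]
    have := mul_le_mul_of_nonneg_right h6 hU
    linarith only [this, h3]
  have h7 : |B / lam| ≤ (η / 2) * U := by
    rw [abs_div, abs_of_pos hlam0, div_le_iff₀ hlam0]
    have h8 : 1 ≤ η / 2 * lam := by
      have h9 : κ ≤ (η / 2 * lam) * κ := by
        have h10 : (η / 2 * lam) * κ = (s * η / 2) * s := by linear_combination (η / 2) * hlam
        rw [h10]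
        have h11 : s * η / 2 * 1 ≤ (s * η / 2) * s :=
          mul_le_mul_of_nonneg_left hs1 (div_nonneg (mul_nonneg hs0.le hη.le) zero_le_two)
        linarith only [h11, hsc]
      by_contra hcon
      push Not at hcon
      have := mul_lt_mul_of_pos_right hcon hκ0
      linarith only [this, h9]
    have := mul_le_mul_of_nonneg_right h8 hU
    linarith only [this, h4]
  rw [h1, abs_neg]
  refine (abs_add_le _ _).trans ?_
  linarith only [h5, h7]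

/-- the pointwise part of the two-case estimate -/
theorem negDir_point {τ ψ : EuclideanSpace ℝ (Fin 2) → ℝ} {m C1 C2 C3 η κ t0 s lam : ℝ}
    (hC1p : 0 ≤ C1) (hC2p : 0 ≤ C2) (hC3p : 0 ≤ C3) (hη : 0 < η) (hm : 0 < m)
    (hκ0 : 0 < κ) (hs1 : 1 ≤ s) (hκC2 : κ * C2 ≤ m / 8)
    (ht0C1 : C1 * t0 ≤ m / 8) (ht0m : t0 ≤ m / 2) (hsa : κ ≤ s * t0) (hsb : 2 * C3 ≤ s * η)
    (hsc : 2 * κ ≤ s * η) (hsd : C1 ≤ s * η) (hlam : lam * κ = s ^ 2) (hlam0 : 0 < lam)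
    {a : EuclideanSpace ℝ (Fin 2)} (ha : ‖a‖ ≤ 1) {x : EuclideanSpace ℝ (Fin 2)}
    (hτx : 0 < τ x) (hC1 : ‖fderiv ℝ (fderiv ℝ τ) x‖ ≤ C1) (hC2 : ‖fderiv ℝ (fderiv ℝ ψ) x‖ ≤ C2)
    (hC3 : ‖fderiv ℝ τ x‖ ≤ C3) (hmle : m ≤ ‖fderiv ℝ τ x‖ ^ 2 + τ x)
    (hηc : ‖fderiv ℝ ψ x‖ ≤ η → ∃ u, ‖u‖ = 1 ∧ fderiv ℝ (fderiv ℝ ψ) x u u ≤ -η)
    (hrel : ∀ u, fderiv ℝ τ x u = - (τ x * (lam * fderiv ℝ ψ x u + inner ℝ a u))) :
    ∃ u, fderiv ℝ (fderiv ℝ τ) x u u - fderiv ℝ τ x u * fderiv ℝ τ x u / τ x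
        + τ x * (lam * fderiv ℝ (fderiv ℝ ψ) x u u) < 0 := by
  have hs0 : 0 < s := lt_of_lt_of_le one_pos hs1
  have hD2τ : ∀ u, ‖u‖ = 1 → fderiv ℝ (fderiv ℝ τ) x u u ≤ C1 := by
    intro u hu
    have h1 := (fderiv ℝ (fderiv ℝ τ) x).le_opNorm₂ u u
    rw [hu, mul_one, mul_one] at h1
    exact (le_abs_self _).trans (h1.trans hC1)
  have hD2ψ : ∀ u, ‖u‖ = 1 → fderiv ℝ (fderiv ℝ ψ) x u u ≤ C2 := by
    intro u hu
    have h1 := (fderiv ℝ (fderiv ℝ ψ) x).le_opNorm₂ u u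
    rw [hu, mul_one, mul_one] at h1
    exact (le_abs_self _).trans (h1.trans hC2)
  by_cases hcase : s * τ x ≤ κ
  · -- case 1
    have hτt0 : τ x ≤ t0 := le_of_mul_le_mul_left (hcase.trans hsa) hs0
    have hgr : m / 2 ≤ ‖fderiv ℝ τ x‖ ^ 2 := by
      linarith only [hmle, hτt0, ht0m]
    have hne : fderiv ℝ τ x ≠ 0 := by
      intro h
      rw [h, norm_zero] at hgr
      norm_num at hgr
      linarith only [hgr, hm]
    obtain ⟨u, hu, hu2⟩ := exists_unit_grad _ hne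
    refine ⟨u, ?_⟩
    rw [hu2]
    have h3 : τ x * (lam * fderiv ℝ (fderiv ℝ ψ) x u u) ≤ τ x * (lam * C2) :=
      mul_le_mul_of_nonneg_left (mul_le_mul_of_nonneg_left (hD2ψ u hu) hlam0.le) hτx.le
    have h4 := nd_case1 hC1p hC2p hκ0 hs0 hκC2 ht0C1 hm hsa hlam hτx hcase hgr
    have h9 := hD2τ u hu
    linarith only [h3, h4, h9]
  · -- case 2
    push Not at hcase
    have hlt : s < lam * τ x := by
      have h1 := mul_lt_mul_of_pos_left hcase hs0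
      have h2 : s * κ < (lam * τ x) * κ := by
        have h3 : (lam * τ x) * κ = s * (s * τ x) := by linear_combination (τ x) * hlam
        rw [h3]
        exact h1
      exact lt_of_mul_lt_mul_right h2 hκ0.le
    have hlt0 : 0 < lam * τ x := hs0.trans hlt
    have hψn : ‖fderiv ℝ ψ x‖ ≤ η := by
      refine ContinuousLinearMap.opNorm_le_bound _ hη.le (fun u => ?_)
      have h1 : fderiv ℝ ψ x u = -(fderiv ℝ τ x u / (lam * τ x) + inner ℝ a u / lam) := by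
        have h2 := hrel u
        field_simp
        linear_combination h2
      have h3 : |fderiv ℝ τ x u| ≤ C3 * ‖u‖ :=
        ((fderiv ℝ τ x).le_opNorm u).trans
          (mul_le_mul_of_nonneg_right hC3 (norm_nonneg _))
      have h4 : |inner ℝ a u| ≤ ‖u‖ :=
        (abs_real_inner_le_norm a u).trans
          ((mul_le_mul_of_nonneg_right ha (norm_nonneg u)).trans_eq (one_mul _))
      rw [Real.norm_eq_abs]
      exact nd_case2 hη hκ0 hs1 hC3p hsb hsc hlam hlam0 hlt (norm_nonneg u) h3 h4 h1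
    obtain ⟨u, hu, hu2⟩ := hηc hψn
    refine ⟨u, ?_⟩
    have h1 : 0 ≤ fderiv ℝ τ x u * fderiv ℝ τ x u / τ x :=
      div_nonneg (mul_self_nonneg _) hτx.le
    have h2 : τ x * (lam * fderiv ℝ (fderiv ℝ ψ) x u u) ≤ τ x * (lam * (-η)) :=
      mul_le_mul_of_nonneg_left (mul_le_mul_of_nonneg_left hu2 hlam0.le) hτx.le
    have h3 := hD2τ u hu
    have h4 : C1 < lam * τ x * η := lt_of_le_of_lt hsd (mul_lt_mul_of_pos_right hlt hη)
    have h5 : τ x * (lam * (-η)) = -(lam * τ x * η) := by ring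
    linarith only [h1, h2, h3, h4, h5]

/-- the lower bound for `‖D τ‖² + τ` -/
theorem negDir_min {τ : EuclideanSpace ℝ (Fin 2) → ℝ} (hτ : ContDiff ℝ ∞ τ)
    (hpos : ∀ x ∈ closedBall (0 : EuclideanSpace ℝ (Fin 2)) 1, 0 ≤ τ x)
    (hneat : ∀ x ∈ closedBall (0 : EuclideanSpace ℝ (Fin 2)) 1, τ x = 0 → fderiv ℝ τ x ≠ 0) :
    ∃ m : ℝ, 0 < m ∧
      ∀ x ∈ closedBall (0 : EuclideanSpace ℝ (Fin 2)) 1, m ≤ ‖fderiv ℝ τ x‖ ^ 2 + τ x := by
  have hτ1 : ContDiff ℝ ∞ (fderiv ℝ τ) := hτ.fderiv_right (by simp)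
  have hK : IsCompact (closedBall (0 : EuclideanSpace ℝ (Fin 2)) 1) := isCompact_closedBall _ _
  have h0K : (0 : EuclideanSpace ℝ (Fin 2)) ∈ closedBall (0 : EuclideanSpace ℝ (Fin 2)) 1 :=
    mem_closedBall_self zero_le_one
  have hc : Continuous (fun x => ‖fderiv ℝ τ x‖ ^ 2 + τ x) :=
    (hτ1.continuous.norm.pow 2).add hτ.continuous
  obtain ⟨x0, hx0, hmin⟩ := hK.exists_isMinOn ⟨0, h0K⟩ hc.continuousOn
  refine ⟨‖fderiv ℝ τ x0‖ ^ 2 + τ x0, ?_, fun x hx => hmin hx⟩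
  rcases (hpos x0 hx0).eq_or_lt with h | h
  · have h2 := pow_pos (norm_pos_iff.2 (hneat x0 hx0 h.symm)) 2
    rw [← h, add_zero]
    exact h2
  · exact add_pos_of_nonneg_of_pos (sq_nonneg _) h

/-- A3 (file NegDir.lean) -/
theorem neg_direction {τ ψ : EuclideanSpace ℝ (Fin 2) → ℝ} (hτ : ContDiff ℝ ∞ τ)
    (hψ : ContDiff ℝ ∞ ψ)
    (hpos : ∀ x ∈ closedBall (0 : EuclideanSpace ℝ (Fin 2)) 1, 0 ≤ τ x)
    (hneat : ∀ x ∈ closedBall (0 : EuclideanSpace ℝ (Fin 2)) 1, τ x = 0 → fderiv ℝ τ x ≠ 0)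
    (hcrit : ∀ x ∈ closedBall (0 : EuclideanSpace ℝ (Fin 2)) 1, fderiv ℝ ψ x = 0 →
      ∃ u, fderiv ℝ (fderiv ℝ ψ) x u u < 0) :
    ∃ lam : ℝ, 0 < lam ∧ ∀ a : EuclideanSpace ℝ (Fin 2), ‖a‖ ≤ 1 →
      ∀ x ∈ closedBall (0 : EuclideanSpace ℝ (Fin 2)) 1, 0 < τ x →
      (∀ u, fderiv ℝ τ x u = - (τ x * (lam * fderiv ℝ ψ x u + inner ℝ a u))) →
      ∃ u, fderiv ℝ (fderiv ℝ τ) x u u - fderiv ℝ τ x u * fderiv ℝ τ x u / τ x
        + τ x * (lam * fderiv ℝ (fderiv ℝ ψ) x u u) < 0 := by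
  have hτ1 : ContDiff ℝ ∞ (fderiv ℝ τ) := hτ.fderiv_right (by simp)
  have hτ2 : ContDiff ℝ ∞ (fderiv ℝ (fderiv ℝ τ)) := hτ1.fderiv_right (by simp)
  have hψ1 : ContDiff ℝ ∞ (fderiv ℝ ψ) := hψ.fderiv_right (by simp)
  have hψ2 : ContDiff ℝ ∞ (fderiv ℝ (fderiv ℝ ψ)) := hψ1.fderiv_right (by simp)
  obtain ⟨C1, hC1p, hC1⟩ := exists_bound_unitDisc hτ2.continuous
  obtain ⟨C2, hC2p, hC2⟩ := exists_bound_unitDisc hψ2.continuous
  obtain ⟨C3, hC3p, hC3⟩ := exists_bound_unitDisc hτ1.continuous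
  obtain ⟨m, hm, hmle⟩ := negDir_min hτ hpos hneat
  obtain ⟨η, hη, hηc⟩ := negDir_uniform hψ hcrit
  obtain ⟨κ, t0, s, hκ0, ht0, hs1, hκC2, ht0C1, ht0m, hsa, hsb, hsc, hsd⟩ :=
    negDir_consts hm hC1p hC2p hC3p hη
  have hlam : s ^ 2 / κ * κ = s ^ 2 := div_mul_cancel₀ _ hκ0.ne'
  have hlam0 : 0 < s ^ 2 / κ := div_pos (pow_pos (lt_of_lt_of_le one_pos hs1) 2) hκ0
  exact ⟨s ^ 2 / κ, hlam0, fun a ha x hx hτx hrel =>
    negDir_point hC1p hC2p hC3p hη hm hκ0 hs1 hκC2 ht0C1 ht0m hsa hsb hsc hsd hlam hlam0 ha hτx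
      (hC1 x hx) (hC2 x hx) (hC3 x hx) (hmle x hx) (hηc x hx) hrel⟩

end Pool.Agent.Lib_MP_752436_gt
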