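import Pool.Agent.Lib_MP_752436_gt.Defs2

/-!
Sard's theorem for the gradient of `log T`: a generic small exponential factor makes all
critical points of `T` times the exponential nondegenerate.
-/

open MeasureTheory Metric Set
open scoped ContDiff ENNReal

namespace Pool.Agent.Lib_MP_752436_gt

theorem sard_hasFDerivAt {T : EuclideanSpace ℝ (Fin 2) → ℝ} (hT : ContDiff ℝ ∞ T)
    (x : EuclideanSpace ℝ (Fin 2)) : HasFDerivAt T (fderiv ℝ T x) x :=
  ((hT.differentiable (by simp)) x).hasFDerivAt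

theorem sard_hasFDerivAt2 {T : EuclideanSpace ℝ (Fin 2) → ℝ} (hT : ContDiff ℝ ∞ T)
    (x : EuclideanSpace ℝ (Fin 2)) :
    HasFDerivAt (fderiv ℝ T) (fderiv ℝ (fderiv ℝ T) x) x := by
  have h : ContDiff ℝ ∞ (fderiv ℝ T) := hT.fderiv_right (by simp)
  exact ((h.differentiable (by simp)) x).hasFDerivAt

theorem sard_exp (a x : EuclideanSpace ℝ (Fin 2)) :
    HasFDerivAt (fun y : EuclideanSpace ℝ (Fin 2) => Real.exp (inner ℝ a y))
      (Real.exp (inner ℝ a x) • innerSL ℝ a) x := by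
  have h2 : HasFDerivAt (fun y : EuclideanSpace ℝ (Fin 2) => (inner ℝ a y : ℝ)) (innerSL ℝ a) x :=
    (innerSL ℝ a).hasFDerivAt
  exact h2.exp

/-- First derivative of `T` times the exponential. -/
theorem sard_fderiv_mul {T : EuclideanSpace ℝ (Fin 2) → ℝ} (hT : ContDiff ℝ ∞ T)
    (a : EuclideanSpace ℝ (Fin 2)) :
    fderiv ℝ (fun y => T y * Real.exp (inner ℝ a y))
      = fun x => Real.exp (inner ℝ a x) • (fderiv ℝ T x + T x • innerSL ℝ a) := by
  funext x
  have h4 : HasFDerivAt (fun y => T y * Real.exp (inner ℝ a y))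
      (T x • (Real.exp (inner ℝ a x) • (innerSL ℝ a : EuclideanSpace ℝ (Fin 2) →L[ℝ] ℝ))
        + Real.exp (inner ℝ a x) • fderiv ℝ T x) x :=
    (sard_hasFDerivAt hT x).mul (sard_exp a x)
  rw [h4.fderiv]
  ext w
  simp
  ring

/-- The critical equation. -/
theorem sard_crit {T : EuclideanSpace ℝ (Fin 2) → ℝ} (hT : ContDiff ℝ ∞ T)
    {a x : EuclideanSpace ℝ (Fin 2)}
    (hc : fderiv ℝ (fun y => T y * Real.exp (inner ℝ a y)) x = 0) :
    fderiv ℝ T x + T x • innerSL ℝ a = 0 := by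
  rw [sard_fderiv_mul hT a] at hc
  exact (smul_eq_zero.mp hc).resolve_left (Real.exp_pos _).ne'

/-- Second derivative at a critical point. -/
theorem sard_hess {T : EuclideanSpace ℝ (Fin 2) → ℝ} (hT : ContDiff ℝ ∞ T)
    {a x : EuclideanSpace ℝ (Fin 2)} (hx : 0 < T x)
    (hc : fderiv ℝ (fun y => T y * Real.exp (inner ℝ a y)) x = 0)
    (u w : EuclideanSpace ℝ (Fin 2)) :
    fderiv ℝ (fderiv ℝ (fun y => T y * Real.exp (inner ℝ a y))) x u w =
      Real.exp (inner ℝ a x) * (fderiv ℝ (fderiv ℝ T) x u w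
        - fderiv ℝ T x u * fderiv ℝ T x w / T x) := by
  have hc' := sard_crit hT hc
  have h5 := (sard_hasFDerivAt hT x).smul_const (innerSL ℝ a : EuclideanSpace ℝ (Fin 2) →L[ℝ] ℝ)
  have h6 := (sard_exp a x).smul ((sard_hasFDerivAt2 hT x).add h5)
  have h7 : fderiv ℝ T x w = - (T x * inner ℝ a w) := by
    have := congrArg (fun L : EuclideanSpace ℝ (Fin 2) →L[ℝ] ℝ => L w) hc'
    simp at this
    linarith
  rw [sard_fderiv_mul hT a]
  have h8 : HasFDerivAt (fun x => Real.exp (inner ℝ a x) • (fderiv ℝ T x + T x • innerSL ℝ a))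
      (Real.exp (inner ℝ a x) • (fderiv ℝ (fderiv ℝ T) x + (fderiv ℝ T x).smulRight (innerSL ℝ a))
        + (Real.exp (inner ℝ a x) • (innerSL ℝ a : EuclideanSpace ℝ (Fin 2) →L[ℝ] ℝ)).smulRight
          (fderiv ℝ T x + T x • innerSL ℝ a)) x := h6
  rw [h8.fderiv, hc']
  simp
  rw [h7]
  field_simp
  ring

/-- The gradient of `log T` in coordinates. -/
noncomputable def sardG (T : EuclideanSpace ℝ (Fin 2) → ℝ) (x : EuclideanSpace ℝ (Fin 2)) :
    EuclideanSpace ℝ (Fin 2) :=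
  WithLp.toLp 2 (fun i => fderiv ℝ T x (EuclideanSpace.single i 1) / T x)

theorem sardG_hasFDerivAt {T : EuclideanSpace ℝ (Fin 2) → ℝ} (hT : ContDiff ℝ ∞ T)
    {x : EuclideanSpace ℝ (Fin 2)} (hx : 0 < T x) :
    HasFDerivAt (sardG T) (fderiv ℝ (sardG T) x) x ∧ ∀ u i,
      fderiv ℝ (sardG T) x u i * T x = fderiv ℝ (fderiv ℝ T) x u (EuclideanSpace.single i 1)
        - fderiv ℝ T x u * fderiv ℝ T x (EuclideanSpace.single i 1) / T x := by
  have hcoord : ∀ i : Fin 2, HasFDerivAt (fun y => sardG T y i)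
      ((T x ^ 2)⁻¹ • (T x • ((fderiv ℝ (fderiv ℝ T) x).flip (EuclideanSpace.single i 1))
        - fderiv ℝ T x (EuclideanSpace.single i 1) • fderiv ℝ T x)) x := by
    intro i
    have h1 : HasFDerivAt (fun y => fderiv ℝ T y (EuclideanSpace.single i 1))
        ((fderiv ℝ (fderiv ℝ T) x).flip (EuclideanSpace.single i 1)) x := by
      have := (sard_hasFDerivAt2 hT x).clm_apply
        (hasFDerivAt_const (EuclideanSpace.single i (1 : ℝ)) x)
      simpa using this
    have h2 : HasFDerivAt (fun y => (T y)⁻¹) ((-(T x ^ 2)⁻¹) • fderiv ℝ T x) x :=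
      (hasDerivAt_inv hx.ne').comp_hasFDerivAt x (sard_hasFDerivAt hT x)
    have h3 : HasFDerivAt (fun y => fderiv ℝ T y (EuclideanSpace.single i 1) * (T y)⁻¹)
        (fderiv ℝ T x (EuclideanSpace.single i 1) • ((-(T x ^ 2)⁻¹) • fderiv ℝ T x)
          + (T x)⁻¹ • ((fderiv ℝ (fderiv ℝ T) x).flip (EuclideanSpace.single i 1))) x := h1.mul h2
    have h4 : (fun y => sardG T y i)
        = fun y => fderiv ℝ T y (EuclideanSpace.single i 1) * (T y)⁻¹ := by
      funext y
      simp [sardG, div_eq_mul_inv]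
    rw [h4]
    have h5 : (T x ^ 2)⁻¹ • (T x • ((fderiv ℝ (fderiv ℝ T) x).flip (EuclideanSpace.single i 1))
        - fderiv ℝ T x (EuclideanSpace.single i 1) • fderiv ℝ T x)
        = (fderiv ℝ T x (EuclideanSpace.single i 1) • ((-(T x ^ 2)⁻¹) • fderiv ℝ T x)
          + (T x)⁻¹ • ((fderiv ℝ (fderiv ℝ T) x).flip (EuclideanSpace.single i 1))) := by
      ext w
      simp
      field_simp
      ring
    rw [h5]
    exact h3
  have hd : DifferentiableAt ℝ (sardG T) x := by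
    rw [differentiableAt_euclidean]
    exact fun i => (hcoord i).differentiableAt
  refine ⟨hd.hasFDerivAt, fun u i => ?_⟩
  have h3 : HasFDerivAt (fun y => sardG T y i)
      ((EuclideanSpace.proj i : EuclideanSpace ℝ (Fin 2) →L[ℝ] ℝ).comp (fderiv ℝ (sardG T) x)) x :=
    (EuclideanSpace.proj i : EuclideanSpace ℝ (Fin 2) →L[ℝ] ℝ).hasFDerivAt.comp x hd.hasFDerivAt
  have h4 := congrArg (fun L : EuclideanSpace ℝ (Fin 2) →L[ℝ] ℝ => L u) (h3.unique (hcoord i))
  simp at h4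
  rw [h4]
  field_simp

/-- A4 -/
theorem exists_small_morse {T : EuclideanSpace ℝ (Fin 2) → ℝ} (hT : ContDiff ℝ ∞ T) {δ : ℝ}
    (hδ : 0 < δ) :
    ∃ a : EuclideanSpace ℝ (Fin 2), ‖a‖ < δ ∧ ∀ x, 0 < T x →
      fderiv ℝ (fun y => T y * Real.exp (inner ℝ a y)) x = 0 →
      ∀ u, u ≠ 0 → ∃ w,
        fderiv ℝ (fderiv ℝ (fun y => T y * Real.exp (inner ℝ a y))) x u w ≠ 0 := by
  set S : Set (EuclideanSpace ℝ (Fin 2)) := {x | 0 < T x ∧ (fderiv ℝ (sardG T) x).det = 0} with hS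
  have hnull : (volume : Measure (EuclideanSpace ℝ (Fin 2))) (sardG T '' S) = 0 := by
    apply MeasureTheory.addHaar_image_eq_zero_of_det_fderivWithin_eq_zero
      (f' := fderiv ℝ (sardG T))
    · intro x hx
      exact (sardG_hasFDerivAt hT hx.1).1.hasFDerivWithinAt
    · intro x hx
      exact hx.2
  have hnull2 : (volume : Measure (EuclideanSpace ℝ (Fin 2))) (-(sardG T '' S)) = 0 := by
    rw [Measure.measure_neg]
    exact hnull
  obtain ⟨a, ha, hna⟩ : ∃ a ∈ ball (0 : EuclideanSpace ℝ (Fin 2)) δ, a ∉ -(sardG T '' S) := by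
    by_contra hcon
    push Not at hcon
    have : (volume : Measure (EuclideanSpace ℝ (Fin 2))) (ball 0 δ) ≤ 0 := by
      rw [← hnull2]
      exact measure_mono hcon
    exact absurd this (not_le.mpr (measure_ball_pos _ _ hδ))
  refine ⟨a, by simpa using ha, fun x hx hc u hu => ?_⟩
  have hG : sardG T x = -a := by
    have hc' := sard_crit hT hc
    ext i
    have := congrArg (fun L : EuclideanSpace ℝ (Fin 2) →L[ℝ] ℝ => L (EuclideanSpace.single i 1)) hc'
    simp only [sardG, PiLp.neg_apply]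
    rw [div_eq_iff hx.ne']
    simp [EuclideanSpace.inner_single_right] at this
    linarith
  have hdet : (fderiv ℝ (sardG T) x).det ≠ 0 := by
    intro h0
    apply hna
    rw [Set.mem_neg, ← hG]
    exact ⟨x, ⟨hx, h0⟩, rfl⟩
  have hne : fderiv ℝ (sardG T) x u ≠ 0 := by
    intro h0
    apply hdet
    have h1 : LinearMap.det ((fderiv ℝ (sardG T) x :
        EuclideanSpace ℝ (Fin 2) →L[ℝ] EuclideanSpace ℝ (Fin 2)) :
        EuclideanSpace ℝ (Fin 2) →ₗ[ℝ] EuclideanSpace ℝ (Fin 2)) = 0 := by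
      rw [LinearMap.det_eq_zero_iff_ker_ne_bot]
      rw [Submodule.ne_bot_iff]
      exact ⟨u, by simpa using h0, hu⟩
    exact h1
  obtain ⟨i, hi⟩ : ∃ i, fderiv ℝ (sardG T) x u i ≠ 0 := by
    by_contra hcon
    push Not at hcon
    exact hne (by ext i; simpa using hcon i)
  refine ⟨EuclideanSpace.single i 1, ?_⟩
  rw [sard_hess hT hx hc, ← (sardG_hasFDerivAt hT hx).2 u i]
  exact mul_ne_zero (Real.exp_pos _).ne' (mul_ne_zero hi hx.ne')

end Pool.Agent.Lib_MP_752436_gt
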