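import Pool.Agent.Lib_MP_752436_gt.Bilip
import Pool.Agent.Lib_MP_752436_gt.Calc
import Pool.Agent.Lib_MP_752436_gt.NegDir
import Pool.Agent.Lib_MP_752436_gt.Sard

/-!
The directional criterion.
-/

open MeasureTheory Metric Set
open scoped ContDiff ENNReal

namespace Pool.Agent.Lib_MP_752436_gt

/-- Replace the height coordinate of `F` by `h`. -/
noncomputable def setHeight (F : EuclideanSpace ℝ (Fin 2) → EuclideanSpace ℝ (Fin 4))
    (h : EuclideanSpace ℝ (Fin 2) → ℝ) : EuclideanSpace ℝ (Fin 2) → EuclideanSpace ℝ (Fin 4) :=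
  fun x => F x + (h x - F x 3) • EuclideanSpace.single 3 1

theorem setHeight_three (F : EuclideanSpace ℝ (Fin 2) → EuclideanSpace ℝ (Fin 4))
    (h : EuclideanSpace ℝ (Fin 2) → ℝ) (x : EuclideanSpace ℝ (Fin 2)) :
    setHeight F h x 3 = h x := by
  simp [setHeight]

theorem setHeight_ne (F : EuclideanSpace ℝ (Fin 2) → EuclideanSpace ℝ (Fin 4))
    (h : EuclideanSpace ℝ (Fin 2) → ℝ) (x : EuclideanSpace ℝ (Fin 2)) {i : Fin 4} (hi : i ≠ 3) :
    setHeight F h x i = F x i := by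
  simp [setHeight, hi]

theorem contDiff_coord {F : EuclideanSpace ℝ (Fin 2) → EuclideanSpace ℝ (Fin 4)}
    (hF : ContDiff ℝ ∞ F) (i : Fin 4) : ContDiff ℝ ∞ (fun x => F x i) :=
  (contDiff_euclidean.1 hF) i

theorem fderiv_coord {F : EuclideanSpace ℝ (Fin 2) → EuclideanSpace ℝ (Fin 4)}
    (hF : ContDiff ℝ ∞ F) (i : Fin 4) (x u : EuclideanSpace ℝ (Fin 2)) :
    fderiv ℝ (fun x => F x i) x u = fderiv ℝ F x u i := by
  have h1 : HasFDerivAt F (fderiv ℝ F x) x :=
    ((hF.differentiable (by simp)) x).hasFDerivAt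
  have h2 := (EuclideanSpace.proj i : EuclideanSpace ℝ (Fin 4) →L[ℝ] ℝ).hasFDerivAt.comp x h1
  have h3 : fderiv ℝ (fun x => F x i) x
      = (EuclideanSpace.proj i : EuclideanSpace ℝ (Fin 4) →L[ℝ] ℝ).comp (fderiv ℝ F x) :=
    h2.fderiv
  rw [h3]
  rfl

theorem contDiff_setHeight {F : EuclideanSpace ℝ (Fin 2) → EuclideanSpace ℝ (Fin 4)}
    (hF : ContDiff ℝ ∞ F) {h : EuclideanSpace ℝ (Fin 2) → ℝ} (hh : ContDiff ℝ ∞ h) :
    ContDiff ℝ ∞ (setHeight F h) :=
  hF.add ((hh.sub (contDiff_coord hF 3)).smul contDiff_const)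

theorem fderiv_setHeight_coord {F : EuclideanSpace ℝ (Fin 2) → EuclideanSpace ℝ (Fin 4)}
    (hF : ContDiff ℝ ∞ F) {h : EuclideanSpace ℝ (Fin 2) → ℝ} (hh : ContDiff ℝ ∞ h)
    (x u : EuclideanSpace ℝ (Fin 2)) {i : Fin 4} (hi : i ≠ 3) :
    fderiv ℝ (setHeight F h) x u i = fderiv ℝ F x u i := by
  rw [← fderiv_coord (contDiff_setHeight hF hh) i x u, ← fderiv_coord hF i x u]
  have : (fun x => setHeight F h x i) = fun x => F x i := by
    funext y; exact setHeight_ne F h y hi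
  rw [this]

theorem fderiv_setHeight_three {F : EuclideanSpace ℝ (Fin 2) → EuclideanSpace ℝ (Fin 4)}
    (hF : ContDiff ℝ ∞ F) {h : EuclideanSpace ℝ (Fin 2) → ℝ} (hh : ContDiff ℝ ∞ h)
    (x u : EuclideanSpace ℝ (Fin 2)) :
    fderiv ℝ (setHeight F h) x u 3 = fderiv ℝ h x u := by
  rw [← fderiv_coord (contDiff_setHeight hF hh) 3 x u]
  have : (fun x => setHeight F h x 3) = h := by
    funext y; exact setHeight_three F h y
  rw [this]

/-- A vector whose first three coordinates vanish is a multiple of the vertical vector. -/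
theorem eq_vertical {v : EuclideanSpace ℝ (Fin 4)} (hv : ∀ i, i ≠ 3 → v i = 0) :
    v = v 3 • EuclideanSpace.single 3 1 := by
  ext i
  by_cases hi : i = 3
  · subst hi; simp
  · simp [hi, hv i hi]

theorem norm_vertical {v : EuclideanSpace ℝ (Fin 4)} (hv : ∀ i, i ≠ 3 → v i = 0) :
    ‖v‖ = |v 3| := by
  conv_lhs => rw [eq_vertical hv]
  rw [norm_smul]
  simp

/-- Monotonicity along vertical segments. -/
theorem mono_vertical {ψ : EuclideanSpace ℝ (Fin 4) → ℝ} (hψ : ContDiff ℝ ∞ ψ)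
    (hmono : ∀ p, 0 ≤ fderiv ℝ ψ p (EuclideanSpace.single 3 1))
    (p : EuclideanSpace ℝ (Fin 4)) {s : ℝ} (hs : 0 ≤ s) :
    ψ p ≤ ψ (p + s • EuclideanSpace.single 3 1) := by
  have hd : ∀ r : ℝ, HasDerivAt (fun r : ℝ => ψ (p + r • EuclideanSpace.single 3 1))
      (fderiv ℝ ψ (p + r • EuclideanSpace.single 3 1) (EuclideanSpace.single 3 1)) r := by
    intro r
    have h1 : HasFDerivAt ψ (fderiv ℝ ψ (p + r • EuclideanSpace.single 3 1))
        (p + r • EuclideanSpace.single 3 1) :=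
      ((hψ.differentiable (by simp)) _).hasFDerivAt
    have h2 : HasDerivAt (fun r : ℝ => p + r • (EuclideanSpace.single 3 1 :
        EuclideanSpace ℝ (Fin 4))) ((1 : ℝ) • (EuclideanSpace.single 3 1)) r :=
      ((hasDerivAt_id r).smul_const _).const_add p
    rw [one_smul] at h2
    exact h1.comp_hasDerivAt r h2
  have hm : Monotone (fun r : ℝ => ψ (p + r • EuclideanSpace.single 3 1)) :=
    monotone_of_deriv_nonneg (fun r => (hd r).differentiableAt)
      (fun r => by rw [(hd r).deriv]; exact hmono _)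
  have := hm hs
  simpa using this

/-- The height `t + ε (1 - |x|^2)`. -/
noncomputable def tau (F : EuclideanSpace ℝ (Fin 2) → EuclideanSpace ℝ (Fin 4)) (ε : ℝ) :
    EuclideanSpace ℝ (Fin 2) → ℝ := fun x => F x 3 + ε * (1 - ‖x‖ ^ 2)

theorem contDiff_tau {F : EuclideanSpace ℝ (Fin 2) → EuclideanSpace ℝ (Fin 4)}
    (hF : ContDiff ℝ ∞ F) (ε : ℝ) : ContDiff ℝ ∞ (tau F ε) :=
  (contDiff_coord hF 3).add (contDiff_const.mul (contDiff_const.sub (contDiff_id.norm_sq ℝ)))

theorem fderiv_tau {F : EuclideanSpace ℝ (Fin 2) → EuclideanSpace ℝ (Fin 4)}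
    (hF : ContDiff ℝ ∞ F) (ε : ℝ) (x u : EuclideanSpace ℝ (Fin 2)) :
    fderiv ℝ (tau F ε) x u = fderiv ℝ F x u 3 - 2 * ε * inner ℝ x u := by
  have h1 : HasFDerivAt (fun x => F x 3) (fderiv ℝ (fun x => F x 3) x) x :=
    (((contDiff_coord hF 3).differentiable (by simp)) x).hasFDerivAt
  have h2 : HasFDerivAt (fun y : EuclideanSpace ℝ (Fin 2) => ‖y‖ ^ 2) (2 • (innerSL ℝ x)) x := by
    have := (hasStrictFDerivAt_norm_sq x).hasFDerivAt
    exact this
  have h3 := h1.add (((hasFDerivAt_const (1 : ℝ) x).sub h2).const_mul ε)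
  have h4 : fderiv ℝ (tau F ε) x = _ := h3.fderiv
  rw [h4, ← fderiv_coord hF 3 x u]
  simp
  ring

theorem height_nonneg {F : EuclideanSpace ℝ (Fin 2) → EuclideanSpace ℝ (Fin 4)}
    (hF : IsSliceDisc F) {x : EuclideanSpace ℝ (Fin 2)}
    (hx : x ∈ closedBall (0 : EuclideanSpace ℝ (Fin 2)) 1) : 0 ≤ F x 3 := by
  rcases (mem_closedBall.1 hx).lt_or_eq with h | h
  · exact (hF.interior x (mem_ball.2 h)).le
  · exact (hF.boundary x (mem_sphere.2 h)).ge

theorem tau_nonneg {F : EuclideanSpace ℝ (Fin 2) → EuclideanSpace ℝ (Fin 4)}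
    (hF : IsSliceDisc F) {ε : ℝ} (hε : 0 < ε) {x : EuclideanSpace ℝ (Fin 2)}
    (hx : x ∈ closedBall (0 : EuclideanSpace ℝ (Fin 2)) 1) : 0 ≤ tau F ε x := by
  have h1 := height_nonneg hF hx
  have h2 : ‖x‖ ≤ 1 := by simpa using hx
  have h3 : ‖x‖ ^ 2 ≤ 1 := by nlinarith [norm_nonneg x]
  unfold tau
  have : 0 ≤ ε * (1 - ‖x‖ ^ 2) := mul_nonneg hε.le (by linarith)
  linarith

theorem tau_pos {F : EuclideanSpace ℝ (Fin 2) → EuclideanSpace ℝ (Fin 4)}
    (hF : IsSliceDisc F) {ε : ℝ} (hε : 0 < ε) {x : EuclideanSpace ℝ (Fin 2)}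
    (hx : x ∈ ball (0 : EuclideanSpace ℝ (Fin 2)) 1) : 0 < tau F ε x := by
  have h1 := hF.interior x hx
  have h2 : ‖x‖ < 1 := by simpa using hx
  have h3 : ‖x‖ ^ 2 ≤ 1 := by nlinarith [norm_nonneg x]
  unfold tau
  have : 0 ≤ ε * (1 - ‖x‖ ^ 2) := mul_nonneg hε.le (by linarith)
  linarith

theorem tau_sphere {F : EuclideanSpace ℝ (Fin 2) → EuclideanSpace ℝ (Fin 4)}
    (hF : IsSliceDisc F) (ε : ℝ) {x : EuclideanSpace ℝ (Fin 2)}
    (hx : x ∈ sphere (0 : EuclideanSpace ℝ (Fin 2)) 1) : tau F ε x = 0 := by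
  have h1 := hF.boundary x hx
  have h2 : ‖x‖ = 1 := by simpa using hx
  simp [tau, h1, h2]

theorem ball_or_sphere {x : EuclideanSpace ℝ (Fin 2)}
    (hx : x ∈ closedBall (0 : EuclideanSpace ℝ (Fin 2)) 1) :
    x ∈ ball (0 : EuclideanSpace ℝ (Fin 2)) 1 ∨ x ∈ sphere (0 : EuclideanSpace ℝ (Fin 2)) 1 := by
  rcases (mem_closedBall.1 hx).lt_or_eq with h | h
  · exact Or.inl (mem_ball.2 h)
  · exact Or.inr (mem_sphere.2 h)

/-- On the unit circle the derivative of `tau` in the inner direction is positive. -/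
theorem fderiv_tau_sphere {F : EuclideanSpace ℝ (Fin 2) → EuclideanSpace ℝ (Fin 4)}
    (hF : IsSliceDisc F) {ε : ℝ} (hε : 0 < ε) {x : EuclideanSpace ℝ (Fin 2)}
    (hx : x ∈ sphere (0 : EuclideanSpace ℝ (Fin 2)) 1) : 0 < fderiv ℝ (tau F ε) x (-x) := by
  have h2 : ‖x‖ = 1 := by simpa using hx
  have hxc : x ∈ closedBall (0 : EuclideanSpace ℝ (Fin 2)) 1 := sphere_subset_closedBall hx
  have hmin : IsMinOn (fun y => F y 3) (closedBall (0 : EuclideanSpace ℝ (Fin 2)) 1) x := by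
    intro y hy
    show F x 3 ≤ F y 3
    rw [hF.boundary x hx]
    exact height_nonneg hF hy
  have hseg : segment ℝ x 0 ⊆ closedBall (0 : EuclideanSpace ℝ (Fin 2)) 1 :=
    (convex_closedBall _ _).segment_subset hxc (by simp)
  have hcone : (0 : EuclideanSpace ℝ (Fin 2)) - x ∈
      posTangentConeAt (closedBall (0 : EuclideanSpace ℝ (Fin 2)) 1) x :=
    sub_mem_posTangentConeAt_of_segment_subset hseg
  have hd : HasFDerivWithinAt (fun y => F y 3) (fderiv ℝ (fun y => F y 3) x)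
      (closedBall (0 : EuclideanSpace ℝ (Fin 2)) 1) x :=
    ((((contDiff_coord hF.smooth 3).differentiable (by simp)) x).hasFDerivAt).hasFDerivWithinAt
  have h3 := hmin.localize.hasFDerivWithinAt_nonneg hd hcone
  rw [zero_sub, fderiv_coord hF.smooth] at h3
  rw [fderiv_tau hF.smooth, inner_neg_right, real_inner_self_eq_norm_sq, h2]
  linarith

/-- Changing the height without changing the crossings. -/
theorem isSliceDisc_setHeight {F : EuclideanSpace ℝ (Fin 2) → EuclideanSpace ℝ (Fin 4)}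
    (hF : IsSliceDisc F) {h : EuclideanSpace ℝ (Fin 2) → ℝ} (hh : ContDiff ℝ ∞ h)
    (h1 : ∀ x ∈ closedBall (0 : EuclideanSpace ℝ (Fin 2)) 1,
      ∀ y ∈ closedBall (0 : EuclideanSpace ℝ (Fin 2)) 1, (∀ i, i ≠ 3 → F x i = F y i) →
      F y 3 < F x 3 → h y < h x)
    (h2 : ∀ x ∈ closedBall (0 : EuclideanSpace ℝ (Fin 2)) 1, ∀ u,
      (∀ i, i ≠ 3 → fderiv ℝ F x u i = 0) → 0 < fderiv ℝ F x u 3 → 0 < fderiv ℝ h x u)
    (h3 : ∀ x ∈ sphere (0 : EuclideanSpace ℝ (Fin 2)) 1, h x = 0)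
    (h4 : ∀ x ∈ ball (0 : EuclideanSpace ℝ (Fin 2)) 1, 0 < h x) :
    IsSliceDisc (setHeight F h) := by
  refine ⟨contDiff_setHeight hF.smooth hh, ?_, ?_, ?_, ?_⟩
  · -- injectivity
    intro x hx y hy hxy
    have hi : ∀ i, i ≠ 3 → F x i = F y i := by
      intro i hi
      have := congrArg (fun v : EuclideanSpace ℝ (Fin 4) => v i) hxy
      simp only [] at this
      rwa [setHeight_ne F h x hi, setHeight_ne F h y hi] at this
    have hxy3 : h x = h y := by
      have := congrArg (fun v : EuclideanSpace ℝ (Fin 4) => v 3) hxy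
      simp only [] at this
      rwa [setHeight_three, setHeight_three] at this
    rcases lt_trichotomy (F x 3) (F y 3) with hlt | heq | hgt
    · exact absurd hxy3 (h1 y hy x hx (fun i hi3 => (hi i hi3).symm) hlt).ne
    · apply hF.inj hx hy
      ext i
      by_cases hi3 : i = 3
      · rw [hi3]; exact heq
      · exact hi i hi3
    · exact absurd hxy3 (h1 x hx y hy hi hgt).ne'
  · -- immersion
    intro x hx
    have hker : ∀ u, fderiv ℝ (setHeight F h) x u = 0 → u = 0 := by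
      intro u hu
      have hi : ∀ i, i ≠ 3 → fderiv ℝ F x u i = 0 := by
        intro i hi
        rw [← fderiv_setHeight_coord hF.smooth hh x u hi, hu]
        simp
      have hu3 : fderiv ℝ h x u = 0 := by
        rw [← fderiv_setHeight_three hF.smooth hh x u, hu]
        simp
      have hz : fderiv ℝ F x u = 0 := by
        rcases lt_trichotomy (fderiv ℝ F x u 3) 0 with hlt | heq | hgt
        · have := h2 x hx (-u) (fun i hi3 => by simp [hi i hi3]) (by simp [hlt])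
          rw [map_neg, hu3] at this
          simp at this
        · rw [eq_vertical hi, heq, zero_smul]
        · exact absurd hu3 (h2 x hx u hi hgt).ne'
      apply hF.immersion x hx
      rw [hz, map_zero]
    intro u w huw
    have := hker (u - w) (by rw [map_sub]; simpa [sub_eq_zero] using huw)
    exact sub_eq_zero.1 this
  · intro x hx
    rw [setHeight_three]
    exact h3 x hx
  · intro x hx
    rw [setHeight_three]
    exact h4 x hx

/-- The linear interpolation of the heights. -/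
theorem isSliceDisc_interpolate {F : EuclideanSpace ℝ (Fin 2) → EuclideanSpace ℝ (Fin 4)}
    (hF : IsSliceDisc F) {h : EuclideanSpace ℝ (Fin 2) → ℝ} (hh : ContDiff ℝ ∞ h)
    (h1 : ∀ x ∈ closedBall (0 : EuclideanSpace ℝ (Fin 2)) 1,
      ∀ y ∈ closedBall (0 : EuclideanSpace ℝ (Fin 2)) 1, (∀ i, i ≠ 3 → F x i = F y i) →
      F y 3 < F x 3 → h y < h x)
    (h2 : ∀ x ∈ closedBall (0 : EuclideanSpace ℝ (Fin 2)) 1, ∀ u,
      (∀ i, i ≠ 3 → fderiv ℝ F x u i = 0) → 0 < fderiv ℝ F x u 3 → 0 < fderiv ℝ h x u)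
    (h3 : ∀ x ∈ sphere (0 : EuclideanSpace ℝ (Fin 2)) 1, h x = 0)
    (h4 : ∀ x ∈ ball (0 : EuclideanSpace ℝ (Fin 2)) 1, 0 < h x) :
    ∀ s ∈ Icc (0 : ℝ) 1, IsSliceDisc (fun x => (1 - s) • F x + s • setHeight F h x) := by
  intro s hs
  have hs0 := hs.1
  have hs1 : 0 ≤ 1 - s := by linarith [hs.2]
  have key : ∀ a b : ℝ, 0 < a → 0 < b → 0 < (1 - s) * a + s * b := by
    intro a b ha hb
    rcases hs0.eq_or_lt with h0 | h0
    · rw [← h0]; simpa using ha
    · have := mul_pos h0 hb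
      have := mul_nonneg hs1 ha.le
      linarith
  have heq : (fun x => (1 - s) • F x + s • setHeight F h x)
      = setHeight F (fun x => (1 - s) * F x 3 + s * h x) := by
    funext x
    ext i
    by_cases hi : i = 3
    · subst hi
      simp [setHeight_three]
    · rw [setHeight_ne F _ x hi]
      simp only [PiLp.add_apply, PiLp.smul_apply, smul_eq_mul]
      rw [setHeight_ne F h x hi]
      ring
  rw [heq]
  have hc3 := contDiff_coord hF.smooth 3
  have hsm : ContDiff ℝ ∞ (fun x => (1 - s) * F x 3 + s * h x) :=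
    (contDiff_const.mul hc3).add (contDiff_const.mul hh)
  refine isSliceDisc_setHeight hF hsm ?_ ?_ ?_ ?_
  · intro x hx y hy hi hxy
    have e1 := h1 x hx y hy hi hxy
    have e2 := key (F x 3 - F y 3) (h x - h y) (by linarith) (by linarith)
    show (1 - s) * F y 3 + s * h y < (1 - s) * F x 3 + s * h x
    nlinarith
  · intro x hx u hi hu
    have e1 := h2 x hx u hi hu
    have e2 := key _ _ hu e1
    have hd1 : HasFDerivAt (fun x => F x 3) (fderiv ℝ (fun x => F x 3) x) x :=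
      ((hc3.differentiable (by simp)) x).hasFDerivAt
    have hd2 : HasFDerivAt h (fderiv ℝ h x) x := ((hh.differentiable (by simp)) x).hasFDerivAt
    have hd3 : fderiv ℝ (fun x => (1 - s) * F x 3 + s * h x) x
        = (1 - s) • fderiv ℝ (fun x => F x 3) x + s • fderiv ℝ h x :=
      ((hd1.const_mul (1 - s)).add (hd2.const_mul s)).fderiv
    rw [hd3]
    simp only [ContinuousLinearMap.add_apply, ContinuousLinearMap.smul_apply, smul_eq_mul]
    rw [fderiv_coord hF.smooth]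
    exact e2
  · intro x hx
    show (1 - s) * F x 3 + s * h x = 0
    rw [hF.boundary x hx, h3 x hx]
    ring
  · intro x hx
    exact key _ _ (hF.interior x hx) (h4 x hx)

/-- The general criterion: a function on the disc which does not decrease upwards and has no
critical point with a positive semidefinite Hessian gives a ribbon disc. -/
theorem ribbon_of_monotone {F : EuclideanSpace ℝ (Fin 2) → EuclideanSpace ℝ (Fin 4)}
    (hF : IsSliceDisc F) {φ : EuclideanSpace ℝ (Fin 2) → ℝ} (hφ : ContDiff ℝ ∞ φ)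
    (hmono : ∀ x ∈ closedBall (0 : EuclideanSpace ℝ (Fin 2)) 1,
      ∀ y ∈ closedBall (0 : EuclideanSpace ℝ (Fin 2)) 1, (∀ i, i ≠ 3 → F x i = F y i) →
      F y 3 < F x 3 → φ y ≤ φ x)
    (hker : ∀ x ∈ closedBall (0 : EuclideanSpace ℝ (Fin 2)) 1, ∀ u,
      (∀ i, i ≠ 3 → fderiv ℝ F x u i = 0) → 0 ≤ fderiv ℝ F x u 3 → 0 ≤ fderiv ℝ φ x u)
    (hcrit : ∀ x ∈ closedBall (0 : EuclideanSpace ℝ (Fin 2)) 1,
      fderiv ℝ φ x = 0 → ∃ u, fderiv ℝ (fderiv ℝ φ) x u u < 0) :
    ∃ G, IsRibbonDisc G ∧ (∀ x, ∀ i, i ≠ 3 → G x i = F x i) ∧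
      ∀ s ∈ Icc (0 : ℝ) 1, IsSliceDisc (fun x => (1 - s) • F x + s • G x) := by
  obtain ⟨c, hc, hbl, hbd⟩ := exists_bilip hF
  -- the height tau
  set ε : ℝ := c / 4 with hεdef
  have hε : 0 < ε := by positivity
  have hτs := contDiff_tau hF.smooth ε
  have hneat : ∀ x ∈ closedBall (0 : EuclideanSpace ℝ (Fin 2)) 1, tau F ε x = 0 →
      fderiv ℝ (tau F ε) x ≠ 0 := by
    intro x hx h0 h1
    rcases ball_or_sphere hx with h | h
    · exact (tau_pos hF hε h).ne' h0
    · have := fderiv_tau_sphere hF hε h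
      rw [h1] at this
      simp at this
  obtain ⟨lam, hlam, hneg⟩ := neg_direction hτs hφ (fun x hx => tau_nonneg hF hε hx) hneat hcrit
  -- bound of tau
  obtain ⟨M, hM⟩ := (isCompact_closedBall (0 : EuclideanSpace ℝ (Fin 2))
    1).exists_bound_of_continuousOn (hτs.continuous.continuousOn)
  have hM0 : 0 ≤ M := le_trans (norm_nonneg _) (hM 0 (by simp))
  have hMτ : ∀ x ∈ closedBall (0 : EuclideanSpace ℝ (Fin 2)) 1, tau F ε x ≤ M := fun x hx =>
    le_trans (le_abs_self _) (hM x hx)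
  set T : EuclideanSpace ℝ (Fin 2) → ℝ := fun y => tau F ε y * Real.exp (lam * φ y) with hTdef
  have hTs : ContDiff ℝ ∞ T := hτs.mul ((contDiff_const.mul hφ).exp)
  have hδ : 0 < min 1 (c / 2 / (M + 1)) := by positivity
  obtain ⟨a, ha, hmorse⟩ := exists_small_morse hTs hδ
  have ha1 : ‖a‖ ≤ 1 := (ha.trans_le (min_le_left _ _)).le
  have haM : M * ‖a‖ < c / 2 := by
    have h1 : ‖a‖ < c / 2 / (M + 1) := ha.trans_le (min_le_right _ _)
    rw [lt_div_iff₀ (by positivity)] at h1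
    nlinarith [norm_nonneg a]
  set E : EuclideanSpace ℝ (Fin 2) → ℝ := fun y => lam * φ y + inner ℝ a y with hEdef
  have hEs : ContDiff ℝ ∞ E := (contDiff_const.mul hφ).add (contDiff_const.inner ℝ contDiff_id)
  have hEd : ∀ x u, fderiv ℝ E x u = lam * fderiv ℝ φ x u + inner ℝ a u := by
    intro x u
    have h1 : HasFDerivAt φ (fderiv ℝ φ x) x :=
      ((hφ.differentiable (by simp)) x).hasFDerivAt
    have h2 : HasFDerivAt (fun y => (inner ℝ a y : ℝ)) (innerSL ℝ a) x :=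
      (innerSL ℝ a).hasFDerivAt
    have h3 : fderiv ℝ E x = _ := ((h1.const_mul lam).add h2).fderiv
    rw [h3]
    simp
  have hEdd : ∀ x u, fderiv ℝ (fderiv ℝ E) x u u
      = lam * fderiv ℝ (fderiv ℝ φ) x u u := by
    intro x u
    have h0 : fderiv ℝ E = fun z => lam • fderiv ℝ φ z + innerSL ℝ a := by
      funext z
      ext u
      rw [hEd]
      simp
    have hd : DifferentiableAt ℝ (fderiv ℝ φ) x :=
      ((hφ.fderiv_right (m := ∞) (by simp)).differentiable (by simp)) x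
    have h3 : fderiv ℝ (fderiv ℝ E) x
        = lam • fderiv ℝ (fderiv ℝ φ) x := by
      rw [h0]
      exact ((hd.hasFDerivAt.const_smul lam).add_const (innerSL ℝ a)).fderiv
    rw [h3]
    simp
  have hh : (fun y => T y * Real.exp (inner ℝ a y)) = fun y => tau F ε y * Real.exp (E y) := by
    funext y
    simp only [hTdef, hEdef, Real.exp_add]
    ring
  set h : EuclideanSpace ℝ (Fin 2) → ℝ := fun y => tau F ε y * Real.exp (E y) with hhdef
  have hhs : ContDiff ℝ ∞ h := hτs.mul hEs.exp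
  rw [hh] at hmorse
  have hd : ∀ x u, fderiv ℝ h x u = Real.exp (E x) * (fderiv ℝ (tau F ε) x u
      + tau F ε x * fderiv ℝ E x u) := by
    intro x u
    have h4 : HasFDerivAt (tau F ε) (fderiv ℝ (tau F ε) x) x :=
      ((hτs.differentiable (by simp)) x).hasFDerivAt
    have h5 : HasFDerivAt E (fderiv ℝ E x) x :=
      ((hEs.differentiable (by simp)) x).hasFDerivAt
    have h6 : fderiv ℝ h x = _ := (h4.mul h5.exp).fderiv
    rw [h6]
    simp
    ring
  have key1 : ∀ x ∈ closedBall (0 : EuclideanSpace ℝ (Fin 2)) 1,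
      ∀ y ∈ closedBall (0 : EuclideanSpace ℝ (Fin 2)) 1, (∀ i, i ≠ 3 → F x i = F y i) →
      F y 3 < F x 3 → h y < h x := by
    intro x hx y hy hi h3
    have hx1 : ‖x‖ ≤ 1 := by simpa using hx
    have hy1 : ‖y‖ ≤ 1 := by simpa using hy
    have hv : ∀ i, i ≠ 3 → (F x - F y) i = 0 := fun i hi3 => by simp [hi i hi3]
    have hn : ‖F x - F y‖ = F x 3 - F y 3 := by
      rw [norm_vertical hv]
      simp only [PiLp.sub_apply]
      exact abs_of_pos (by linarith)
    have h1 := hbl x hx y hy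
    rw [hn] at h1
    have h2 : |‖x‖ ^ 2 - ‖y‖ ^ 2| ≤ 2 * ‖x - y‖ := by
      have h5 : ‖x‖ ^ 2 - ‖y‖ ^ 2 = (‖x‖ - ‖y‖) * (‖x‖ + ‖y‖) := by ring
      rw [h5, abs_mul]
      have h6 := abs_norm_sub_norm_le x y
      have h7 : |‖x‖ + ‖y‖| ≤ 2 := by
        rw [abs_of_nonneg (by positivity)]; linarith
      calc |‖x‖ - ‖y‖| * |‖x‖ + ‖y‖| ≤ ‖x - y‖ * 2 :=
            mul_le_mul h6 h7 (abs_nonneg _) (norm_nonneg _)
        _ = 2 * ‖x - y‖ := by ring
    have h4 : c / 2 * ‖x - y‖ ≤ tau F ε x - tau F ε y := by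
      unfold tau
      have h8 := abs_le.1 h2
      have h9 : ε * (‖x‖ ^ 2 - ‖y‖ ^ 2) ≤ ε * (2 * ‖x - y‖) :=
        mul_le_mul_of_nonneg_left h8.2 hε.le
      have h10 : ε * (2 * ‖x - y‖) = c / 2 * ‖x - y‖ := by rw [hεdef]; ring
      nlinarith
    have hxy : 0 < ‖x - y‖ := by
      rw [norm_pos_iff, sub_ne_zero]
      rintro rfl
      exact lt_irrefl _ h3
    have hψxy : φ y ≤ φ x := hmono x hx y hy hi h3
    have hE1 : -(‖a‖ * ‖x - y‖) ≤ E x - E y := by
      simp only [hEdef]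
      have h5 : (inner ℝ a x : ℝ) - inner ℝ a y = inner ℝ a (x - y) := by
        rw [inner_sub_right]
      have h6 := abs_real_inner_le_norm a (x - y)
      have h7 := (abs_le.1 h6).1
      have h8 : 0 ≤ lam * (φ x - φ y) := mul_nonneg hlam.le (by linarith)
      nlinarith
    have hexp : 1 + (E x - E y) ≤ Real.exp (E x - E y) := by
      have := Real.add_one_le_exp (E x - E y); linarith
    have hτx0 := tau_nonneg hF hε hx
    have hτxM := hMτ x hx
    have hfin : tau F ε y < tau F ε x * Real.exp (E x - E y) := by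
      have h5 : tau F ε x * (1 + (E x - E y)) ≤ tau F ε x * Real.exp (E x - E y) :=
        mul_le_mul_of_nonneg_left hexp hτx0
      have h6 : tau F ε x * (1 - ‖a‖ * ‖x - y‖) ≤ tau F ε x * (1 + (E x - E y)) :=
        mul_le_mul_of_nonneg_left (by linarith) hτx0
      have h7 : tau F ε x * (‖a‖ * ‖x - y‖) ≤ M * (‖a‖ * ‖x - y‖) :=
        mul_le_mul_of_nonneg_right hτxM (by positivity)
      have h8 : M * (‖a‖ * ‖x - y‖) < c / 2 * ‖x - y‖ := by
        rw [← mul_assoc]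
        exact mul_lt_mul_of_pos_right haM hxy
      nlinarith
    show tau F ε y * Real.exp (E y) < tau F ε x * Real.exp (E x)
    have h5 : Real.exp (E x) = Real.exp (E x - E y) * Real.exp (E y) := by
      rw [← Real.exp_add]; congr 1; ring
    rw [h5, ← mul_assoc]
    exact mul_lt_mul_of_pos_right hfin (Real.exp_pos _)
  have key2 : ∀ x ∈ closedBall (0 : EuclideanSpace ℝ (Fin 2)) 1, ∀ u,
      (∀ i, i ≠ 3 → fderiv ℝ F x u i = 0) → 0 < fderiv ℝ F x u 3 → 0 < fderiv ℝ h x u := by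
    intro x hx u hi h3
    have hn : ‖fderiv ℝ F x u‖ = fderiv ℝ F x u 3 := by
      rw [norm_vertical hi]; exact abs_of_pos h3
    have h1 := hbd x hx u
    rw [hn] at h1
    have hx1 : ‖x‖ ≤ 1 := by simpa using hx
    have hu : 0 < ‖u‖ := by
      rw [norm_pos_iff]
      rintro rfl
      simp at h3
    have h2 : c / 2 * ‖u‖ ≤ fderiv ℝ (tau F ε) x u := by
      rw [fderiv_tau hF.smooth]
      have h4 := (abs_le.1 (abs_real_inner_le_norm x u)).2
      have h5 : ‖x‖ * ‖u‖ ≤ ‖u‖ := by nlinarith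
      have h6 : 2 * ε * inner ℝ x u ≤ 2 * ε * ‖u‖ :=
        mul_le_mul_of_nonneg_left (h4.trans h5) (by positivity)
      have h7 : 2 * ε * ‖u‖ = c / 2 * ‖u‖ := by rw [hεdef]; ring
      nlinarith
    rw [hd]
    apply mul_pos (Real.exp_pos _)
    rw [hEd]
    have h4 := hker x hx u hi h3.le
    have h5 := (abs_le.1 (abs_real_inner_le_norm a u)).1
    have hτx0 := tau_nonneg hF hε hx
    have hτxM := hMτ x hx
    have h6 : 0 ≤ tau F ε x * (lam * fderiv ℝ φ x u) :=
      mul_nonneg hτx0 (mul_nonneg hlam.le h4)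
    have h7 : -(M * (‖a‖ * ‖u‖)) ≤ tau F ε x * inner ℝ a u := by
      have h8 : tau F ε x * -(‖a‖ * ‖u‖) ≤ tau F ε x * inner ℝ a u :=
        mul_le_mul_of_nonneg_left h5 hτx0
      have h9 : tau F ε x * (‖a‖ * ‖u‖) ≤ M * (‖a‖ * ‖u‖) :=
        mul_le_mul_of_nonneg_right hτxM (by positivity)
      linarith
    have h8 : M * (‖a‖ * ‖u‖) < c / 2 * ‖u‖ := by
      rw [← mul_assoc]
      exact mul_lt_mul_of_pos_right haM hu
    nlinarith
  have key3 : ∀ x ∈ sphere (0 : EuclideanSpace ℝ (Fin 2)) 1, h x = 0 := by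
    intro x hx
    simp [hhdef, tau_sphere hF ε hx]
  have key4 : ∀ x ∈ ball (0 : EuclideanSpace ℝ (Fin 2)) 1, 0 < h x := fun x hx =>
    mul_pos (tau_pos hF hε hx) (Real.exp_pos _)
  have hG3 : (fun y => setHeight F h y 3) = h := by
    funext y; exact setHeight_three F h y
  refine ⟨setHeight F h, ⟨isSliceDisc_setHeight hF hhs key1 key2 key3 key4, ?_, ?_, ?_⟩,
    fun x i hi => setHeight_ne F h x hi, isSliceDisc_interpolate hF hhs key1 key2 key3 key4⟩
  · -- neat
    intro x hx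
    rw [hG3]
    intro h0
    have hd' := hd x (-x)
    rw [h0, tau_sphere hF ε hx] at hd'
    have h5 := fderiv_tau_sphere hF hε hx
    have h6 : 0 < Real.exp (E x) * fderiv ℝ (tau F ε) x (-x) := mul_pos (Real.exp_pos _) h5
    simp at hd'
    simp [hd'] at h6
  · -- Morse
    intro x hx
    rw [hG3]
    intro h0
    exact hmorse x (mul_pos (tau_pos hF hε hx) (Real.exp_pos _)) h0
  · -- no minima
    intro x hx
    rw [hG3]
    intro h0
    obtain ⟨h4, h5⟩ := critical_mul_exp hτs hEs (tau_pos hF hε hx) h0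
    obtain ⟨u, hu⟩ := hneg a ha1 x (ball_subset_closedBall hx) (tau_pos hF hε hx) (fun u => by
      rw [h4 u, hEd])
    refine ⟨u, ?_⟩
    show fderiv ℝ (fderiv ℝ h) x u u < 0
    rw [hhdef, h5 u u, hEdd]
    exact mul_neg_of_pos_of_neg (Real.exp_pos _) hu

/-- The directional criterion. -/
theorem direction_criterion {F : EuclideanSpace ℝ (Fin 2) → EuclideanSpace ℝ (Fin 4)}
    (hF : IsSliceDisc F) {ψ : EuclideanSpace ℝ (Fin 4) → ℝ} (hψ : ContDiff ℝ ∞ ψ)
    (hmono : ∀ p, 0 ≤ fderiv ℝ ψ p (EuclideanSpace.single 3 1))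
    (hcrit : ∀ x ∈ closedBall (0 : EuclideanSpace ℝ (Fin 2)) 1,
      fderiv ℝ (fun y => ψ (F y)) x = 0 →
      ∃ u, fderiv ℝ (fderiv ℝ (fun y => ψ (F y))) x u u < 0) :
    ∃ G, IsRibbonDisc G ∧ (∀ x, ∀ i, i ≠ 3 → G x i = F x i) ∧
      ∀ s ∈ Icc (0 : ℝ) 1, IsSliceDisc (fun x => (1 - s) • F x + s • G x) := by
  refine ribbon_of_monotone hF (hψ.comp hF.smooth) ?_ ?_ hcrit
  · intro x hx y hy hi h3
    have hv : ∀ i, i ≠ 3 → (F x - F y) i = 0 := fun i hi3 => by simp [hi i hi3]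
    have h5 : F x = F y + (F x 3 - F y 3) • EuclideanSpace.single 3 1 := by
      have := eq_vertical hv
      rw [PiLp.sub_apply] at this
      rw [← this]; abel
    show ψ (F y) ≤ ψ (F x)
    rw [h5]
    exact mono_vertical hψ hmono (F y) (by linarith)
  · intro x hx u hi h3
    have h1 : HasFDerivAt ψ (fderiv ℝ ψ (F x)) (F x) :=
      ((hψ.differentiable (by simp)) _).hasFDerivAt
    have h2 : HasFDerivAt F (fderiv ℝ F x) x :=
      ((hF.smooth.differentiable (by simp)) x).hasFDerivAt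
    have h4 : fderiv ℝ (ψ ∘ F) x = (fderiv ℝ ψ (F x)).comp (fderiv ℝ F x) :=
      (h1.comp x h2).fderiv
    rw [h4, ContinuousLinearMap.comp_apply, eq_vertical hi, map_smul, smul_eq_mul]
    exact mul_nonneg h3 (hmono _)

end Pool.Agent.Lib_MP_752436_gt
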