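import Pool.Agent.Lib_MP_752436_gt.CurvDefs

/-!
Pieces C5 and C6: vectors orthogonal to two vectors, and vectors orthogonal to one vector.
-/

open MeasureTheory Metric Set
open scoped ContDiff ENNReal Topology

namespace Pool.Agent.Lib_MP_752436_gt

private lemma inner_three (a b : EuclideanSpace ℝ (Fin 3)) :
    inner ℝ a b = a 0 * b 0 + a 1 * b 1 + a 2 * b 2 := by
  rw [PiLp.inner_apply, Fin.sum_univ_three]
  simp [mul_comm]

/-- C5: a vector orthogonal to `a` and `b` is a multiple of `a × b`. -/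
theorem exists_smul_cross {a b v : EuclideanSpace ℝ (Fin 3)} (hab : cross a b ≠ 0)
    (ha : inner ℝ v a = 0) (hb : inner ℝ v b = 0) : ∃ s : ℝ, v = s • cross a b := by
  rw [inner_three] at ha hb
  set n0 := a 1 * b 2 - a 2 * b 1 with hn0
  set n1 := a 2 * b 0 - a 0 * b 2 with hn1
  set n2 := a 0 * b 1 - a 1 * b 0 with hn2
  have hN : n0 ^ 2 + n1 ^ 2 + n2 ^ 2 ≠ 0 := by
    intro h
    apply hab
    have h0 : n0 = 0 := by nlinarith [sq_nonneg n0, sq_nonneg n1, sq_nonneg n2]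
    have h1 : n1 = 0 := by nlinarith [sq_nonneg n0, sq_nonneg n1, sq_nonneg n2]
    have h2 : n2 = 0 := by nlinarith [sq_nonneg n0, sq_nonneg n1, sq_nonneg n2]
    ext i
    fin_cases i
    · simpa [cross] using h0
    · simpa [cross] using h1
    · simpa [cross] using h2
  have e2 : v 0 * n1 = v 1 * n0 := by
    rw [hn0, hn1]; linear_combination (-b 2) * ha + (a 2) * hb
  have e1 : v 2 * n0 = v 0 * n2 := by
    rw [hn0, hn2]; linear_combination (-b 1) * ha + (a 1) * hb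
  have e0 : v 1 * n2 = v 2 * n1 := by
    rw [hn1, hn2]; linear_combination (-b 0) * ha + (a 0) * hb
  refine ⟨(v 0 * n0 + v 1 * n1 + v 2 * n2) / (n0 ^ 2 + n1 ^ 2 + n2 ^ 2), ?_⟩
  ext i
  fin_cases i
  · show v 0 = (v 0 * n0 + v 1 * n1 + v 2 * n2) / (n0 ^ 2 + n1 ^ 2 + n2 ^ 2) * n0
    rw [div_mul_eq_mul_div, eq_div_iff hN]
    linear_combination n1 * e2 - n2 * e1
  · show v 1 = (v 0 * n0 + v 1 * n1 + v 2 * n2) / (n0 ^ 2 + n1 ^ 2 + n2 ^ 2) * n1
    rw [div_mul_eq_mul_div, eq_div_iff hN]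
    linear_combination n2 * e0 - n0 * e2
  · show v 2 = (v 0 * n0 + v 1 * n1 + v 2 * n2) / (n0 ^ 2 + n1 ^ 2 + n2 ^ 2) * n2
    rw [div_mul_eq_mul_div, eq_div_iff hN]
    linear_combination n0 * e1 - n1 * e0

/-- C6: vectors orthogonal to a nonzero vector form a null set. -/
theorem volume_orthogonal_eq_zero {a : EuclideanSpace ℝ (Fin 3)} (ha : a ≠ 0) :
    volume {v : EuclideanSpace ℝ (Fin 3) | inner ℝ v a = 0} = 0 := by
  have h1 : {v : EuclideanSpace ℝ (Fin 3) | inner ℝ v a = 0}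
      = ((Submodule.span ℝ {a})ᗮ : Submodule ℝ (EuclideanSpace ℝ (Fin 3))) := by
    ext v
    simp only [Set.mem_ofPred_eq, SetLike.mem_coe]
    rw [Submodule.mem_orthogonal_singleton_iff_inner_left]
  rw [h1]
  apply Measure.addHaar_submodule
  intro htop
  have : a ∈ (Submodule.span ℝ {a})ᗮ := by rw [htop]; trivial
  rw [Submodule.mem_orthogonal_singleton_iff_inner_left] at this
  exact ha (inner_self_eq_zero.mp this)

end Pool.Agent.Lib_MP_752436_gt
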