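import Pool.Agent.Lib_MP_752436_gt.Defs2

/-!
A slice disc is bi-Lipschitz on the closed unit disc.
-/

open MeasureTheory Metric Set
open scoped ContDiff ENNReal

namespace Pool.Agent.Lib_MP_752436_gt

theorem exists_fderiv_lower {F : EuclideanSpace ℝ (Fin 2) → EuclideanSpace ℝ (Fin 4)}
    (hF : IsSliceDisc F) :
    ∃ c : ℝ, 0 < c ∧
      ∀ x ∈ closedBall (0 : EuclideanSpace ℝ (Fin 2)) 1, ∀ u, c * ‖u‖ ≤ ‖fderiv ℝ F x u‖ := by
  have hcont : Continuous fun p : EuclideanSpace ℝ (Fin 2) × EuclideanSpace ℝ (Fin 2) =>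
      ‖fderiv ℝ F p.1 p.2‖ := by
    have h1 : Continuous (fderiv ℝ F) := hF.smooth.continuous_fderiv (by simp)
    exact ((h1.comp continuous_fst).clm_apply continuous_snd).norm
  have hK : IsCompact ((closedBall (0 : EuclideanSpace ℝ (Fin 2)) 1) ×ˢ
      (sphere (0 : EuclideanSpace ℝ (Fin 2)) 1)) :=
    (isCompact_closedBall _ _).prod (isCompact_sphere _ _)
  have hne : ((closedBall (0 : EuclideanSpace ℝ (Fin 2)) 1) ×ˢ
      (sphere (0 : EuclideanSpace ℝ (Fin 2)) 1)).Nonempty := by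
    refine ⟨(0, EuclideanSpace.single 0 1), ?_, ?_⟩
    · simp
    · simp
  obtain ⟨p, hp, hmin⟩ := hK.exists_isMinOn hne hcont.continuousOn
  refine ⟨‖fderiv ℝ F p.1 p.2‖, ?_, ?_⟩
  · rw [norm_pos_iff]
    intro h0
    have h1 : fderiv ℝ F p.1 p.2 = fderiv ℝ F p.1 0 := by rw [h0, map_zero]
    have h2 := hF.immersion p.1 hp.1 h1
    have h3 := hp.2
    rw [h2] at h3
    simp at h3
  · intro x hx u
    by_cases hu : u = 0
    · simp [hu]
    have hu' : 0 < ‖u‖ := norm_pos_iff.mpr hu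
    have hmem : (x, ‖u‖⁻¹ • u) ∈ ((closedBall (0 : EuclideanSpace ℝ (Fin 2)) 1) ×ˢ
      (sphere (0 : EuclideanSpace ℝ (Fin 2)) 1)) := ⟨hx, by
      rw [mem_sphere_zero_iff_norm, norm_smul, norm_inv, norm_norm, inv_mul_cancel₀ hu'.ne']⟩
    have h1 := isMinOn_iff.mp hmin _ hmem
    simp only [map_smul, norm_smul, norm_inv, norm_norm] at h1
    calc ‖fderiv ℝ F p.1 p.2‖ * ‖u‖ ≤ (‖u‖⁻¹ * ‖fderiv ℝ F x u‖) * ‖u‖ :=
          mul_le_mul_of_nonneg_right h1 hu'.le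
      _ = ‖fderiv ℝ F x u‖ := by field_simp

/-- A1 (file Bilip.lean) -/
theorem exists_bilip {F : EuclideanSpace ℝ (Fin 2) → EuclideanSpace ℝ (Fin 4)}
    (hF : IsSliceDisc F) :
    ∃ c : ℝ, 0 < c ∧
      (∀ x ∈ closedBall (0 : EuclideanSpace ℝ (Fin 2)) 1,
        ∀ y ∈ closedBall (0 : EuclideanSpace ℝ (Fin 2)) 1, c * ‖x - y‖ ≤ ‖F x - F y‖) ∧
      ∀ x ∈ closedBall (0 : EuclideanSpace ℝ (Fin 2)) 1, ∀ u, c * ‖u‖ ≤ ‖fderiv ℝ F x u‖ := by
  obtain ⟨c, hc, hlow⟩ := exists_fderiv_lower hF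
  have hFd : Continuous (fderiv ℝ F) := hF.smooth.continuous_fderiv (by simp)
  have hFc : Continuous F := hF.smooth.continuous
  have hunif : UniformContinuousOn (fderiv ℝ F) (closedBall (0 : EuclideanSpace ℝ (Fin 2)) 1) :=
    (isCompact_closedBall _ _).uniformContinuousOn_of_continuous hFd.continuousOn
  rw [Metric.uniformContinuousOn_iff] at hunif
  obtain ⟨δ, hδ, hclose⟩ := hunif (c / 2) (by positivity)
  -- close points
  have hnear : ∀ x ∈ closedBall (0 : EuclideanSpace ℝ (Fin 2)) 1,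
      ∀ y ∈ closedBall (0 : EuclideanSpace ℝ (Fin 2)) 1, ‖x - y‖ < δ →
      c / 2 * ‖x - y‖ ≤ ‖F x - F y‖ := by
    intro x hx y hy hxy
    have hs : Convex ℝ (closedBall (0 : EuclideanSpace ℝ (Fin 2)) 1 ∩ ball y δ) :=
      (convex_closedBall _ _).inter (convex_ball _ _)
    have hyS : y ∈ closedBall (0 : EuclideanSpace ℝ (Fin 2)) 1 ∩ ball y δ :=
      ⟨hy, mem_ball_self hδ⟩
    have hxS : x ∈ closedBall (0 : EuclideanSpace ℝ (Fin 2)) 1 ∩ ball y δ :=
      ⟨hx, by rwa [mem_ball, dist_eq_norm]⟩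
    have h := Convex.norm_image_sub_le_of_norm_hasFDerivWithin_le' (𝕜 := ℝ) (f := F)
      (f' := fderiv ℝ F) (φ := fderiv ℝ F y) (C := c / 2)
      (s := closedBall (0 : EuclideanSpace ℝ (Fin 2)) 1 ∩ ball y δ)
      (fun z _ => ((hF.smooth.differentiable (by simp)) z).hasFDerivAt.hasFDerivWithinAt)
      (fun z hz => by
        have := hclose z hz.1 y hy (by simpa using hz.2)
        rw [dist_eq_norm] at this
        exact this.le) hs hyS hxS
    have h2 := hlow y hy (x - y)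
    have h3 : ‖fderiv ℝ F y (x - y)‖ ≤ ‖F x - F y‖ + ‖F x - F y - fderiv ℝ F y (x - y)‖ := by
      have : fderiv ℝ F y (x - y) = (F x - F y) - (F x - F y - fderiv ℝ F y (x - y)) := by abel
      calc ‖fderiv ℝ F y (x - y)‖ = ‖(F x - F y) - (F x - F y - fderiv ℝ F y (x - y))‖ := by
            rw [← this]
        _ ≤ _ := norm_sub_le _ _
    nlinarith
  -- far points
  have hfar : ∃ μ : ℝ, 0 < μ ∧ ∀ x ∈ closedBall (0 : EuclideanSpace ℝ (Fin 2)) 1,
      ∀ y ∈ closedBall (0 : EuclideanSpace ℝ (Fin 2)) 1, δ ≤ ‖x - y‖ → μ ≤ ‖F x - F y‖ := by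
    have hK : IsCompact (((closedBall (0 : EuclideanSpace ℝ (Fin 2)) 1) ×ˢ
        (closedBall (0 : EuclideanSpace ℝ (Fin 2)) 1)) ∩ {p | δ ≤ ‖p.1 - p.2‖}) := by
      refine ((isCompact_closedBall _ _).prod (isCompact_closedBall _ _)).inter_right ?_
      exact isClosed_le continuous_const (continuous_fst.sub continuous_snd).norm
    rcases (((closedBall (0 : EuclideanSpace ℝ (Fin 2)) 1) ×ˢ
        (closedBall (0 : EuclideanSpace ℝ (Fin 2)) 1)) ∩
        {p | δ ≤ ‖p.1 - p.2‖}).eq_empty_or_nonempty with he | hne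
    · refine ⟨1, one_pos, fun x hx y hy hxy => ?_⟩
      exfalso
      have : (x, y) ∈ (((closedBall (0 : EuclideanSpace ℝ (Fin 2)) 1) ×ˢ
        (closedBall (0 : EuclideanSpace ℝ (Fin 2)) 1)) ∩ {p | δ ≤ ‖p.1 - p.2‖}) :=
        ⟨⟨hx, hy⟩, hxy⟩
      rw [he] at this
      exact this
    · have hc2 : Continuous fun p : EuclideanSpace ℝ (Fin 2) × EuclideanSpace ℝ (Fin 2) =>
          ‖F p.1 - F p.2‖ :=
        ((hFc.comp continuous_fst).sub (hFc.comp continuous_snd)).norm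
      obtain ⟨p, hp, hmin⟩ := hK.exists_isMinOn hne hc2.continuousOn
      refine ⟨‖F p.1 - F p.2‖, ?_, fun x hx y hy hxy => ?_⟩
      · rw [norm_pos_iff, sub_ne_zero]
        intro heq
        have h1 := hF.inj hp.1.1 hp.1.2 heq
        have h2 : δ ≤ ‖p.1 - p.2‖ := hp.2
        rw [h1, sub_self, norm_zero] at h2
        linarith
      · have hxy' : (x, y) ∈ (((closedBall (0 : EuclideanSpace ℝ (Fin 2)) 1) ×ˢ
          (closedBall (0 : EuclideanSpace ℝ (Fin 2)) 1)) ∩ {p | δ ≤ ‖p.1 - p.2‖}) :=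
          ⟨⟨hx, hy⟩, hxy⟩
        have h1 := isMinOn_iff.mp hmin (x, y) hxy'
        exact h1
  obtain ⟨μ, hμ, hfar⟩ := hfar
  refine ⟨min (c / 2) (μ / 2), lt_min (by positivity) (by positivity), ?_, ?_⟩
  · intro x hx y hy
    rcases lt_or_ge ‖x - y‖ δ with h | h
    · exact (mul_le_mul_of_nonneg_right (min_le_left _ _) (norm_nonneg _)).trans
        (hnear x hx y hy h)
    · have h2 : ‖x - y‖ ≤ 2 := by
        have hx' : ‖x‖ ≤ 1 := by simpa using hx
        have hy' : ‖y‖ ≤ 1 := by simpa using hy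
        linarith [norm_sub_le x y]
      calc min (c / 2) (μ / 2) * ‖x - y‖ ≤ μ / 2 * ‖x - y‖ :=
            mul_le_mul_of_nonneg_right (min_le_right _ _) (norm_nonneg _)
        _ ≤ μ / 2 * 2 := mul_le_mul_of_nonneg_left h2 (by positivity)
        _ = μ := by ring
        _ ≤ _ := hfar x hx y hy h
  · intro x hx u
    calc min (c / 2) (μ / 2) * ‖u‖ ≤ c * ‖u‖ :=
          mul_le_mul_of_nonneg_right ((min_le_left _ _).trans (by linarith)) (norm_nonneg _)
      _ ≤ _ := hlow x hx u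

end Pool.Agent.Lib_MP_752436_gt
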