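import Pool.Agent.Lib_MP_752436_gt.Lap
import Pool.Agent.Lib_MP_752436_gt.Bilip

/-!
Piece T4: separating the points below a neighbourhood of `x₀` from a compact set.
-/

open MeasureTheory Metric Set
open scoped ContDiff ENNReal Topology NNReal

namespace Pool.Agent.Lib_MP_752436_gt

/-- A map with injective strict derivative at `a` is injective near `a`. -/
theorem shadow_locInj {E F : Type*} [NormedAddCommGroup E] [NormedSpace ℝ E]
    [FiniteDimensional ℝ E] [NormedAddCommGroup F] [NormedSpace ℝ F] {f : E → F} {f' : E →L[ℝ] F}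
    {a : E} (hf : HasStrictFDerivAt f f' a) (hinj : ∀ u, u ≠ 0 → f' u ≠ 0) :
    ∃ r : ℝ, 0 < r ∧ InjOn f (ball a r) := by
  have hker : LinearMap.ker (f' : E →ₗ[ℝ] F) = ⊥ := by
    rw [LinearMap.ker_eq_bot']
    intro u hu
    by_contra h
    exact hinj u h hu
  obtain ⟨K, hK, hA⟩ := LinearMap.exists_antilipschitzWith (f' : E →ₗ[ℝ] F) hker
  have hc : 0 < K⁻¹ / 2 := by positivity
  obtain ⟨s, hs, happ⟩ := hf.approximates_deriv_on_nhds (Or.inr hc)
  obtain ⟨r, hr, hsub⟩ := Metric.mem_nhds_iff.mp hs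
  refine ⟨r, hr, ?_⟩
  intro x hx y hy hxy
  have h1 := happ x (hsub hx) y (hsub hy)
  rw [hxy, sub_self, zero_sub, norm_neg] at h1
  have h2 : ‖x - y‖ ≤ K * ‖f' (x - y)‖ := by
    have := ZeroHomClass.bound_of_antilipschitz (f' : E →ₗ[ℝ] F) hA (x - y)
    exact this
  have hK' : (0 : ℝ) < K := by exact_mod_cast hK
  have h3 : ‖x - y‖ ≤ K * (((K⁻¹ / 2 : ℝ≥0) : ℝ) * ‖x - y‖) :=
    h2.trans (mul_le_mul_of_nonneg_left h1 hK'.le)
  have h4 : (K : ℝ) * (((K⁻¹ / 2 : ℝ≥0) : ℝ) * ‖x - y‖) = ‖x - y‖ / 2 := by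
    push_cast
    field_simp
  rw [h4] at h3
  have h5 : ‖x - y‖ ≤ 0 := by linarith
  exact sub_eq_zero.mp (norm_le_zero_iff.mp h5)

theorem shadow_sq {a b c : ℝ} (h : a ^ 2 + b ^ 2 + c ^ 2 = 0) : a = 0 ∧ b = 0 ∧ c = 0 := by
  have ha : a ^ 2 = 0 := by linarith [sq_nonneg a, sq_nonneg b, sq_nonneg c]
  have hb : b ^ 2 = 0 := by linarith [sq_nonneg a, sq_nonneg b, sq_nonneg c]
  have hc : c ^ 2 = 0 := by linarith [sq_nonneg a, sq_nonneg b, sq_nonneg c]
  exact ⟨by simpa using ha, by simpa using hb, by simpa using hc⟩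

/-- T4 (file Shadow.lean): a function which separates the points below a neighbourhood of `x₀`
from a compact set containing no point below `x₀`. -/
theorem exists_shadow {F : EuclideanSpace ℝ (Fin 2) → EuclideanSpace ℝ (Fin 4)}
    (hF : IsSliceDisc F) (himm : ImmersedProjection F) {Z : Set (EuclideanSpace ℝ (Fin 2))}
    (hZ : IsCompact Z) (hZD : Z ⊆ closedBall 0 1) {x₀ : EuclideanSpace ℝ (Fin 2)}
    (hx₀ : x₀ ∈ closedBall (0 : EuclideanSpace ℝ (Fin 2)) 1) (hno : ∀ y ∈ Z, ¬ Above F x₀ y) :
    ∃ r : ℝ, 0 < r ∧ ∃ η : EuclideanSpace ℝ (Fin 2) → ℝ, ContDiff ℝ ∞ η ∧ (∀ x, 0 ≤ η x) ∧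
      (∀ x y, Above F x y → η x ≤ η y) ∧
      (∀ x ∈ closedBall (0 : EuclideanSpace ℝ (Fin 2)) 1, x ∈ ball x₀ r →
        ∀ y ∈ closedBall (0 : EuclideanSpace ℝ (Fin 2)) 1, Above F x y → η x = 0 ∧ η y = 1) ∧
      ∀ z ∈ Z, ∀ᶠ x in 𝓝 z, η x = 0 := by
  obtain ⟨c, hc, hbil, -⟩ := exists_bilip hF
  have hcoord : ∀ i : Fin 4, ContDiff ℝ ∞ (fun x => F x i) := fun i =>
    contDiff_euclidean.mp hF.smooth i
  have hcont : ∀ i : Fin 4, Continuous (fun x => F x i) := fun i => (hcoord i).continuous
  -- (i) the projection is injective near `x₀`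
  obtain ⟨r0, hr0, hinj⟩ : ∃ r : ℝ, 0 < r ∧
      InjOn (fun (x : EuclideanSpace ℝ (Fin 2)) (i : Fin 3) => F x i.castSucc) (ball x₀ r) := by
    have hsm : ContDiff ℝ ∞
        (fun (x : EuclideanSpace ℝ (Fin 2)) (i : Fin 3) => F x i.castSucc) :=
      contDiff_pi.mpr fun i => hcoord i.castSucc
    have hst := (hsm.contDiffAt (x := x₀)).hasStrictFDerivAt (by simp)
    refine shadow_locInj hst ?_
    intro u hu h0
    obtain ⟨i, hi, hne⟩ := himm x₀ hx₀ u hu
    obtain ⟨j, rfl⟩ : ∃ j : Fin 3, j.castSucc = i := by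
      refine ⟨i.castPred (by simpa [Fin.last] using hi), by simp⟩
    apply hne
    have h1 : HasFDerivAt (fun (x : EuclideanSpace ℝ (Fin 2)) (i : Fin 3) => F x i.castSucc)
        (ContinuousLinearMap.pi fun i : Fin 3 =>
          (EuclideanSpace.proj i.castSucc : EuclideanSpace ℝ (Fin 4) →L[ℝ] ℝ).comp
            (fderiv ℝ F x₀)) x₀ := by
      rw [hasFDerivAt_pi]
      intro i
      exact (EuclideanSpace.proj i.castSucc : EuclideanSpace ℝ (Fin 4) →L[ℝ] ℝ).hasFDerivAt.comp x₀
        (hF.smooth.contDiffAt.differentiableAt (by simp)).hasFDerivAt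
    rw [h1.fderiv] at h0
    have h2 := congrFun h0 j
    simpa using h2
  -- `S` is the squared horizontal distance to `F x₀`
  set S : EuclideanSpace ℝ (Fin 2) → ℝ := fun x =>
    (F x 0 - F x₀ 0) ^ 2 + (F x 1 - F x₀ 1) ^ 2 + (F x 2 - F x₀ 2) ^ 2 with hS
  have hSsm : ContDiff ℝ ∞ S :=
    ((((hcoord 0).sub contDiff_const).pow 2).add (((hcoord 1).sub contDiff_const).pow 2)).add
      (((hcoord 2).sub contDiff_const).pow 2)
  have hSc : Continuous S := hSsm.continuous
  have hS0 : ∀ x, 0 ≤ S x := fun x => by positivity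
  have hSab : ∀ x y, Above F x y → S x = S y := by
    intro x y h
    simp only [hS]
    rw [h.1 0 (by decide), h.1 1 (by decide), h.1 2 (by decide)]
  set e : ℝ := c * r0 / 8 with he
  have hepos : 0 < e := by positivity
  set t0 : ℝ := F x₀ 3 with ht0
  -- (iv) compactness
  obtain ⟨m, hm, hmZ⟩ : ∃ m : ℝ, 0 < m ∧ ∀ z ∈ Z, S z ≤ m → t0 - e < F z 3 := by
    have hC : IsCompact (Z ∩ {z | F z 3 ≤ t0 - e}) :=
      hZ.inter_right (isClosed_le (hcont 3) continuous_const)
    by_cases hne : (Z ∩ {z | F z 3 ≤ t0 - e}).Nonempty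
    · obtain ⟨z1, hz1, hmin⟩ := hC.exists_isMinOn hne hSc.continuousOn
      have hpos : 0 < S z1 := by
        rcases (hS0 z1).lt_or_eq with h | h
        · exact h
        · exfalso
          have h' : (F z1 0 - F x₀ 0) ^ 2 + (F z1 1 - F x₀ 1) ^ 2 + (F z1 2 - F x₀ 2) ^ 2 = 0 :=
            h.symm
          obtain ⟨a0, a1, a2⟩ := shadow_sq h'
          apply hno z1 hz1.1
          refine ⟨?_, ?_⟩
          · intro i hi
            fin_cases i
            · exact (sub_eq_zero.mp a0).symm
            · exact (sub_eq_zero.mp a1).symm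
            · exact (sub_eq_zero.mp a2).symm
            · exact absurd rfl hi
          · have : F z1 3 ≤ t0 - e := hz1.2
            have : F z1 3 < t0 := by linarith
            exact this
      refine ⟨S z1 / 2, by positivity, ?_⟩
      intro z hz hSz
      by_contra hlt
      push Not at hlt
      have := isMinOn_iff.mp hmin z ⟨hz, hlt⟩
      linarith
    · refine ⟨1, one_pos, ?_⟩
      intro z hz _
      by_contra hlt
      push Not at hlt
      exact hne ⟨z, hz, hlt⟩
  -- (iii) choice of the radius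
  have hopen : IsOpen {x | t0 - e < F x 3 ∧ F x 3 < t0 + e ∧ S x < m / 2} :=
    (isOpen_lt continuous_const (hcont 3)).inter
      ((isOpen_lt (hcont 3) continuous_const).inter (isOpen_lt hSc continuous_const))
  have hmem : x₀ ∈ {x | t0 - e < F x 3 ∧ F x 3 < t0 + e ∧ S x < m / 2} := by
    refine ⟨?_, ?_, ?_⟩
    · change t0 - e < t0
      linarith
    · change t0 < t0 + e
      linarith
    · have : S x₀ = 0 := by simp [hS]
      rw [this]; positivity
  obtain ⟨r1, hr1, hball⟩ := Metric.isOpen_iff.mp hopen x₀ hmem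
  refine ⟨min r1 (r0 / 2), lt_min hr1 (by positivity), fun x =>
    Real.smoothTransition (2 - 2 * S x / m) * Real.smoothTransition ((t0 - e - F x 3) / e),
    ?_, ?_, ?_, ?_, ?_⟩
  · exact (Real.smoothTransition.contDiff.comp
      (contDiff_const.sub ((contDiff_const.mul hSsm).div_const m))).mul
      (Real.smoothTransition.contDiff.comp ((contDiff_const.sub (hcoord 3)).div_const e))
  · intro x
    exact mul_nonneg (Real.smoothTransition.nonneg _) (Real.smoothTransition.nonneg _)
  · intro x y h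
    change Real.smoothTransition (2 - 2 * S x / m) * Real.smoothTransition ((t0 - e - F x 3) / e) ≤
      Real.smoothTransition (2 - 2 * S y / m) * Real.smoothTransition ((t0 - e - F y 3) / e)
    rw [hSab x y h]
    apply mul_le_mul_of_nonneg_left _ (Real.smoothTransition.nonneg _)
    apply Real.smoothTransition.monotone
    apply div_le_div_of_nonneg_right _ hepos.le
    have := h.2
    linarith
  · intro x hx hxb y hy hab
    have hxr1 : x ∈ ball x₀ r1 := ball_subset_ball (min_le_left _ _) hxb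
    have hxr0 : x ∈ ball x₀ (r0 / 2) := ball_subset_ball (min_le_right _ _) hxb
    obtain ⟨h1, h2, h3⟩ := hball hxr1
    have hne : x ≠ y := by
      rintro rfl
      exact lt_irrefl _ hab.2
    have hyb : y ∉ ball x₀ r0 := by
      intro hyb
      apply hne
      refine hinj (ball_subset_ball (by linarith) hxr0) hyb ?_
      funext i
      refine hab.1 i.castSucc ?_
      intro h
      have := congrArg Fin.val h
      have hi := i.isLt
      simp at this
      omega
    have hdist : r0 / 2 ≤ ‖x - y‖ := by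
      rw [mem_ball, not_lt] at hyb
      rw [mem_ball] at hxr0
      have := dist_triangle y x x₀
      rw [dist_comm y x, dist_eq_norm x y] at this
      linarith
    have hnorm : ‖F x - F y‖ = F x 3 - F y 3 := by
      rw [EuclideanSpace.norm_eq]
      have hs : ∑ i : Fin 4, ‖(F x - F y) i‖ ^ 2 = (F x 3 - F y 3) ^ 2 := by
        rw [Fin.sum_univ_four]
        simp only [PiLp.sub_apply, Real.norm_eq_abs, sq_abs]
        rw [hab.1 0 (by decide), hab.1 1 (by decide), hab.1 2 (by decide)]
        ring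
      rw [hs, Real.sqrt_sq]
      have := hab.2
      linarith
    have hbl := hbil x hx y hy
    rw [hnorm] at hbl
    have h4 : c * (r0 / 2) ≤ F x 3 - F y 3 :=
      (mul_le_mul_of_nonneg_left hdist hc.le).trans hbl
    have h5 : c * (r0 / 2) = 4 * e := by rw [he]; ring
    have h6 : F y 3 ≤ t0 - 3 * e := by linarith
    constructor
    · change Real.smoothTransition (2 - 2 * S x / m) *
        Real.smoothTransition ((t0 - e - F x 3) / e) = 0
      rw [Real.smoothTransition.zero_of_nonpos (x := (t0 - e - F x 3) / e), mul_zero]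
      apply div_nonpos_of_nonpos_of_nonneg _ hepos.le
      linarith
    · change Real.smoothTransition (2 - 2 * S y / m) *
        Real.smoothTransition ((t0 - e - F y 3) / e) = 1
      rw [Real.smoothTransition.one_of_one_le (x := (t0 - e - F y 3) / e),
        Real.smoothTransition.one_of_one_le, mul_one]
      · rw [← hSab x y hab]
        have : 2 * S x / m ≤ 1 := by
          rw [div_le_one hm]; linarith
        linarith
      · rw [le_div_iff₀ hepos]
        linarith
  · intro z hz
    have hop : IsOpen {x | m < S x ∨ t0 - e < F x 3} :=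
      (isOpen_lt continuous_const hSc).union (isOpen_lt continuous_const (hcont 3))
    have hzm : z ∈ {x | m < S x ∨ t0 - e < F x 3} := by
      by_cases h : S z ≤ m
      · exact Or.inr (hmZ z hz h)
      · exact Or.inl (not_le.mp h)
    filter_upwards [hop.mem_nhds hzm] with x hx
    rcases hx with hx | hx
    · rw [Real.smoothTransition.zero_of_nonpos (x := 2 - 2 * S x / m), zero_mul]
      have : 2 ≤ 2 * S x / m := by
        rw [le_div_iff₀ hm]; linarith
      linarith
    · rw [Real.smoothTransition.zero_of_nonpos (x := (t0 - e - F x 3) / e), mul_zero]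
      apply div_nonpos_of_nonpos_of_nonneg _ hepos.le
      linarith

end Pool.Agent.Lib_MP_752436_gt
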