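import Pool.Agent.Lib_MP_752436_gt.EnclosedDefs
import Pool.Agent.Lib_MP_752436_gt.Shadow
import Pool.Agent.Lib_MP_752436_gt.CrossLem
import Pool.Agent.Lib_MP_752436_gt.Criterion

open MeasureTheory Metric Set
open scoped ContDiff ENNReal Topology

namespace Pool.Agent.Lib_MP_752436_gt

/-- The projection of an immersed projection is injective near every point of the disc. -/
theorem exists_injOn_proj {F : EuclideanSpace ℝ (Fin 2) → EuclideanSpace ℝ (Fin 4)}
    (hF : IsSliceDisc F) (himm : ImmersedProjection F) {x₀ : EuclideanSpace ℝ (Fin 2)}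
    (hx₀ : x₀ ∈ closedBall (0 : EuclideanSpace ℝ (Fin 2)) 1) :
    ∃ r : ℝ, 0 < r ∧ InjOn (fun (x : EuclideanSpace ℝ (Fin 2)) (i : Fin 3) => F x i.castSucc)
      (ball x₀ r) := by
  have hcoord : ∀ i : Fin 4, ContDiff ℝ ∞ (fun x => F x i) := fun i =>
    contDiff_euclidean.mp hF.smooth i
  have hsm : ContDiff ℝ ∞
      (fun (x : EuclideanSpace ℝ (Fin 2)) (i : Fin 3) => F x i.castSucc) :=
    contDiff_pi.mpr fun i => hcoord i.castSucc
  have hst := (hsm.contDiffAt (x := x₀)).hasStrictFDerivAt (by simp)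
  refine shadow_locInj hst ?_
  intro u hu h0
  obtain ⟨i, hi, hne⟩ := himm x₀ hx₀ u hu
  obtain ⟨j, rfl⟩ : ∃ j : Fin 3, j.castSucc = i := by
    refine ⟨i.castPred (by simpa [Fin.last] using hi), by simp⟩
  apply hne
  have h1 : HasFDerivAt (fun (x : EuclideanSpace ℝ (Fin 2)) (i : Fin 3) => F x i.castSucc)
      (ContinuousLinearMap.pi fun i : Fin 3 =>
        (EuclideanSpace.proj i.castSucc : EuclideanSpace ℝ (Fin 4) →L[ℝ] ℝ).comp
          (fderiv ℝ F x₀)) x₀ := by
    rw [hasFDerivAt_pi]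
    intro i
    exact (EuclideanSpace.proj i.castSucc : EuclideanSpace ℝ (Fin 4) →L[ℝ] ℝ).hasFDerivAt.comp x₀
      (hF.smooth.contDiffAt.differentiableAt (by simp)).hasFDerivAt
  rw [h1.fderiv] at h0
  have h2 := congrFun h0 j
  simpa using h2

/-- Two distinct points of the disc with the same projection are at distance at least `δ`. -/
theorem exists_sep {F : EuclideanSpace ℝ (Fin 2) → EuclideanSpace ℝ (Fin 4)}
    (hF : IsSliceDisc F) (himm : ImmersedProjection F) :
    ∃ δ : ℝ, 0 < δ ∧ ∀ x ∈ closedBall (0 : EuclideanSpace ℝ (Fin 2)) 1,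
      ∀ y ∈ closedBall (0 : EuclideanSpace ℝ (Fin 2)) 1, (∀ i, i ≠ 3 → F x i = F y i) →
        dist x y < δ → x = y := by
  choose! r hr hinj using fun (x₀ : EuclideanSpace ℝ (Fin 2))
    (hx₀ : x₀ ∈ closedBall (0 : EuclideanSpace ℝ (Fin 2)) 1) => exists_injOn_proj hF himm hx₀
  obtain ⟨δ, hδ, hleb⟩ := lebesgue_number_lemma_of_metric
    (s := closedBall (0 : EuclideanSpace ℝ (Fin 2)) 1)
    (isCompact_closedBall (0 : EuclideanSpace ℝ (Fin 2)) 1)
    (c := fun x₀ : ↥(closedBall (0 : EuclideanSpace ℝ (Fin 2)) 1) =>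
      ball (x₀ : EuclideanSpace ℝ (Fin 2)) (r x₀))
    (fun _ => isOpen_ball)
    (fun x hx => mem_iUnion.mpr ⟨⟨x, hx⟩, mem_ball_self (hr x hx)⟩)
  refine ⟨δ, hδ, ?_⟩
  intro x hx y hy hxy hd
  obtain ⟨⟨x₀, hx₀⟩, hsub⟩ := hleb x hx
  refine hinj x₀ hx₀ (hsub (mem_ball_self hδ)) (hsub ?_) ?_
  · rw [mem_ball, dist_comm]
    exact hd
  · funext i
    refine hxy i.castSucc ?_
    intro h
    have := congrArg Fin.val h
    have hi := i.isLt
    simp at this
    omega

/-- M1 (file Enclosed.lean) -/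
theorem isCompact_upperSet {F : EuclideanSpace ℝ (Fin 2) → EuclideanSpace ℝ (Fin 4)}
    (hF : IsSliceDisc F) (himm : ImmersedProjection F) : IsCompact (upperSet F) := by
  obtain ⟨δ, hδ, hsep⟩ := exists_sep hF himm
  have hcont : ∀ i : Fin 4, Continuous (fun x => F x i) := fun i =>
    (contDiff_euclidean.mp hF.smooth i).continuous
  set D : Set (EuclideanSpace ℝ (Fin 2)) := closedBall 0 1 with hD
  have hDc : IsCompact D := isCompact_closedBall _ _
  set P : Set (EuclideanSpace ℝ (Fin 2) × EuclideanSpace ℝ (Fin 2)) :=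
    (D ×ˢ D) ∩ ({p | ∀ i, i ≠ 3 → F p.1 i = F p.2 i} ∩ ({p | F p.2 3 ≤ F p.1 3} ∩
      {p | δ ≤ dist p.1 p.2})) with hP
  have hclosed : IsClosed ({p : EuclideanSpace ℝ (Fin 2) × EuclideanSpace ℝ (Fin 2) |
      ∀ i, i ≠ 3 → F p.1 i = F p.2 i} ∩ ({p | F p.2 3 ≤ F p.1 3} ∩
      {p | δ ≤ dist p.1 p.2})) := by
    refine IsClosed.inter ?_ (IsClosed.inter ?_ ?_)
    · have : {p : EuclideanSpace ℝ (Fin 2) × EuclideanSpace ℝ (Fin 2) |
          ∀ i, i ≠ 3 → F p.1 i = F p.2 i} = ⋂ i, ⋂ (_ : i ≠ (3 : Fin 4)),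
            {p | F p.1 i = F p.2 i} := by
        ext p
        simp
      rw [this]
      exact isClosed_iInter fun i => isClosed_iInter fun _ =>
        isClosed_eq ((hcont i).comp continuous_fst) ((hcont i).comp continuous_snd)
    · exact isClosed_le ((hcont 3).comp continuous_snd) ((hcont 3).comp continuous_fst)
    · exact isClosed_le continuous_const (continuous_fst.dist continuous_snd)
  have hPc : IsCompact P := (hDc.prod hDc).inter_right hclosed
  have hU : upperSet F = Prod.fst '' P := by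
    ext x
    constructor
    · rintro ⟨hx, y, hy, hab⟩
      refine ⟨(x, y), ⟨⟨hx, hy⟩, hab.1, hab.2.le, ?_⟩, rfl⟩
      by_contra hlt
      have h := hsep x hx y hy hab.1 (not_le.mp hlt)
      subst h
      exact lt_irrefl _ hab.2
    · rintro ⟨⟨x', y⟩, ⟨⟨hx, hy⟩, h1, h2, h3⟩, rfl⟩
      refine ⟨hx, y, hy, h1, lt_of_le_of_ne h2 ?_⟩
      intro h
      have hxy : x' = y := by
        apply hF.inj hx hy
        ext i
        by_cases hi : i = 3
        · subst hi
          exact h.symm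
        · exact h1 i hi
      subst hxy
      have h3' : δ ≤ dist x' x' := h3
      rw [dist_self] at h3'
      linarith
  rw [hU]
  exact hPc.image continuous_fst

/-- M2 (file Enclosed.lean, uses M1) -/
theorem isCompact_enclosedSet {F : EuclideanSpace ℝ (Fin 2) → EuclideanSpace ℝ (Fin 4)}
    (hF : IsSliceDisc F) (himm : ImmersedProjection F) : IsCompact (enclosedSet F) := by
  have hU : IsClosed (upperSet F) := (isCompact_upperSet hF himm).isClosed
  refine (isCompact_closedBall (0 : EuclideanSpace ℝ (Fin 2)) 1).of_isClosed_subset ?_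
    (fun x hx => hx.1)
  refine isClosed_of_closure_subset ?_
  intro x hx
  have hxD : x ∈ closedBall (0 : EuclideanSpace ℝ (Fin 2)) 1 :=
    closure_minimal (fun z hz => hz.1) isClosed_closedBall hx
  refine ⟨hxD, ?_⟩
  intro y hy hj
  have hxU : x ∈ (upperSet F)ᶜ := hj.source_mem.2
  obtain ⟨ε, hε, hball⟩ := Metric.isOpen_iff.mp hU.isOpen_compl x hxU
  obtain ⟨x', hx', hd⟩ := Metric.mem_closure_iff.mp hx ε hε
  refine hx'.2 y hy (JoinedIn.trans ?_ hj)
  have hconv : Convex ℝ (closedBall (0 : EuclideanSpace ℝ (Fin 2)) 1 ∩ ball x ε) :=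
    (convex_closedBall _ _).inter (convex_ball _ _)
  have h1 : x' ∈ closedBall (0 : EuclideanSpace ℝ (Fin 2)) 1 ∩ ball x ε := by
    refine ⟨hx'.1, ?_⟩
    rw [mem_ball, dist_comm]
    exact hd
  have h2 : x ∈ closedBall (0 : EuclideanSpace ℝ (Fin 2)) 1 ∩ ball x ε :=
    ⟨hxD, mem_ball_self hε⟩
  have h3 := (hconv.isPathConnected ⟨x, h2⟩).joinedIn x' h1 x h2
  exact h3.mono fun z hz => ⟨hz.1, hball hz.2⟩

/-- M3 (file Enclosed.lean) -/
theorem IsTrap.subset_enclosedSet {F : EuclideanSpace ℝ (Fin 2) → EuclideanSpace ℝ (Fin 4)}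
    {Z : Set (EuclideanSpace ℝ (Fin 2))} (hZ : IsTrap F Z) : Z ⊆ enclosedSet F := by
  intro z hz
  refine ⟨ball_subset_closedBall (hZ.sub hz), ?_⟩
  intro y hy hj
  obtain ⟨γ, hγ⟩ := hj
  have hyZ : y ∉ Z := by
    intro h
    have h1 := hZ.sub h
    rw [mem_ball] at h1
    rw [mem_sphere] at hy
    linarith
  have hne : (frontier (γ ⁻¹' Z)).Nonempty := by
    rw [nonempty_frontier_iff]
    refine ⟨⟨0, ?_⟩, ?_⟩
    · change γ 0 ∈ Z
      rw [γ.source]
      exact hz
    · intro h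
      have h1 : (1 : unitInterval) ∈ γ ⁻¹' Z := by
        rw [h]
        trivial
      have h2 : γ 1 ∈ Z := h1
      rw [γ.target] at h2
      exact hyZ h2
  obtain ⟨t, ht⟩ := hne
  have ht' : γ t ∈ frontier Z := γ.continuous.frontier_preimage_subset Z ht
  obtain ⟨w, hw, hab⟩ := hZ.above _ ht'
  exact (hγ t).2 ⟨(hγ t).1, w, ball_subset_closedBall (hZ.sub hw), hab⟩

end Pool.Agent.Lib_MP_752436_gt
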