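import Pool.Agent.Lib_MP_752436_gt.Lap

open MeasureTheory Metric Set
open scoped ContDiff ENNReal Topology

namespace Pool.Agent.Lib_MP_752436_gt

/-- the height of `G` preserves the relation `Above F` -/
theorem noTrap_above {F G : EuclideanSpace ℝ (Fin 2) → EuclideanSpace ℝ (Fin 4)}
    (hFG : ∀ x, ∀ i, i ≠ 3 → G x i = F x i)
    (hiso : ∀ s ∈ Icc (0 : ℝ) 1, IsSliceDisc (fun x => (1 - s) • F x + s • G x))
    {x y : EuclideanSpace ℝ (Fin 2)} (hx : x ∈ closedBall (0 : EuclideanSpace ℝ (Fin 2)) 1)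
    (hy : y ∈ closedBall (0 : EuclideanSpace ℝ (Fin 2)) 1) (h : Above F x y) :
    G y 3 < G x 3 := by
  by_contra hcon
  push Not at hcon
  obtain ⟨h1, h2⟩ := h
  have ha : 0 < F x 3 - F y 3 := sub_pos.2 h2
  have hab : 0 < (F x 3 - F y 3) - (G x 3 - G y 3) := by linarith
  set s : ℝ := (F x 3 - F y 3) / ((F x 3 - F y 3) - (G x 3 - G y 3)) with hs
  have hs0 : 0 ≤ s := div_nonneg ha.le hab.le
  have hs1 : s ≤ 1 := by
    rw [hs, div_le_one hab]; linarith
  have hmul : s * ((F x 3 - F y 3) - (G x 3 - G y 3)) = F x 3 - F y 3 := by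
    rw [hs]; field_simp
  have hinj := (hiso s ⟨hs0, hs1⟩).inj hx hy
  have heq : x = y := by
    apply hinj
    ext i
    simp only [PiLp.add_apply, PiLp.smul_apply, smul_eq_mul]
    by_cases hi : i = 3
    · subst hi
      linarith
    · rw [hFG x i hi, hFG y i hi, h1 i hi]
  rw [heq] at ha
  linarith

/-- the second derivative at a local minimum is nonnegative -/
theorem noTrap_second {h : EuclideanSpace ℝ (Fin 2) → ℝ} (hh : ContDiff ℝ ∞ h)
    {z : EuclideanSpace ℝ (Fin 2)} (hmin : IsLocalMin h z) (u : EuclideanSpace ℝ (Fin 2)) :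
    0 ≤ fderiv ℝ (fderiv ℝ h) z u u := by
  by_contra hcon
  push Not at hcon
  set l : ℝ → EuclideanSpace ℝ (Fin 2) := fun s => z + s • u with hl
  have hlc : Continuous l := by fun_prop
  have hld : ∀ s, HasDerivAt l u s := by
    intro s
    have := ((hasDerivAt_id s).smul_const u).const_add z
    simpa [hl] using this
  have hd1 : ∀ s, HasDerivAt (fun s => h (l s)) (fderiv ℝ h (l s) u) s := by
    intro s
    exact ((hh.differentiable (by simp) (l s)).hasFDerivAt).comp_hasDerivAt s (hld s)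
  have hd1' : deriv (fun s => h (l s)) = fun s => fderiv ℝ h (l s) u := by
    funext s; exact (hd1 s).deriv
  have hd2 : HasDerivAt (fun s => fderiv ℝ h (l s) u) (fderiv ℝ (fderiv ℝ h) z u u) 0 := by
    have e1 : HasFDerivAt (fderiv ℝ h) (fderiv ℝ (fderiv ℝ h) (l 0)) (l 0) :=
      (((hh.fderiv_right (m := ∞) (by simp)).differentiable (by simp)) (l 0)).hasFDerivAt
    have e2 := e1.comp_hasDerivAt 0 (hld 0)
    have e3 := e2.clm_apply (hasDerivAt_const (0 : ℝ) u)
    have e4 : l 0 = z := by simp [hl]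
    rw [e4] at e3
    simpa using e3
  have hl0 : l 0 = z := by simp [hl]
  have hlmin : IsLocalMin (fun s => h (l s)) 0 := by
    have h1 : Filter.Tendsto l (𝓝 0) (𝓝 z) := by
      have := hlc.tendsto 0
      rwa [hl0] at this
    have h2 := h1.eventually hmin
    filter_upwards [h2] with s hs
    rw [hl0]; exact hs
  have hderiv0 : deriv (fun s => h (l s)) 0 = 0 := hlmin.deriv_eq_zero
  have hdd : deriv (deriv (fun s => h (l s))) 0 = fderiv ℝ (fderiv ℝ h) z u u := by
    rw [hd1']; exact hd2.deriv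
  have hmax : IsLocalMax (fun s => h (l s)) 0 := by
    apply isLocalMax_of_deriv_deriv_neg
    · rw [hdd]; exact hcon
    · exact hderiv0
    · exact (hd1 0).continuousAt
  have hconst : (fun s => h (l s)) =ᶠ[𝓝 0] fun _ => h (l 0) := by
    filter_upwards [hlmin, hmax] with s h1 h2
    exact le_antisymm h2 h1
  have h3 : deriv (fun s => h (l s)) =ᶠ[𝓝 0] deriv fun _ => h (l 0) := hconst.deriv
  have h4 := h3.deriv_eq
  rw [hdd] at h4
  simp at h4
  linarith

/-- T7 (file NoTrap.lean): a ribbon disc has no trap. -/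
theorem not_isTrap {F G : EuclideanSpace ℝ (Fin 2) → EuclideanSpace ℝ (Fin 4)}
    (hG : IsRibbonDisc G) (hFG : ∀ x, ∀ i, i ≠ 3 → G x i = F x i)
    (hiso : ∀ s ∈ Icc (0 : ℝ) 1, IsSliceDisc (fun x => (1 - s) • F x + s • G x))
    {Z : Set (EuclideanSpace ℝ (Fin 2))} (hZ : IsTrap F Z) : False := by
  have hs : ContDiff ℝ ∞ (fun y => G y 3) := (contDiff_euclidean.1 hG.slice.smooth) 3
  obtain ⟨z, hz, hmin⟩ := hZ.compact.exists_isMinOn hZ.nonempty hs.continuous.continuousOn
  have hcb : ∀ x ∈ Z, x ∈ closedBall (0 : EuclideanSpace ℝ (Fin 2)) 1 := fun x hx =>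
    ball_subset_closedBall (hZ.sub hx)
  by_cases hf : z ∈ frontier Z
  · obtain ⟨y, hy, hab⟩ := hZ.above z hf
    have h1 := noTrap_above hFG hiso (hcb z hz) (hcb y hy) hab
    have h2 : G z 3 ≤ G y 3 := hmin hy
    linarith
  · have hint : z ∈ interior Z := by
      by_contra hni
      exact hf ⟨subset_closure hz, hni⟩
    have hloc : IsLocalMin (fun y => G y 3) z := by
      filter_upwards [mem_interior_iff_mem_nhds.1 hint] with y hy
      exact hmin hy
    have h0 : fderiv ℝ (fun y => G y 3) z = 0 := hloc.fderiv_eq_zero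
    obtain ⟨u, hu⟩ := hG.noMin z (hZ.sub hz) h0
    have := noTrap_second hs hloc u
    linarith

end Pool.Agent.Lib_MP_752436_gt
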