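import Pool.Agent.Lib_MP_752436_gt.Lap

/-!
The support of a finite measure on the plane which lives on a compact set.
-/

open MeasureTheory Metric Set
open scoped ContDiff ENNReal Topology

namespace Pool.Agent.Lib_MP_752436_gt

/-- T5 (file Supp.lean): the support of a finite measure. -/
theorem exists_support {K : Set (EuclideanSpace ℝ (Fin 2))} (hK : IsCompact K)
    (ν : Measure (EuclideanSpace ℝ (Fin 2))) [IsFiniteMeasure ν] (hν : ν ≠ 0) (hνK : ν Kᶜ = 0) :
    ∃ Z : Set (EuclideanSpace ℝ (Fin 2)), IsCompact Z ∧ Z.Nonempty ∧ Z ⊆ K ∧ ν Zᶜ = 0 ∧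
      ∀ g : EuclideanSpace ℝ (Fin 2) → ℝ, Continuous g → (∀ z ∈ Z, 0 ≤ g z) →
        (∃ z ∈ Z, 0 < g z) → 0 < ∫ x, g x ∂ν := by
  have hsub : ν.support ⊆ K :=
    Measure.support_subset_of_isClosed hK.isClosed (mem_ae_iff.2 hνK)
  have hcomp : IsCompact ν.support := hK.of_isClosed_subset Measure.isClosed_support hsub
  have hae : ν.support ∈ ae ν := Measure.support_mem_ae
  refine ⟨ν.support, hcomp, Measure.nonempty_support hν, hsub, mem_ae_iff.1 hae, ?_⟩
  intro g hg hpos hex
  obtain ⟨z, hz, hgz⟩ := hex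
  have hnn : 0 ≤ᵐ[ν] g := by
    filter_upwards [hae] with x hx using hpos x hx
  have hrestr : ν.restrict ν.support = ν := Measure.restrict_eq_self_of_ae_mem hae
  have hint : Integrable g ν := by
    have h := hg.continuousOn.integrableOn_compact (μ := ν) hcomp
    rwa [IntegrableOn, hrestr] at h
  rw [integral_pos_iff_support_of_nonneg_ae hnn hint]
  have hU : {x | 0 < g x} ∈ 𝓝 z := (isOpen_lt continuous_const hg).mem_nhds hgz
  have h1 := (Measure.mem_support_iff_forall z).1 hz _ hU
  refine lt_of_lt_of_le h1 (measure_mono ?_)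
  intro x hx
  exact ne_of_gt hx

end Pool.Agent.Lib_MP_752436_gt
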