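import Pool.Agent.Lib_MP_752436_gt.Lap

/-!
Piece T3: a radial test function with nonnegative Laplacian off a small ball.
The function is `expNegInvGlue (c (R ^ 2 - ‖x - a‖ ^ 2))` for a small constant `c`.
-/

open MeasureTheory Metric Set
open scoped ContDiff ENNReal Topology

namespace Pool.Agent.Lib_MP_752436_gt

/-- First derivative of `expNegInvGlue`. -/
theorem glue_deriv_one (q : ℝ) :
    HasDerivAt expNegInvGlue ((q⁻¹) ^ 2 * expNegInvGlue q) q := by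
  have h := expNegInvGlue.hasDerivAt_polynomial_eval_inv_mul (1 : Polynomial ℝ) q
  simpa using h

/-- Second derivative of `expNegInvGlue`. -/
theorem glue_deriv_two (q : ℝ) :
    HasDerivAt (fun y : ℝ => (y⁻¹) ^ 2 * expNegInvGlue y)
      (((q⁻¹) ^ 4 - 2 * (q⁻¹) ^ 3) * expNegInvGlue q) q := by
  have h := expNegInvGlue.hasDerivAt_polynomial_eval_inv_mul (Polynomial.X ^ 2 : Polynomial ℝ) q
  have e : (Polynomial.eval q⁻¹ (Polynomial.X ^ 2 * ((Polynomial.X ^ 2 : Polynomial ℝ)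
      - Polynomial.derivative (Polynomial.X ^ 2 : Polynomial ℝ)))) = (q⁻¹) ^ 4 - 2 * (q⁻¹) ^ 3 := by
    simp
    ring
  rw [e] at h
  simpa using h

/-- The inner product with a fixed vector as a continuous linear map. -/
theorem hasFDerivAt_quad (a : EuclideanSpace ℝ (Fin 2)) (c R : ℝ) (x : EuclideanSpace ℝ (Fin 2)) :
    HasFDerivAt (fun x : EuclideanSpace ℝ (Fin 2) => c * (R ^ 2 - ‖x - a‖ ^ 2))
      ((-(2 * c)) • innerSL ℝ (x - a)) x := by
  have h1 : HasFDerivAt (fun x : EuclideanSpace ℝ (Fin 2) => x - a)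
      (ContinuousLinearMap.id ℝ _) x := (hasFDerivAt_id x).sub_const a
  have h2 := h1.norm_sq
  have h3 := ((hasFDerivAt_const (R ^ 2) x).sub h2).const_mul c
  refine h3.congr_fderiv ?_
  ext u
  simp
  ring

/-- The test function. -/
noncomputable def tfun (a : EuclideanSpace ℝ (Fin 2)) (c R : ℝ)
    (x : EuclideanSpace ℝ (Fin 2)) : ℝ :=
  expNegInvGlue (c * (R ^ 2 - ‖x - a‖ ^ 2))

theorem tfun_fderiv (a : EuclideanSpace ℝ (Fin 2)) (c R : ℝ) :
    fderiv ℝ (tfun a c R) = fun x => (-(2 * c) *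
      (((c * (R ^ 2 - ‖x - a‖ ^ 2))⁻¹) ^ 2 * expNegInvGlue (c * (R ^ 2 - ‖x - a‖ ^ 2)))) •
      innerSL ℝ (x - a) := by
  funext x
  have h := (glue_deriv_one (c * (R ^ 2 - ‖x - a‖ ^ 2))).comp_hasFDerivAt x
    (hasFDerivAt_quad a c R x)
  have h' : HasFDerivAt (tfun a c R) _ x := h
  rw [h'.fderiv, smul_smul]
  congr 1
  ring

theorem tfun_fderiv_two (a : EuclideanSpace ℝ (Fin 2)) (c R : ℝ)
    (x u : EuclideanSpace ℝ (Fin 2)) (q : ℝ) (hq : q = c * (R ^ 2 - ‖x - a‖ ^ 2)) :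
    fderiv ℝ (fderiv ℝ (tfun a c R)) x u u =
      4 * c ^ 2 * (((q⁻¹) ^ 4 - 2 * (q⁻¹) ^ 3) * expNegInvGlue q) * (inner ℝ (x - a) u) ^ 2
        - 2 * c * ((q⁻¹) ^ 2 * expNegInvGlue q) * ‖u‖ ^ 2 := by
  rw [tfun_fderiv]
  have h1 := (glue_deriv_two (c * (R ^ 2 - ‖x - a‖ ^ 2))).comp_hasFDerivAt x
    (hasFDerivAt_quad a c R x)
  have h2 := h1.const_mul (-(2 * c))
  have h3 : HasFDerivAt (fun x : EuclideanSpace ℝ (Fin 2) => innerSL ℝ (x - a))
      (innerSL ℝ) x := by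
    have := (innerSL ℝ (E := EuclideanSpace ℝ (Fin 2))).hasFDerivAt (x := x)
    have h4 := this.sub_const (innerSL ℝ a)
    refine h4.congr_of_eventuallyEq ?_
    exact Filter.Eventually.of_forall (fun y => by simp [map_sub])
  have h5 := h2.smul h3
  have h6 := h5.fderiv
  rw [show (fun x : EuclideanSpace ℝ (Fin 2) => (-(2 * c) *
      (((c * (R ^ 2 - ‖x - a‖ ^ 2))⁻¹) ^ 2 * expNegInvGlue (c * (R ^ 2 - ‖x - a‖ ^ 2)))) •
      innerSL ℝ (x - a)) = _ from rfl]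
  erw [h6]
  simp only [Function.comp_apply]
  rw [← hq]
  simp only [add_apply, smul_apply,
    ContinuousLinearMap.smulRight_apply, innerSL_apply_apply, smul_eq_mul]
  have hu : (innerSL ℝ (E := EuclideanSpace ℝ (Fin 2)) u) u = ‖u‖ ^ 2 :=
    real_inner_self_eq_norm_sq u
  erw [hu]
  ring

theorem tfun_lap (a : EuclideanSpace ℝ (Fin 2)) (c R : ℝ)
    (x : EuclideanSpace ℝ (Fin 2)) (q : ℝ) (hq : q = c * (R ^ 2 - ‖x - a‖ ^ 2)) :
    lap (tfun a c R) x =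
      4 * c * expNegInvGlue q * (c * ‖x - a‖ ^ 2 * ((q⁻¹) ^ 4 - 2 * (q⁻¹) ^ 3) - (q⁻¹) ^ 2) := by
  unfold lap
  rw [tfun_fderiv_two a c R x _ q hq, tfun_fderiv_two a c R x _ q hq]
  have hn : ‖x - a‖ ^ 2 = (x - a) 0 ^ 2 + (x - a) 1 ^ 2 := by
    rw [EuclideanSpace.norm_sq_eq]
    simp
  rw [hn]
  simp [EuclideanSpace.inner_single_right]
  ring

theorem exists_test (a : EuclideanSpace ℝ (Fin 2)) {s R : ℝ} (hs : 0 < s) (hsR : s < R) :
    ∃ φ : EuclideanSpace ℝ (Fin 2) → ℝ, ContDiff ℝ ∞ φ ∧ (∀ x, 0 ≤ φ x) ∧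
      (∀ x, R ≤ ‖x - a‖ → φ x = 0) ∧ (∃ M, ∀ x, φ x ≤ M) ∧
      (∀ x, s ≤ ‖x - a‖ → 0 ≤ lap φ x) ∧
      ∀ x, s ≤ ‖x - a‖ → ‖x - a‖ < R → 0 < lap φ x := by
  have hR : 0 < R := hs.trans hsR
  set c : ℝ := s ^ 2 / (2 * (2 * R ^ 2 * s ^ 2 + R ^ 4)) with hc
  have hden : 0 < 2 * R ^ 2 * s ^ 2 + R ^ 4 := by positivity
  have hcpos : 0 < c := by positivity
  have hc2 : c * (2 * R ^ 2 * s ^ 2 + R ^ 4) = s ^ 2 / 2 := by
    rw [hc]
    field_simp
  have hpos : ∀ x, s ≤ ‖x - a‖ → ‖x - a‖ < R → 0 < lap (tfun a c R) x := by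
    intro x hx hxR
    have hq := tfun_lap a c R x _ rfl
    set N : ℝ := ‖x - a‖ ^ 2 with hN
    have hN1 : s ^ 2 ≤ N := by
      rw [hN]
      exact pow_le_pow_left₀ hs.le hx 2
    have hN2 : N < R ^ 2 := by
      rw [hN]
      exact pow_lt_pow_left₀ hxR (norm_nonneg _) (by norm_num)
    have hqpos : 0 < c * (R ^ 2 - N) := mul_pos hcpos (by linarith)
    rw [hq]
    set q : ℝ := c * (R ^ 2 - N) with hqd
    have hqle : q ≤ c * R ^ 2 := by
      rw [hqd]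
      apply mul_le_mul_of_nonneg_left _ hcpos.le
      nlinarith [sq_nonneg s]
    have hE := expNegInvGlue.pos_of_pos hqpos
    have e : c * N * ((q⁻¹) ^ 4 - 2 * (q⁻¹) ^ 3) - (q⁻¹) ^ 2
        = (c * N * (1 - 2 * q) - q ^ 2) * (q⁻¹) ^ 4 := by
      field_simp
    rw [e]
    have hkey : 0 < c * N * (1 - 2 * q) - q ^ 2 := by
      have h1 : q ^ 2 ≤ (c * R ^ 2) ^ 2 := pow_le_pow_left₀ hqpos.le hqle 2
      have h2 : 2 * c * R ^ 2 < 1 := by
        have : c * (2 * R ^ 2) * s ^ 2 < 1 * s ^ 2 := by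
          nlinarith [hc2, mul_pos hcpos (pow_pos hR 4), pow_pos hs 2]
        have := lt_of_mul_lt_mul_right this (by positivity)
        linarith
      have h3 : c * s ^ 2 * (1 - 2 * (c * R ^ 2)) ≤ c * N * (1 - 2 * q) := by
        apply mul_le_mul
        · exact mul_le_mul_of_nonneg_left hN1 hcpos.le
        · linarith
        · linarith
        · exact mul_nonneg hcpos.le (by nlinarith [sq_nonneg s])
      have h4 : c * s ^ 2 * (1 - 2 * (c * R ^ 2)) - (c * R ^ 2) ^ 2 = c * (s ^ 2 / 2) := by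
        rw [← hc2]
        have : c * s ^ 2 * (1 - 2 * (c * R ^ 2)) - (c * R ^ 2) ^ 2
          = c * (s ^ 2 - c * (2 * R ^ 2 * s ^ 2 + R ^ 4)) := by ring
        rw [this, hc2]
        ring
      have h5 : 0 < c * (s ^ 2 / 2) := by positivity
      linarith
    positivity
  refine ⟨tfun a c R, ?_, ?_, ?_, ⟨tfun a c R a, ?_⟩, ?_, hpos⟩
  · unfold tfun
    apply expNegInvGlue.contDiff.comp
    exact contDiff_const.mul (contDiff_const.sub ((contDiff_id.sub contDiff_const).norm_sq ℝ))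
  · intro x
    exact expNegInvGlue.nonneg _
  · intro x hx
    apply expNegInvGlue.zero_of_nonpos
    have : R ^ 2 ≤ ‖x - a‖ ^ 2 := pow_le_pow_left₀ hR.le hx 2
    exact mul_nonpos_of_nonneg_of_nonpos hcpos.le (by linarith)
  · intro x
    apply expNegInvGlue.monotone
    apply mul_le_mul_of_nonneg_left _ hcpos.le
    simp only [sub_self, norm_zero]
    nlinarith [sq_nonneg ‖x - a‖]
  · intro x hx
    rcases lt_or_ge ‖x - a‖ R with h | h
    · exact (hpos x hx h).le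
    · rw [tfun_lap a c R x _ rfl, expNegInvGlue.zero_of_nonpos]
      · simp
      · have : R ^ 2 ≤ ‖x - a‖ ^ 2 := pow_le_pow_left₀ hR.le h 2
        exact mul_nonpos_of_nonneg_of_nonpos hcpos.le (by linarith)

end Pool.Agent.Lib_MP_752436_gt
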