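import Pool.Agent.Lib_MP_752436_gt.Dual
import Pool.Agent.Lib_MP_752436_gt.TestFun
import Pool.Agent.Lib_MP_752436_gt.Shadow
import Pool.Agent.Lib_MP_752436_gt.Supp
import Pool.Agent.Lib_MP_752436_gt.NoTrap
import Pool.Agent.Lib_MP_752436_gt.Criterion

/-!
Trap duality: a slice disc with immersed projection is ribbon by a vertical isotopy if and only
if it has no trap.
-/

open MeasureTheory Metric Set
open scoped ContDiff ENNReal Topology

namespace Pool.Agent.Lib_MP_752436_gt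

theorem RibbonDisc.isRibbonDisc {G : EuclideanSpace ℝ (Fin 2) → EuclideanSpace ℝ (Fin 4)}
    (hG : RibbonDisc G) : IsRibbonDisc G := by
  have hs : ContDiff ℝ ∞ (height G) := (contDiff_euclidean.1 hG.slice.smooth) 3
  refine ⟨hG.slice, ?_, ?_, ?_⟩
  · intro x hx h0
    obtain ⟨u, hu⟩ := hG.neat x hx
    apply hu
    show fderiv ℝ (fun y => G y 3) x u = 0
    rw [h0]
    rfl
  · intro x hx h0 u hu
    obtain ⟨w, hw⟩ := hG.morse x hx (fun u => by
      show fderiv ℝ (fun y => G y 3) x u = 0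
      rw [h0]
      rfl) u hu
    exact ⟨w, by rw [dd_dd hs] at hw; exact hw⟩
  · intro x hx h0
    obtain ⟨u, hu⟩ := hG.noMin x hx (fun u => by
      show fderiv ℝ (fun y => G y 3) x u = 0
      rw [h0]
      rfl)
    exact ⟨u, by rw [dd_dd hs] at hu; exact hu⟩

/-- A superharmonic function which does not decrease upwards gives a ribbon disc. -/
theorem ribbon_of_superharmonic {F : EuclideanSpace ℝ (Fin 2) → EuclideanSpace ℝ (Fin 4)}
    (hF : IsSliceDisc F) (himm : ImmersedProjection F) {φ : EuclideanSpace ℝ (Fin 2) → ℝ}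
    (hφ : ContDiff ℝ ∞ φ)
    (hmono : ∀ x ∈ closedBall (0 : EuclideanSpace ℝ (Fin 2)) 1,
      ∀ y ∈ closedBall (0 : EuclideanSpace ℝ (Fin 2)) 1, Above F x y → φ y ≤ φ x)
    (hlap : ∀ x ∈ closedBall (0 : EuclideanSpace ℝ (Fin 2)) 1, lap φ x < 0) :
    ∃ G, IsRibbonDisc G ∧ (∀ x, ∀ i, i ≠ 3 → G x i = F x i) ∧
      ∀ s ∈ Icc (0 : ℝ) 1, IsSliceDisc (fun x => (1 - s) • F x + s • G x) := by
  refine ribbon_of_monotone hF hφ (fun x hx y hy hi h3 => hmono x hx y hy ⟨hi, h3⟩) ?_ ?_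
  · intro x hx u hi _
    have hu : u = 0 := by
      by_contra hu
      obtain ⟨i, hi3, hne⟩ := himm x hx u hu
      exact hne (hi i hi3)
    rw [hu, map_zero]
  · intro x hx _
    have h := hlap x hx
    unfold lap at h
    by_contra hcon
    push Not at hcon
    have h0 := hcon (EuclideanSpace.single 0 1)
    have h1 := hcon (EuclideanSpace.single 1 1)
    linarith

section lapalgebra

variable {φ ψ : EuclideanSpace ℝ (Fin 2) → ℝ}

theorem hasFDerivAt_fderiv (hφ : ContDiff ℝ ∞ φ) (x : EuclideanSpace ℝ (Fin 2)) :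
    HasFDerivAt (fderiv ℝ φ) (fderiv ℝ (fderiv ℝ φ) x) x :=
  (((hφ.fderiv_right (m := ∞) (by simp)).differentiable (by simp)) x).hasFDerivAt

theorem hasFDerivAt_self (hφ : ContDiff ℝ ∞ φ) (x : EuclideanSpace ℝ (Fin 2)) :
    HasFDerivAt φ (fderiv ℝ φ x) x :=
  ((hφ.differentiable (by simp)) x).hasFDerivAt

theorem lap_add (hφ : ContDiff ℝ ∞ φ) (hψ : ContDiff ℝ ∞ ψ) :
    lap (φ + ψ) = lap φ + lap ψ := by
  have h0 : fderiv ℝ (φ + ψ) = fderiv ℝ φ + fderiv ℝ ψ := by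
    funext z
    exact ((hasFDerivAt_self hφ z).add (hasFDerivAt_self hψ z)).fderiv
  funext x
  have h1 : fderiv ℝ (fderiv ℝ (φ + ψ)) x
      = fderiv ℝ (fderiv ℝ φ) x + fderiv ℝ (fderiv ℝ ψ) x := by
    rw [h0]
    exact ((hasFDerivAt_fderiv hφ x).add (hasFDerivAt_fderiv hψ x)).fderiv
  simp only [lap, Pi.add_apply, h1, ContinuousLinearMap.add_apply]
  ring

theorem lap_smul (c : ℝ) (hφ : ContDiff ℝ ∞ φ) : lap (c • φ) = c • lap φ := by
  have h0 : fderiv ℝ (c • φ) = c • fderiv ℝ φ := by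
    funext z
    exact ((hasFDerivAt_self hφ z).const_smul c).fderiv
  funext x
  have h1 : fderiv ℝ (fderiv ℝ (c • φ)) x = c • fderiv ℝ (fderiv ℝ φ) x := by
    rw [h0]
    exact ((hasFDerivAt_fderiv hφ x).const_smul c).fderiv
  simp only [lap, Pi.smul_apply, h1, ContinuousLinearMap.smul_apply, smul_eq_mul]
  ring

theorem continuous_lap (hφ : ContDiff ℝ ∞ φ) : Continuous (lap φ) := by
  have h : Continuous (fderiv ℝ (fderiv ℝ φ)) :=
    ((hφ.fderiv_right (m := ∞) (by simp)).fderiv_right (m := ∞) (by simp)).continuous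
  unfold lap
  fun_prop

theorem lap_eq_zero {x : EuclideanSpace ℝ (Fin 2)} (h : ∀ᶠ y in 𝓝 x, φ y = 0) :
    lap φ x = 0 := by
  have h1 : φ =ᶠ[𝓝 x] fun _ => 0 := h
  have h2 : fderiv ℝ φ =ᶠ[𝓝 x] fderiv ℝ (fun _ => (0 : ℝ)) := h1.fderiv
  have h3 : fderiv ℝ (fderiv ℝ φ) x
      = fderiv ℝ (fderiv ℝ (fun _ : EuclideanSpace ℝ (Fin 2) => (0 : ℝ))) x := h2.fderiv_eq
  have h4 : fderiv ℝ (fun _ : EuclideanSpace ℝ (Fin 2) => (0 : ℝ)) = 0 := by
    funext z
    simp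
  have h5 : fderiv ℝ (fderiv ℝ (fun _ : EuclideanSpace ℝ (Fin 2) => (0 : ℝ))) x = 0 := by
    rw [h4]
    exact (hasFDerivAt_const (0 : EuclideanSpace ℝ (Fin 2) →L[ℝ] ℝ) x).fderiv
  unfold lap
  rw [h3, h5]
  simp

end lapalgebra

/-- The main step: without a ribbon disc there is a trap. -/
theorem exists_trap {F : EuclideanSpace ℝ (Fin 2) → EuclideanSpace ℝ (Fin 4)}
    (hF : IsSliceDisc F) (himm : ImmersedProjection F)
    (hno : ¬ ∃ G, IsRibbonDisc G ∧ (∀ x, ∀ i, i ≠ 3 → G x i = F x i) ∧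
      ∀ s ∈ Icc (0 : ℝ) 1, IsSliceDisc (fun x => (1 - s) • F x + s • G x)) :
    ∃ Z, IsTrap F Z := by
  set A : Set (EuclideanSpace ℝ (Fin 2) → ℝ) := {g | ∃ φ : EuclideanSpace ℝ (Fin 2) → ℝ,
    ContDiff ℝ ∞ φ ∧ (∀ x ∈ closedBall (0 : EuclideanSpace ℝ (Fin 2)) 1,
      ∀ y ∈ closedBall (0 : EuclideanSpace ℝ (Fin 2)) 1, Above F x y → φ y ≤ φ x) ∧ g = lap φ}
    with hA
  have hAc : ∀ g ∈ A, Continuous g := by
    rintro g ⟨φ, hφ, _, rfl⟩
    exact continuous_lap hφ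
  have hAne : A.Nonempty :=
    ⟨lap (fun _ => 0), fun _ => 0, contDiff_const, fun _ _ _ _ _ => le_refl _, rfl⟩
  have hAadd : ∀ g ∈ A, ∀ h ∈ A, g + h ∈ A := by
    rintro g ⟨φ, hφ, hφm, rfl⟩ h ⟨ψ, hψ, hψm, rfl⟩
    refine ⟨φ + ψ, hφ.add hψ, ?_, (lap_add hφ hψ).symm⟩
    intro x hx y hy hxy
    exact add_le_add (hφm x hx y hy hxy) (hψm x hx y hy hxy)
  have hAsmul : ∀ c : ℝ, 0 ≤ c → ∀ g ∈ A, c • g ∈ A := by
    rintro c hc g ⟨φ, hφ, hφm, rfl⟩
    refine ⟨c • φ, contDiff_const.smul hφ, ?_, (lap_smul c hφ).symm⟩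
    intro x hx y hy hxy
    exact mul_le_mul_of_nonneg_left (hφm x hx y hy hxy) hc
  have hAno : ∀ g ∈ A, ∃ x ∈ closedBall (0 : EuclideanSpace ℝ (Fin 2)) 1, 0 ≤ g x := by
    rintro g ⟨φ, hφ, hφm, rfl⟩
    by_contra hcon
    push Not at hcon
    exact hno (ribbon_of_superharmonic hF himm hφ hφm hcon)
  obtain ⟨ν, hνf, hν0, hνK, hνA⟩ := exists_dual_measure
    (isCompact_closedBall (0 : EuclideanSpace ℝ (Fin 2)) 1) A hAc hAne hAadd hAsmul hAno
  obtain ⟨Z, hZc, hZne, hZK, _, hZpos⟩ := exists_support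
    (isCompact_closedBall (0 : EuclideanSpace ℝ (Fin 2)) 1) ν hν0 hνK
  have key : ∀ x₀ ∈ frontier Z, ∃ y ∈ Z, Above F x₀ y := by
    intro x₀ hx₀
    by_contra hcon
    push Not at hcon
    have hx₀Z : x₀ ∈ Z := by
      have := frontier_subset_closure hx₀
      rwa [hZc.isClosed.closure_eq] at this
    obtain ⟨r, hr, η, hη, hη0, hηm, hηr, hηZ⟩ := exists_shadow hF himm hZc hZK (hZK hx₀Z) hcon
    have hx₀c : x₀ ∈ closure Zᶜ := by
      have := hx₀
      rw [frontier_eq_closure_inter_closure] at this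
      exact this.2
    obtain ⟨a, haZ, hax⟩ := Metric.mem_closure_iff.1 hx₀c (r / 4) (by positivity)
    obtain ⟨s₀, hs₀, hball⟩ := Metric.isOpen_iff.1 hZc.isClosed.isOpen_compl a haZ
    have hsR : min s₀ (r / 4) < r / 2 := lt_of_le_of_lt (min_le_right _ _) (by linarith)
    have hs : 0 < min s₀ (r / 4) := by positivity
    obtain ⟨φ₀, hφ₀, hφ₀0, hφ₀R, ⟨M, hM⟩, hlap0, hlap1⟩ := exists_test a hs hsR
    have hM0 : 0 ≤ M := le_trans (hφ₀0 0) (hM 0)
    have hZs : ∀ z ∈ Z, min s₀ (r / 4) ≤ ‖z - a‖ := by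
      intro z hz
      by_contra hlt
      push Not at hlt
      have : z ∈ ball a s₀ := by
        rw [mem_ball, dist_eq_norm]
        exact lt_of_lt_of_le hlt (min_le_left _ _)
      exact hball this hz
    have hx₀a : ‖x₀ - a‖ < r / 2 := by
      rw [dist_eq_norm] at hax
      linarith
    set φ : EuclideanSpace ℝ (Fin 2) → ℝ := (-1 : ℝ) • φ₀ + (-M) • η with hφdef
    have hφ : ContDiff ℝ ∞ φ := (contDiff_const.smul hφ₀).add (contDiff_const.smul hη)
    have hφval : ∀ x, φ x = - φ₀ x - M * η x := by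
      intro x
      simp only [hφdef, Pi.add_apply, Pi.smul_apply, smul_eq_mul]
      ring
    have hlapφ : lap φ = (-1 : ℝ) • lap φ₀ + (-M) • lap η := by
      have e1 : ContDiff ℝ ∞ ((-1 : ℝ) • φ₀) := contDiff_const.smul hφ₀
      have e2 : ContDiff ℝ ∞ ((-M) • η) := contDiff_const.smul hη
      rw [hφdef, lap_add e1 e2, lap_smul _ hφ₀, lap_smul _ hη]
    have hlapZ : ∀ z ∈ Z, lap φ z = - lap φ₀ z := by
      intro z hz
      rw [hlapφ]
      simp only [Pi.add_apply, Pi.smul_apply, smul_eq_mul, lap_eq_zero (hηZ z hz)]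
      ring
    have hmem : lap φ ∈ A := by
      refine ⟨φ, hφ, ?_, rfl⟩
      intro x hx y hy hxy
      rw [hφval, hφval]
      by_cases hxr : x ∈ ball x₀ r
      · obtain ⟨h1, h2⟩ := hηr x hx hxr y hy hxy
        rw [h1, h2]
        have := hM x
        have := hφ₀0 y
        linarith
      · have hxa : r / 2 ≤ ‖x - a‖ := by
          rw [mem_ball, dist_eq_norm, not_lt] at hxr
          have h5 : ‖x - x₀‖ ≤ ‖x - a‖ + ‖x₀ - a‖ := by
            have h6 : x - x₀ = (x - a) - (x₀ - a) := by abel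
            rw [h6]
            exact norm_sub_le _ _
          linarith
        rw [hφ₀R x hxa]
        have h1 := hηm x y hxy
        have h2 := hφ₀0 y
        have h3 : M * η x ≤ M * η y := mul_le_mul_of_nonneg_left h1 hM0
        linarith
    have h1 := hνA _ hmem
    have h2 := hZpos (fun x => - lap φ x) (continuous_lap hφ).neg
      (fun z hz => by
        rw [hlapZ z hz, neg_neg]
        exact hlap0 z (hZs z hz))
      ⟨x₀, hx₀Z, by
        rw [hlapZ x₀ hx₀Z, neg_neg]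
        exact hlap1 x₀ (hZs x₀ hx₀Z) hx₀a⟩
    rw [integral_neg] at h2
    linarith
  refine ⟨Z, hZc, hZne, ?_, key⟩
  intro z hz
  by_contra hzb
  have hzf : z ∈ frontier Z := by
    rw [hZc.isClosed.frontier_eq]
    refine ⟨hz, fun hzi => hzb ?_⟩
    have := interior_mono hZK hzi
    rwa [interior_closedBall _ (one_ne_zero)] at this
  obtain ⟨y, hy, hzy⟩ := key z hzf
  have hzs : z ∈ sphere (0 : EuclideanSpace ℝ (Fin 2)) 1 :=
    (ball_or_sphere (hZK hz)).resolve_left hzb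
  have h1 := hF.boundary z hzs
  have h2 := height_nonneg hF (hZK hy)
  have h3 := hzy.2
  linarith

/-- Trap duality. -/
theorem trap_duality {F : EuclideanSpace ℝ (Fin 2) → EuclideanSpace ℝ (Fin 4)}
    (hF : IsSliceDisc F) (himm : ImmersedProjection F) :
    (∃ G, RibbonDisc G ∧ (∀ x, ∀ i, i ≠ 3 → G x i = F x i) ∧
      ∀ s ∈ Icc (0 : ℝ) 1, IsSliceDisc (fun x => (1 - s) • F x + s • G x)) ↔
    ¬ ∃ Z, IsTrap F Z := by
  constructor
  · rintro ⟨G, hG, hFG, hiso⟩ ⟨Z, hZ⟩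
    exact not_isTrap hG.isRibbonDisc hFG hiso hZ
  · intro hno
    by_contra hcon
    apply hno
    apply exists_trap hF himm
    rintro ⟨G, hG, hFG, hiso⟩
    exact hcon ⟨G, hG.ribbonDisc, hFG, hiso⟩

end Pool.Agent.Lib_MP_752436_gt
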