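import Pool.Agent.Lib_MP_752436_gt.Bump
import Pool.Agent.Lib_MP_752436_gt.Trap

open MeasureTheory Metric Set
open scoped ContDiff ENNReal Topology

namespace Pool.Agent.Lib_MP_752436_gt

theorem lap_finset_sum {P : Finset (EuclideanSpace ℝ (Fin 2))}
    {f : EuclideanSpace ℝ (Fin 2) → EuclideanSpace ℝ (Fin 2) → ℝ}
    (hf : ∀ p ∈ P, ContDiff ℝ ∞ (f p)) :
    lap (∑ p ∈ P, f p) = ∑ p ∈ P, lap (f p) := by
  induction P using Finset.induction_on with
  | empty =>
    simp only [Finset.sum_empty]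
    funext x
    exact lap_eq_zero (Filter.Eventually.of_forall fun y => rfl)
  | insert a P ha ih =>
    rw [Finset.sum_insert ha, Finset.sum_insert ha,
      lap_add (hf a (Finset.mem_insert_self _ _)), ih]
    · intro p hp
      exact hf p (Finset.mem_insert_of_mem hp)
    · have h1 : ContDiff ℝ ∞ (fun x => ∑ p ∈ P, f p x) :=
        ContDiff.sum fun p hp => hf p (Finset.mem_insert_of_mem hp)
      have h2 : (∑ p ∈ P, f p) = fun x => ∑ p ∈ P, f p x := by
        funext x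
        exact Finset.sum_apply _ _ _
      rw [h2]
      exact h1

/-- J2 (file Lowering.lean, uses J) -/
theorem exists_lowering {P : Finset (EuclideanSpace ℝ (Fin 2))} {ε R : ℝ} (hε : 0 < ε)
    (hεR : ε < R) (hsub : ∀ p ∈ P, closedBall p R ⊆ ball (0 : EuclideanSpace ℝ (Fin 2)) 1)
    (hdisj : ∀ p ∈ P, ∀ q ∈ P, p ≠ q → 2 * R < dist p q)
    {ψ : EuclideanSpace ℝ (Fin 2) → ℝ} (hψ : ContDiff ℝ ∞ ψ)
    (hlap : ∀ x ∈ closedBall (0 : EuclideanSpace ℝ (Fin 2)) 1, (∀ p ∈ P, ε ≤ dist x p) →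
      lap ψ x < 0) :
    ∃ (ψ' : EuclideanSpace ℝ (Fin 2) → ℝ) (P' : Finset (EuclideanSpace ℝ (Fin 2))),
      ContDiff ℝ ∞ ψ' ∧ (∀ x, ψ' x ≤ ψ x) ∧ (∀ x, (∀ p ∈ P, R ≤ dist x p) → ψ' x = ψ x) ∧
      P'.card ≤ P.card ∧
      (∀ x ∈ P', (∃ p ∈ P, dist x p < R) ∧ x ∈ ball (0 : EuclideanSpace ℝ (Fin 2)) 1 ∧
        ∀ u, u ≠ 0 → 0 < fderiv ℝ (fderiv ℝ ψ') x u u) ∧
      ∀ x ∈ closedBall (0 : EuclideanSpace ℝ (Fin 2)) 1, fderiv ℝ ψ' x = 0 →
        (∃ u, fderiv ℝ (fderiv ℝ ψ') x u u < 0) ∨ x ∈ P' := by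
  classical
  have hbump := fun p : EuclideanSpace ℝ (Fin 2) => exists_bump p hε hεR
  choose b hbs hb0 hbR hbl hbM using hbump
  have hM' := fun p : EuclideanSpace ℝ (Fin 2) => hbM p ψ hψ
  choose M hM0 hM using hM'
  have huniq : ∀ p, ∀ x ∈ closedBall p ε, ∀ y ∈ closedBall p ε,
      fderiv ℝ (fun z => ψ z - M p * b p z) x = 0 →
      fderiv ℝ (fun z => ψ z - M p * b p z) y = 0 → x = y := fun p => (hM p (M p) le_rfl).1
  have hposd : ∀ p, ∀ x ∈ closedBall p ε, fderiv ℝ (fun z => ψ z - M p * b p z) x = 0 →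
      ∀ u, u ≠ 0 → 0 < fderiv ℝ (fderiv ℝ (fun z => ψ z - M p * b p z)) x u u :=
    fun p => (hM p (M p) le_rfl).2
  set ψ' : EuclideanSpace ℝ (Fin 2) → ℝ := ψ + ∑ p ∈ P, (-(M p)) • b p with hψ'
  have hval : ∀ x, ψ' x = ψ x - ∑ p ∈ P, M p * b p x := by
    intro x
    simp only [hψ', Pi.add_apply, Finset.sum_apply, Pi.smul_apply, smul_eq_mul, neg_mul,
      Finset.sum_neg_distrib]
    ring
  have hterm : ∀ p ∈ P, ContDiff ℝ ∞ ((-(M p)) • b p) := fun p _ =>
    contDiff_const.smul (hbs p)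
  have hsum : ContDiff ℝ ∞ (∑ p ∈ P, (-(M p)) • b p) := by
    have h1 : ContDiff ℝ ∞ (fun x => ∑ p ∈ P, ((-(M p)) • b p) x) := ContDiff.sum hterm
    have h2 : (∑ p ∈ P, (-(M p)) • b p) = fun x => ∑ p ∈ P, ((-(M p)) • b p) x := by
      funext x
      exact Finset.sum_apply _ _ _
    rw [h2]
    exact h1
  have hs' : ContDiff ℝ ∞ ψ' := hψ.add hsum
  -- the local form
  have hloc : ∀ p ∈ P, ∀ x ∈ closedBall p ε, ψ' =ᶠ[𝓝 x] fun z => ψ z - M p * b p z := by
    intro p hp x hx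
    have hx' : dist x p ≤ ε := mem_closedBall.1 hx
    have hev : ∀ᶠ z in 𝓝 x, ∀ q ∈ P.erase p, b q z = 0 := by
      rw [Filter.eventually_all_finset]
      intro q hq
      have hqp : q ≠ p := Finset.ne_of_mem_erase hq
      have hqP := Finset.mem_of_mem_erase hq
      have h1 := hdisj q hqP p hp hqp
      have h2 : R < dist x q := by
        have h3 := dist_triangle q x p
        rw [dist_comm q x] at h3
        linarith
      have h4 : ∀ᶠ z in 𝓝 x, R < dist z q :=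
        (continuous_id.dist continuous_const).continuousAt.eventually (lt_mem_nhds h2)
      filter_upwards [h4] with z hz
      exact hbR q z (by rw [← dist_eq_norm]; exact hz.le)
    filter_upwards [hev] with z hz
    rw [hval, Finset.sum_eq_single_of_mem p hp]
    intro q hq hqp
    rw [hz q (Finset.mem_erase.2 ⟨hqp, hq⟩), mul_zero]
  have hfd : ∀ p ∈ P, ∀ x ∈ closedBall p ε,
      fderiv ℝ ψ' x = fderiv ℝ (fun z => ψ z - M p * b p z) x := fun p hp x hx =>
    (hloc p hp x hx).fderiv_eq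
  have hfdd : ∀ p ∈ P, ∀ x ∈ closedBall p ε,
      fderiv ℝ (fderiv ℝ ψ') x = fderiv ℝ (fderiv ℝ (fun z => ψ z - M p * b p z)) x :=
    fun p hp x hx => ((hloc p hp x hx).fderiv).fderiv_eq
  -- the choice of critical points
  have hch : ∀ p : EuclideanSpace ℝ (Fin 2), ∃ y : EuclideanSpace ℝ (Fin 2),
      (∃ x ∈ closedBall p ε, fderiv ℝ ψ' x = 0) → y ∈ closedBall p ε ∧ fderiv ℝ ψ' y = 0 := by
    intro p
    by_cases h : ∃ x ∈ closedBall p ε, fderiv ℝ ψ' x = 0
    · obtain ⟨x, hx, h0⟩ := h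
      exact ⟨x, fun _ => ⟨hx, h0⟩⟩
    · exact ⟨p, fun h' => absurd h' h⟩
  choose c hc using hch
  refine ⟨ψ', (P.filter fun p => ∃ x ∈ closedBall p ε, fderiv ℝ ψ' x = 0).image c, hs', ?_, ?_,
    ?_, ?_, ?_⟩
  · intro x
    rw [hval]
    have : 0 ≤ ∑ p ∈ P, M p * b p x :=
      Finset.sum_nonneg fun p _ => mul_nonneg (hM0 p) (hb0 p x)
    linarith
  · intro x hx
    rw [hval]
    have : ∑ p ∈ P, M p * b p x = 0 := by
      apply Finset.sum_eq_zero
      intro p hp
      rw [hbR p x (by rw [← dist_eq_norm]; exact hx p hp), mul_zero]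
    rw [this, sub_zero]
  · exact Finset.card_image_le.trans (Finset.card_filter_le _ _)
  · intro x hx
    obtain ⟨p, hp, rfl⟩ := Finset.mem_image.1 hx
    rw [Finset.mem_filter] at hp
    obtain ⟨hc1, hc2⟩ := hc p hp.2
    have hdist : dist (c p) p < R := lt_of_le_of_lt (mem_closedBall.1 hc1) hεR
    refine ⟨⟨p, hp.1, hdist⟩, hsub p hp.1 (mem_closedBall.2 hdist.le), ?_⟩
    intro u hu
    rw [hfdd p hp.1 _ hc1]
    apply hposd p _ hc1 _ u hu
    rw [← hfd p hp.1 _ hc1]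
    exact hc2
  · intro x hx h0
    by_cases hex : ∃ p ∈ P, dist x p ≤ ε
    · obtain ⟨p, hp, hxp⟩ := hex
      have hxp' : x ∈ closedBall p ε := mem_closedBall.2 hxp
      right
      have hh : ∃ x ∈ closedBall p ε, fderiv ℝ ψ' x = 0 := ⟨x, hxp', h0⟩
      obtain ⟨hc1, hc2⟩ := hc p hh
      refine Finset.mem_image.2 ⟨p, Finset.mem_filter.2 ⟨hp, hh⟩, ?_⟩
      apply huniq p _ hc1 _ hxp'
      · rw [← hfd p hp _ hc1]; exact hc2
      · rw [← hfd p hp _ hxp']; exact h0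
    · left
      push Not at hex
      have h1 := hlap x hx (fun p hp => (hex p hp).le)
      have h2 : lap ψ' x = lap ψ x + ∑ p ∈ P, (-(M p)) * lap (b p) x := by
        rw [hψ', lap_add hψ hsum, lap_finset_sum hterm]
        simp only [Pi.add_apply, Finset.sum_apply]
        congr 1
        apply Finset.sum_congr rfl
        intro p _
        rw [lap_smul _ (hbs p)]
        rfl
      have h3 : ∑ p ∈ P, (-(M p)) * lap (b p) x ≤ 0 := by
        apply Finset.sum_nonpos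
        intro p hp
        have h4 := hbl p x (by rw [← dist_eq_norm]; exact (hex p hp).le)
        have h5 := mul_nonneg (hM0 p) h4
        linarith
      have h6 : lap ψ' x < 0 := by rw [h2]; linarith
      unfold lap at h6
      by_contra hcon
      push Not at hcon
      have e0 := hcon (EuclideanSpace.single 0 1)
      have e1 := hcon (EuclideanSpace.single 1 1)
      linarith

end Pool.Agent.Lib_MP_752436_gt
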