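import Pool.Agent.Lib_MP_752436_gt.Trap

/-!
Superharmonic functions off a neighbourhood of finitely many points.
-/

open MeasureTheory Metric Set
open scoped ContDiff ENNReal Topology

namespace Pool.Agent.Lib_MP_752436_gt

/-- K (file SuperOff.lean): without traps inside the compact set `K` there is a function which does
not decrease upwards and is superharmonic on `K`. -/
theorem exists_superharmonic_off {F : EuclideanSpace ℝ (Fin 2) → EuclideanSpace ℝ (Fin 4)}
    (hF : IsSliceDisc F) (himm : ImmersedProjection F) {K : Set (EuclideanSpace ℝ (Fin 2))}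
    (hK : IsCompact K) (hKb : K ⊆ closedBall 0 1) (hno : ¬ ∃ Z, IsTrap F Z ∧ Z ⊆ K) :
    ∃ φ : EuclideanSpace ℝ (Fin 2) → ℝ, ContDiff ℝ ∞ φ ∧
      (∀ x ∈ closedBall (0 : EuclideanSpace ℝ (Fin 2)) 1,
        ∀ y ∈ closedBall (0 : EuclideanSpace ℝ (Fin 2)) 1, Above F x y → φ y ≤ φ x) ∧
      ∀ x ∈ K, lap φ x < 0 := by
  by_contra hcon0
  set A : Set (EuclideanSpace ℝ (Fin 2) → ℝ) := {g | ∃ φ : EuclideanSpace ℝ (Fin 2) → ℝ,
    ContDiff ℝ ∞ φ ∧ (∀ x ∈ closedBall (0 : EuclideanSpace ℝ (Fin 2)) 1,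
      ∀ y ∈ closedBall (0 : EuclideanSpace ℝ (Fin 2)) 1, Above F x y → φ y ≤ φ x) ∧ g = lap φ}
    with hA
  have hAc : ∀ g ∈ A, Continuous g := by
    rintro g ⟨φ, hφ, _, rfl⟩
    exact continuous_lap hφ
  have hAne : A.Nonempty :=
    ⟨lap (fun _ => 0), fun _ => 0, contDiff_const, fun _ _ _ _ _ => le_refl _, rfl⟩
  have hAadd : ∀ g ∈ A, ∀ h ∈ A, g + h ∈ A := by
    rintro g ⟨φ, hφ, hφm, rfl⟩ h ⟨ψ, hψ, hψm, rfl⟩
    refine ⟨φ + ψ, hφ.add hψ, ?_, (lap_add hφ hψ).symm⟩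
    intro x hx y hy hxy
    exact add_le_add (hφm x hx y hy hxy) (hψm x hx y hy hxy)
  have hAsmul : ∀ c : ℝ, 0 ≤ c → ∀ g ∈ A, c • g ∈ A := by
    rintro c hc g ⟨φ, hφ, hφm, rfl⟩
    refine ⟨c • φ, contDiff_const.smul hφ, ?_, (lap_smul c hφ).symm⟩
    intro x hx y hy hxy
    exact mul_le_mul_of_nonneg_left (hφm x hx y hy hxy) hc
  have hAno : ∀ g ∈ A, ∃ x ∈ K, 0 ≤ g x := by
    rintro g ⟨φ, hφ, hφm, rfl⟩
    by_contra hcon
    push Not at hcon
    exact hcon0 ⟨φ, hφ, hφm, hcon⟩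
  obtain ⟨ν, hνf, hν0, hνK, hνA⟩ := exists_dual_measure hK A hAc hAne hAadd hAsmul hAno
  obtain ⟨Z, hZc, hZne, hZK', _, hZpos⟩ := exists_support hK ν hν0 hνK
  have hZK : Z ⊆ closedBall (0 : EuclideanSpace ℝ (Fin 2)) 1 := hZK'.trans hKb
  have key : ∀ x₀ ∈ frontier Z, ∃ y ∈ Z, Above F x₀ y := by
    intro x₀ hx₀
    by_contra hcon
    push Not at hcon
    have hx₀Z : x₀ ∈ Z := by
      have := frontier_subset_closure hx₀
      rwa [hZc.isClosed.closure_eq] at this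
    obtain ⟨r, hr, η, hη, hη0, hηm, hηr, hηZ⟩ := exists_shadow hF himm hZc hZK (hZK hx₀Z) hcon
    have hx₀c : x₀ ∈ closure Zᶜ := by
      have := hx₀
      rw [frontier_eq_closure_inter_closure] at this
      exact this.2
    obtain ⟨a, haZ, hax⟩ := Metric.mem_closure_iff.1 hx₀c (r / 4) (by positivity)
    obtain ⟨s₀, hs₀, hball⟩ := Metric.isOpen_iff.1 hZc.isClosed.isOpen_compl a haZ
    have hsR : min s₀ (r / 4) < r / 2 := lt_of_le_of_lt (min_le_right _ _) (by linarith)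
    have hs : 0 < min s₀ (r / 4) := by positivity
    obtain ⟨φ₀, hφ₀, hφ₀0, hφ₀R, ⟨M, hM⟩, hlap0, hlap1⟩ := exists_test a hs hsR
    have hM0 : 0 ≤ M := le_trans (hφ₀0 0) (hM 0)
    have hZs : ∀ z ∈ Z, min s₀ (r / 4) ≤ ‖z - a‖ := by
      intro z hz
      by_contra hlt
      push Not at hlt
      have : z ∈ ball a s₀ := by
        rw [mem_ball, dist_eq_norm]
        exact lt_of_lt_of_le hlt (min_le_left _ _)
      exact hball this hz
    have hx₀a : ‖x₀ - a‖ < r / 2 := by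
      rw [dist_eq_norm] at hax
      linarith
    set φ : EuclideanSpace ℝ (Fin 2) → ℝ := (-1 : ℝ) • φ₀ + (-M) • η with hφdef
    have hφ : ContDiff ℝ ∞ φ := (contDiff_const.smul hφ₀).add (contDiff_const.smul hη)
    have hφval : ∀ x, φ x = - φ₀ x - M * η x := by
      intro x
      simp only [hφdef, Pi.add_apply, Pi.smul_apply, smul_eq_mul]
      ring
    have hlapφ : lap φ = (-1 : ℝ) • lap φ₀ + (-M) • lap η := by
      have e1 : ContDiff ℝ ∞ ((-1 : ℝ) • φ₀) := contDiff_const.smul hφ₀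
      have e2 : ContDiff ℝ ∞ ((-M) • η) := contDiff_const.smul hη
      rw [hφdef, lap_add e1 e2, lap_smul _ hφ₀, lap_smul _ hη]
    have hlapZ : ∀ z ∈ Z, lap φ z = - lap φ₀ z := by
      intro z hz
      rw [hlapφ]
      simp only [Pi.add_apply, Pi.smul_apply, smul_eq_mul, lap_eq_zero (hηZ z hz)]
      ring
    have hmem : lap φ ∈ A := by
      refine ⟨φ, hφ, ?_, rfl⟩
      intro x hx y hy hxy
      rw [hφval, hφval]
      by_cases hxr : x ∈ ball x₀ r
      · obtain ⟨h1, h2⟩ := hηr x hx hxr y hy hxy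
        rw [h1, h2]
        have := hM x
        have := hφ₀0 y
        linarith
      · have hxa : r / 2 ≤ ‖x - a‖ := by
          rw [mem_ball, dist_eq_norm, not_lt] at hxr
          have h5 : ‖x - x₀‖ ≤ ‖x - a‖ + ‖x₀ - a‖ := by
            have h6 : x - x₀ = (x - a) - (x₀ - a) := by abel
            rw [h6]
            exact norm_sub_le _ _
          linarith
        rw [hφ₀R x hxa]
        have h1 := hηm x y hxy
        have h2 := hφ₀0 y
        have h3 : M * η x ≤ M * η y := mul_le_mul_of_nonneg_left h1 hM0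
        linarith
    have h1 := hνA _ hmem
    have h2 := hZpos (fun x => - lap φ x) (continuous_lap hφ).neg
      (fun z hz => by
        rw [hlapZ z hz, neg_neg]
        exact hlap0 z (hZs z hz))
      ⟨x₀, hx₀Z, by
        rw [hlapZ x₀ hx₀Z, neg_neg]
        exact hlap1 x₀ (hZs x₀ hx₀Z) hx₀a⟩
    rw [integral_neg] at h2
    linarith
  refine hno ⟨Z, ⟨hZc, hZne, ?_, key⟩, hZK'⟩
  intro z hz
  by_contra hzb
  have hzf : z ∈ frontier Z := by
    rw [hZc.isClosed.frontier_eq]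
    refine ⟨hz, fun hzi => hzb ?_⟩
    have := interior_mono hZK hzi
    rwa [interior_closedBall _ (one_ne_zero)] at this
  obtain ⟨y, hy, hzy⟩ := key z hzf
  have hzs : z ∈ sphere (0 : EuclideanSpace ℝ (Fin 2)) 1 :=
    (ball_or_sphere (hZK hz)).resolve_left hzb
  have h1 := hF.boundary z hzs
  have h2 := height_nonneg hF (hZK hy)
  have h3 := hzy.2
  linarith

end Pool.Agent.Lib_MP_752436_gt
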