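import Pool.Agent.Lib_MP_752436_gt.Births
import Pool.Agent.Lib_MP_752436_gt.Lowering
import Pool.Agent.Lib_MP_752436_gt.SuperOff
import Pool.Agent.Lib_MP_752436_gt.Enclosed

open MeasureTheory Metric Set
open scoped ContDiff ENNReal Topology

namespace Pool.Agent.Lib_MP_752436_gt

/-- A common radius around finitely many points of an open set. -/
theorem exists_pierce_radius (P : Finset (EuclideanSpace ℝ (Fin 2)))
    {U : Set (EuclideanSpace ℝ (Fin 2))} (hU : IsOpen U) (hP : ∀ p ∈ P, p ∈ U) {δ : ℝ}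
    (hδ : 0 < δ) :
    ∃ R : ℝ, 0 < R ∧ R < δ ∧ (∀ p ∈ P, closedBall p R ⊆ U) ∧
      ∀ p ∈ P, ∀ q ∈ P, p ≠ q → 2 * R < dist p q := by
  have h1 : ∀ᶠ R in 𝓝[>] (0 : ℝ), ∀ p ∈ P, closedBall p R ⊆ U := by
    rw [Finset.eventually_all]
    intro p hp
    obtain ⟨r, hr, hrU⟩ := Metric.nhds_basis_closedBall.mem_iff.1 (hU.mem_nhds (hP p hp))
    filter_upwards [Ioo_mem_nhdsGT hr] with R hR
    exact (closedBall_subset_closedBall hR.2.le).trans hrU
  have h2 : ∀ᶠ R in 𝓝[>] (0 : ℝ), ∀ p ∈ P, ∀ q ∈ P, p ≠ q → 2 * R < dist p q := by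
    rw [Finset.eventually_all]
    intro p hp
    rw [Finset.eventually_all]
    intro q hq
    by_cases hpq : p = q
    · exact Filter.Eventually.of_forall fun R h => absurd hpq h
    · have hd : 0 < dist p q / 2 := by
        have := dist_pos.2 hpq
        positivity
      filter_upwards [Ioo_mem_nhdsGT hd] with R hR _
      linarith [hR.2]
  obtain ⟨R, hR⟩ := (h1.and (h2.and (Ioo_mem_nhdsGT hδ))).exists
  exact ⟨R, hR.2.2.1, hR.2.2.2, hR.1, hR.2.1⟩

/-- L (file Pierce.lean, uses C, J2, K, M1) -/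
theorem births_of_piercing {F : EuclideanSpace ℝ (Fin 2) → EuclideanSpace ℝ (Fin 4)}
    (hF : IsSliceDisc F) (himm : ImmersedProjection F)
    (P : Finset (EuclideanSpace ℝ (Fin 2))) (hP : ∀ p ∈ P, p ∉ upperSet F)
    (hpierce : ∀ Z, IsTrap F Z → ∃ p ∈ P, p ∈ Z) {δ : ℝ} (hδ : 0 < δ) :
    ∃ G, MorseDisc G ∧ (births G).encard ≤ P.card ∧
      (∀ x ∈ births G, ∃ p ∈ P, dist x p < δ) ∧ (∀ x, ∀ i, i ≠ 3 → G x i = F x i) ∧
      ∀ s ∈ Icc (0 : ℝ) 1, IsSliceDisc (fun x => (1 - s) • F x + s • G x) := by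
  classical
  set P0 : Finset (EuclideanSpace ℝ (Fin 2)) :=
    P.filter (fun p => p ∈ ball (0 : EuclideanSpace ℝ (Fin 2)) 1) with hP0
  have hUc := isCompact_upperSet hF himm
  obtain ⟨R, hR, hRδ, hRU, hRd⟩ := exists_pierce_radius P0
    (U := ball (0 : EuclideanSpace ℝ (Fin 2)) 1 \ upperSet F)
    (isOpen_ball.sdiff hUc.isClosed) (fun p hp => by
      rw [hP0, Finset.mem_filter] at hp
      exact ⟨hp.2, hP p hp.1⟩) (half_pos hδ)
  set K : Set (EuclideanSpace ℝ (Fin 2)) :=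
    closedBall (0 : EuclideanSpace ℝ (Fin 2)) 1 \ ⋃ p ∈ P0, ball p (R / 2) with hK
  have hKc : IsCompact K := (isCompact_closedBall _ _).diff
    (isOpen_biUnion fun p _ => isOpen_ball)
  have hKno : ¬ ∃ Z, IsTrap F Z ∧ Z ⊆ K := by
    rintro ⟨Z, hZ, hZK⟩
    obtain ⟨p, hp, hpZ⟩ := hpierce Z hZ
    have hp0 : p ∈ P0 := by
      rw [hP0, Finset.mem_filter]
      exact ⟨hp, hZ.sub hpZ⟩
    apply (hZK hpZ).2
    simp only [mem_iUnion]
    exact ⟨p, hp0, mem_ball_self (half_pos hR)⟩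
  obtain ⟨φ, hφ, hφmono, hφlap⟩ := exists_superharmonic_off hF himm hKc sdiff_subset hKno
  obtain ⟨ψ, P', hψ, hψle, hψeq, hcard, hP', hcrit⟩ := exists_lowering (P := P0) (half_pos hR)
    (half_lt_self hR) (fun p hp => (hRU p hp).trans sdiff_subset) hRd hφ (fun x hx hxp => by
      apply hφlap x
      refine ⟨hx, ?_⟩
      simp only [mem_iUnion, not_exists, mem_ball, not_lt]
      exact hxp)
  obtain ⟨G, hG, hGc, hGd, hGF, hGs⟩ := births_of_monotone hF hψ (fun x hx y hy hi h3 => by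
      have hxu : x ∈ upperSet F := ⟨hx, y, hy, hi, h3⟩
      have hxR : ∀ p ∈ P0, R ≤ dist x p := by
        intro p hp
        by_contra hlt
        push Not at hlt
        exact (hRU p hp (mem_closedBall.2 hlt.le)).2 hxu
      rw [hψeq x hxR]
      exact (hψle y).trans (hφmono x hx y hy ⟨hi, h3⟩))
    (fun x hx u hi _ => by
      have hu : u = 0 := by
        by_contra hu
        obtain ⟨i, hi3, hne⟩ := himm x hx u hu
        exact hne (hi i hi3)
      rw [hu, map_zero]) P' (fun p hp => ⟨(hP' p hp).2.1, (hP' p hp).2.2⟩) hcrit (half_pos hδ)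
  refine ⟨G, hG, hGc.trans ?_, ?_, hGF, hGs⟩
  · have h1 : P'.card ≤ P.card := hcard.trans (Finset.card_filter_le _ _)
    exact_mod_cast h1
  · intro x hx
    obtain ⟨p', hp', hxp'⟩ := hGd x hx
    obtain ⟨p, hp, hpp⟩ := (hP' p' hp').1
    refine ⟨p, (Finset.mem_filter.1 hp).1, ?_⟩
    have := dist_triangle x p' p
    linarith

end Pool.Agent.Lib_MP_752436_gt
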