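import Pool.Agent.Lib_MP_752436_gt.Diagram
import Pool.Agent.Lib_MP_752436_gt.Pierce

/-!
The least number of births of the slice discs with a given diagram is the least number of points
which meet all traps.
-/

open MeasureTheory Metric Set
open scoped ContDiff ENNReal Topology

namespace Pool.Agent.Lib_MP_752436_gt

/-- A common radius for finitely many points of an open set. -/
theorem exists_radius_of_finset (P : Finset (EuclideanSpace ℝ (Fin 2)))
    {W : Set (EuclideanSpace ℝ (Fin 2))} (hW : IsOpen W) (hP : ∀ p ∈ P, p ∈ W) :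
    ∃ R : ℝ, 0 < R ∧ ∀ p ∈ P, closedBall p R ⊆ W := by
  classical
  induction P using Finset.induction_on with
  | empty => exact ⟨1, one_pos, by simp⟩
  | insert q P hq ih =>
    obtain ⟨R, hR, hsub⟩ := ih (fun p hp => hP p (Finset.mem_insert_of_mem hp))
    obtain ⟨r, hr, hr2⟩ := Metric.isOpen_iff.1 hW q (hP q (Finset.mem_insert_self q P))
    refine ⟨min R (r / 2), lt_min hR (half_pos hr), ?_⟩
    intro p hp
    rcases Finset.mem_insert.1 hp with rfl | hp
    · intro x hx
      apply hr2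
      rw [mem_closedBall] at hx
      rw [mem_ball]
      have := min_le_right R (r / 2)
      linarith
    · exact (closedBall_subset_closedBall (min_le_left _ _)).trans (hsub p hp)

section

variable {f : EuclideanSpace ℝ (Fin 2) → EuclideanSpace ℝ (Fin 3)}
  {R : EuclideanSpace ℝ (Fin 2) → EuclideanSpace ℝ (Fin 2) → Prop}

/-- If no trap consists of upper points then there is a smooth function which increases strictly
upwards. -/
theorem exists_strict_mono_of_upper (hR : CrossingInfo f R)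
    (hno : ¬ ∃ Z, IsTrapOf R Z ∧ ∀ z ∈ Z, ∃ y, R z y) :
    ∃ φ : EuclideanSpace ℝ (Fin 2) → ℝ, ContDiff ℝ ∞ φ ∧ ∀ x y, R x y → φ y < φ x := by
  classical
  by_contra hcon
  push Not at hcon
  set A : Set (EuclideanSpace ℝ (Fin 2) × EuclideanSpace ℝ (Fin 2) → ℝ) :=
    {g | ∃ φ : EuclideanSpace ℝ (Fin 2) → ℝ, ContDiff ℝ ∞ φ ∧ g = fun p => φ p.2 - φ p.1}
    with hA
  have hc : ∀ g ∈ A, Continuous g := by
    rintro g ⟨φ, hφ, rfl⟩
    have := hφ.continuous
    fun_prop
  have hne : A.Nonempty := ⟨_, fun _ => 0, contDiff_const, rfl⟩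
  have hadd : ∀ g ∈ A, ∀ h ∈ A, g + h ∈ A := by
    rintro g ⟨φ, hφ, rfl⟩ h ⟨ψ, hψ, rfl⟩
    refine ⟨φ + ψ, hφ.add hψ, ?_⟩
    funext p
    simp only [Pi.add_apply]
    ring
  have hsmul : ∀ c : ℝ, 0 ≤ c → ∀ g ∈ A, c • g ∈ A := by
    rintro c _ g ⟨φ, hφ, rfl⟩
    refine ⟨c • φ, contDiff_const.smul hφ, ?_⟩
    funext p
    simp only [Pi.smul_apply, smul_eq_mul]
    ring
  have hex : ∀ g ∈ A, ∃ p ∈ relSet R, 0 ≤ g p := by
    rintro g ⟨φ, hφ, rfl⟩
    obtain ⟨x, y, hxy, hle⟩ := hcon φ hφ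
    exact ⟨(x, y), hxy, by simpa using hle⟩
  obtain ⟨ν, hνf, hν0, hνK, hνA⟩ := exists_dual_measure_gen (isCompact_relSet hR) A hc hne hadd
    hsmul hex
  obtain ⟨S, hSc, hSne, hSK, _, hSpos⟩ := exists_support_gen (isCompact_relSet hR) ν hν0 hνK
  have hzero : ∀ φ : EuclideanSpace ℝ (Fin 2) → ℝ, ContDiff ℝ ∞ φ →
      ¬ ((∀ p ∈ S, 0 ≤ φ p.2 - φ p.1) ∧ ∃ p ∈ S, 0 < φ p.2 - φ p.1) := by
    rintro φ hφ ⟨h1, h2⟩
    have hcφ := hφ.continuous
    have e1 := hSpos (fun p => φ p.2 - φ p.1) (by fun_prop) h1 h2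
    have e2 := hνA (fun p => (-φ) p.2 - (-φ) p.1) ⟨-φ, hφ.neg, rfl⟩
    have e3 : (fun p : EuclideanSpace ℝ (Fin 2) × EuclideanSpace ℝ (Fin 2) =>
        (-φ) p.2 - (-φ) p.1) = fun p => -(φ p.2 - φ p.1) := by
      funext p
      simp only [Pi.neg_apply]
      ring
    rw [e3, integral_neg] at e2
    linarith
  -- every second coordinate is a first coordinate
  have hfs : ∀ p ∈ S, p.2 ∈ Prod.fst '' S := by
    rintro ⟨x, y⟩ hxy
    by_contra hynot
    have hcl : IsClosed (Prod.fst '' S) := (hSc.image continuous_fst).isClosed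
    obtain ⟨φ, hφs, _, hφ, hφr, hφy⟩ :
        ∃ φ : EuclideanSpace ℝ (Fin 2) → ℝ, tsupport φ ⊆ (Prod.fst '' S)ᶜ ∧
          HasCompactSupport φ ∧ ContDiff ℝ ∞ φ ∧ range φ ⊆ Icc 0 1 ∧ φ y = 1 :=
      exists_contDiff_tsupport_subset (n := ⊤) (hcl.isOpen_compl.mem_nhds hynot)
    have h0 : ∀ p ∈ S, φ p.1 = 0 := by
      intro p hp
      by_contra hne0
      have : p.1 ∈ tsupport φ := subset_tsupport _ hne0
      exact hφs this ⟨p, hp, rfl⟩
    refine hzero φ hφ ⟨fun p hp => ?_, (x, y), hxy, ?_⟩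
    · rw [h0 p hp, sub_zero]
      exact (hφr ⟨_, rfl⟩).1
    · rw [h0 _ hxy]
      simp only []
      rw [hφy]
      norm_num
  apply hno
  refine ⟨Prod.snd '' S, ⟨hSc.image continuous_snd, hSne.image _, ?_, ?_⟩, ?_⟩
  · rintro _ ⟨p, hp, rfl⟩
    obtain ⟨q, hq, hqp⟩ := hfs p hp
    have := (hR.double q.1 q.2 (hSK hq)).1
    rwa [hqp] at this
  · intro x hx
    have hxS : x ∈ Prod.snd '' S := by
      have := frontier_subset_closure hx
      rwa [(hSc.image continuous_snd).isClosed.closure_eq] at this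
    obtain ⟨p, hp, rfl⟩ := hxS
    obtain ⟨q, hq, hqp⟩ := hfs p hp
    refine ⟨q.2, ⟨q, hq, rfl⟩, ?_⟩
    have := hSK hq
    rw [← hqp]
    exact this
  · rintro _ ⟨p, hp, rfl⟩
    obtain ⟨q, hq, hqp⟩ := hfs p hp
    refine ⟨q.2, ?_⟩
    have := hSK hq
    rw [← hqp]
    exact this

/-- The construction of a slice disc from a crossing information without traps of upper points. -/
theorem exists_slice_lift_of_upper (hf : ContDiff ℝ ∞ f)
    (himm : ∀ x ∈ closedBall (0 : EuclideanSpace ℝ (Fin 2)) 1, Function.Injective (fderiv ℝ f x))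
    (hR : CrossingInfo f R) (hno : ¬ ∃ Z, IsTrapOf R Z ∧ ∀ z ∈ Z, ∃ y, R z y) :
    ∃ F, IsSliceDisc F ∧ (∀ x, shadow F x = f x) ∧ ∀ x y, R x y → F y 3 < F x 3 := by
  obtain ⟨φ, hφ, hmono⟩ := exists_strict_mono_of_upper hR hno
  obtain ⟨M, hM⟩ := (isCompact_closedBall (0 : EuclideanSpace ℝ (Fin 2))
    1).exists_bound_of_continuousOn (hφ.continuous.continuousOn)
  have hM' : ∀ x ∈ closedBall (0 : EuclideanSpace ℝ (Fin 2)) 1, 0 < φ x + (M + 1) := by
    intro x hx
    have := abs_le.1 (hM x hx)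
    linarith [this.1]
  -- the upper points stay away from the circle
  have hUc : IsCompact (Prod.fst '' relSet R) := (isCompact_relSet hR).image continuous_fst
  obtain ⟨ρ, hρ0, hρ1, hρ⟩ : ∃ ρ : ℝ, 0 ≤ ρ ∧ ρ < 1 ∧ ∀ x y, R x y → ‖x‖ ≤ ρ := by
    rcases (Prod.fst '' relSet R).eq_empty_or_nonempty with h0 | h0
    · refine ⟨0, le_refl _, one_pos, fun x y hxy => ?_⟩
      have : x ∈ Prod.fst '' relSet R := ⟨(x, y), hxy, rfl⟩
      rw [h0] at this
      exact absurd this (notMem_empty x)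
    · obtain ⟨z, hz, hzmax⟩ := hUc.exists_isMaxOn h0 (continuous_norm.continuousOn)
      refine ⟨‖z‖, norm_nonneg _, ?_, fun x y hxy => hzmax ⟨(x, y), hxy, rfl⟩⟩
      obtain ⟨⟨a, b⟩, hab, rfl⟩ := hz
      have := (hR.double a b hab).1
      simpa using this
  have hρ2 : 0 < 1 - ρ ^ 2 := by nlinarith
  set χ : EuclideanSpace ℝ (Fin 2) → ℝ :=
    fun x => Real.smoothTransition ((1 - ‖x‖ ^ 2) / (1 - ρ ^ 2)) with hχ
  have hχs : ContDiff ℝ ∞ χ :=
    Real.smoothTransition.contDiff.comp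
      ((contDiff_const.sub (contDiff_id.norm_sq ℝ)).div_const _)
  have hχ1 : ∀ x, ‖x‖ ≤ ρ → χ x = 1 := by
    intro x hx
    apply Real.smoothTransition.one_of_one_le
    rw [le_div_iff₀ hρ2]
    have : ‖x‖ ^ 2 ≤ ρ ^ 2 := by
      have := norm_nonneg x
      nlinarith
    linarith
  have hχle : ∀ x, χ x ≤ 1 := fun x => Real.smoothTransition.le_one _
  have hχ0 : ∀ x, 0 ≤ χ x := fun x => Real.smoothTransition.nonneg _
  have hχpos : ∀ x ∈ ball (0 : EuclideanSpace ℝ (Fin 2)) 1, 0 < χ x := by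
    intro x hx
    apply Real.smoothTransition.pos_of_pos
    have hx1 : ‖x‖ < 1 := by simpa using hx
    have : ‖x‖ ^ 2 < 1 := by
      have := norm_nonneg x
      nlinarith
    exact div_pos (by linarith) hρ2
  have hχs0 : ∀ x ∈ sphere (0 : EuclideanSpace ℝ (Fin 2)) 1, χ x = 0 := by
    intro x hx
    apply Real.smoothTransition.zero_of_nonpos
    have hx1 : ‖x‖ = 1 := by simpa using hx
    rw [hx1]
    simp
  set t : EuclideanSpace ℝ (Fin 2) → ℝ := fun x => χ x * (φ x + (M + 1)) with ht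
  have hts : ContDiff ℝ ∞ t := hχs.mul (hφ.add contDiff_const)
  have htR : ∀ x y, R x y → t y < t x := by
    intro x y hxy
    obtain ⟨_, hy, _, _⟩ := hR.double x y hxy
    have e1 : t x = φ x + (M + 1) := by
      simp only [ht]
      rw [hχ1 x (hρ x y hxy), one_mul]
    have e2 : t y ≤ φ y + (M + 1) := by
      simp only [ht]
      have := hM' y hy
      have := hχle y
      nlinarith
    have := hmono x y hxy
    linarith
  refine ⟨graphDisc f t, ⟨contDiff_graphDisc hf hts, ?_, ?_, ?_, ?_⟩, shadow_graphDisc t,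
    fun x y hxy => htR x y hxy⟩
  · intro x hx y hy hxy
    by_contra hne
    have h3 : t x = t y := congrArg (fun v : EuclideanSpace ℝ (Fin 4) => v 3) hxy
    have hfxy : f x = f y := by
      rw [← shadow_graphDisc (f := f) t x, ← shadow_graphDisc (f := f) t y]
      unfold shadow
      rw [hxy]
    rcases hR.total x hx y hy hne hfxy with h | h
    · exact absurd h3 (htR x y h).ne'
    · exact absurd h3 (htR y x h).ne
  · intro x hx u w huw
    apply himm x hx
    have hG := contDiff_graphDisc hf hts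
    ext k
    have hk : ∀ i : Fin 3, ∀ j : Fin 4, (fun x => f x i) = (fun x => graphDisc f t x j) →
        fderiv ℝ f x u i = fderiv ℝ f x w i := by
      intro i j hij
      have e0 : ∀ v, fderiv ℝ (fun x => f x i) x v = fderiv ℝ f x v i := by
        intro v
        have h1 : HasFDerivAt f (fderiv ℝ f x) x :=
          ((hf.differentiable (by simp)) x).hasFDerivAt
        have h2 := (EuclideanSpace.proj i : EuclideanSpace ℝ (Fin 3) →L[ℝ] ℝ).hasFDerivAt.comp
          x h1
        have h3 : fderiv ℝ (fun x => f x i) x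
            = (EuclideanSpace.proj i : EuclideanSpace ℝ (Fin 3) →L[ℝ] ℝ).comp (fderiv ℝ f x) :=
          h2.fderiv
        rw [h3]
        rfl
      rw [← e0, ← e0, hij, fderiv_coord hG, fderiv_coord hG, huw]
    fin_cases k
    · exact hk 0 0 rfl
    · exact hk 1 1 rfl
    · exact hk 2 2 rfl
  · intro x hx
    show t x = 0
    simp only [ht]
    rw [hχs0 x hx, zero_mul]
  · intro x hx
    show 0 < t x
    exact mul_pos (hχpos x hx) (hM' x (ball_subset_closedBall hx))

/-- The projection of a lift of an immersion is an immersion. -/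
theorem immersedProjection_of_shadow (hf : ContDiff ℝ ∞ f)
    (himm : ∀ x ∈ closedBall (0 : EuclideanSpace ℝ (Fin 2)) 1, Function.Injective (fderiv ℝ f x))
    {F : EuclideanSpace ℝ (Fin 2) → EuclideanSpace ℝ (Fin 4)} (hF : ContDiff ℝ ∞ F)
    (hFf : ∀ x, shadow F x = f x) : ImmersedProjection F := by
  have hcoord : ∀ x, ∀ i : Fin 3, ∀ j : Fin 4, (∀ v : EuclideanSpace ℝ (Fin 2),
      shadow F v i = F v j) → ∀ u, fderiv ℝ F x u j = fderiv ℝ f x u i := by
    intro x i j hij u
    rw [← fderiv_coord hF]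
    have e1 : (fun y => F y j) = fun y => f y i := by
      funext y
      rw [← hij y, hFf]
    rw [e1]
    have h1 : HasFDerivAt f (fderiv ℝ f x) x := ((hf.differentiable (by simp)) x).hasFDerivAt
    have h2 := (EuclideanSpace.proj i : EuclideanSpace ℝ (Fin 3) →L[ℝ] ℝ).hasFDerivAt.comp x h1
    have h3 : fderiv ℝ (fun x => f x i) x
        = (EuclideanSpace.proj i : EuclideanSpace ℝ (Fin 3) →L[ℝ] ℝ).comp (fderiv ℝ f x) :=
      h2.fderiv
    rw [h3]
    rfl
  intro x hx u hu
  by_contra hcon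
  push Not at hcon
  apply hu
  apply himm x hx
  rw [map_zero]
  ext k
  fin_cases k
  · exact (hcoord x 0 0 (fun v => rfl) u).symm.trans (hcon 0 (by decide))
  · exact (hcoord x 1 1 (fun v => rfl) u).symm.trans (hcon 1 (by decide))
  · exact (hcoord x 2 2 (fun v => rfl) u).symm.trans (hcon 2 (by decide))

/-- O: the least number of births of the lifts of a diagram is the least number of points, not
upper, which meet all traps. -/
theorem diagram_births (hf : ContDiff ℝ ∞ f)
    (himm : ∀ x ∈ closedBall (0 : EuclideanSpace ℝ (Fin 2)) 1, Function.Injective (fderiv ℝ f x))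
    (hR : CrossingInfo f R) (n : ℕ) :
    (∃ G, MorseDisc G ∧ (births G).encard ≤ n ∧ (∀ x ∈ births G, ∀ y, ¬ R x y) ∧
      (∀ x, shadow G x = f x) ∧ ∀ x y, R x y → G y 3 < G x 3) ↔
    ∃ P : Set (EuclideanSpace ℝ (Fin 2)), P.encard ≤ n ∧ (∀ p ∈ P, ∀ y, ¬ R p y) ∧
      ∀ Z, IsTrapOf R Z → (Z ∩ P).Nonempty := by
  classical
  constructor
  · rintro ⟨G, hG, hn, hup, hGf, hGR⟩
    refine ⟨births G, hn, hup, ?_⟩
    intro Z hZ
    have hs : ContDiff ℝ ∞ (height G) := (contDiff_euclidean.1 hG.slice.smooth) 3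
    obtain ⟨z, hz, hmin⟩ := hZ.compact.exists_isMinOn hZ.nonempty hs.continuous.continuousOn
    have hfr : z ∉ frontier Z := by
      intro hfr
      obtain ⟨y, hy, hab⟩ := hZ.above z hfr
      have h1 := hGR z y hab
      have h2 : G z 3 ≤ G y 3 := hmin hy
      linarith
    have hint : z ∈ interior Z := by
      by_contra hni
      exact hfr ⟨subset_closure hz, hni⟩
    refine ⟨z, hz, hZ.sub hz, ?_⟩
    filter_upwards [mem_interior_iff_mem_nhds.1 hint] with y hy
    exact hmin hy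
  · rintro ⟨P, hn, hup, hmeet⟩
    have hno : ¬ ∃ Z, IsTrapOf R Z ∧ ∀ z ∈ Z, ∃ y, R z y := by
      rintro ⟨Z, hZ, hZu⟩
      obtain ⟨p, hpZ, hpP⟩ := hmeet Z hZ
      obtain ⟨y, hy⟩ := hZu p hpZ
      exact hup p hpP y hy
    obtain ⟨F, hF, hFf, hFR⟩ := exists_slice_lift_of_upper hf himm hR hno
    have himmF := immersedProjection_of_shadow hf himm hF.smooth hFf
    have habove : ∀ x ∈ closedBall (0 : EuclideanSpace ℝ (Fin 2)) 1,
        ∀ y ∈ closedBall (0 : EuclideanSpace ℝ (Fin 2)) 1, Above F x y → R x y := by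
      intro x hx y hy hxy
      have hne : x ≠ y := by
        rintro rfl
        exact lt_irrefl _ hxy.2
      have hfxy : f x = f y := by
        rw [← hFf x, ← hFf y]
        exact shadow_eq_iff.2 hxy.1
      rcases hR.total x hx y hy hne hfxy with h | h
      · exact h
      · have h1 := hFR y x h
        have h2 := hxy.2
        linarith
    have habove' : ∀ x y, R x y → Above F x y := by
      intro x y hxy
      obtain ⟨_, _, _, h4⟩ := hR.double x y hxy
      refine ⟨?_, hFR x y hxy⟩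
      rw [← shadow_eq_iff, hFf, hFf]
      exact h4
    have htrap : ∀ Z, IsTrap F Z → IsTrapOf R Z := by
      intro Z hZ
      refine ⟨hZ.compact, hZ.nonempty, hZ.sub, ?_⟩
      intro x hx
      obtain ⟨y, hy, hxy⟩ := hZ.above x hx
      have hxZ : x ∈ Z := by
        have := frontier_subset_closure hx
        rwa [hZ.compact.isClosed.closure_eq] at this
      exact ⟨y, hy, habove x (ball_subset_closedBall (hZ.sub hxZ)) y
        (ball_subset_closedBall (hZ.sub hy)) hxy⟩
    have hUR : ∀ x, x ∈ upperSet F → ∃ y, R x y := by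
      rintro x ⟨hx, y, hy, hxy⟩
      exact ⟨y, habove x hx y hy hxy⟩
    have hRU : ∀ x y, R x y → x ∈ upperSet F := by
      intro x y hxy
      obtain ⟨h1, h2, _, _⟩ := hR.double x y hxy
      exact ⟨ball_subset_closedBall h1, y, h2, habove' x y hxy⟩
    have hfin : P.Finite := Set.finite_of_encard_le_coe hn
    have hUc := isCompact_upperSet hF himmF
    have hPU : ∀ p ∈ hfin.toFinset, p ∈ (upperSet F)ᶜ := by
      intro p hp hpU
      rw [Set.Finite.mem_toFinset] at hp
      obtain ⟨y, hy⟩ := hUR p hpU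
      exact hup p hp y hy
    obtain ⟨δ, hδ, hδW⟩ := exists_radius_of_finset hfin.toFinset
      hUc.isClosed.isOpen_compl hPU
    obtain ⟨G, h1, h2, h3, h4, h5⟩ := births_of_piercing hF himmF hfin.toFinset
      (fun p hp => hPU p hp)
      (by
        intro Z hZ
        obtain ⟨p, hpZ, hpP⟩ := hmeet Z (htrap Z hZ)
        exact ⟨p, by rwa [Set.Finite.mem_toFinset], hpZ⟩) hδ
    refine ⟨G, h1, ?_, ?_, ?_, ?_⟩
    · refine h2.trans ?_
      rw [← Set.encard_coe_eq_coe_finsetCard, Set.Finite.coe_toFinset]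
      exact hn
    · intro x hx y hxy
      obtain ⟨p, hp, hxp⟩ := h3 x hx
      exact hδW p hp (mem_closedBall.2 hxp.le) (hRU x y hxy)
    · intro x
      rw [← hFf x]
      ext k
      fin_cases k
      · exact h4 x 0 (by decide)
      · exact h4 x 1 (by decide)
      · exact h4 x 2 (by decide)
    · intro x y hxy
      obtain ⟨e1, e2, _, _⟩ := hR.double x y hxy
      exact noTrap_above h4 h5 (ball_subset_closedBall e1) e2 (habove' x y hxy)

end

end Pool.Agent.Lib_MP_752436_gt
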