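import Mathlib

open MeasureTheory Metric Set
open scoped ContDiff ENNReal Topology

namespace Pool.Agent.Lib_MP_752436_gt

/-- dyadic cell of order `k` containing `x` -/
noncomputable def dcell (k : ℕ) (x : EuclideanSpace ℝ (Fin 2)) : ℤ × ℤ :=
  (⌊(2 : ℝ) ^ k * x 0⌋, ⌊(2 : ℝ) ^ k * x 1⌋)

theorem dcell_measurable (k : ℕ) : Measurable (dcell k) := by
  unfold dcell
  refine Measurable.prodMk ?_ ?_
  · exact Int.measurable_floor.comp (by fun_prop)
  · exact Int.measurable_floor.comp (by fun_prop)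

theorem floor_two {b c : ℝ} (h : ⌊2 * b⌋ = ⌊2 * c⌋) : ⌊b⌋ = ⌊c⌋ := by
  have key : ∀ d : ℝ, ⌊d⌋ = ⌊2 * d⌋ / 2 := by
    intro d
    have h1 := Int.floor_le d
    have h2 := Int.lt_floor_add_one d
    have h3 := Int.floor_le (2 * d)
    have h4 := Int.lt_floor_add_one (2 * d)
    have h5 : 2 * ⌊d⌋ ≤ ⌊2 * d⌋ := by
      rw [Int.le_floor]
      push_cast
      linarith
    have h6 : ⌊2 * d⌋ < 2 * ⌊d⌋ + 2 := by
      have : ((⌊2 * d⌋ : ℤ) : ℝ) < ((2 * ⌊d⌋ + 2 : ℤ) : ℝ) := by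
        push_cast
        linarith
      exact_mod_cast this
    omega
  rw [key b, key c, h]

theorem dcell_succ {k : ℕ} {x y : EuclideanSpace ℝ (Fin 2)} (h : dcell (k + 1) x = dcell (k + 1) y) :
    dcell k x = dcell k y := by
  unfold dcell at *
  rw [Prod.mk.injEq] at *
  constructor
  · apply floor_two
    rw [← mul_assoc, ← mul_assoc, ← pow_succ']
    exact h.1
  · apply floor_two
    rw [← mul_assoc, ← mul_assoc, ← pow_succ']
    exact h.2

theorem floor_sep {a b : ℝ} (h : a ≠ b) : ∀ᶠ k : ℕ in Filter.atTop,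
    ⌊(2 : ℝ) ^ k * a⌋ ≠ ⌊(2 : ℝ) ^ k * b⌋ := by
  have hpos : 0 < |a - b| := abs_pos.2 (sub_ne_zero.2 h)
  have h1 : ∀ᶠ k : ℕ in Filter.atTop, 1 / |a - b| < (2 : ℝ) ^ k :=
    (tendsto_pow_atTop_atTop_of_one_lt one_lt_two).eventually_gt_atTop _
  filter_upwards [h1] with k hk heq
  have h2 := Int.abs_sub_lt_one_of_floor_eq_floor heq
  rw [← mul_sub, abs_mul, abs_of_pos (by positivity)] at h2
  rw [div_lt_iff₀ hpos] at hk
  linarith

theorem dcell_sep {x y : EuclideanSpace ℝ (Fin 2)} (h : x ≠ y) :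
    ∀ᶠ k : ℕ in Filter.atTop, dcell k x ≠ dcell k y := by
  have h' : x 0 ≠ y 0 ∨ x 1 ≠ y 1 := by
    by_contra hc
    push Not at hc
    apply h
    ext i
    fin_cases i
    · exact hc.1
    · exact hc.2
  rcases h' with h' | h'
  · filter_upwards [floor_sep h'] with k hk he
    exact hk (congrArg Prod.fst he)
  · filter_upwards [floor_sep h'] with k hk he
    exact hk (congrArg Prod.snd he)

theorem dcell_injOn (s : Finset (EuclideanSpace ℝ (Fin 2))) :
    ∃ k : ℕ, Set.InjOn (dcell k) (s : Set (EuclideanSpace ℝ (Fin 2))) := by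
  classical
  have h : ∀ᶠ k : ℕ in Filter.atTop, ∀ p ∈ s.offDiag, dcell k p.1 ≠ dcell k p.2 := by
    rw [Filter.eventually_all_finset]
    intro p hp
    exact dcell_sep (Finset.mem_offDiag.1 hp).2.2
  obtain ⟨k, hk⟩ := h.exists
  refine ⟨k, fun x hx y hy hxy => ?_⟩
  by_contra hne
  exact hk (x, y) (Finset.mem_offDiag.2 ⟨hx, hy, hne⟩) hxy

/-- D (file FewBad.lean) -/
theorem exists_few {V : Type*} [MeasurableSpace V] (μ : Measure V)
    (K : Set (EuclideanSpace ℝ (Fin 2))) (hK : MeasurableSet K)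
    (Q : EuclideanSpace ℝ (Fin 2) → V → Prop) (ρ : Measure (EuclideanSpace ℝ (Fin 2)))
    (H E : Set V) (hE : μ E = 0) (n : ℕ)
    (hle : ∀ O, MeasurableSet O → O ⊆ K → μ ({v | ∃ x ∈ O, Q x v} ∩ H) ≤ ρ O)
    (hlt : ρ K < ((n : ℝ≥0∞) + 1) * μ H) :
    ∃ v ∈ H, v ∉ E ∧ {x | x ∈ K ∧ Q x v}.encard ≤ n := by
  classical
  by_contra hcon
  push Not at hcon
  let A : ℕ → ℤ × ℤ → Set (EuclideanSpace ℝ (Fin 2)) := fun k i => K ∩ dcell k ⁻¹' {i}
  have hA : ∀ k i, MeasurableSet (A k i) := fun k i =>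
    hK.inter (dcell_measurable k (measurableSet_singleton i))
  let B : ℕ → ℤ × ℤ → Set V := fun k i => {v | ∃ x ∈ A k i, Q x v} ∩ H
  let M : ℕ → ℤ × ℤ → Set V := fun k i => toMeasurable μ (B k i)
  let Hk : ℕ → Set V := fun k => {v | v ∈ H ∧ v ∉ E ∧ ∃ s : Finset (EuclideanSpace ℝ (Fin 2)),
    s.card = n + 1 ∧ (∀ x ∈ s, x ∈ K ∧ Q x v) ∧ Set.InjOn (dcell k) (s : Set _)}
  have hmono : Monotone Hk := by
    refine monotone_nat_of_le_succ fun k v hv => ?_
    obtain ⟨h1, h2, s, h3, h4, h5⟩ := hv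
    exact ⟨h1, h2, s, h3, h4, fun x hx y hy hxy => h5 hx hy (dcell_succ hxy)⟩
  have hunion : (⋃ k, Hk k) = H \ E := by
    ext v
    simp only [mem_iUnion]
    constructor
    · rintro ⟨k, h1, h2, _⟩
      exact ⟨h1, h2⟩
    · rintro ⟨h1, h2⟩
      have h3 := hcon v h1 h2
      have h4 : ((n + 1 : ℕ) : ℕ∞) ≤ {x | x ∈ K ∧ Q x v}.encard := by
        push_cast
        exact Order.add_one_le_of_lt h3
      obtain ⟨t, ht1, ht2⟩ := Set.exists_subset_encard_eq h4
      have hfin : t.Finite := Set.finite_of_encard_eq_coe ht2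
      obtain ⟨k, hk⟩ := dcell_injOn hfin.toFinset
      refine ⟨k, h1, h2, hfin.toFinset, ?_, ?_, hk⟩
      · have h5 := hfin.encard_eq_coe_toFinset_card
        rw [ht2] at h5
        exact_mod_cast h5.symm
      · intro x hx
        exact ht1 (hfin.mem_toFinset.1 hx)
  have hmain : ∀ k, ((n : ℝ≥0∞) + 1) * μ (Hk k) ≤ ρ K := by
    intro k
    let S : V → ℝ≥0∞ := fun v => ∑' i, (M k i).indicator (fun _ => (1 : ℝ≥0∞)) v
    have hMm : ∀ i, MeasurableSet (M k i) := fun i => measurableSet_toMeasurable _ _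
    have hSm : Measurable S :=
      Measurable.ennreal_tsum fun i => (measurable_const.indicator (hMm i))
    have hsub : Hk k ⊆ {v | (n : ℝ≥0∞) + 1 ≤ S v} := by
      rintro v ⟨h1, _, s, h3, h4, h5⟩
      simp only [mem_setOf_eq]
      have h6 : ∑ i ∈ s.image (dcell k), (M k i).indicator (fun _ => (1 : ℝ≥0∞)) v ≤ S v :=
        ENNReal.sum_le_tsum _
      refine le_trans (le_of_eq ?_) h6
      rw [Finset.sum_congr rfl (g := fun _ => (1 : ℝ≥0∞))]
      · rw [Finset.sum_const, Finset.card_image_of_injOn h5, h3]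
        simp
      · intro i hi
        obtain ⟨x, hx, rfl⟩ := Finset.mem_image.1 hi
        rw [Set.indicator_of_mem]
        exact subset_toMeasurable _ _ ⟨⟨x, ⟨(h4 x hx).1, rfl⟩, (h4 x hx).2⟩, h1⟩
    calc ((n : ℝ≥0∞) + 1) * μ (Hk k) ≤ ((n : ℝ≥0∞) + 1) * μ {v | (n : ℝ≥0∞) + 1 ≤ S v} := by
          gcongr
      _ ≤ ∫⁻ v, S v ∂μ := mul_meas_ge_le_lintegral hSm _
      _ = ∑' i, μ (M k i) := by
          rw [lintegral_tsum (fun i => (measurable_const.indicator (hMm i)).aemeasurable)]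
          refine tsum_congr fun i => ?_
          rw [lintegral_indicator (hMm i)]
          simp
      _ = ∑' i, μ (B k i) := tsum_congr fun i => measure_toMeasurable _
      _ ≤ ∑' i, ρ (A k i) := ENNReal.tsum_le_tsum fun i => hle _ (hA k i) inter_subset_left
      _ = ρ (⋃ i, A k i) := by
          rw [measure_iUnion _ (hA k)]
          intro i j hij
          rw [Function.onFun, Set.disjoint_left]
          rintro x ⟨_, hx1⟩ ⟨_, hx2⟩
          exact hij (hx1.symm.trans hx2)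
      _ ≤ ρ K := measure_mono (iUnion_subset fun i => inter_subset_left)
  have hfinal : ((n : ℝ≥0∞) + 1) * μ (H \ E) ≤ ρ K := by
    rw [← hunion, hmono.measure_iUnion, ENNReal.mul_iSup]
    exact iSup_le hmain
  have hHE : μ (H \ E) = μ H := measure_diff_null hE
  rw [hHE] at hfinal
  exact absurd hlt (not_lt.2 hfinal)

end Pool.Agent.Lib_MP_752436_gt
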