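import Pool.Agent.Lib_MP_752436_gt.Defs2

/-!
Piece B1: the volume of the half of the unit ball of `R^4`.
-/

open MeasureTheory Metric Set
open scoped ContDiff ENNReal

namespace Pool.Agent.Lib_MP_752436_gt

/-- B1: the volume of half of the unit ball of `R^4`. -/
theorem volume_halfBall :
    volume (ball (0 : EuclideanSpace ℝ (Fin 4)) 1 ∩ {v | 0 < v 3})
      = ENNReal.ofReal (Real.pi ^ 2 / 4) := by
  set B : Set (EuclideanSpace ℝ (Fin 4)) := ball 0 1 with hB
  set P : Set (EuclideanSpace ℝ (Fin 4)) := {v | 0 < v 3} with hP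
  set N : Set (EuclideanSpace ℝ (Fin 4)) := {v | v 3 < 0} with hN
  set Z : Set (EuclideanSpace ℝ (Fin 4)) := {v | v 3 = 0} with hZ
  have hcont : Continuous fun v : EuclideanSpace ℝ (Fin 4) => v 3 :=
    (EuclideanSpace.proj (3 : Fin 4) : EuclideanSpace ℝ (Fin 4) →L[ℝ] ℝ).continuous
  have hPm : MeasurableSet P := (isOpen_lt continuous_const hcont).measurableSet
  have hNm : MeasurableSet N := (isOpen_lt hcont continuous_const).measurableSet
  have hBm : MeasurableSet B := isOpen_ball.measurableSet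
  have hvol : volume B = ENNReal.ofReal (Real.pi ^ 2 / 2) := by
    rw [hB, EuclideanSpace.volume_ball]
    have h1 : Real.Gamma ((Fintype.card (Fin 4) : ℝ) / 2 + 1) = 2 := by
      have : ((Fintype.card (Fin 4) : ℝ) / 2 + 1) = ((2 : ℕ) : ℝ) + 1 := by
        simp; norm_num
      rw [this, Real.Gamma_nat_eq_factorial]
      norm_num
    rw [h1]
    have h2 : Real.sqrt Real.pi ^ (Fintype.card (Fin 4)) = Real.pi ^ 2 := by
      simp only [Fintype.card_fin]
      have : Real.sqrt Real.pi ^ 4 = (Real.sqrt Real.pi ^ 2) ^ 2 := by ring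
      rw [this, Real.sq_sqrt Real.pi_pos.le]
    rw [h2]
    simp
  -- the hyperplane is a null set
  have hZ0 : volume Z = 0 := by
    have h1 : Z = (LinearMap.ker
        (EuclideanSpace.proj (3 : Fin 4) : EuclideanSpace ℝ (Fin 4) →L[ℝ] ℝ).toLinearMap :
        Set (EuclideanSpace ℝ (Fin 4))) := by
      ext v; simp [hZ]
    rw [h1]
    apply Measure.addHaar_submodule
    intro htop
    have h2 : (EuclideanSpace.single (3 : Fin 4) (1 : ℝ)) ∈ (LinearMap.ker
        (EuclideanSpace.proj (3 : Fin 4) : EuclideanSpace ℝ (Fin 4) →L[ℝ] ℝ).toLinearMap) := by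
      rw [htop]; trivial
    simp at h2
  have hneg : volume (B ∩ N) = volume (B ∩ P) := by
    have h1 : (fun v : EuclideanSpace ℝ (Fin 4) => -v) ⁻¹' (B ∩ P) = B ∩ N := by
      ext v; simp [hB, hP, hN]
    rw [← h1]
    exact (Measure.measurePreserving_neg volume).measure_preimage
      (hBm.inter hPm).nullMeasurableSet
  have hsplit : volume B = volume (B ∩ P) + volume (B ∩ N) := by
    have h1 : volume B ≤ volume ((B ∩ P) ∪ (B ∩ N) ∪ Z) := by
      apply measure_mono
      intro v hv
      rcases lt_trichotomy (v 3) 0 with h | h | h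
      · exact Or.inl (Or.inr ⟨hv, h⟩)
      · exact Or.inr h
      · exact Or.inl (Or.inl ⟨hv, h⟩)
    have h2 : volume ((B ∩ P) ∪ (B ∩ N) ∪ Z) ≤ volume ((B ∩ P) ∪ (B ∩ N)) + 0 := by
      rw [← hZ0]; exact measure_union_le _ _
    have h3 : volume ((B ∩ P) ∪ (B ∩ N)) = volume (B ∩ P) + volume (B ∩ N) := by
      apply measure_union _ (hBm.inter hNm)
      rw [Set.disjoint_left]
      rintro v ⟨_, h⟩ ⟨_, h'⟩
      exact lt_asymm (show (0 : ℝ) < v 3 from h) h'
    apply le_antisymm
    · rw [add_zero, h3] at h2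
      exact h1.trans h2
    · rw [← h3]
      exact measure_mono (Set.union_subset Set.inter_subset_left Set.inter_subset_left)
  rw [hneg, hvol, ← two_mul] at hsplit
  have h4 : ENNReal.ofReal (Real.pi ^ 2 / 2) = 2 * ENNReal.ofReal (Real.pi ^ 2 / 4) := by
    rw [show (2 : ℝ≥0∞) = ENNReal.ofReal 2 by simp, ← ENNReal.ofReal_mul (by norm_num)]
    congr 1; ring
  rw [h4] at hsplit
  exact ((ENNReal.mul_right_inj (by norm_num) (by norm_num)).1 hsplit).symm

end Pool.Agent.Lib_MP_752436_gt
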