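import Pool.Agent.Lib_MP_752436_gt.Area
import Pool.Agent.Lib_MP_752436_gt.HalfBall
import Pool.Agent.Lib_MP_752436_gt.Criterion

/-!
Slice discs of Willmore energy smaller than `2π` are ribbon.
-/

open MeasureTheory Metric Set
open scoped ContDiff ENNReal

namespace Pool.Agent.Lib_MP_752436_gt

/-- If the Willmore energy is smaller than `2π` then some direction in the upper half ball is
not bad. -/
theorem exists_good_direction {F : EuclideanSpace ℝ (Fin 2) → EuclideanSpace ℝ (Fin 4)}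
    (hF : IsSliceDisc F) (hW : willmore F < 2 * Real.pi) :
    ∃ v : EuclideanSpace ℝ (Fin 4), 0 < v 3 ∧ v ∉ badSet F (closedBall 0 1) := by
  by_contra hcon
  push Not at hcon
  have hsub : ball (0 : EuclideanSpace ℝ (Fin 4)) 1 ∩ {v | 0 < v 3}
      ⊆ badSet F (closedBall 0 1) ∩ ball 0 1 := fun v hv => ⟨hcon v hv.2, hv.1⟩
  have h1 := (measure_mono hsub).trans (badSet_volume_le hF)
  rw [volume_halfBall] at h1
  have h2 : Real.pi / 8 * willmore F < Real.pi ^ 2 / 4 := by
    have := Real.pi_pos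
    nlinarith
  have h3 : ENNReal.ofReal (Real.pi / 8 * willmore F) < ENNReal.ofReal (Real.pi ^ 2 / 4) :=
    (ENNReal.ofReal_lt_ofReal_iff (by positivity)).2 h2
  exact absurd h1 (not_le.2 h3)

/-- A direction which is not bad gives a ribbon disc with the same projection. -/
theorem ribbon_of_good_direction {F : EuclideanSpace ℝ (Fin 2) → EuclideanSpace ℝ (Fin 4)}
    (hF : IsSliceDisc F) {v : EuclideanSpace ℝ (Fin 4)} (hv3 : 0 ≤ v 3)
    (hv : v ∉ badSet F (closedBall 0 1)) :
    ∃ G, IsRibbonDisc G ∧ (∀ x, ∀ i, i ≠ 3 → G x i = F x i) ∧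
      ∀ s ∈ Icc (0 : ℝ) 1, IsSliceDisc (fun x => (1 - s) • F x + s • G x) := by
  have hd : ∀ x, fderiv ℝ (fun y => (inner ℝ v (F y) : ℝ)) x = (innerSL ℝ v).comp (fderiv ℝ F x) := by
    intro x
    have h1 : HasFDerivAt F (fderiv ℝ F x) x :=
      ((hF.smooth.differentiable (by simp)) x).hasFDerivAt
    exact ((innerSL ℝ v).hasFDerivAt.comp x h1).fderiv
  have hdd : ∀ x u, fderiv ℝ (fderiv ℝ (fun y => (inner ℝ v (F y) : ℝ))) x u u
      = inner ℝ v (fderiv ℝ (fderiv ℝ F) x u u) := by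
    intro x u
    have h0 : fderiv ℝ (fun y => (inner ℝ v (F y) : ℝ))
        = fun z => (innerSL ℝ v).comp (fderiv ℝ F z) := funext hd
    rw [h0]
    have h1 : HasFDerivAt (fderiv ℝ F) (fderiv ℝ (fderiv ℝ F) x) x :=
      (((hF.smooth.fderiv_right (m := ∞) (by simp)).differentiable (by simp)) x).hasFDerivAt
    have h2 : fderiv ℝ (fun z => (innerSL ℝ v).comp (fderiv ℝ F z)) x
        = (ContinuousLinearMap.compL ℝ (EuclideanSpace ℝ (Fin 2)) (EuclideanSpace ℝ (Fin 4)) ℝ
          (innerSL ℝ v)).comp (fderiv ℝ (fderiv ℝ F) x) :=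
      (((ContinuousLinearMap.compL ℝ (EuclideanSpace ℝ (Fin 2)) (EuclideanSpace ℝ (Fin 4)) ℝ
          (innerSL ℝ v))).hasFDerivAt.comp x h1).fderiv
    rw [h2]
    rfl
  refine direction_criterion hF (ψ := fun p => (inner ℝ v p : ℝ))
    (contDiff_const.inner ℝ contDiff_id) ?_ ?_
  · intro p
    have h1 : fderiv ℝ (fun p => (inner ℝ v p : ℝ)) p = innerSL ℝ v := (innerSL ℝ v).fderiv
    rw [h1, innerSL_apply_apply, EuclideanSpace.inner_single_right]
    simpa using hv3
  · intro x hx h0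
    by_contra hcon
    push Not at hcon
    apply hv
    refine ⟨x, hx, ?_, ?_⟩
    · intro u
      have := hd x
      rw [h0] at this
      have h2 := congrArg (fun L : EuclideanSpace ℝ (Fin 2) →L[ℝ] ℝ => L u) this
      simpa using h2.symm
    · intro u
      rw [← hdd]
      exact hcon u

/-- Slice discs of Willmore energy smaller than `2π` are ribbon after changing the height. -/
theorem willmore_gap {F : EuclideanSpace ℝ (Fin 2) → EuclideanSpace ℝ (Fin 4)}
    (hF : IsSliceDisc F) (hW : willmore F < 2 * Real.pi) :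
    ∃ G, IsRibbonDisc G ∧ (∀ x, ∀ i, i ≠ 3 → G x i = F x i) ∧
      ∀ s ∈ Icc (0 : ℝ) 1, IsSliceDisc (fun x => (1 - s) • F x + s • G x) := by
  obtain ⟨v, hv3, hv⟩ := exists_good_direction hF hW
  exact ribbon_of_good_direction hF hv3.le hv

end Pool.Agent.Lib_MP_752436_gt
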