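import Pool.Agent.Lib_MP_752436_gt.Births
import Pool.Agent.Lib_MP_752436_gt.Main

open MeasureTheory Metric Set
open scoped ContDiff ENNReal Topology

namespace Pool.Agent.Lib_MP_752436_gt

/-- F (file BirthsDir.lean, uses C; see ribbon_of_good_direction in Main.lean) -/
theorem births_of_direction {F : EuclideanSpace ℝ (Fin 2) → EuclideanSpace ℝ (Fin 4)}
    (hF : IsSliceDisc F) {v : EuclideanSpace ℝ (Fin 4)} (hv3 : 0 ≤ v 3) {n : ℕ}
    (hfew : {x | x ∈ closedBall (0 : EuclideanSpace ℝ (Fin 2)) 1 ∧ v ∈ badSet F {x}}.encard ≤ n)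
    (hnd : ∀ x ∈ closedBall (0 : EuclideanSpace ℝ (Fin 2)) 1, v ∈ badSet F {x} →
      x ∈ ball (0 : EuclideanSpace ℝ (Fin 2)) 1 ∧
      ∀ u, u ≠ 0 → 0 < (inner ℝ v (fderiv ℝ (fderiv ℝ F) x u u) : ℝ)) :
    ∃ G, MorseDisc G ∧ (births G).encard ≤ n ∧ (∀ x, ∀ i, i ≠ 3 → G x i = F x i) ∧
      ∀ s ∈ Icc (0 : ℝ) 1, IsSliceDisc (fun x => (1 - s) • F x + s • G x) := by
  have hd : ∀ x, fderiv ℝ (fun y => (inner ℝ v (F y) : ℝ)) x = (innerSL ℝ v).comp (fderiv ℝ F x) := by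
    intro x
    have h1 : HasFDerivAt F (fderiv ℝ F x) x :=
      ((hF.smooth.differentiable (by simp)) x).hasFDerivAt
    exact ((innerSL ℝ v).hasFDerivAt.comp x h1).fderiv
  have hdd : ∀ x u, fderiv ℝ (fderiv ℝ (fun y => (inner ℝ v (F y) : ℝ))) x u u
      = inner ℝ v (fderiv ℝ (fderiv ℝ F) x u u) := by
    intro x u
    have h0 : fderiv ℝ (fun y => (inner ℝ v (F y) : ℝ))
        = fun z => (innerSL ℝ v).comp (fderiv ℝ F z) := funext hd
    rw [h0]
    have h1 : HasFDerivAt (fderiv ℝ F) (fderiv ℝ (fderiv ℝ F) x) x :=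
      (((hF.smooth.fderiv_right (m := ∞) (by simp)).differentiable (by simp)) x).hasFDerivAt
    have h2 : fderiv ℝ (fun z => (innerSL ℝ v).comp (fderiv ℝ F z)) x
        = (ContinuousLinearMap.compL ℝ (EuclideanSpace ℝ (Fin 2)) (EuclideanSpace ℝ (Fin 4)) ℝ
          (innerSL ℝ v)).comp (fderiv ℝ (fderiv ℝ F) x) :=
      (((ContinuousLinearMap.compL ℝ (EuclideanSpace ℝ (Fin 2)) (EuclideanSpace ℝ (Fin 4)) ℝ
          (innerSL ℝ v))).hasFDerivAt.comp x h1).fderiv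
    rw [h2]
    rfl
  have hvert : ∀ w : EuclideanSpace ℝ (Fin 4), (∀ i, i ≠ 3 → w i = 0) → 0 ≤ w 3 →
      0 ≤ (inner ℝ v w : ℝ) := by
    intro w hw h3
    rw [eq_vertical hw, inner_smul_right, EuclideanSpace.inner_single_right]
    simpa using mul_nonneg h3 hv3
  have hfin : {x | x ∈ closedBall (0 : EuclideanSpace ℝ (Fin 2)) 1 ∧ v ∈ badSet F {x}}.Finite :=
    Set.finite_of_encard_le_coe hfew
  have hcard : hfin.toFinset.card ≤ n := by
    have h1 := hfin.encard_eq_coe_toFinset_card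
    rw [h1] at hfew
    exact_mod_cast hfew
  have hmono : ∀ x ∈ closedBall (0 : EuclideanSpace ℝ (Fin 2)) 1,
      ∀ y ∈ closedBall (0 : EuclideanSpace ℝ (Fin 2)) 1, (∀ i, i ≠ 3 → F x i = F y i) →
      F y 3 < F x 3 → (inner ℝ v (F y) : ℝ) ≤ inner ℝ v (F x) := by
    intro x hx y hy hi h3
    have h1 := hvert (F x - F y) (fun i hi3 => by simp [hi i hi3]) (by
      rw [PiLp.sub_apply]; linarith)
    rw [inner_sub_right] at h1
    linarith
  have hker : ∀ x ∈ closedBall (0 : EuclideanSpace ℝ (Fin 2)) 1, ∀ u,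
      (∀ i, i ≠ 3 → fderiv ℝ F x u i = 0) → 0 ≤ fderiv ℝ F x u 3 →
      0 ≤ fderiv ℝ (fun y => (inner ℝ v (F y) : ℝ)) x u := by
    intro x hx u hi h3
    rw [hd x]
    exact hvert _ hi h3
  have hP : ∀ p ∈ hfin.toFinset, p ∈ ball (0 : EuclideanSpace ℝ (Fin 2)) 1 ∧
      ∀ u, u ≠ 0 → 0 < fderiv ℝ (fderiv ℝ (fun y => (inner ℝ v (F y) : ℝ))) p u u := by
    intro p hp
    rw [Set.Finite.mem_toFinset] at hp
    obtain ⟨h1, h2⟩ := hnd p hp.1 hp.2
    refine ⟨h1, fun u hu => ?_⟩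
    rw [hdd]
    exact h2 u hu
  have hcrit : ∀ x ∈ closedBall (0 : EuclideanSpace ℝ (Fin 2)) 1,
      fderiv ℝ (fun y => (inner ℝ v (F y) : ℝ)) x = 0 →
      (∃ u, fderiv ℝ (fderiv ℝ (fun y => (inner ℝ v (F y) : ℝ))) x u u < 0) ∨
        x ∈ hfin.toFinset := by
    intro x hx h0
    by_cases hneg : ∃ u, fderiv ℝ (fderiv ℝ (fun y => (inner ℝ v (F y) : ℝ))) x u u < 0
    · exact Or.inl hneg
    · right
      push Not at hneg
      rw [Set.Finite.mem_toFinset]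
      refine ⟨hx, x, mem_singleton x, ?_, ?_⟩
      · intro u
        have := hd x
        rw [h0] at this
        have h2 := congrArg (fun L : EuclideanSpace ℝ (Fin 2) →L[ℝ] ℝ => L u) this
        simpa using h2.symm
      · intro u
        rw [← hdd]
        exact hneg u
  obtain ⟨G, hG1, hG2, hG3, hG4, hG5⟩ := births_of_monotone hF
    (φ := fun y => (inner ℝ v (F y) : ℝ)) (contDiff_const.inner ℝ hF.smooth) hmono hker
    hfin.toFinset hP hcrit (δ := 1) one_pos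
  refine ⟨G, hG1, hG2.trans ?_, hG4, hG5⟩
  exact_mod_cast hcard

end Pool.Agent.Lib_MP_752436_gt
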