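import Pool.Agent.Lib_MP_752436_gt.Area

open MeasureTheory Metric Set
open scoped ContDiff ENNReal Topology

namespace Pool.Agent.Lib_MP_752436_gt

/-- The normal vectors for which the second fundamental form is degenerate. -/
def degSet (F : EuclideanSpace ℝ (Fin 2) → EuclideanSpace ℝ (Fin 4))
    (O : Set (EuclideanSpace ℝ (Fin 2))) : Set (EuclideanSpace ℝ (Fin 4)) :=
  {v | ∃ x ∈ O, (∀ u, inner ℝ v (fderiv ℝ F x u) = 0) ∧
    ∃ u, u ≠ 0 ∧ ∀ w, inner ℝ v (fderiv ℝ (fderiv ℝ F) x u w) = 0}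

theorem volume_degSet_comp (R : EuclideanSpace ℝ (Fin 4) ≃ₗᵢ[ℝ] EuclideanSpace ℝ (Fin 4))
    {F : EuclideanSpace ℝ (Fin 2) → EuclideanSpace ℝ (Fin 4)} (hF : ContDiff ℝ ∞ F)
    (s : Set (EuclideanSpace ℝ (Fin 2))) :
    volume (degSet (fun y => R (F y)) s) = volume (degSet F s) := by
  have key : ∀ v w : EuclideanSpace ℝ (Fin 4), (inner ℝ v (R w) : ℝ) = inner ℝ (R.symm v) w := by
    intro v w
    rw [← R.inner_map_map (R.symm v) w, R.apply_symm_apply]
  have h : degSet (fun y => R (F y)) s = R.symm ⁻¹' (degSet F s) := by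
    ext v
    simp only [degSet, mem_ofPred_eq, mem_preimage,
      fderiv_rot_apply R hF, fderiv2_rot_apply R hF, key]
  rw [h]
  exact R.symm.measurePreserving.measure_preimage_emb R.symm.toHomeomorph.measurableEmbedding _

theorem fderiv2_expand {F : EuclideanSpace ℝ (Fin 2) → EuclideanSpace ℝ (Fin 4)}
    (x u w : EuclideanSpace ℝ (Fin 2)) :
    fderiv ℝ (fderiv ℝ F) x u w = u 0 • (w 0 • d2 F 0 0 x + w 1 • d2 F 0 1 x)
      + u 1 • (w 0 • d2 F 1 0 x + w 1 • d2 F 1 1 x) := by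
  have hu : ∀ u : EuclideanSpace ℝ (Fin 2), u = u 0 • EuclideanSpace.single (0 : Fin 2) (1 : ℝ)
      + u 1 • EuclideanSpace.single (1 : Fin 2) (1 : ℝ) := by
    intro u
    ext i
    fin_cases i <;> simp
  conv_lhs => rw [hu u, hu w]
  simp only [map_add, map_smul, add_apply, smul_apply, smul_add]
  unfold d2
  module

/-- The degenerate vectors on a piece where the first minor does not vanish. -/
theorem volume_degSet_piece {F : EuclideanSpace ℝ (Fin 2) → EuclideanSpace ℝ (Fin 4)}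
    (hF : ContDiff ℝ ∞ F) {O : Set (EuclideanSpace ℝ (Fin 2))} (hm : ∀ x ∈ O, minor F x ≠ 0) :
    volume (degSet F O) = 0 := by
  set Φ : EuclideanSpace ℝ (Fin 4) → EuclideanSpace ℝ (Fin 4) := fun z =>
    nrm F !₂[z 0, z 1] !₂[z 2, z 3] with hΦ
  set S : Set (EuclideanSpace ℝ (Fin 4)) := {z | minor F !₂[z 0, z 1] ≠ 0 ∧
    (fderiv ℝ Φ z).det = 0} with hS
  have hnull : (volume : Measure (EuclideanSpace ℝ (Fin 4))) (Φ '' S) = 0 := by
    apply MeasureTheory.addHaar_image_eq_zero_of_det_fderivWithin_eq_zero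
      (f' := fderiv ℝ Φ)
    · intro x hx
      exact ((nrm_jac hF x hx.1).1.hasFDerivAt).hasFDerivWithinAt
    · intro x hx
      exact hx.2
  refine measure_mono_null ?_ hnull
  rintro v ⟨x, hx, hperp, u, hu, hdeg⟩
  have hmx := hm x hx
  have hx2 : (!₂[x 0, x 1] : EuclideanSpace ℝ (Fin 2)) = x := by
    ext i
    fin_cases i <;> rfl
  set z : EuclideanSpace ℝ (Fin 4) := !₂[x 0, x 1, v 2, v 3] with hz
  have z01 : (!₂[z 0, z 1] : EuclideanSpace ℝ (Fin 2)) = x := by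
    ext i
    fin_cases i <;> simp [hz]
  have z23 : (!₂[z 2, z 3] : EuclideanSpace ℝ (Fin 2)) = !₂[v 2, v 3] := by
    ext i
    fin_cases i <;> simp [hz]
  have hv : nrm F x !₂[v 2, v 3] = v := (eq_nrm F x hmx v hperp).symm
  have hΦz : Φ z = v := by
    simp only [hΦ]
    rw [z01, z23, hv]
  refine ⟨z, ⟨by rw [z01]; exact hmx, ?_⟩, hΦz⟩
  have hj := (nrm_jac hF z (by rw [z01]; exact hmx)).2
  rw [z01, z23, hv] at hj
  have e0 := hdeg (EuclideanSpace.single 0 1)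
  have e1 := hdeg (EuclideanSpace.single 1 1)
  rw [fderiv2_expand] at e0 e1
  simp only [PiLp.single_apply, if_true, inner_add_right, inner_smul_right] at e0 e1
  norm_num at e0 e1
  rw [d2_symm hF 1 0] at e0
  have hq : qf F 0 0 x v * qf F 1 1 x v - qf F 0 1 x v ^ 2 = 0 := by
    unfold qf
    by_cases h0 : u 0 = 0
    · have h1 : u 1 ≠ 0 := by
        intro h1
        apply hu
        ext i
        fin_cases i
        · exact h0
        · exact h1
      have a1 : (u 1) * ((inner ℝ v (d2 F 0 0 x) : ℝ) * inner ℝ v (d2 F 1 1 x)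
          - inner ℝ v (d2 F 0 1 x) ^ 2) = 0 := by
        linear_combination (inner ℝ v (d2 F 0 0 x) : ℝ) * e1
          - (inner ℝ v (d2 F 0 1 x) : ℝ) * e0
      exact (mul_eq_zero.1 a1).resolve_left h1
    · have a1 : (u 0) * ((inner ℝ v (d2 F 0 0 x) : ℝ) * inner ℝ v (d2 F 1 1 x)
          - inner ℝ v (d2 F 0 1 x) ^ 2) = 0 := by
        linear_combination (inner ℝ v (d2 F 1 1 x) : ℝ) * e0
          - (inner ℝ v (d2 F 0 1 x) : ℝ) * e1
      exact (mul_eq_zero.1 a1).resolve_left h0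
  rw [hq, abs_zero, zero_div] at hj
  exact abs_eq_zero.1 hj

/-- E (file Degen.lean) -/
theorem volume_degSet {F : EuclideanSpace ℝ (Fin 2) → EuclideanSpace ℝ (Fin 4)}
    (hF : ContDiff ℝ ∞ F) {O : Set (EuclideanSpace ℝ (Fin 2))} (hg : ∀ x ∈ O, 0 < gdet F x) :
    volume (degSet F O) = 0 := by
  have hsub : degSet F O ⊆ ⋃ e : Equiv.Perm (Fin 4), degSet F (O ∩ permPiece F e) := by
    rintro v ⟨x, hx, hv⟩
    obtain ⟨e, he⟩ := exists_perm_minor hF (hg x hx)
    rw [mem_iUnion]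
    exact ⟨e, x, ⟨hx, he⟩, hv⟩
  refine measure_mono_null hsub (measure_iUnion_null fun e => ?_)
  rw [← volume_degSet_comp (LinearIsometryEquiv.piLpCongrLeft 2 ℝ ℝ e) hF]
  exact volume_degSet_piece (contDiff_comp_isometry _ hF) (fun x hx => hx.2)

/-- E2 (file Degen.lean) -/
theorem pos_def_of_psd {F : EuclideanSpace ℝ (Fin 2) → EuclideanSpace ℝ (Fin 4)}
    (hF : ContDiff ℝ ∞ F) {O : Set (EuclideanSpace ℝ (Fin 2))} {x : EuclideanSpace ℝ (Fin 2)}
    (hx : x ∈ O) {v : EuclideanSpace ℝ (Fin 4)} (hv : v ∈ badSet F {x}) (hd : v ∉ degSet F O) :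
    ∀ u, u ≠ 0 → 0 < (inner ℝ v (fderiv ℝ (fderiv ℝ F) x u u) : ℝ) := by
  obtain ⟨y, hy, hperp, hpsd⟩ := hv
  rw [mem_singleton_iff] at hy
  subst hy
  intro u hu
  refine lt_of_le_of_ne (hpsd u) (fun h0 => ?_)
  apply hd
  refine ⟨y, hx, hperp, u, hu, fun w => ?_⟩
  have hsym : ∀ a b, fderiv ℝ (fderiv ℝ F) y a b = fderiv ℝ (fderiv ℝ F) y b a := by
    intro a b
    have h : IsSymmSndFDerivAt ℝ F y := hF.contDiffAt.isSymmSndFDerivAt (by
      simp only [minSmoothness_of_isRCLikeNormedField]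
      exact WithTop.coe_le_coe.2 (le_top : (2 : ℕ∞) ≤ ⊤))
    exact h.eq _ _
  set A : ℝ := inner ℝ v (fderiv ℝ (fderiv ℝ F) y u w) with hA
  set B : ℝ := inner ℝ v (fderiv ℝ (fderiv ℝ F) y w w) with hB
  have hB0 : 0 ≤ B := hpsd w
  have hexp : ∀ t : ℝ, 0 ≤ 2 * t * A + t ^ 2 * B := by
    intro t
    have h1 := hpsd (u + t • w)
    simp only [map_add, map_smul, add_apply, smul_apply, inner_add_right, inner_smul_right] at h1
    rw [hsym w u, ← h0, ← hA, ← hB] at h1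
    nlinarith [h1]
  by_contra hne
  have h2 := hexp (-A / (B + 1))
  have hB1 : 0 < B + 1 := by linarith
  have h3 : 2 * (-A / (B + 1)) * A + (-A / (B + 1)) ^ 2 * B
      = -(A ^ 2 * (B + 2)) / (B + 1) ^ 2 := by
    field_simp
    ring
  rw [h3] at h2
  have hA2 : 0 < A ^ 2 := by positivity
  have h4 : -(A ^ 2 * (B + 2)) / (B + 1) ^ 2 < 0 := by
    apply div_neg_of_neg_of_pos
    · nlinarith
    · positivity
  linarith

end Pool.Agent.Lib_MP_752436_gt
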