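import Pool.Agent.Lib_MP_752436_gt.FewBad
import Pool.Agent.Lib_MP_752436_gt.Degen
import Pool.Agent.Lib_MP_752436_gt.BirthsDir

open MeasureTheory Metric Set
open scoped ContDiff ENNReal Topology

namespace Pool.Agent.Lib_MP_752436_gt

/-- The total mass of the curvature density over the closed disc. -/
theorem lintegral_willmore {F : EuclideanSpace ℝ (Fin 2) → EuclideanSpace ℝ (Fin 4)}
    (hF : IsSliceDisc F) :
    ∫⁻ x in closedBall (0 : EuclideanSpace ℝ (Fin 2)) 1,
        ENNReal.ofReal (Real.pi / 8 * (‖meanCurv F x‖ ^ 2 * Real.sqrt (gdet F x))) =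
      ENNReal.ofReal (Real.pi / 8 * willmore F) := by
  have hg : ∀ x ∈ closedBall (0 : EuclideanSpace ℝ (Fin 2)) 1, 0 < gdet F x :=
    fun x hx => gdet_pos (hF.immersion x hx)
  have hcont : ContinuousOn (fun x => ‖meanCurv F x‖ ^ 2 * Real.sqrt (gdet F x))
      (closedBall (0 : EuclideanSpace ℝ (Fin 2)) 1) := by
    have h1 : ContinuousOn (meanCurv F) (closedBall (0 : EuclideanSpace ℝ (Fin 2)) 1) :=
      (continuousOn_meanCurv hF.smooth).mono (fun x hx => hg x hx)
    have h2 := (continuous_gdet hF.smooth).sqrt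
    exact (h1.norm.pow 2).mul h2.continuousOn
  have hint : IntegrableOn (fun x => ‖meanCurv F x‖ ^ 2 * Real.sqrt (gdet F x))
      (ball (0 : EuclideanSpace ℝ (Fin 2)) 1) :=
    (hcont.integrableOn_compact (isCompact_closedBall _ _)).mono_set ball_subset_closedBall
  calc ∫⁻ x in closedBall (0 : EuclideanSpace ℝ (Fin 2)) 1,
        ENNReal.ofReal (Real.pi / 8 * (‖meanCurv F x‖ ^ 2 * Real.sqrt (gdet F x)))
      = ∫⁻ x in ball (0 : EuclideanSpace ℝ (Fin 2)) 1,
        ENNReal.ofReal (Real.pi / 8 * (‖meanCurv F x‖ ^ 2 * Real.sqrt (gdet F x))) := by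
        apply setLIntegral_congr
        have h1 : closedBall (0 : EuclideanSpace ℝ (Fin 2)) 1
            = ball (0 : EuclideanSpace ℝ (Fin 2)) 1 ∪ sphere 0 1 := ball_union_sphere.symm
        rw [h1]
        have h2 : volume (sphere (0 : EuclideanSpace ℝ (Fin 2)) 1) = 0 :=
          Measure.addHaar_sphere _ _ _
        exact union_ae_eq_left_of_ae_eq_empty (ae_eq_empty.2 h2)
    _ = ENNReal.ofReal (∫ x in ball (0 : EuclideanSpace ℝ (Fin 2)) 1,
        Real.pi / 8 * (‖meanCurv F x‖ ^ 2 * Real.sqrt (gdet F x))) := by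
        rw [ofReal_integral_eq_lintegral_ofReal (hint.const_mul _)]
        exact Filter.Eventually.of_forall (fun x => by positivity)
    _ = ENNReal.ofReal (Real.pi / 8 * willmore F) := by
        congr 1
        unfold willmore
        rw [integral_const_mul]

theorem willmore_nonneg (F : EuclideanSpace ℝ (Fin 2) → EuclideanSpace ℝ (Fin 4)) :
    0 ≤ willmore F := by
  unfold willmore
  exact integral_nonneg (fun x => by positivity)

/-- G (file WBirths.lean, uses D, E, E2, F) -/
theorem willmore_births {F : EuclideanSpace ℝ (Fin 2) → EuclideanSpace ℝ (Fin 4)}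
    (hF : IsSliceDisc F) :
    ∃ G, MorseDisc G ∧ (births G).Finite ∧ 2 * Real.pi * (births G).ncard ≤ willmore F ∧
      (∀ x, ∀ i, i ≠ 3 → G x i = F x i) ∧
      ∀ s ∈ Icc (0 : ℝ) 1, IsSliceDisc (fun x => (1 - s) • F x + s • G x) := by
  have hpi := Real.pi_pos
  have hW0 := willmore_nonneg F
  set K : Set (EuclideanSpace ℝ (Fin 2)) := closedBall 0 1 with hK
  have hKm : MeasurableSet K := measurableSet_closedBall
  have hg : ∀ x ∈ K, 0 < gdet F x := fun x hx => gdet_pos (hF.immersion x hx)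
  set n : ℕ := ⌊willmore F / (2 * Real.pi)⌋₊ with hn
  have hn1 : (n : ℝ) ≤ willmore F / (2 * Real.pi) := Nat.floor_le (by positivity)
  have hn2 : willmore F / (2 * Real.pi) < n + 1 := Nat.lt_floor_add_one _
  set f : EuclideanSpace ℝ (Fin 2) → ℝ≥0∞ := fun x =>
    ENNReal.ofReal (Real.pi / 8 * (‖meanCurv F x‖ ^ 2 * Real.sqrt (gdet F x))) with hf
  set ρ : Measure (EuclideanSpace ℝ (Fin 2)) := (volume.restrict K).withDensity f with hρ
  have hρO : ∀ O, MeasurableSet O → O ⊆ K → ρ O = ∫⁻ x in O, f x := by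
    intro O hO hOK
    rw [hρ, withDensity_apply f hO, Measure.restrict_restrict hO, inter_eq_self_of_subset_left hOK]
  set H : Set (EuclideanSpace ℝ (Fin 4)) := ball 0 1 ∩ {v | 0 < v 3} with hH
  have hle : ∀ O, MeasurableSet O → O ⊆ K →
      volume ({v | ∃ x ∈ O, v ∈ badSet F {x}} ∩ H) ≤ ρ O := by
    intro O hO hOK
    rw [hρO O hO hOK]
    refine le_trans (measure_mono ?_) (badSet_le hF.smooth hO (fun x hx => hg x (hOK hx)))
    rintro v ⟨⟨x, hx, y, hy, h1, h2⟩, hv, _⟩
    rw [mem_singleton_iff] at hy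
    subst hy
    exact ⟨⟨y, hx, h1, h2⟩, hv⟩
  have hρK : ρ K = ENNReal.ofReal (Real.pi / 8 * willmore F) := by
    rw [hρO K hKm subset_rfl]
    exact lintegral_willmore hF
  have hlt : ρ K < ((n : ℝ≥0∞) + 1) * volume H := by
    rw [hρK, hH, volume_halfBall]
    have h1 : ((n : ℝ≥0∞) + 1) = ENNReal.ofReal ((n : ℝ) + 1) := by
      rw [ENNReal.ofReal_add (by positivity) (by norm_num)]
      simp
    rw [h1, ← ENNReal.ofReal_mul (by positivity)]
    rw [ENNReal.ofReal_lt_ofReal_iff (by positivity)]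
    rw [div_lt_iff₀ (by positivity)] at hn2
    nlinarith
  set E : Set (EuclideanSpace ℝ (Fin 4)) := degSet F K ∪
    (badSet F (sphere (0 : EuclideanSpace ℝ (Fin 2)) 1) ∩ ball 0 1) with hE
  have hE0 : volume E = 0 := by
    rw [hE]
    refine measure_union_null (volume_degSet hF.smooth hg) ?_
    have h1 := badSet_le hF.smooth (O := sphere (0 : EuclideanSpace ℝ (Fin 2)) 1)
      isClosed_sphere.measurableSet (fun x hx => hg x (sphere_subset_closedBall hx))
    have h2 : volume (sphere (0 : EuclideanSpace ℝ (Fin 2)) 1) = 0 :=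
      Measure.addHaar_sphere _ _ _
    rw [setLIntegral_measure_zero _ _ h2] at h1
    exact le_antisymm h1 zero_le
  obtain ⟨v, hvH, hvE, hfew⟩ := exists_few (volume : Measure (EuclideanSpace ℝ (Fin 4))) K hKm
    (fun x v => v ∈ badSet F {x}) ρ H E hE0 n hle hlt
  have hv3 : 0 < v 3 := hvH.2
  obtain ⟨G, hG1, hG2, hG3, hG4⟩ := births_of_direction hF hv3.le hfew (by
    intro x hx hbad
    refine ⟨?_, pos_def_of_psd hF.smooth (O := K) hx hbad (fun h => hvE (Or.inl h))⟩
    rcases ball_or_sphere hx with h | h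
    · exact h
    · exfalso
      apply hvE
      right
      obtain ⟨y, hy, h1, h2⟩ := hbad
      rw [mem_singleton_iff] at hy
      subst hy
      exact ⟨⟨y, h, h1, h2⟩, hvH.1⟩)
  have hfin : (births G).Finite := Set.finite_of_encard_le_coe hG2
  refine ⟨G, hG1, hfin, ?_, hG3, hG4⟩
  have hc : (births G).ncard ≤ n := by
    rw [← hfin.cast_ncard_eq] at hG2
    exact_mod_cast hG2
  have hc' : ((births G).ncard : ℝ) ≤ n := by exact_mod_cast hc
  rw [le_div_iff₀ (by positivity)] at hn1
  nlinarith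

end Pool.Agent.Lib_MP_752436_gt
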