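import Pool.Agent.Lib_MP_752436_gt.CurvOn
import Pool.Agent.Lib_MP_752436_gt.FewBad
import Pool.Agent.Lib_MP_752436_gt.Pierce
import Pool.Agent.Lib_MP_752436_gt.WBirths

/-!
Only the positive curvature enclosed by the upper double points forces births.
-/

open MeasureTheory Metric Set
open scoped ContDiff ENNReal Topology

namespace Pool.Agent.Lib_MP_752436_gt

/-- The projection of a disc with immersed projection has a nonzero normal vector. -/
theorem nvec_ne_zero_of_immersed {F : EuclideanSpace ℝ (Fin 2) → EuclideanSpace ℝ (Fin 4)}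
    (hF : IsSliceDisc F) (himm : ImmersedProjection F) {x : EuclideanSpace ℝ (Fin 2)}
    (hx : x ∈ closedBall (0 : EuclideanSpace ℝ (Fin 2)) 1) : nvec (projThree F) x ≠ 0 := by
  intro h0
  set a := pd (projThree F) 0 x with ha
  set b := pd (projThree F) 1 x with hb
  have hc : cross a b = 0 := h0
  have hc0 : a 1 * b 2 - a 2 * b 1 = 0 :=
    congrArg (fun w : EuclideanSpace ℝ (Fin 3) => w 0) hc
  have hc1 : a 2 * b 0 - a 0 * b 2 = 0 :=
    congrArg (fun w : EuclideanSpace ℝ (Fin 3) => w 1) hc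
  have hc2 : a 0 * b 1 - a 1 * b 0 = 0 :=
    congrArg (fun w : EuclideanSpace ℝ (Fin 3) => w 2) hc
  have key : ∀ α β : ℝ, (∀ i : Fin 3, α * a i + β * b i = 0) → α = 0 ∧ β = 0 := by
    intro α β hαβ
    by_contra hne
    set u : EuclideanSpace ℝ (Fin 2) := α • EuclideanSpace.single 0 1 + β • EuclideanSpace.single 1 1
      with hu
    have hu0 : u ≠ 0 := by
      intro hz
      apply hne
      have e0 := congrArg (fun w : EuclideanSpace ℝ (Fin 2) => w 0) hz
      have e1 := congrArg (fun w : EuclideanSpace ℝ (Fin 2) => w 1) hz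
      simp [hu] at e0 e1
      exact ⟨e0, e1⟩
    have hfu : fderiv ℝ (projThree F) x u = 0 := by
      rw [hu, map_add, map_smul, map_smul]
      ext i
      have := hαβ i
      simpa [ha, hb, pd] using this
    rw [fderiv_projThree hF.smooth] at hfu
    obtain ⟨i, hi, hne'⟩ := himm x hx u hu0
    apply hne'
    have h2 : ∀ k : Fin 3, (!₂[fderiv ℝ F x u 0, fderiv ℝ F x u 1, fderiv ℝ F x u 2] :
        EuclideanSpace ℝ (Fin 3)) k = 0 := by
      intro k
      rw [← P3_apply, hfu]
      rfl
    fin_cases i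
    · exact h2 0
    · exact h2 1
    · exact h2 2
    · exact absurd rfl hi
  by_cases ha0 : a = 0
  · have := (key 1 0 (by intro i; rw [ha0]; simp)).1
    norm_num at this
  · obtain ⟨j, hj⟩ : ∃ j : Fin 3, a j ≠ 0 := by
      by_contra hcon
      push Not at hcon
      apply ha0
      ext j
      exact hcon j
    have := (key (b j) (-(a j)) (by
      intro i
      fin_cases j <;> fin_cases i <;> simp <;> linarith)).2
    exact hj (by linarith)

theorem kl_fderiv {F : EuclideanSpace ℝ (Fin 2) → EuclideanSpace ℝ (Fin 4)}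
    (hF : ContDiff ℝ ∞ F) (v : EuclideanSpace ℝ (Fin 4)) (x : EuclideanSpace ℝ (Fin 2)) :
    fderiv ℝ (fun y => (inner ℝ v (F y) : ℝ)) x = (innerSL ℝ v).comp (fderiv ℝ F x) := by
  have h1 : HasFDerivAt F (fderiv ℝ F x) x :=
    ((hF.differentiable (by simp)) x).hasFDerivAt
  exact ((innerSL ℝ v).hasFDerivAt.comp x h1).fderiv

theorem kl_fderiv_two {F : EuclideanSpace ℝ (Fin 2) → EuclideanSpace ℝ (Fin 4)}
    (hF : ContDiff ℝ ∞ F) (v : EuclideanSpace ℝ (Fin 4)) (x u : EuclideanSpace ℝ (Fin 2)) :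
    fderiv ℝ (fderiv ℝ (fun y => (inner ℝ v (F y) : ℝ))) x u u
      = inner ℝ v (fderiv ℝ (fderiv ℝ F) x u u) := by
  have h0 : fderiv ℝ (fun y => (inner ℝ v (F y) : ℝ))
      = fun z => (innerSL ℝ v).comp (fderiv ℝ F z) := funext (kl_fderiv hF v)
  rw [h0]
  have h1 : HasFDerivAt (fderiv ℝ F) (fderiv ℝ (fderiv ℝ F) x) x :=
    (((hF.fderiv_right (m := ∞) (by simp)).differentiable (by simp)) x).hasFDerivAt
  have h2 : fderiv ℝ (fun z => (innerSL ℝ v).comp (fderiv ℝ F z)) x
      = (ContinuousLinearMap.compL ℝ (EuclideanSpace ℝ (Fin 2)) (EuclideanSpace ℝ (Fin 4)) ℝ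
        (innerSL ℝ v)).comp (fderiv ℝ (fderiv ℝ F) x) :=
    (((ContinuousLinearMap.compL ℝ (EuclideanSpace ℝ (Fin 2)) (EuclideanSpace ℝ (Fin 4)) ℝ
        (innerSL ℝ v))).hasFDerivAt.comp x h1).fderiv
  rw [h2]
  rfl

/-- Every trap contains in its interior a point at which a given horizontal vector is bad. -/
theorem IsTrap.exists_bad {F : EuclideanSpace ℝ (Fin 2) → EuclideanSpace ℝ (Fin 4)}
    (hF : ContDiff ℝ ∞ F) (v : EuclideanSpace ℝ (Fin 3))
    {Z : Set (EuclideanSpace ℝ (Fin 2))} (hZ : IsTrap F Z) :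
    ∃ x ∈ Z, lift3 v ∈ badSet F {x} := by
  set g : EuclideanSpace ℝ (Fin 2) → ℝ := fun y => inner ℝ (lift3 v) (F y) with hg
  have hgs : ContDiff ℝ ∞ g := contDiff_const.inner ℝ hF
  obtain ⟨z0, hz0, hmin0⟩ := hZ.compact.exists_isMinOn hZ.nonempty hgs.continuous.continuousOn
  have hMc : IsCompact (Z ∩ {z | g z ≤ g z0}) :=
    hZ.compact.inter_right (isClosed_le hgs.continuous continuous_const)
  have h3 : Continuous (fun y => F y 3) := ((contDiff_euclidean.1 hF) 3).continuous
  obtain ⟨z, hz, hmin⟩ := hMc.exists_isMinOn ⟨z0, hz0, le_refl (g z0)⟩ h3.continuousOn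
  have hgz : ∀ y ∈ Z, g z ≤ g y := fun y hy => le_trans hz.2 (hmin0 hy)
  have hfr : z ∉ frontier Z := by
    intro hfr
    obtain ⟨y, hy, hab⟩ := hZ.above z hfr
    have hP : P3 (F z) = P3 (F y) := by
      rw [P3_apply, P3_apply, hab.1 0 (by decide), hab.1 1 (by decide), hab.1 2 (by decide)]
    have hgy : g y = g z := by
      simp only [hg, inner_lift3]
      rw [hP]
    have h5 : F z 3 ≤ F y 3 := hmin ⟨hy, by
      show g y ≤ g z0
      rw [hgy]
      exact hz.2⟩
    have := hab.2
    linarith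
  have hint : z ∈ interior Z := by
    by_contra hni
    exact hfr ⟨subset_closure hz.1, hni⟩
  have hloc : IsLocalMin g z := by
    filter_upwards [mem_interior_iff_mem_nhds.1 hint] with y hy
    exact hgz y hy
  refine ⟨z, hz.1, z, rfl, ?_, ?_⟩
  · intro u
    have h0 := hloc.fderiv_eq_zero
    rw [hg, kl_fderiv hF] at h0
    have h2 := congrArg (fun L : EuclideanSpace ℝ (Fin 2) →L[ℝ] ℝ => L u) h0
    simpa using h2
  · intro u
    have := noTrap_second hgs hloc u
    rwa [hg, kl_fderiv_two hF] at this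

/-- Only the positive curvature enclosed by the upper double points forces births. -/
theorem curvature_births_enclosed {F : EuclideanSpace ℝ (Fin 2) → EuclideanSpace ℝ (Fin 4)}
    (hF : IsSliceDisc F) (himm : ImmersedProjection F) (hU : volume (upperSet F) = 0) :
    ∃ G, MorseDisc G ∧ (births G).Finite ∧
      ENNReal.ofReal (4 * Real.pi * (births G).ncard)
        ≤ posCurvatureOn (projThree F) (enclosedSet F) ∧
      (∀ x, ∀ i, i ≠ 3 → G x i = F x i) ∧
      ∀ s ∈ Icc (0 : ℝ) 1, IsSliceDisc (fun x => (1 - s) • F x + s • G x) := by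
  by_cases htop : posCurvatureOn (projThree F) (enclosedSet F) = ⊤
  · obtain ⟨G, h1, h2, _, h4, h5⟩ := willmore_births hF
    exact ⟨G, h1, h2, by rw [htop]; exact le_top, h4, h5⟩
  have hpi := Real.pi_pos
  set T : ℝ := (posCurvatureOn (projThree F) (enclosedSet F)).toReal with hT
  have hT0 : 0 ≤ T := ENNReal.toReal_nonneg
  have hTeq : posCurvatureOn (projThree F) (enclosedSet F) = ENNReal.ofReal T :=
    (ENNReal.ofReal_toReal htop).symm
  set n : ℕ := ⌊T / (4 * Real.pi)⌋₊ with hn
  have hn1 : 4 * Real.pi * n ≤ T := by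
    have := Nat.floor_le (div_nonneg hT0 (by positivity : (0 : ℝ) ≤ 4 * Real.pi))
    rw [le_div_iff₀ (by positivity)] at this
    linarith
  have hn2 : T < 4 * Real.pi * (n + 1) := by
    have := Nat.lt_floor_add_one (T / (4 * Real.pi))
    rw [div_lt_iff₀ (by positivity)] at this
    linarith
  have hKc := isCompact_enclosedSet hF himm
  have hUc := isCompact_upperSet hF himm
  have hKsub : enclosedSet F ⊆ closedBall 0 1 := fun x hx => hx.1
  have hUsub : upperSet F ⊆ closedBall 0 1 := fun x hx => hx.1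
  set Q : EuclideanSpace ℝ (Fin 2) → EuclideanSpace ℝ (Fin 3) → Prop :=
    fun x v => nvec (projThree F) x ≠ 0 ∧ lift3 v ∈ badSet F {x} with hQ
  set ρ : Measure (EuclideanSpace ℝ (Fin 2)) := ENNReal.ofReal (1 / 3) •
    volume.withDensity (fun x => ENNReal.ofReal
      (gaussCurvature (projThree F) x * ‖nvec (projThree F) x‖)) with hρ
  have hρO : ∀ O, MeasurableSet O →
      ρ O = ENNReal.ofReal (1 / 3) * posCurvatureOn (projThree F) O := by
    intro O hO
    rw [hρ, Measure.smul_apply, withDensity_apply _ hO]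
    rfl
  set E : Set (EuclideanSpace ℝ (Fin 3)) :=
    {v | ∃ x ∈ upperSet F, nvec (projThree F) x ≠ 0 ∧ lift3 v ∈ badSet F {x}} ∩ ball 0 1 with hE
  have hE0 : volume E = 0 := by
    have h1 := badSet_lift_le hF hUc.measurableSet hUsub
    have h2 : posCurvatureOn (projThree F) (upperSet F) = 0 := by
      unfold posCurvatureOn
      exact setLIntegral_measure_zero _ _ hU
    rw [h2, mul_zero] at h1
    exact le_antisymm h1 bot_le
  obtain ⟨v, hvb, hvE, hfew⟩ := exists_few volume (enclosedSet F) hKc.measurableSet Q ρ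
    (ball 0 1) E hE0 n
    (by
      intro O hO hOK
      rw [hρO O hO]
      exact badSet_lift_le hF hO (hOK.trans hKsub))
    (by
      rw [hρO _ hKc.measurableSet, hTeq, volume_ball_three, ← ENNReal.ofReal_mul (by norm_num)]
      have e1 : ((n : ℝ≥0∞) + 1) = ENNReal.ofReal ((n : ℝ) + 1) := by
        rw [ENNReal.ofReal_add (by positivity) (by norm_num), ENNReal.ofReal_natCast,
          ENNReal.ofReal_one]
      rw [e1, ← ENNReal.ofReal_mul (by positivity)]
      apply (ENNReal.ofReal_lt_ofReal_iff (by positivity)).2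
      nlinarith)
  have hfin : {x | x ∈ enclosedSet F ∧ Q x v}.Finite :=
    Set.finite_of_encard_le_coe hfew
  obtain ⟨G, h1, h2, _, h4, h5⟩ := births_of_piercing hF himm hfin.toFinset
    (by
      intro p hp hpU
      rw [Set.Finite.mem_toFinset] at hp
      exact hvE ⟨⟨p, hpU, hp.2⟩, hvb⟩)
    (by
      intro Z hZ
      obtain ⟨x, hx, hbad⟩ := hZ.exists_bad hF.smooth v
      refine ⟨x, ?_, hx⟩
      rw [Set.Finite.mem_toFinset]
      exact ⟨hZ.subset_enclosedSet hx,
        nvec_ne_zero_of_immersed hF himm (ball_subset_closedBall (hZ.sub hx)), hbad⟩)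
    (one_pos)
  have hcard : ((hfin.toFinset.card : ℕ) : ℕ∞) ≤ n := by
    rw [← Set.encard_coe_eq_coe_finsetCard, Set.Finite.coe_toFinset]
    exact hfew
  have hle : (births G).encard ≤ n := h2.trans hcard
  have hbf : (births G).Finite := Set.finite_of_encard_le_coe hle
  refine ⟨G, h1, hbf, ?_, h4, h5⟩
  rw [hTeq]
  apply ENNReal.ofReal_le_ofReal
  have hnc : (births G).ncard ≤ n := by
    have := hbf.cast_ncard_eq
    rw [← this] at hle
    exact_mod_cast hle
  have : ((births G).ncard : ℝ) ≤ n := by exact_mod_cast hnc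
  have h7 : 4 * Real.pi * ((births G).ncard : ℝ) ≤ 4 * Real.pi * n :=
    mul_le_mul_of_nonneg_left this (by positivity)
  linarith

end Pool.Agent.Lib_MP_752436_gt
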