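import Pool.Agent.Lib_MP_752436_gt.CurvDefs

/-!
Tonelli for `R^3 = R^2 x R` in the `EuclideanSpace` form.
-/

open MeasureTheory Metric Set
open scoped ContDiff ENNReal Topology

namespace Pool.Agent.Lib_MP_752436_gt

/-- C3 (file SplitThree.lean): Tonelli for `R^3 = R^2 x R`. -/
theorem lintegral_split_three {f : EuclideanSpace ℝ (Fin 2) → ℝ → ℝ≥0∞}
    (hf : Measurable (Function.uncurry f)) :
    ∫⁻ y : EuclideanSpace ℝ (Fin 3), f !₂[y 0, y 1] (y 2)
      = ∫⁻ x : EuclideanSpace ℝ (Fin 2), ∫⁻ s : ℝ, f x s := by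
  have h1 : MeasurePreserving (fun y : EuclideanSpace ℝ (Fin 3) => (WithLp.ofLp y : Fin 3 → ℝ)) :=
    PiLp.volume_preserving_ofLp (Fin 3)
  have h2 := volume_preserving_arrowCongr' (finSumFinEquiv (m := 2) (n := 1)).symm
    (MeasurableEquiv.refl ℝ) (MeasurePreserving.id volume)
  have h3 := volume_measurePreserving_sumPiEquivProdPi (fun _ : Fin 2 ⊕ Fin 1 => ℝ)
  have h4 := (PiLp.volume_preserving_toLp (Fin 2)).prod (volume_preserving_funUnique (Fin 1) ℝ)
  have h5 := h4.comp (h3.comp (h2.comp h1))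
  have h6 := h5.lintegral_comp hf
  have h7 := lintegral_prod (μ := (volume : Measure (EuclideanSpace ℝ (Fin 2))))
    (ν := (volume : Measure ℝ)) (Function.uncurry f) hf.aemeasurable
  refine Eq.trans (lintegral_congr fun y => ?_) (h6.trans h7)
  simp only [Function.uncurry, Function.comp]
  congr 1
  ext i
  fin_cases i <;> rfl

end Pool.Agent.Lib_MP_752436_gt
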