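import Pool.Agent.Lib_MP_752436_gt.Pierce2
import Pool.Agent.Lib_MP_752436_gt.KLocal
import Pool.Agent.Lib_MP_752436_gt.SplitThree

/-!
Only the positive curvature which is enclosed by the upper double points and the singular points
of the projection forces births.
-/

open MeasureTheory Metric Set
open scoped ContDiff ENNReal Topology

namespace Pool.Agent.Lib_MP_752436_gt

/-- The cylinder over a null set is a null set. -/
theorem volume_cylinder {U : Set (EuclideanSpace ℝ (Fin 2))} (hU : volume U = 0) :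
    volume {z : EuclideanSpace ℝ (Fin 3) | (!₂[z 0, z 1] : EuclideanSpace ℝ (Fin 2)) ∈ U} = 0 := by
  set V := toMeasurable volume U with hV
  have hVm : MeasurableSet V := measurableSet_toMeasurable _ _
  have hV0 : volume V = 0 := by rw [hV, measure_toMeasurable, hU]
  have hx : Measurable (fun z : EuclideanSpace ℝ (Fin 3) =>
      (!₂[z 0, z 1] : EuclideanSpace ℝ (Fin 2))) :=
    measurable_mk2 (by fun_prop) (by fun_prop)
  refine measure_mono_null (t := {z : EuclideanSpace ℝ (Fin 3) |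
    (!₂[z 0, z 1] : EuclideanSpace ℝ (Fin 2)) ∈ V}) (fun z hz => subset_toMeasurable _ _ hz) ?_
  set g : EuclideanSpace ℝ (Fin 2) → ℝ → ℝ≥0∞ := fun x _ => V.indicator (fun _ => 1) x with hg
  have hgm : Measurable (Function.uncurry g) :=
    (measurable_const.indicator hVm).comp measurable_fst
  have h1 : volume {z : EuclideanSpace ℝ (Fin 3) |
      (!₂[z 0, z 1] : EuclideanSpace ℝ (Fin 2)) ∈ V}
      = ∫⁻ z : EuclideanSpace ℝ (Fin 3), g !₂[z 0, z 1] (z 2) := by
    have h0 := lintegral_indicator_one (μ := (volume : Measure (EuclideanSpace ℝ (Fin 3))))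
      (hx hVm)
    exact h0.symm
  rw [h1, lintegral_split_three hgm]
  have h2 : ∀ᵐ x : EuclideanSpace ℝ (Fin 2), ∫⁻ s, g x s = 0 := by
    have h3 : ∀ᵐ x : EuclideanSpace ℝ (Fin 2), x ∉ V := measure_eq_zero_iff_ae_notMem.1 hV0
    filter_upwards [h3] with x hx
    simp [hg, hx]
  rw [lintegral_congr_ae h2]
  simp

/-- The horizontal vectors which are normal to the projection at a nonsingular point of a null
set form a null set. -/
theorem volume_normal_over_null {F : EuclideanSpace ℝ (Fin 2) → EuclideanSpace ℝ (Fin 4)}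
    (hF : ContDiff ℝ ∞ F) {U : Set (EuclideanSpace ℝ (Fin 2))} (hU : volume U = 0) :
    volume {v : EuclideanSpace ℝ (Fin 3) | ∃ x ∈ U, nvec (projThree F) x ≠ 0 ∧
      ∀ u, (inner ℝ (lift3 v) (fderiv ℝ F x u) : ℝ) = 0} = 0 := by
  have hf := contDiff_projThree hF
  set f := projThree F with hfdef
  set Φ : EuclideanSpace ℝ (Fin 3) → EuclideanSpace ℝ (Fin 3) := fun z =>
    z 2 • nvec f !₂[z 0, z 1] with hΦ
  have hnull : (volume : Measure (EuclideanSpace ℝ (Fin 3)))
      (Φ '' {z : EuclideanSpace ℝ (Fin 3) | (!₂[z 0, z 1] : EuclideanSpace ℝ (Fin 2)) ∈ U})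
        = 0 := by
    apply MeasureTheory.addHaar_image_eq_zero_of_differentiableOn_of_addHaar_eq_zero
    · intro z _
      exact (gauss_jac hf z).1.differentiableWithinAt
    · exact volume_cylinder hU
  refine measure_mono_null ?_ hnull
  rintro v ⟨x, hx, hn, hperp⟩
  have hpd : ∀ i, (inner ℝ v (pd f i x) : ℝ) = 0 := by
    intro i
    have := hperp (EuclideanSpace.single i 1)
    rw [inner_lift3] at this
    rw [hfdef, pd_projThree hF]
    exact this
  obtain ⟨s, hs⟩ := exists_smul_cross hn (hpd 0) (hpd 1)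
  have hs' : v = s • nvec f x := hs
  have hx0 : (!₂[(!₂[x 0, x 1, s] : EuclideanSpace ℝ (Fin 3)) 0,
      (!₂[x 0, x 1, s] : EuclideanSpace ℝ (Fin 3)) 1] : EuclideanSpace ℝ (Fin 2)) = x := by
    ext i; fin_cases i <;> rfl
  have hx2 : (!₂[x 0, x 1, s] : EuclideanSpace ℝ (Fin 3)) 2 = s := rfl
  refine ⟨!₂[x 0, x 1, s], ?_, ?_⟩
  · show (!₂[(!₂[x 0, x 1, s] : EuclideanSpace ℝ (Fin 3)) 0,
      (!₂[x 0, x 1, s] : EuclideanSpace ℝ (Fin 3)) 1] : EuclideanSpace ℝ (Fin 2)) ∈ U
    rw [hx0]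
    exact hx
  · show (!₂[x 0, x 1, s] : EuclideanSpace ℝ (Fin 3)) 2 •
      nvec f !₂[(!₂[x 0, x 1, s] : EuclideanSpace ℝ (Fin 3)) 0,
      (!₂[x 0, x 1, s] : EuclideanSpace ℝ (Fin 3)) 1] = v
    rw [hx0, hx2]
    exact hs'.symm

/-- A horizontal linear function is rising. -/
theorem rising_lift {F : EuclideanSpace ℝ (Fin 2) → EuclideanSpace ℝ (Fin 4)}
    (hF : ContDiff ℝ ∞ F) (v : EuclideanSpace ℝ (Fin 3)) :
    Rising F (fun y => (inner ℝ (lift3 v) (F y) : ℝ)) := by
  refine ⟨contDiff_const.inner ℝ hF, ?_, ?_⟩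
  · intro x _ y _ hab
    have hP : P3 (F x) = P3 (F y) := by
      rw [P3_apply, P3_apply, hab.1 0 (by decide), hab.1 1 (by decide), hab.1 2 (by decide)]
    show (inner ℝ (lift3 v) (F y) : ℝ) ≤ inner ℝ (lift3 v) (F x)
    rw [inner_lift3, inner_lift3, hP]
  · intro x _ u hu _
    rw [kl_fderiv hF]
    have hP : P3 (fderiv ℝ F x u) = 0 := by
      rw [P3_apply, hu 0 (by decide), hu 1 (by decide), hu 2 (by decide)]
      ext i
      fin_cases i <;> rfl
    show 0 ≤ (inner ℝ (lift3 v) (fderiv ℝ F x u) : ℝ)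
    rw [inner_lift3, hP, inner_zero_right]

/-- Only the positive curvature enclosed by the obstacle forces births. -/
theorem curvature_births_obstacle {F : EuclideanSpace ℝ (Fin 2) → EuclideanSpace ℝ (Fin 4)}
    (hF : IsSliceDisc F) (hS : (singularSet F).Countable) (hU : volume (upperSet F) = 0) :
    ∃ G, MorseDisc G ∧ (births G).Finite ∧
      ENNReal.ofReal (4 * Real.pi * (births G).ncard)
        ≤ posCurvatureOn (projThree F) (enclosedBy (upperSet F ∪ singularSet F)) ∧
      (∀ x, ∀ i, i ≠ 3 → G x i = F x i) ∧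
      ∀ s ∈ Icc (0 : ℝ) 1, IsSliceDisc (fun x => (1 - s) • F x + s • G x) := by
  set U := upperSet F ∪ singularSet F with hUdef
  by_cases htop : posCurvatureOn (projThree F) (enclosedBy U) = ⊤
  · obtain ⟨G, h1, h2, _, h4, h5⟩ := willmore_births hF
    exact ⟨G, h1, h2, by rw [htop]; exact le_top, h4, h5⟩
  have hpi := Real.pi_pos
  set T : ℝ := (posCurvatureOn (projThree F) (enclosedBy U)).toReal with hT
  have hT0 : 0 ≤ T := ENNReal.toReal_nonneg
  have hTeq : posCurvatureOn (projThree F) (enclosedBy U) = ENNReal.ofReal T :=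
    (ENNReal.ofReal_toReal htop).symm
  set n : ℕ := ⌊T / (4 * Real.pi)⌋₊ with hn
  have hn1 : 4 * Real.pi * n ≤ T := by
    have := Nat.floor_le (div_nonneg hT0 (by positivity : (0 : ℝ) ≤ 4 * Real.pi))
    rw [le_div_iff₀ (by positivity)] at this
    linarith
  have hn2 : T < 4 * Real.pi * (n + 1) := by
    have := Nat.lt_floor_add_one (T / (4 * Real.pi))
    rw [div_lt_iff₀ (by positivity)] at this
    linarith
  have hUc : IsCompact U := isCompact_obstacle hF
  have hKc : IsCompact (enclosedBy U) := isCompact_enclosedBy hUc.isClosed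
  have hKsub : enclosedBy U ⊆ closedBall 0 1 := fun x hx => hx.1
  have hU0 : volume U = 0 := measure_union_null hU (hS.measure_zero _)
  set Q : EuclideanSpace ℝ (Fin 2) → EuclideanSpace ℝ (Fin 3) → Prop :=
    fun x v => nvec (projThree F) x ≠ 0 ∧ lift3 v ∈ badSet F {x} with hQ
  set ρ : Measure (EuclideanSpace ℝ (Fin 2)) := ENNReal.ofReal (1 / 3) •
    volume.withDensity (fun x => ENNReal.ofReal
      (gaussCurvature (projThree F) x * ‖nvec (projThree F) x‖)) with hρ
  have hρO : ∀ O, MeasurableSet O →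
      ρ O = ENNReal.ofReal (1 / 3) * posCurvatureOn (projThree F) O := by
    intro O hO
    rw [hρ, Measure.smul_apply, withDensity_apply _ hO]
    rfl
  set E1 : Set (EuclideanSpace ℝ (Fin 3)) :=
    {v | ∃ x ∈ U, nvec (projThree F) x ≠ 0 ∧
      ∀ u, (inner ℝ (lift3 v) (fderiv ℝ F x u) : ℝ) = 0} with hE1
  set E2 : Set (EuclideanSpace ℝ (Fin 3)) :=
    {v | ∃ x ∈ closedBall (0 : EuclideanSpace ℝ (Fin 2)) 1, nvec (projThree F) x = 0 ∧
        ∀ u, (inner ℝ (lift3 v) (fderiv ℝ F x u) : ℝ) = 0} with hE2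
  have hE0 : volume (E1 ∪ E2) = 0 :=
    measure_union_null (volume_normal_over_null hF.smooth hU0) (volume_sing_lift hF hS)
  obtain ⟨v, hvb, hvE, hfew⟩ := exists_few volume (enclosedBy U) hKc.measurableSet Q ρ
    (ball 0 1) (E1 ∪ E2) hE0 n
    (by
      intro O hO hOK
      rw [hρO O hO]
      exact badSet_lift_le hF hO (hOK.trans hKsub))
    (by
      rw [hρO _ hKc.measurableSet, hTeq, volume_ball_three, ← ENNReal.ofReal_mul (by norm_num)]
      have e1 : ((n : ℝ≥0∞) + 1) = ENNReal.ofReal ((n : ℝ) + 1) := by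
        rw [ENNReal.ofReal_add (by positivity) (by norm_num), ENNReal.ofReal_natCast,
          ENNReal.ofReal_one]
      rw [e1, ← ENNReal.ofReal_mul (by positivity)]
      apply (ENNReal.ofReal_lt_ofReal_iff (by positivity)).2
      nlinarith)
  have hcr : ∀ x, fderiv ℝ (fun y => (inner ℝ (lift3 v) (F y) : ℝ)) x = 0 →
      ∀ u, (inner ℝ (lift3 v) (fderiv ℝ F x u) : ℝ) = 0 := by
    intro x h0 u
    rw [kl_fderiv hF.smooth] at h0
    have h2 := congrArg (fun L : EuclideanSpace ℝ (Fin 2) →L[ℝ] ℝ => L u) h0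
    simpa using h2
  have hav : ∀ x ∈ U, fderiv ℝ (fun y => (inner ℝ (lift3 v) (F y) : ℝ)) x ≠ 0 := by
    intro x hx h0
    by_cases hnx : nvec (projThree F) x = 0
    · have hxD : x ∈ closedBall (0 : EuclideanSpace ℝ (Fin 2)) 1 := by
        rcases hx with h | h
        · exact h.1
        · exact h.1
      exact hvE (Or.inr ⟨x, hxD, hnx, hcr x h0⟩)
    · exact hvE (Or.inl ⟨x, hx, hnx, hcr x h0⟩)
  have hfin : {x | x ∈ enclosedBy U ∧ Q x v}.Finite :=
    Set.finite_of_encard_le_coe hfew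
  obtain ⟨G, h1, h2, h4, h5⟩ := births_of_rising hF (rising_lift hF.smooth v) hav
    hfin.toFinset
    (by
      intro p hp
      rw [Set.Finite.mem_toFinset] at hp
      refine ⟨hp.1.1, fun hpU => ?_⟩
      obtain ⟨y, hy, hperp, _⟩ := hp.2.2
      rw [mem_singleton_iff] at hy
      subst hy
      exact hvE (Or.inl ⟨y, hpU, hp.2.1, hperp⟩))
    (by
      intro x hx h0
      by_contra hcon
      push Not at hcon
      obtain ⟨hpsd, hxP⟩ := hcon
      apply hxP
      rw [Set.Finite.mem_toFinset]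
      have hxU : x ∉ U := fun h => hav x h h0
      refine ⟨hx, fun hnx => hxU (Or.inr ⟨hx.1, hnx⟩), x, rfl, hcr x h0, ?_⟩
      intro u
      have := hpsd u
      rwa [kl_fderiv_two hF.smooth] at this)
  have hcard : ((hfin.toFinset.card : ℕ) : ℕ∞) ≤ n := by
    rw [← Set.encard_coe_eq_coe_finsetCard, Set.Finite.coe_toFinset]
    exact hfew
  have hle : (births G).encard ≤ n := h2.trans hcard
  have hbf : (births G).Finite := Set.finite_of_encard_le_coe hle
  refine ⟨G, h1, hbf, ?_, h4, h5⟩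
  rw [hTeq]
  apply ENNReal.ofReal_le_ofReal
  have hnc : (births G).ncard ≤ n := by
    have := hbf.cast_ncard_eq
    rw [← this] at hle
    exact_mod_cast hle
  have : ((births G).ncard : ℝ) ≤ n := by exact_mod_cast hnc
  have h7 : 4 * Real.pi * ((births G).ncard : ℝ) ≤ 4 * Real.pi * n :=
    mul_le_mul_of_nonneg_left this (by positivity)
  linarith

end Pool.Agent.Lib_MP_752436_gt
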