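import Pool.Agent.Lib_MP_752436_gt.Disc

/-!
Immersed discs in `R^3` with crossing information, and their traps.
-/

open MeasureTheory Metric Set
open scoped ContDiff

namespace Pool.Agent.Lib_MP_752436_gt

/-- `R` is a crossing information for the map `f` of the closed unit disc to `R^3`: a closed
relation which orders every pair of distinct points with the same image (`R x y` reads: `x` lies
above `y`), such that only interior points of the disc lie above other points. -/
structure CrossingInfo (f : EuclideanSpace ℝ (Fin 2) → EuclideanSpace ℝ (Fin 3))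
    (R : EuclideanSpace ℝ (Fin 2) → EuclideanSpace ℝ (Fin 2) → Prop) : Prop where
  closed : IsClosed {p : EuclideanSpace ℝ (Fin 2) × EuclideanSpace ℝ (Fin 2) | R p.1 p.2}
  double : ∀ x y, R x y → x ∈ ball (0 : EuclideanSpace ℝ (Fin 2)) 1 ∧
    y ∈ closedBall (0 : EuclideanSpace ℝ (Fin 2)) 1 ∧ x ≠ y ∧ f x = f y
  total : ∀ x ∈ closedBall (0 : EuclideanSpace ℝ (Fin 2)) 1,
    ∀ y ∈ closedBall (0 : EuclideanSpace ℝ (Fin 2)) 1, x ≠ y → f x = f y → R x y ∨ R y x

/-- A trap of a crossing information: a nonempty compact subset of the open disc such that every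
point of its frontier lies above a point of the set. -/
structure IsTrapOf (R : EuclideanSpace ℝ (Fin 2) → EuclideanSpace ℝ (Fin 2) → Prop)
    (Z : Set (EuclideanSpace ℝ (Fin 2))) : Prop where
  compact : IsCompact Z
  nonempty : Z.Nonempty
  sub : Z ⊆ ball 0 1
  above : ∀ x ∈ frontier Z, ∃ y ∈ Z, R x y

/-- The projection of a disc in `R^4` to `R^3`, which forgets the height. -/
def shadow (G : EuclideanSpace ℝ (Fin 2) → EuclideanSpace ℝ (Fin 4)) :
    EuclideanSpace ℝ (Fin 2) → EuclideanSpace ℝ (Fin 3) :=
  fun x => !₂[G x 0, G x 1, G x 2]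

end Pool.Agent.Lib_MP_752436_gt
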