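import Pool.Agent.Lib_MP_752436_gt.CurvDefs

/-! C1: the Jacobian of `(x, s) ↦ s n(x)`. -/

open MeasureTheory Metric Set
open scoped ContDiff ENNReal Topology

namespace Pool.Agent.Lib_MP_752436_gt

theorem gj_cross_bilin : IsBilinearMap ℝ cross where
  add_left a a' b := by
    ext i; fin_cases i <;> simp [cross] <;> ring
  smul_left c a b := by
    ext i; fin_cases i <;> simp [cross] <;> ring
  add_right a b b' := by
    ext i; fin_cases i <;> simp [cross] <;> ring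
  smul_right c a b := by
    ext i; fin_cases i <;> simp [cross] <;> ring

/-- the cross product as a continuous bilinear map -/
noncomputable def gjCross : EuclideanSpace ℝ (Fin 3) →L[ℝ] EuclideanSpace ℝ (Fin 3) →L[ℝ]
    EuclideanSpace ℝ (Fin 3) := gj_cross_bilin.toContinuousBilinearMap

theorem gjCross_apply (a b : EuclideanSpace ℝ (Fin 3)) : gjCross a b = cross a b := rfl

theorem gj_cross_zero_left (a : EuclideanSpace ℝ (Fin 3)) : cross 0 a = 0 := by
  rw [← gjCross_apply, map_zero, zero_apply]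

theorem gj_cross_zero_right (a : EuclideanSpace ℝ (Fin 3)) : cross a 0 = 0 := by
  rw [← gjCross_apply, map_zero]

/-- the first two coordinates -/
noncomputable def gjX : EuclideanSpace ℝ (Fin 3) →L[ℝ] EuclideanSpace ℝ (Fin 2) :=
  LinearMap.toContinuousLinearMap
    { toFun := fun z => !₂[z 0, z 1]
      map_add' := fun z w => by ext i; fin_cases i <;> simp
      map_smul' := fun c z => by ext i; fin_cases i <;> simp }

theorem gjX_apply (z : EuclideanSpace ℝ (Fin 3)) : gjX z = !₂[z 0, z 1] := rfl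

theorem gjX_zero : gjX (EuclideanSpace.single 0 1) = EuclideanSpace.single 0 1 := by
  rw [gjX_apply]; ext i; fin_cases i <;> simp

theorem gjX_one : gjX (EuclideanSpace.single 1 1) = EuclideanSpace.single 1 1 := by
  rw [gjX_apply]; ext i; fin_cases i <;> simp

theorem gjX_two : gjX (EuclideanSpace.single 2 1) = 0 := by
  rw [gjX_apply]; ext i; fin_cases i <;> simp

theorem gj_contDiff_pd {f : EuclideanSpace ℝ (Fin 2) → EuclideanSpace ℝ (Fin 3)}
    (hf : ContDiff ℝ ∞ f) (i : Fin 2) : ContDiff ℝ ∞ (pd f i) :=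
  (hf.fderiv_right (m := ∞) (le_of_eq rfl)).clm_apply contDiff_const

theorem gj_hasFDerivAt_pd {f : EuclideanSpace ℝ (Fin 2) → EuclideanSpace ℝ (Fin 3)}
    (hf : ContDiff ℝ ∞ f) (i : Fin 2) (x : EuclideanSpace ℝ (Fin 2)) :
    HasFDerivAt (pd f i) (fderiv ℝ (pd f i) x) x :=
  (((gj_contDiff_pd hf i).differentiable (by simp)) x).hasFDerivAt

theorem gj_symm {f : EuclideanSpace ℝ (Fin 2) → EuclideanSpace ℝ (Fin 3)}
    (hf : ContDiff ℝ ∞ f) (x : EuclideanSpace ℝ (Fin 2)) :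
    pd (pd f 0) 1 x = pd (pd f 1) 0 x := by
  have h1 : HasFDerivAt (fderiv ℝ f) (fderiv ℝ (fderiv ℝ f) x) x :=
    (((hf.fderiv_right (m := ∞) (le_of_eq rfl)).differentiable (by simp)) x).hasFDerivAt
  have h2 : ∀ i : Fin 2, HasFDerivAt (pd f i) ((ContinuousLinearMap.apply ℝ
      (EuclideanSpace ℝ (Fin 3)) (EuclideanSpace.single i (1 : ℝ))).comp
      (fderiv ℝ (fderiv ℝ f) x)) x := fun i =>
    ((ContinuousLinearMap.apply ℝ (EuclideanSpace ℝ (Fin 3))
      (EuclideanSpace.single i (1 : ℝ))).hasFDerivAt).comp x h1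
  have hsymm := (hf.contDiffAt (x := x).isSymmSndFDerivAt
    (by simp; exact WithTop.coe_le_coe.2 le_top)) (EuclideanSpace.single 1 1)
      (EuclideanSpace.single 0 1)
  have h3 : ∀ i j : Fin 2, pd (pd f i) j x = fderiv ℝ (fderiv ℝ f) x
      (EuclideanSpace.single j 1) (EuclideanSpace.single i 1) := by
    intro i j
    rw [pd, (h2 i).fderiv]
    rfl
  rw [h3, h3]
  exact hsymm

theorem gj_hasFDerivAt {f : EuclideanSpace ℝ (Fin 2) → EuclideanSpace ℝ (Fin 3)}
    (hf : ContDiff ℝ ∞ f) (y : EuclideanSpace ℝ (Fin 3)) :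
    ∃ L : EuclideanSpace ℝ (Fin 3) →L[ℝ] EuclideanSpace ℝ (Fin 3),
      HasFDerivAt (fun z : EuclideanSpace ℝ (Fin 3) => z 2 • nvec f (gjX z)) L y ∧
      L (EuclideanSpace.single 0 1) = y 2 • (cross (pd f 0 (gjX y)) (pd (pd f 1) 0 (gjX y)) +
        cross (pd (pd f 0) 0 (gjX y)) (pd f 1 (gjX y))) ∧
      L (EuclideanSpace.single 1 1) = y 2 • (cross (pd f 0 (gjX y)) (pd (pd f 1) 1 (gjX y)) +
        cross (pd (pd f 0) 1 (gjX y)) (pd f 1 (gjX y))) ∧
      L (EuclideanSpace.single 2 1) = nvec f (gjX y) := by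
  have h0 := (gj_hasFDerivAt_pd hf 0 (gjX y)).comp y gjX.hasFDerivAt
  have h1 := (gj_hasFDerivAt_pd hf 1 (gjX y)).comp y gjX.hasFDerivAt
  have h2 := gjCross.hasFDerivAt_of_bilinear h0 h1
  have h3 : HasFDerivAt (fun z : EuclideanSpace ℝ (Fin 3) => z 2)
    (EuclideanSpace.proj 2 : EuclideanSpace ℝ (Fin 3) →L[ℝ] ℝ) y :=
    (EuclideanSpace.proj 2 : EuclideanSpace ℝ (Fin 3) →L[ℝ] ℝ).hasFDerivAt
  have h4 := h3.smul h2
  refine ⟨_, h4, ?_, ?_, ?_⟩
  · simp [gjCross_apply, gjX_zero]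
    rfl
  · simp [gjCross_apply, gjX_one]
    rfl
  · simp [gjCross_apply, gjX_two, gj_cross_zero_right]
    rfl

/-- C1 (file GaussJac.lean): the Jacobian of `(x, s) ↦ s n(x)`. -/
theorem gauss_jac {f : EuclideanSpace ℝ (Fin 2) → EuclideanSpace ℝ (Fin 3)}
    (hf : ContDiff ℝ ∞ f) (y : EuclideanSpace ℝ (Fin 3)) :
    DifferentiableAt ℝ (fun z : EuclideanSpace ℝ (Fin 3) => z 2 • nvec f !₂[z 0, z 1]) y ∧
    |(fderiv ℝ (fun z : EuclideanSpace ℝ (Fin 3) => z 2 • nvec f !₂[z 0, z 1]) y).det| =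
      (y 2) ^ 2 * |secDet f !₂[y 0, y 1]| := by
  obtain ⟨L, hL, e0, e1, e2⟩ := gj_hasFDerivAt hf y
  refine ⟨hL.differentiableAt, ?_⟩
  change |(fderiv ℝ (fun z : EuclideanSpace ℝ (Fin 3) => z 2 • nvec f (gjX z)) y).det| =
      (y 2) ^ 2 * |secDet f (gjX y)|
  rw [hL.fderiv]
  rw [gj_symm hf] at e1
  set b := (EuclideanSpace.basisFun (Fin 3) ℝ).toBasis with hb
  set M := LinearMap.toMatrix b b (L : EuclideanSpace ℝ (Fin 3) →ₗ[ℝ] EuclideanSpace ℝ (Fin 3))
    with hM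
  have hentry : ∀ k j, M k j = L (EuclideanSpace.single j 1) k := by
    intro k j
    rw [hM, LinearMap.toMatrix_apply, hb]
    simp
  have hdet : L.det = M.det := by
    rw [hM, LinearMap.det_toMatrix]
  rw [hdet, Matrix.det_fin_three]
  simp only [hentry, e0, e1, e2]
  rw [← abs_of_nonneg (sq_nonneg (y 2)), ← abs_mul]
  congr 1
  simp only [secDet, nvec, PiLp.inner_apply, Fin.sum_univ_three, RCLike.inner_apply, conj_trivial,
    cross, PiLp.smul_apply, PiLp.add_apply, smul_eq_mul]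
  simp
  ring

end Pool.Agent.Lib_MP_752436_gt
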