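import Pool.Agent.Lib_MP_752436_gt.WBirths

/-!
Shears of slice discs: `F` is replaced by `F + F_3 a` with a horizontal vector `a`. This fixes the
boundary knot, keeps the height, and changes the linear functions `⟨v, F⟩`.
-/

open MeasureTheory Metric Set
open scoped ContDiff ENNReal Topology

namespace Pool.Agent.Lib_MP_752436_gt

/-- The shear with horizontal vector `a`, as a continuous linear map. -/
noncomputable def shearMap (a : EuclideanSpace ℝ (Fin 4)) :
    EuclideanSpace ℝ (Fin 4) →L[ℝ] EuclideanSpace ℝ (Fin 4) :=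
  ContinuousLinearMap.id ℝ _ +
    (EuclideanSpace.proj (3 : Fin 4) : EuclideanSpace ℝ (Fin 4) →L[ℝ] ℝ).smulRight a

theorem shearMap_apply (a w : EuclideanSpace ℝ (Fin 4)) : shearMap a w = w + w 3 • a := by
  simp [shearMap]

theorem shearMap_three {a : EuclideanSpace ℝ (Fin 4)} (ha : a 3 = 0)
    (w : EuclideanSpace ℝ (Fin 4)) : shearMap a w 3 = w 3 := by
  simp [shearMap_apply, ha]

theorem shearMap_injective {a : EuclideanSpace ℝ (Fin 4)} (ha : a 3 = 0) :
    Function.Injective (shearMap a) := by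
  intro w z h
  have h3 : w 3 = z 3 := by
    have := congrArg (fun u : EuclideanSpace ℝ (Fin 4) => u 3) h
    simpa [shearMap_three ha] using this
  rw [shearMap_apply, shearMap_apply, h3] at h
  exact add_right_cancel h

theorem fderiv_shear {F : EuclideanSpace ℝ (Fin 2) → EuclideanSpace ℝ (Fin 4)}
    (hF : ContDiff ℝ ∞ F) (a : EuclideanSpace ℝ (Fin 4)) (x : EuclideanSpace ℝ (Fin 2)) :
    fderiv ℝ (fun x => shearMap a (F x)) x = (shearMap a).comp (fderiv ℝ F x) :=
  ((shearMap a).hasFDerivAt.comp x ((hF.differentiable (by simp)) x).hasFDerivAt).fderiv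

theorem fderiv_fderiv_shear {F : EuclideanSpace ℝ (Fin 2) → EuclideanSpace ℝ (Fin 4)}
    (hF : ContDiff ℝ ∞ F) (a : EuclideanSpace ℝ (Fin 4)) (x u w : EuclideanSpace ℝ (Fin 2)) :
    fderiv ℝ (fderiv ℝ (fun x => shearMap a (F x))) x u w
      = shearMap a (fderiv ℝ (fderiv ℝ F) x u w) := by
  have h0 : fderiv ℝ (fun x => shearMap a (F x)) = fun z => (shearMap a).comp (fderiv ℝ F z) :=
    funext (fderiv_shear hF a)
  rw [h0]
  have h1 : HasFDerivAt (fderiv ℝ F) (fderiv ℝ (fderiv ℝ F) x) x :=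
    (((hF.fderiv_right (m := ∞) (by simp)).differentiable (by simp)) x).hasFDerivAt
  have h2 : fderiv ℝ (fun z => (shearMap a).comp (fderiv ℝ F z)) x
      = (ContinuousLinearMap.compL ℝ (EuclideanSpace ℝ (Fin 2)) (EuclideanSpace ℝ (Fin 4))
        (EuclideanSpace ℝ (Fin 4)) (shearMap a)).comp (fderiv ℝ (fderiv ℝ F) x) :=
    (((ContinuousLinearMap.compL ℝ (EuclideanSpace ℝ (Fin 2)) (EuclideanSpace ℝ (Fin 4))
        (EuclideanSpace ℝ (Fin 4)) (shearMap a))).hasFDerivAt.comp x h1).fderiv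
  rw [h2]
  rfl

theorem isSliceDisc_shear {F : EuclideanSpace ℝ (Fin 2) → EuclideanSpace ℝ (Fin 4)}
    (hF : IsSliceDisc F) {a : EuclideanSpace ℝ (Fin 4)} (ha : a 3 = 0) :
    IsSliceDisc (fun x => shearMap a (F x)) where
  smooth := (shearMap a).contDiff.comp hF.smooth
  inj := fun _ hx _ hy h => hF.inj hx hy (shearMap_injective ha h)
  immersion := by
    intro x hx
    rw [fderiv_shear hF.smooth]
    exact (shearMap_injective ha).comp (hF.immersion x hx)
  boundary := fun x hx => by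
    rw [shearMap_three ha]
    exact hF.boundary x hx
  interior := fun x hx => by
    rw [shearMap_three ha]
    exact hF.interior x hx

/-- The horizontal part of a vector. -/
noncomputable def horiz (v : EuclideanSpace ℝ (Fin 4)) : EuclideanSpace ℝ (Fin 4) :=
  v - EuclideanSpace.single 3 (v 3)

theorem horiz_three (v : EuclideanSpace ℝ (Fin 4)) : horiz v 3 = 0 := by
  simp [horiz]

/-- For every direction `v` which is not vertical there is a shear which makes it horizontal. -/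
theorem exists_shear {v : EuclideanSpace ℝ (Fin 4)} (hv : horiz v ≠ 0) :
    ∃ a : EuclideanSpace ℝ (Fin 4), a 3 = 0 ∧
      ∀ w, (inner ℝ (horiz v) (shearMap a w) : ℝ) = inner ℝ v w := by
  refine ⟨(v 3 / ‖horiz v‖ ^ 2) • horiz v, by simp [horiz_three], fun w => ?_⟩
  have hn : ‖horiz v‖ ^ 2 ≠ 0 := by
    have : ‖horiz v‖ ≠ 0 := norm_ne_zero_iff.2 hv
    positivity
  rw [shearMap_apply, inner_add_right, inner_smul_right, inner_smul_right,
    real_inner_self_eq_norm_sq, div_mul_cancel₀ _ hn]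
  have h1 : (inner ℝ (horiz v) w : ℝ) = inner ℝ v w - v 3 * w 3 := by
    unfold horiz
    rw [inner_sub_left, EuclideanSpace.inner_single_left]
    simp
  rw [h1]
  ring

/-- The bad directions of the sheared disc. -/
theorem mem_badSet_shear {F : EuclideanSpace ℝ (Fin 2) → EuclideanSpace ℝ (Fin 4)}
    (hF : ContDiff ℝ ∞ F) {v w a : EuclideanSpace ℝ (Fin 4)}
    (ha : ∀ z, (inner ℝ w (shearMap a z) : ℝ) = inner ℝ v z) (s : Set (EuclideanSpace ℝ (Fin 2))) :
    w ∈ badSet (fun x => shearMap a (F x)) s ↔ v ∈ badSet F s := by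
  unfold badSet
  simp only [mem_setOf_eq, fderiv_shear hF, fderiv_fderiv_shear hF, ha,
    ContinuousLinearMap.comp_apply]

/-- Few bad points in any direction which is not vertical suffice. -/
theorem births_of_direction_shear {F : EuclideanSpace ℝ (Fin 2) → EuclideanSpace ℝ (Fin 4)}
    (hF : IsSliceDisc F) {v : EuclideanSpace ℝ (Fin 4)} (hv : horiz v ≠ 0) {n : ℕ}
    (hfew : {x | x ∈ closedBall (0 : EuclideanSpace ℝ (Fin 2)) 1 ∧ v ∈ badSet F {x}}.encard ≤ n)
    (hnd : ∀ x ∈ closedBall (0 : EuclideanSpace ℝ (Fin 2)) 1, v ∈ badSet F {x} →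
      x ∈ ball (0 : EuclideanSpace ℝ (Fin 2)) 1 ∧
      ∀ u, u ≠ 0 → 0 < (inner ℝ v (fderiv ℝ (fderiv ℝ F) x u u) : ℝ)) :
    ∃ a : EuclideanSpace ℝ (Fin 4), a 3 = 0 ∧
      ∃ G, MorseDisc G ∧ (births G).encard ≤ n ∧
        (∀ x, ∀ i, i ≠ 3 → G x i = (F x + F x 3 • a) i) ∧
        ∀ s ∈ Icc (0 : ℝ) 1, IsSliceDisc (fun x => (1 - s) • (F x + F x 3 • a) + s • G x) := by
  obtain ⟨a, ha3, ha⟩ := exists_shear hv
  have hmem : ∀ s, horiz v ∈ badSet (fun x => shearMap a (F x)) s ↔ v ∈ badSet F s :=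
    mem_badSet_shear hF.smooth ha
  obtain ⟨G, hG1, hG2, hG3, hG4⟩ := births_of_direction (isSliceDisc_shear hF ha3)
    (v := horiz v) (horiz_three v).ge (n := n)
    (by simpa only [hmem] using hfew) (by
      intro x hx hb
      rw [hmem] at hb
      obtain ⟨h1, h2⟩ := hnd x hx hb
      refine ⟨h1, fun u hu => ?_⟩
      rw [fderiv_fderiv_shear hF.smooth, ha]
      exact h2 u hu)
  simp only [shearMap_apply] at hG3 hG4
  exact ⟨a, ha3, G, hG1, hG2, hG3, hG4⟩

theorem volume_vertical :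
    volume {v : EuclideanSpace ℝ (Fin 4) | horiz v = 0} = 0 := by
  have h1 : {v : EuclideanSpace ℝ (Fin 4) | horiz v = 0} ⊆ ((LinearMap.ker
      (EuclideanSpace.proj (0 : Fin 4) : EuclideanSpace ℝ (Fin 4) →L[ℝ] ℝ).toLinearMap :
      Submodule ℝ (EuclideanSpace ℝ (Fin 4))) : Set (EuclideanSpace ℝ (Fin 4))) := by
    intro v hv
    have h2 := congrArg (fun u : EuclideanSpace ℝ (Fin 4) => u 0) hv
    simpa [horiz] using h2
  refine measure_mono_null h1 (Measure.addHaar_submodule _ _ ?_)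
  intro h2
  have h3 : (EuclideanSpace.single (0 : Fin 4) (1 : ℝ)) ∈ (LinearMap.ker
      (EuclideanSpace.proj (0 : Fin 4) : EuclideanSpace ℝ (Fin 4) →L[ℝ] ℝ).toLinearMap :
      Submodule ℝ (EuclideanSpace ℝ (Fin 4))) := by rw [h2]; trivial
  simp at h3

theorem volume_ball_four :
    volume (ball (0 : EuclideanSpace ℝ (Fin 4)) 1) = ENNReal.ofReal (Real.pi ^ 2 / 2) := by
  rw [EuclideanSpace.volume_ball]
  have h1 : Real.Gamma ((Fintype.card (Fin 4) : ℝ) / 2 + 1) = 2 := by
    have : ((Fintype.card (Fin 4) : ℝ) / 2 + 1) = ((2 : ℕ) : ℝ) + 1 := by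
      simp; norm_num
    rw [this, Real.Gamma_nat_eq_factorial]
    norm_num
  rw [h1]
  have h2 : Real.sqrt Real.pi ^ (Fintype.card (Fin 4)) = Real.pi ^ 2 := by
    simp only [Fintype.card_fin]
    have : Real.sqrt Real.pi ^ 4 = (Real.sqrt Real.pi ^ 2) ^ 2 := by ring
    rw [this, Real.sq_sqrt Real.pi_pos.le]
  rw [h2]
  simp

/-- The number of births is at most `W / 4π`, up to an isotopy through slice discs rel boundary. -/
theorem willmore_births_shear {F : EuclideanSpace ℝ (Fin 2) → EuclideanSpace ℝ (Fin 4)}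
    (hF : IsSliceDisc F) :
    ∃ a : EuclideanSpace ℝ (Fin 4), a 3 = 0 ∧
      ∃ G, MorseDisc G ∧ (births G).Finite ∧ 4 * Real.pi * (births G).ncard ≤ willmore F ∧
        (∀ x, ∀ i, i ≠ 3 → G x i = (F x + F x 3 • a) i) ∧
        ∀ s ∈ Icc (0 : ℝ) 1, IsSliceDisc (fun x => (1 - s) • (F x + F x 3 • a) + s • G x) := by
  have hpi := Real.pi_pos
  have hW0 := willmore_nonneg F
  set K : Set (EuclideanSpace ℝ (Fin 2)) := closedBall 0 1 with hK
  have hKm : MeasurableSet K := measurableSet_closedBall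
  have hg : ∀ x ∈ K, 0 < gdet F x := fun x hx => gdet_pos (hF.immersion x hx)
  set n : ℕ := ⌊willmore F / (4 * Real.pi)⌋₊ with hn
  have hn1 : (n : ℝ) ≤ willmore F / (4 * Real.pi) := Nat.floor_le (by positivity)
  have hn2 : willmore F / (4 * Real.pi) < n + 1 := Nat.lt_floor_add_one _
  set f : EuclideanSpace ℝ (Fin 2) → ℝ≥0∞ := fun x =>
    ENNReal.ofReal (Real.pi / 8 * (‖meanCurv F x‖ ^ 2 * Real.sqrt (gdet F x))) with hf
  set ρ : Measure (EuclideanSpace ℝ (Fin 2)) := (volume.restrict K).withDensity f with hρ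
  have hρO : ∀ O, MeasurableSet O → O ⊆ K → ρ O = ∫⁻ x in O, f x := by
    intro O hO hOK
    rw [hρ, withDensity_apply f hO, Measure.restrict_restrict hO, inter_eq_self_of_subset_left hOK]
  set H : Set (EuclideanSpace ℝ (Fin 4)) := ball 0 1 with hH
  have hle : ∀ O, MeasurableSet O → O ⊆ K →
      volume ({v | ∃ x ∈ O, v ∈ badSet F {x}} ∩ H) ≤ ρ O := by
    intro O hO hOK
    rw [hρO O hO hOK]
    refine le_trans (measure_mono ?_) (badSet_le hF.smooth hO (fun x hx => hg x (hOK hx)))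
    rintro v ⟨⟨x, hx, y, hy, h1, h2⟩, hv⟩
    rw [mem_singleton_iff] at hy
    subst hy
    exact ⟨⟨y, hx, h1, h2⟩, hv⟩
  have hρK : ρ K = ENNReal.ofReal (Real.pi / 8 * willmore F) := by
    rw [hρO K hKm subset_rfl]
    exact lintegral_willmore hF
  have hlt : ρ K < ((n : ℝ≥0∞) + 1) * volume H := by
    rw [hρK, hH, volume_ball_four]
    have h1 : ((n : ℝ≥0∞) + 1) = ENNReal.ofReal ((n : ℝ) + 1) := by
      rw [ENNReal.ofReal_add (by positivity) (by norm_num)]
      simp
    rw [h1, ← ENNReal.ofReal_mul (by positivity)]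
    rw [ENNReal.ofReal_lt_ofReal_iff (by positivity)]
    rw [div_lt_iff₀ (by positivity)] at hn2
    nlinarith
  set E : Set (EuclideanSpace ℝ (Fin 4)) := degSet F K ∪
    (badSet F (sphere (0 : EuclideanSpace ℝ (Fin 2)) 1) ∩ ball 0 1) ∪ {v | horiz v = 0} with hE
  have hE0 : volume E = 0 := by
    rw [hE]
    refine measure_union_null (measure_union_null (volume_degSet hF.smooth hg) ?_) volume_vertical
    have h1 := badSet_le hF.smooth (O := sphere (0 : EuclideanSpace ℝ (Fin 2)) 1)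
      isClosed_sphere.measurableSet (fun x hx => hg x (sphere_subset_closedBall hx))
    have h2 : volume (sphere (0 : EuclideanSpace ℝ (Fin 2)) 1) = 0 :=
      Measure.addHaar_sphere _ _ _
    rw [setLIntegral_measure_zero _ _ h2] at h1
    exact le_antisymm h1 zero_le
  obtain ⟨v, hvH, hvE, hfew⟩ := exists_few (volume : Measure (EuclideanSpace ℝ (Fin 4))) K hKm
    (fun x v => v ∈ badSet F {x}) ρ H E hE0 n hle hlt
  have hv3 : horiz v ≠ 0 := fun h => hvE (Or.inr h)
  obtain ⟨a, ha3, G, hG1, hG2, hG3, hG4⟩ := births_of_direction_shear hF hv3 hfew (by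
    intro x hx hbad
    refine ⟨?_, pos_def_of_psd hF.smooth (O := K) hx hbad (fun h => hvE (Or.inl (Or.inl h)))⟩
    rcases ball_or_sphere hx with h | h
    · exact h
    · exfalso
      apply hvE
      left
      right
      obtain ⟨y, hy, h1, h2⟩ := hbad
      rw [mem_singleton_iff] at hy
      subst hy
      exact ⟨⟨y, h, h1, h2⟩, hvH⟩)
  have hfin : (births G).Finite := Set.finite_of_encard_le_coe hG2
  refine ⟨a, ha3, G, hG1, hfin, ?_, hG3, hG4⟩
  have hc : (births G).ncard ≤ n := by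
    rw [← hfin.cast_ncard_eq] at hG2
    exact_mod_cast hG2
  have hc' : ((births G).ncard : ℝ) ≤ n := by exact_mod_cast hc
  rw [le_div_iff₀ (by positivity)] at hn1
  nlinarith

end Pool.Agent.Lib_MP_752436_gt
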