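import Pool.Agent.Lib_MP_752436_gt.Disc

/-!
Morse slice discs and their interior local minima.
-/

open MeasureTheory Metric Set
open scoped ContDiff

namespace Pool.Agent.Lib_MP_752436_gt

/-- `G` is a Morse slice disc: a slice disc, transverse to the boundary hyperplane, on which the
height `G 3` is a Morse function: at every interior critical point the Hessian
`(u, w) ↦ dd (dd (height G) w) u x` of the height is nondegenerate. -/
structure MorseDisc (G : EuclideanSpace ℝ (Fin 2) → EuclideanSpace ℝ (Fin 4)) : Prop where
  slice : IsSliceDisc G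
  neat : ∀ x ∈ sphere (0 : EuclideanSpace ℝ (Fin 2)) 1, ∃ u, dd (height G) u x ≠ 0
  morse : ∀ x ∈ ball (0 : EuclideanSpace ℝ (Fin 2)) 1, (∀ u, dd (height G) u x = 0) →
    ∀ u, u ≠ 0 → ∃ w, dd (dd (height G) w) u x ≠ 0

/-- The interior local minima of the height (the births of components, seen from the boundary
hyperplane). A Morse slice disc without births is a ribbon disc. -/
def births (G : EuclideanSpace ℝ (Fin 2) → EuclideanSpace ℝ (Fin 4)) :
    Set (EuclideanSpace ℝ (Fin 2)) :=
  {x | x ∈ ball (0 : EuclideanSpace ℝ (Fin 2)) 1 ∧ IsLocalMin (height G) x}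

end Pool.Agent.Lib_MP_752436_gt
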