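import Pool.Agent.Lib_MP_752436_gt.Defs2

/-!
Piece B8: continuity, positivity of the Gram determinant, the normal projection in coordinates.
-/

open MeasureTheory Metric Set
open scoped ContDiff ENNReal

namespace Pool.Agent.Lib_MP_752436_gt

theorem continuous_d1 {F : EuclideanSpace ℝ (Fin 2) → EuclideanSpace ℝ (Fin 4)}
    (hF : ContDiff ℝ ∞ F) (i : Fin 2) : Continuous (d1 F i) := by
  unfold d1
  exact (hF.continuous_fderiv (by simp)).clm_apply continuous_const

theorem continuous_d2 {F : EuclideanSpace ℝ (Fin 2) → EuclideanSpace ℝ (Fin 4)}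
    (hF : ContDiff ℝ ∞ F) (i j : Fin 2) : Continuous (d2 F i j) := by
  unfold d2
  have h1 : ContDiff ℝ ∞ (fderiv ℝ F) := hF.fderiv_right (by simp)
  exact ((h1.continuous_fderiv (by simp)).clm_apply continuous_const).clm_apply continuous_const

theorem gdet_pos {F : EuclideanSpace ℝ (Fin 2) → EuclideanSpace ℝ (Fin 4)}
    {x : EuclideanSpace ℝ (Fin 2)} (hi : Function.Injective (fderiv ℝ F x)) :
    0 < gdet F x := by
  by_contra hcon
  rw [not_lt] at hcon
  have key : inner ℝ (gm F 1 1 x • d1 F 0 x - gm F 0 1 x • d1 F 1 x)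
      (gm F 1 1 x • d1 F 0 x - gm F 0 1 x • d1 F 1 x) = gm F 1 1 x * gdet F x := by
    rw [inner_sub_left, inner_sub_right, inner_sub_right, real_inner_smul_left,
      real_inner_smul_left, real_inner_smul_right, real_inner_smul_right, real_inner_smul_left,
      real_inner_smul_left, real_inner_smul_right, real_inner_smul_right,
      real_inner_comm (d1 F 0 x) (d1 F 1 x)]
    unfold gdet gm
    ring
  have h11 : 0 ≤ gm F 1 1 x := real_inner_self_nonneg
  have h0 : gm F 1 1 x • d1 F 0 x - gm F 0 1 x • d1 F 1 x = 0 := by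
    apply inner_self_eq_zero (𝕜 := ℝ).1
    apply le_antisymm _ real_inner_self_nonneg
    rw [key]
    exact mul_nonpos_of_nonneg_of_nonpos h11 hcon
  have h1 : fderiv ℝ F x (gm F 1 1 x • EuclideanSpace.single 0 1
      - gm F 0 1 x • EuclideanSpace.single 1 1) = 0 := by
    rw [map_sub, map_smul, map_smul]
    exact h0
  have h2 := hi (h1.trans (map_zero _).symm)
  have h3 : gm F 1 1 x = 0 := by
    have := congrArg (fun z : EuclideanSpace ℝ (Fin 2) => z 0) h2
    simpa using this
  have h4 : d1 F 1 x = 0 := inner_self_eq_zero (𝕜 := ℝ).1 h3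
  have h5 := hi ((show fderiv ℝ F x (EuclideanSpace.single 1 1) = 0 from h4).trans
    (map_zero (fderiv ℝ F x)).symm)
  have := congrArg (fun z : EuclideanSpace ℝ (Fin 2) => z 1) h5
  simp at this

/-- The normal projection in coordinates. -/
theorem meanCurv_eq {F : EuclideanSpace ℝ (Fin 2) → EuclideanSpace ℝ (Fin 4)}
    {x : EuclideanSpace ℝ (Fin 2)} (hg : 0 < gdet F x) :
    meanCurv F x = hvec F x
      - ((gm F 1 1 x * inner ℝ (hvec F x) (d1 F 0 x)
          - gm F 0 1 x * inner ℝ (hvec F x) (d1 F 1 x)) / gdet F x) • d1 F 0 x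
      - ((gm F 0 0 x * inner ℝ (hvec F x) (d1 F 1 x)
          - gm F 0 1 x * inner ℝ (hvec F x) (d1 F 0 x)) / gdet F x) • d1 F 1 x := by
  have hdef : meanCurv F x =
      ((Submodule.span ℝ {d1 F 0 x, d1 F 1 x})ᗮ).starProjection (hvec F x) := rfl
  rw [hdef]
  apply Submodule.eq_starProjection_of_mem_orthogonal
  · rw [Submodule.mem_orthogonal]
    intro u hu
    rw [Submodule.mem_span_pair] at hu
    obtain ⟨a, b, rfl⟩ := hu
    have hne := hg.ne'
    have e00 : inner ℝ (d1 F 0 x) (d1 F 0 x) = gm F 0 0 x := rfl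
    have e01 : inner ℝ (d1 F 0 x) (d1 F 1 x) = gm F 0 1 x := rfl
    have e10 : inner ℝ (d1 F 1 x) (d1 F 0 x) = gm F 0 1 x := real_inner_comm _ _
    have e11 : inner ℝ (d1 F 1 x) (d1 F 1 x) = gm F 1 1 x := rfl
    have c0 : inner ℝ (d1 F 0 x) (hvec F x) = inner ℝ (hvec F x) (d1 F 0 x) :=
      real_inner_comm _ _
    have c1 : inner ℝ (d1 F 1 x) (hvec F x) = inner ℝ (hvec F x) (d1 F 1 x) :=
      real_inner_comm _ _
    simp only [inner_add_left, inner_sub_right, real_inner_smul_left, real_inner_smul_right,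
      e00, e01, e10, e11, c0, c1]
    have hgd : gdet F x = gm F 0 0 x * gm F 1 1 x - gm F 0 1 x ^ 2 := rfl
    field_simp
    rw [hgd]
    ring
  · apply Submodule.le_orthogonal_orthogonal
    rw [sub_sub, sub_sub_cancel]
    exact Submodule.mem_span_pair.2 ⟨_, _, rfl⟩

theorem continuous_gm {F : EuclideanSpace ℝ (Fin 2) → EuclideanSpace ℝ (Fin 4)}
    (hF : ContDiff ℝ ∞ F) (i j : Fin 2) : Continuous (gm F i j) :=
  (continuous_d1 hF i).inner (continuous_d1 hF j)

theorem continuous_gdet {F : EuclideanSpace ℝ (Fin 2) → EuclideanSpace ℝ (Fin 4)}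
    (hF : ContDiff ℝ ∞ F) : Continuous (gdet F) :=
  ((continuous_gm hF 0 0).mul (continuous_gm hF 1 1)).sub ((continuous_gm hF 0 1).pow 2)

theorem continuousOn_hvec {F : EuclideanSpace ℝ (Fin 2) → EuclideanSpace ℝ (Fin 4)}
    (hF : ContDiff ℝ ∞ F) : ContinuousOn (hvec F) {x | 0 < gdet F x} := by
  unfold hvec
  refine ContinuousOn.smul (f := fun x => (2 * gdet F x)⁻¹)
    (g := fun x => gm F 1 1 x • d2 F 0 0 x - (2 * gm F 0 1 x) • d2 F 0 1 x
      + gm F 0 0 x • d2 F 1 1 x) ?_ (Continuous.continuousOn ?_)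
  · have h2 : Continuous fun x => 2 * gdet F x := continuous_const.mul (continuous_gdet hF)
    refine ContinuousOn.inv₀ h2.continuousOn ?_
    intro x hx
    have : 0 < gdet F x := hx
    positivity
  · have h2 : Continuous fun x => 2 * gm F 0 1 x := continuous_const.mul (continuous_gm hF 0 1)
    exact (((continuous_gm hF 1 1).smul (continuous_d2 hF 0 0)).sub
      (h2.smul (continuous_d2 hF 0 1))).add ((continuous_gm hF 0 0).smul (continuous_d2 hF 1 1))

theorem continuousOn_meanCurv {F : EuclideanSpace ℝ (Fin 2) → EuclideanSpace ℝ (Fin 4)}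
    (hF : ContDiff ℝ ∞ F) : ContinuousOn (meanCurv F) {x | 0 < gdet F x} := by
  have hh := continuousOn_hvec hF
  have c0 := (continuous_d1 hF 0).continuousOn (s := {x | 0 < gdet F x})
  have c1 := (continuous_d1 hF 1).continuousOn (s := {x | 0 < gdet F x})
  have g00 := (continuous_gm hF 0 0).continuousOn (s := {x | 0 < gdet F x})
  have g01 := (continuous_gm hF 0 1).continuousOn (s := {x | 0 < gdet F x})
  have g11 := (continuous_gm hF 1 1).continuousOn (s := {x | 0 < gdet F x})
  have gd := (continuous_gdet hF).continuousOn (s := {x | 0 < gdet F x})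
  have hne : ∀ x ∈ {x | 0 < gdet F x}, gdet F x ≠ 0 := fun x hx => ne_of_gt hx
  refine ContinuousOn.congr (f := fun x => hvec F x
      - ((gm F 1 1 x * inner ℝ (hvec F x) (d1 F 0 x)
          - gm F 0 1 x * inner ℝ (hvec F x) (d1 F 1 x)) / gdet F x) • d1 F 0 x
      - ((gm F 0 0 x * inner ℝ (hvec F x) (d1 F 1 x)
          - gm F 0 1 x * inner ℝ (hvec F x) (d1 F 0 x)) / gdet F x) • d1 F 1 x) ?_
    (fun x hx => meanCurv_eq hx)
  refine ContinuousOn.sub (ContinuousOn.sub hh ?_) ?_
  · exact (((g11.mul (hh.inner c0)).sub (g01.mul (hh.inner c1))).div gd hne).smul c0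
  · exact (((g00.mul (hh.inner c1)).sub (g01.mul (hh.inner c0))).div gd hne).smul c1

end Pool.Agent.Lib_MP_752436_gt
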