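import Pool.Agent.Lib_MP_752436_gt.Disc

/-!
Working forms of the definitions of `Disc.lean` in terms of the second derivative
`fderiv ℝ (fderiv ℝ F)`.
-/

open MeasureTheory Metric Set
open scoped ContDiff

namespace Pool.Agent.Lib_MP_752436_gt

/-- Working form of `RibbonDisc`. -/
structure IsRibbonDisc (G : EuclideanSpace ℝ (Fin 2) → EuclideanSpace ℝ (Fin 4)) : Prop where
  slice : IsSliceDisc G
  neat : ∀ x ∈ sphere (0 : EuclideanSpace ℝ (Fin 2)) 1, fderiv ℝ (fun y => G y 3) x ≠ 0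
  morse : ∀ x ∈ ball (0 : EuclideanSpace ℝ (Fin 2)) 1, fderiv ℝ (fun y => G y 3) x = 0 →
    ∀ u, u ≠ 0 → ∃ w, fderiv ℝ (fderiv ℝ (fun y => G y 3)) x u w ≠ 0
  noMin : ∀ x ∈ ball (0 : EuclideanSpace ℝ (Fin 2)) 1, fderiv ℝ (fun y => G y 3) x = 0 →
    ∃ u, fderiv ℝ (fderiv ℝ (fun y => G y 3)) x u u < 0

/-- Second partial derivatives of the parametrisation. -/
noncomputable def d2 (F : EuclideanSpace ℝ (Fin 2) → EuclideanSpace ℝ (Fin 4)) (i j : Fin 2)
    (x : EuclideanSpace ℝ (Fin 2)) : EuclideanSpace ℝ (Fin 4) :=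
  fderiv ℝ (fderiv ℝ F) x (EuclideanSpace.single i 1) (EuclideanSpace.single j 1)

/-- The mean curvature vector (half the trace of the second fundamental form with respect to the
first fundamental form): the normal part of `(g11 F_00 - 2 g01 F_01 + g00 F_11) / (2 det g)`. -/
noncomputable def meanCurv (F : EuclideanSpace ℝ (Fin 2) → EuclideanSpace ℝ (Fin 4))
    (x : EuclideanSpace ℝ (Fin 2)) : EuclideanSpace ℝ (Fin 4) :=
  ((Submodule.span ℝ {d1 F 0 x, d1 F 1 x})ᗮ).starProjection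
    ((2 * gdet F x)⁻¹ • (gm F 1 1 x • d2 F 0 0 x - (2 * gm F 0 1 x) • d2 F 0 1 x
      + gm F 0 0 x • d2 F 1 1 x))

/-- The Willmore energy: the integral of the squared length of the mean curvature vector with
respect to the area of the disc. -/
noncomputable def willmore (F : EuclideanSpace ℝ (Fin 2) → EuclideanSpace ℝ (Fin 4)) : ℝ :=
  ∫ x in ball (0 : EuclideanSpace ℝ (Fin 2)) 1, ‖meanCurv F x‖ ^ 2 * Real.sqrt (gdet F x)

/-- The set of vectors `v` which are normal to the surface at some point of `s` at which the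
linear function `⟨v, F⟩` has a positive semidefinite Hessian. -/
def badSet (F : EuclideanSpace ℝ (Fin 2) → EuclideanSpace ℝ (Fin 4))
    (s : Set (EuclideanSpace ℝ (Fin 2))) : Set (EuclideanSpace ℝ (Fin 4)) :=
  {v | ∃ x ∈ s, (∀ u, inner ℝ v (fderiv ℝ F x u) = 0) ∧
    ∀ u, 0 ≤ inner ℝ v (fderiv ℝ (fderiv ℝ F) x u u)}

/-- The directional derivative of the derivative is the second derivative. -/
theorem fderiv_fderiv_apply {V : Type*} [NormedAddCommGroup V] [NormedSpace ℝ V]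
    {F : EuclideanSpace ℝ (Fin 2) → V} (hF : ContDiff ℝ ∞ F)
    (x u w : EuclideanSpace ℝ (Fin 2)) :
    fderiv ℝ (fun y => fderiv ℝ F y w) x u = fderiv ℝ (fderiv ℝ F) x u w := by
  have h1 : HasFDerivAt (fderiv ℝ F) (fderiv ℝ (fderiv ℝ F) x) x :=
    (((hF.fderiv_right (m := ∞) (by simp)).differentiable (by simp)) x).hasFDerivAt
  have h2 := h1.clm_apply (hasFDerivAt_const w x)
  rw [h2.fderiv]
  simp

theorem dd_dd {h : EuclideanSpace ℝ (Fin 2) → ℝ} (hh : ContDiff ℝ ∞ h)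
    (x u w : EuclideanSpace ℝ (Fin 2)) :
    dd (dd h w) u x = fderiv ℝ (fderiv ℝ h) x u w :=
  fderiv_fderiv_apply hh x u w

theorem d1_d1 {F : EuclideanSpace ℝ (Fin 2) → EuclideanSpace ℝ (Fin 4)} (hF : ContDiff ℝ ∞ F)
    (i j : Fin 2) (x : EuclideanSpace ℝ (Fin 2)) :
    d1 (d1 F j) i x = d2 F i j x :=
  fderiv_fderiv_apply hF x _ _

theorem meanCurvature_eq {F : EuclideanSpace ℝ (Fin 2) → EuclideanSpace ℝ (Fin 4)}
    (hF : ContDiff ℝ ∞ F) (x : EuclideanSpace ℝ (Fin 2)) : meanCurvature F x = meanCurv F x := by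
  unfold meanCurvature meanCurv traceVec
  rw [d1_d1 hF, d1_d1 hF, d1_d1 hF]

theorem willmoreEnergy_eq {F : EuclideanSpace ℝ (Fin 2) → EuclideanSpace ℝ (Fin 4)}
    (hF : ContDiff ℝ ∞ F) : willmoreEnergy F = willmore F := by
  unfold willmoreEnergy willmore
  simp only [meanCurvature_eq hF]

theorem IsRibbonDisc.ribbonDisc {G : EuclideanSpace ℝ (Fin 2) → EuclideanSpace ℝ (Fin 4)}
    (hG : IsRibbonDisc G) : RibbonDisc G := by
  have hs : ContDiff ℝ ∞ (height G) := (contDiff_euclidean.1 hG.slice.smooth) 3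
  refine ⟨hG.slice, ?_, ?_, ?_⟩
  · intro x hx
    by_contra hcon
    push Not at hcon
    apply hG.neat x hx
    ext u
    exact hcon u
  · intro x hx h0 u hu
    obtain ⟨w, hw⟩ := hG.morse x hx (by ext u; exact h0 u) u hu
    exact ⟨w, by rw [dd_dd hs]; exact hw⟩
  · intro x hx h0
    obtain ⟨u, hu⟩ := hG.noMin x hx (by ext u; exact h0 u)
    exact ⟨u, by rw [dd_dd hs]; exact hu⟩

end Pool.Agent.Lib_MP_752436_gt
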