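import Pool.Agent.Lib_MP_752436_gt.Defs

/-!
Auxiliary definitions: the parametrisation of the normal bundle by its last two coordinates.
-/

open MeasureTheory Metric Set
open scoped ContDiff ENNReal

namespace Pool.Agent.Lib_MP_752436_gt

/-- The minor of the derivative with respect to the first two coordinates. -/
noncomputable def minor (F : EuclideanSpace ℝ (Fin 2) → EuclideanSpace ℝ (Fin 4))
    (x : EuclideanSpace ℝ (Fin 2)) : ℝ :=
  d1 F 0 x 0 * d1 F 1 x 1 - d1 F 0 x 1 * d1 F 1 x 0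

/-- The normal vector at `x` with the last two coordinates `b 0` and `b 1`. -/
noncomputable def nrm (F : EuclideanSpace ℝ (Fin 2) → EuclideanSpace ℝ (Fin 4))
    (x b : EuclideanSpace ℝ (Fin 2)) : EuclideanSpace ℝ (Fin 4) :=
  !₂[(d1 F 0 x 1 * (b 0 * d1 F 1 x 2 + b 1 * d1 F 1 x 3)
        - d1 F 1 x 1 * (b 0 * d1 F 0 x 2 + b 1 * d1 F 0 x 3)) / minor F x,
     (d1 F 1 x 0 * (b 0 * d1 F 0 x 2 + b 1 * d1 F 0 x 3)
        - d1 F 0 x 0 * (b 0 * d1 F 1 x 2 + b 1 * d1 F 1 x 3)) / minor F x,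
     b 0, b 1]

/-- The quadratic form of the second derivative in the direction `v`. -/
noncomputable def qf (F : EuclideanSpace ℝ (Fin 2) → EuclideanSpace ℝ (Fin 4)) (i j : Fin 2)
    (x : EuclideanSpace ℝ (Fin 2)) (v : EuclideanSpace ℝ (Fin 4)) : ℝ :=
  inner ℝ v (d2 F i j x)

/-- The mean curvature vector before the projection to the normal space. -/
noncomputable def hvec (F : EuclideanSpace ℝ (Fin 2) → EuclideanSpace ℝ (Fin 4))
    (x : EuclideanSpace ℝ (Fin 2)) : EuclideanSpace ℝ (Fin 4) :=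
  (2 * gdet F x)⁻¹ • (gm F 1 1 x • d2 F 0 0 x - (2 * gm F 0 1 x) • d2 F 0 1 x
      + gm F 0 0 x • d2 F 1 1 x)

end Pool.Agent.Lib_MP_752436_gt
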