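import Pool.Agent.Lib_MP_752436_gt.TrapDefs
import Pool.Agent.Lib_MP_752436_gt.Defs2

/-!
The Laplacian of a function of two variables.
-/

open MeasureTheory Metric Set
open scoped ContDiff ENNReal Topology

namespace Pool.Agent.Lib_MP_752436_gt

/-- The Laplacian. -/
noncomputable def lap (φ : EuclideanSpace ℝ (Fin 2) → ℝ) (x : EuclideanSpace ℝ (Fin 2)) : ℝ :=
  fderiv ℝ (fderiv ℝ φ) x (EuclideanSpace.single 0 1) (EuclideanSpace.single 0 1)
    + fderiv ℝ (fderiv ℝ φ) x (EuclideanSpace.single 1 1) (EuclideanSpace.single 1 1)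

end Pool.Agent.Lib_MP_752436_gt
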