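import Pool.Agent.Lib_MP_752436_gt.NegDir

open MeasureTheory Metric Set
open scoped ContDiff ENNReal Topology

namespace Pool.Agent.Lib_MP_752436_gt

/-- a uniform version of the condition on critical points -/
theorem negDir_uniform_on {K : Set (EuclideanSpace ℝ (Fin 2))} (hK : IsCompact K)
    {ψ : EuclideanSpace ℝ (Fin 2) → ℝ}
    (hψ : ContDiff ℝ ∞ ψ)
    (hcrit : ∀ x ∈ K, fderiv ℝ ψ x = 0 →
      ∃ u, fderiv ℝ (fderiv ℝ ψ) x u u < 0) :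
    ∃ η : ℝ, 0 < η ∧ ∀ x ∈ K, ‖fderiv ℝ ψ x‖ ≤ η →
      ∃ u, ‖u‖ = 1 ∧ fderiv ℝ (fderiv ℝ ψ) x u u ≤ -η := by
  have h1 : ContDiff ℝ ∞ (fderiv ℝ ψ) := hψ.fderiv_right (by simp)
  have h2 : ContDiff ℝ ∞ (fderiv ℝ (fderiv ℝ ψ)) := h1.fderiv_right (by simp)
  refine hK.induction_on (p := fun s => ∃ η : ℝ, 0 < η ∧ ∀ x ∈ s, ‖fderiv ℝ ψ x‖ ≤ η →
      ∃ u, ‖u‖ = 1 ∧ fderiv ℝ (fderiv ℝ ψ) x u u ≤ -η) ⟨1, one_pos, by simp⟩ ?_ ?_ ?_
  · rintro s t hst ⟨η, hη, h⟩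
    exact ⟨η, hη, fun x hx => h x (hst hx)⟩
  · rintro s t ⟨η, hη, h⟩ ⟨η', hη', h'⟩
    refine ⟨min η η', lt_min hη hη', ?_⟩
    rintro x (hx | hx) hle
    · obtain ⟨u, hu, hu2⟩ := h x hx (hle.trans (min_le_left _ _))
      exact ⟨u, hu, hu2.trans (neg_le_neg (min_le_left _ _))⟩
    · obtain ⟨u, hu, hu2⟩ := h' x hx (hle.trans (min_le_right _ _))
      exact ⟨u, hu, hu2.trans (neg_le_neg (min_le_right _ _))⟩
  · intro x hx
    by_cases h0 : fderiv ℝ ψ x = 0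
    · obtain ⟨u, hu⟩ := hcrit x hx h0
      have hu0 : u ≠ 0 := by
        rintro rfl
        simp at hu
      have hn : 0 < ‖u‖ := norm_pos_iff.2 hu0
      set v : EuclideanSpace ℝ (Fin 2) := ‖u‖⁻¹ • u with hv
      have hvn : ‖v‖ = 1 := by
        rw [hv, norm_smul, norm_inv, norm_norm, inv_mul_cancel₀ hn.ne']
      have hvneg : fderiv ℝ (fderiv ℝ ψ) x v v < 0 := by
        rw [hv]
        simp only [map_smul, smul_apply, smul_eq_mul]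
        have : 0 < ‖u‖⁻¹ := inv_pos.2 hn
        have h3 : 0 < ‖u‖⁻¹ * ‖u‖⁻¹ := mul_pos this this
        have h4 := mul_pos h3 (neg_pos.2 hu)
        linarith only [h4]
      set η : ℝ := -(fderiv ℝ (fderiv ℝ ψ) x v v) / 2 with hη
      have hη0 : 0 < η := by rw [hη]; linarith only [hvneg]
      have hcont : Continuous (fun y => fderiv ℝ (fderiv ℝ ψ) y v v) := by
        have := h2.continuous
        exact (this.clm_apply continuous_const).clm_apply continuous_const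
      have hev : {y | fderiv ℝ (fderiv ℝ ψ) y v v < -η} ∈ nhds x := by
        refine (isOpen_lt hcont continuous_const).mem_nhds ?_
        show fderiv ℝ (fderiv ℝ ψ) x v v < -η
        rw [hη]; linarith only [hvneg]
      exact ⟨_, mem_nhdsWithin_of_mem_nhds hev, η, hη0, fun y hy _ => ⟨v, hvn, le_of_lt hy⟩⟩
    · have hn : 0 < ‖fderiv ℝ ψ x‖ := norm_pos_iff.2 h0
      have hcont : Continuous (fun y => ‖fderiv ℝ ψ y‖) := h1.continuous.norm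
      have hev : {y | ‖fderiv ℝ ψ x‖ / 2 < ‖fderiv ℝ ψ y‖} ∈ nhds x := by
        refine (isOpen_lt continuous_const hcont).mem_nhds ?_
        show ‖fderiv ℝ ψ x‖ / 2 < ‖fderiv ℝ ψ x‖
        exact half_lt_self hn
      refine ⟨_, mem_nhdsWithin_of_mem_nhds hev, ‖fderiv ℝ ψ x‖ / 2, half_pos hn, ?_⟩
      intro y hy hle
      exact absurd hy (not_lt.2 hle)

/-- A (file NegDirOn.lean) -/
theorem neg_direction_on {K : Set (EuclideanSpace ℝ (Fin 2))} (hK : IsCompact K)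
    (hKb : K ⊆ closedBall 0 1) {τ ψ : EuclideanSpace ℝ (Fin 2) → ℝ} (hτ : ContDiff ℝ ∞ τ)
    (hψ : ContDiff ℝ ∞ ψ)
    (hpos : ∀ x ∈ closedBall (0 : EuclideanSpace ℝ (Fin 2)) 1, 0 ≤ τ x)
    (hneat : ∀ x ∈ closedBall (0 : EuclideanSpace ℝ (Fin 2)) 1, τ x = 0 → fderiv ℝ τ x ≠ 0)
    (hcrit : ∀ x ∈ K, fderiv ℝ ψ x = 0 → ∃ u, fderiv ℝ (fderiv ℝ ψ) x u u < 0) :
    ∃ lam0 : ℝ, 0 < lam0 ∧ ∀ lam, lam0 ≤ lam → ∀ a : EuclideanSpace ℝ (Fin 2), ‖a‖ ≤ 1 →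
      ∀ x ∈ K, 0 < τ x →
      (∀ u, fderiv ℝ τ x u = - (τ x * (lam * fderiv ℝ ψ x u + inner ℝ a u))) →
      ∃ u, fderiv ℝ (fderiv ℝ τ) x u u - fderiv ℝ τ x u * fderiv ℝ τ x u / τ x
        + τ x * (lam * fderiv ℝ (fderiv ℝ ψ) x u u) < 0 := by
  have hτ1 : ContDiff ℝ ∞ (fderiv ℝ τ) := hτ.fderiv_right (by simp)
  have hτ2 : ContDiff ℝ ∞ (fderiv ℝ (fderiv ℝ τ)) := hτ1.fderiv_right (by simp)
  have hψ1 : ContDiff ℝ ∞ (fderiv ℝ ψ) := hψ.fderiv_right (by simp)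
  have hψ2 : ContDiff ℝ ∞ (fderiv ℝ (fderiv ℝ ψ)) := hψ1.fderiv_right (by simp)
  obtain ⟨C1, hC1p, hC1⟩ := exists_bound_unitDisc hτ2.continuous
  obtain ⟨C2, hC2p, hC2⟩ := exists_bound_unitDisc hψ2.continuous
  obtain ⟨C3, hC3p, hC3⟩ := exists_bound_unitDisc hτ1.continuous
  obtain ⟨m, hm, hmle⟩ := negDir_min hτ hpos hneat
  obtain ⟨η, hη, hηc⟩ := negDir_uniform_on hK hψ hcrit
  obtain ⟨κ, t0, s0, hκ0, ht0, hs1, hκC2, ht0C1, ht0m, hsa, hsb, hsc, hsd⟩ :=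
    negDir_consts hm hC1p hC2p hC3p hη
  have hlam0 : 0 < s0 ^ 2 / κ := div_pos (pow_pos (lt_of_lt_of_le one_pos hs1) 2) hκ0
  refine ⟨s0 ^ 2 / κ, hlam0, ?_⟩
  intro lam hlamle a ha x hxK hτx hrel
  have hx := hKb hxK
  have hlam0 : 0 < lam := lt_of_lt_of_le hlam0 hlamle
  obtain ⟨s, hs⟩ : ∃ s : ℝ, s = Real.sqrt (lam * κ) := ⟨_, rfl⟩
  have hs0s : s0 ≤ s := by
    rw [hs]
    apply Real.le_sqrt_of_sq_le
    rwa [div_le_iff₀ hκ0] at hlamle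
  have hssq : lam * κ = s ^ 2 := by
    rw [hs]
    exact (Real.sq_sqrt (mul_pos hlam0 hκ0).le).symm
  exact negDir_point hC1p hC2p hC3p hη hm hκ0 (hs1.trans hs0s) hκC2 ht0C1 ht0m
    (hsa.trans (mul_le_mul_of_nonneg_right hs0s ht0.le))
    (hsb.trans (mul_le_mul_of_nonneg_right hs0s hη.le))
    (hsc.trans (mul_le_mul_of_nonneg_right hs0s hη.le))
    (hsd.trans (mul_le_mul_of_nonneg_right hs0s hη.le)) hssq hlam0 ha hτx
    (hC1 x hx) (hC2 x hx) (hC3 x hx) (hmle x hx) (hηc x hxK) hrel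

end Pool.Agent.Lib_MP_752436_gt
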