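import Pool.Agent.Lib_MP_752436_gt.NegDir

open MeasureTheory Metric Set
open scoped ContDiff ENNReal Topology

namespace Pool.Agent.Lib_MP_752436_gt

/-- B (file UniqueCrit.lean) -/
theorem unique_crit {τ ψ : EuclideanSpace ℝ (Fin 2) → ℝ} (hτ : ContDiff ℝ ∞ τ)
    (hψ : ContDiff ℝ ∞ ψ) {p : EuclideanSpace ℝ (Fin 2)} {r m : ℝ} (hr : 0 < r) (hm : 0 < m)
    (hpos : ∀ x ∈ closedBall p r, 0 < τ x)
    (hconv : ∀ x ∈ closedBall p r, ∀ u, m * ‖u‖ ^ 2 ≤ fderiv ℝ (fderiv ℝ ψ) x u u) :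
    ∃ lam1 : ℝ, 0 < lam1 ∧ ∀ lam, lam1 ≤ lam → ∀ a : EuclideanSpace ℝ (Fin 2),
      ∀ x ∈ closedBall p r, ∀ y ∈ closedBall p r,
      (∀ u, fderiv ℝ τ x u = - (τ x * (lam * fderiv ℝ ψ x u + inner ℝ a u))) →
      (∀ u, fderiv ℝ τ y u = - (τ y * (lam * fderiv ℝ ψ y u + inner ℝ a u))) → x = y := by
  have hτ1 : ContDiff ℝ ∞ (fderiv ℝ τ) := hτ.fderiv_right (by simp)
  have hτ2 : ContDiff ℝ ∞ (fderiv ℝ (fderiv ℝ τ)) := hτ1.fderiv_right (by simp)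
  have hψ1 : ContDiff ℝ ∞ (fderiv ℝ ψ) := hψ.fderiv_right (by simp)
  set g : EuclideanSpace ℝ (Fin 2) → ℝ := fun x =>
    ‖fderiv ℝ (fderiv ℝ τ) x‖ / τ x + (‖fderiv ℝ τ x‖ / τ x) ^ 2 with hg
  have hgc : ContinuousOn g (closedBall p r) := by
    have h1 : ContinuousOn τ (closedBall p r) := hτ.continuous.continuousOn
    have h2 : Continuous (fun x => ‖fderiv ℝ (fderiv ℝ τ) x‖) :=
      (continuous_norm (E := EuclideanSpace ℝ (Fin 2) →L[ℝ]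
        EuclideanSpace ℝ (Fin 2) →L[ℝ] ℝ)).comp hτ2.continuous
    have h3 : Continuous (fun x => ‖fderiv ℝ τ x‖) :=
      (continuous_norm (E := EuclideanSpace ℝ (Fin 2) →L[ℝ] ℝ)).comp hτ1.continuous
    refine ContinuousOn.add ?_ (ContinuousOn.pow ?_ 2)
    · exact ContinuousOn.div h2.continuousOn h1 (fun x hx => (hpos x hx).ne')
    · exact ContinuousOn.div h3.continuousOn h1 (fun x hx => (hpos x hx).ne')
  obtain ⟨C, hC⟩ := (isCompact_closedBall p r).exists_bound_of_continuousOn hgc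
  have hC0 : 0 ≤ C := le_trans (norm_nonneg _) (hC p (mem_closedBall_self hr.le))
  refine ⟨C / m + 1, by positivity, ?_⟩
  intro lam hlam a x hx y hy hcx hcy
  by_contra hne
  set w : EuclideanSpace ℝ (Fin 2) := y - x with hw
  have hw0 : 0 < ‖w‖ := by
    rw [norm_pos_iff, hw, sub_ne_zero]
    exact fun h => hne h.symm
  set z : ℝ → EuclideanSpace ℝ (Fin 2) := fun s => x + s • w with hz
  have hzm : ∀ s ∈ Icc (0 : ℝ) 1, z s ∈ closedBall p r := by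
    intro s hs
    have h1 : z s = (1 - s) • x + s • y := by
      simp only [hz, hw]
      module
    rw [h1]
    exact (convex_closedBall p r) hx hy (by linarith [hs.2]) hs.1 (by ring)
  have hzd : ∀ s : ℝ, HasDerivAt z w s := by
    intro s
    have h1 : HasDerivAt (fun s : ℝ => s • w) ((1 : ℝ) • w) s := (hasDerivAt_id s).smul_const w
    rw [one_smul] at h1
    exact h1.const_add x
  have hDτ : ∀ s : ℝ, HasDerivAt (fun s => fderiv ℝ τ (z s) w)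
      (fderiv ℝ (fderiv ℝ τ) (z s) w w) s := by
    intro s
    have h1 : HasFDerivAt (fderiv ℝ τ) (fderiv ℝ (fderiv ℝ τ) (z s)) (z s) :=
      ((hτ1.differentiable (by simp)) _).hasFDerivAt
    have h2 := (h1.comp_hasDerivAt s (hzd s)).clm_apply (hasDerivAt_const s w)
    simpa using h2
  have hDψ : ∀ s : ℝ, HasDerivAt (fun s => fderiv ℝ ψ (z s) w)
      (fderiv ℝ (fderiv ℝ ψ) (z s) w w) s := by
    intro s
    have h1 : HasFDerivAt (fderiv ℝ ψ) (fderiv ℝ (fderiv ℝ ψ) (z s)) (z s) :=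
      ((hψ1.differentiable (by simp)) _).hasFDerivAt
    have h2 := (h1.comp_hasDerivAt s (hzd s)).clm_apply (hasDerivAt_const s w)
    simpa using h2
  have hτd : ∀ s : ℝ, HasDerivAt (fun s => τ (z s)) (fderiv ℝ τ (z s) w) s := by
    intro s
    have h1 : HasFDerivAt τ (fderiv ℝ τ (z s)) (z s) :=
      ((hτ.differentiable (by simp)) _).hasFDerivAt
    exact h1.comp_hasDerivAt s (hzd s)
  set k : ℝ → ℝ := fun s => fderiv ℝ τ (z s) w / τ (z s)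
    + (lam * fderiv ℝ ψ (z s) w + inner ℝ a w) with hk
  have hkd : ∀ s ∈ Icc (0 : ℝ) 1, HasDerivAt k
      ((fderiv ℝ (fderiv ℝ τ) (z s) w w * τ (z s) - fderiv ℝ τ (z s) w * fderiv ℝ τ (z s) w)
        / τ (z s) ^ 2 + lam * fderiv ℝ (fderiv ℝ ψ) (z s) w w) s := by
    intro s hs
    have h1 := (hDτ s).div (hτd s) (hpos _ (hzm s hs)).ne'
    have h2 := ((hDψ s).const_mul lam).add_const (inner ℝ a w : ℝ)
    exact h1.add h2
  have hk0 : k 0 = 0 := by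
    have h1 : z 0 = x := by simp [hz]
    have h2 := hpos x hx
    simp only [hk, h1, hcx w]
    field_simp
    ring
  have hk1 : k 1 = 0 := by
    have h1 : z 1 = y := by simp [hz, hw]
    have h2 := hpos y hy
    simp only [hk, h1, hcy w]
    field_simp
    ring
  obtain ⟨c, hc, hc0⟩ := exists_hasDerivAt_eq_zero (f := k)
    (f' := fun s => (fderiv ℝ (fderiv ℝ τ) (z s) w w * τ (z s)
      - fderiv ℝ τ (z s) w * fderiv ℝ τ (z s) w)
        / τ (z s) ^ 2 + lam * fderiv ℝ (fderiv ℝ ψ) (z s) w w) (zero_lt_one)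
    (fun s hs => (hkd s hs).continuousAt.continuousWithinAt) (hk0.trans hk1.symm)
    (fun s hs => hkd s ⟨hs.1.le, hs.2.le⟩)
  have hcI : c ∈ Icc (0 : ℝ) 1 := ⟨hc.1.le, hc.2.le⟩
  have hzc := hzm c hcI
  have hT := hpos _ hzc
  set T : ℝ := τ (z c) with hTdef
  have e1 : |fderiv ℝ (fderiv ℝ τ) (z c) w w| ≤ ‖fderiv ℝ (fderiv ℝ τ) (z c)‖ * ‖w‖ * ‖w‖ :=
    (fderiv ℝ (fderiv ℝ τ) (z c)).le_opNorm₂ w w
  have e2 : |fderiv ℝ τ (z c) w| ≤ ‖fderiv ℝ τ (z c)‖ * ‖w‖ := (fderiv ℝ τ (z c)).le_opNorm w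
  have e3 := hconv _ hzc w
  have e4 : ‖fderiv ℝ (fderiv ℝ τ) (z c)‖ / T + (‖fderiv ℝ τ (z c)‖ / T) ^ 2 ≤ C :=
    le_trans (le_abs_self _) (hC _ hzc)
  set A : ℝ := fderiv ℝ (fderiv ℝ τ) (z c) w w with hA
  set B : ℝ := fderiv ℝ τ (z c) w with hB
  set NA : ℝ := ‖fderiv ℝ (fderiv ℝ τ) (z c)‖ with hNA
  set NB : ℝ := ‖fderiv ℝ τ (z c)‖ with hNB
  have h5 : -(C * ‖w‖ ^ 2) ≤ (A * T - B * B) / T ^ 2 := by
    have h6 : (A * T - B * B) / T ^ 2 = A / T - (B / T) ^ 2 := by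
      field_simp
    rw [h6]
    have h7 : -(NA * ‖w‖ * ‖w‖) / T ≤ A / T := by
      apply div_le_div_of_nonneg_right _ hT.le
      linarith [neg_abs_le A]
    have h8 : (B / T) ^ 2 ≤ (NB * ‖w‖ / T) ^ 2 := by
      rw [← sq_abs (B / T), abs_div, abs_of_pos hT]
      exact pow_le_pow_left₀ (by positivity) (div_le_div_of_nonneg_right e2 hT.le) 2
    have h9 : -(C * ‖w‖ ^ 2) ≤ -((NA / T + (NB / T) ^ 2) * ‖w‖ ^ 2) := by
      nlinarith [sq_nonneg ‖w‖]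
    have h10 : -((NA / T + (NB / T) ^ 2) * ‖w‖ ^ 2)
        = -(NA * ‖w‖ * ‖w‖) / T - (NB * ‖w‖ / T) ^ 2 := by
      field_simp
      ring
    linarith
  have h11 : C ≤ (lam - 1) * m := by
    have h12 : C / m ≤ lam - 1 := by linarith
    rwa [div_le_iff₀ hm] at h12
  have h13 : lam * (m * ‖w‖ ^ 2) ≤ lam * fderiv ℝ (fderiv ℝ ψ) (z c) w w := by
    apply mul_le_mul_of_nonneg_left e3
    have : 0 ≤ C / m := by positivity
    linarith
  have h14 : 0 < m * ‖w‖ ^ 2 := by positivity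
  have h15 : C * ‖w‖ ^ 2 ≤ (lam - 1) * m * ‖w‖ ^ 2 :=
    mul_le_mul_of_nonneg_right h11 (by positivity)
  nlinarith

/-- B2 (file UniqueCrit.lean) -/
theorem exists_convex_ball {φ : EuclideanSpace ℝ (Fin 2) → ℝ} (hφ : ContDiff ℝ ∞ φ)
    {p : EuclideanSpace ℝ (Fin 2)} (hp : p ∈ ball (0 : EuclideanSpace ℝ (Fin 2)) 1)
    (hpos : ∀ u, u ≠ 0 → 0 < fderiv ℝ (fderiv ℝ φ) p u u) {δ : ℝ} (hδ : 0 < δ) :
    ∃ r m : ℝ, 0 < r ∧ r < δ ∧ 0 < m ∧ closedBall p r ⊆ ball 0 1 ∧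
      ∀ x ∈ closedBall p r, ∀ u, m * ‖u‖ ^ 2 ≤ fderiv ℝ (fderiv ℝ φ) x u u := by
  have hφ1 : ContDiff ℝ ∞ (fderiv ℝ φ) := hφ.fderiv_right (by simp)
  have hφ2 : ContDiff ℝ ∞ (fderiv ℝ (fderiv ℝ φ)) := hφ1.fderiv_right (by simp)
  have hc : Continuous (fun u : EuclideanSpace ℝ (Fin 2) => fderiv ℝ (fderiv ℝ φ) p u u) :=
    ((fderiv ℝ (fderiv ℝ φ) p).continuous).clm_apply continuous_id
  have hne : (sphere (0 : EuclideanSpace ℝ (Fin 2)) 1).Nonempty :=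
    ⟨EuclideanSpace.single 0 1, by simp⟩
  obtain ⟨u0, hu0, hmin⟩ := (isCompact_sphere (0 : EuclideanSpace ℝ (Fin 2)) 1).exists_isMinOn
    hne hc.continuousOn
  have hu0ne : u0 ≠ 0 := by
    rintro rfl
    simp at hu0
  set M : ℝ := fderiv ℝ (fderiv ℝ φ) p u0 u0 with hM
  have hM0 : 0 < M := hpos u0 hu0ne
  have hhom : ∀ u, M * ‖u‖ ^ 2 ≤ fderiv ℝ (fderiv ℝ φ) p u u := by
    intro u
    by_cases hu : u = 0
    · subst hu; simp
    · have hn : 0 < ‖u‖ := norm_pos_iff.2 hu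
      have h1 : ‖u‖⁻¹ • u ∈ sphere (0 : EuclideanSpace ℝ (Fin 2)) 1 := by
        rw [mem_sphere_zero_iff_norm, norm_smul, norm_inv, norm_norm, inv_mul_cancel₀ hn.ne']
      have h2 := hmin h1
      simp only [mem_ofPred_eq] at h2
      rw [map_smul, map_smul, smul_apply, smul_eq_mul, smul_eq_mul] at h2
      have h3 : M ≤ ‖u‖⁻¹ * (‖u‖⁻¹ * fderiv ℝ (fderiv ℝ φ) p u u) := h2
      have h4 : ‖u‖⁻¹ * (‖u‖⁻¹ * fderiv ℝ (fderiv ℝ φ) p u u)
          = fderiv ℝ (fderiv ℝ φ) p u u / ‖u‖ ^ 2 := by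
        field_simp
      rw [h4, le_div_iff₀ (by positivity)] at h3
      exact h3
  have hcont : ContinuousAt (fderiv ℝ (fderiv ℝ φ)) p := hφ2.continuous.continuousAt
  obtain ⟨r0, hr0, hball⟩ := (Metric.continuousAt_iff (β := EuclideanSpace ℝ (Fin 2) →L[ℝ]
    EuclideanSpace ℝ (Fin 2) →L[ℝ] ℝ)).1 hcont (M / 2) (by positivity)
  have hp1 : ‖p‖ < 1 := by simpa using hp
  set r : ℝ := min (δ / 2) (min (r0 / 2) ((1 - ‖p‖) / 2)) with hr
  have hr1 : r ≤ δ / 2 := min_le_left _ _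
  have hr2 : r ≤ r0 / 2 := (min_le_right _ _).trans (min_le_left _ _)
  have hr3 : r ≤ (1 - ‖p‖) / 2 := (min_le_right _ _).trans (min_le_right _ _)
  have hrpos : 0 < r := by
    rw [hr]
    refine lt_min (by positivity) (lt_min (by positivity) (by linarith))
  refine ⟨r, M / 2, hrpos, by linarith, by positivity, ?_, ?_⟩
  · intro x hx
    rw [mem_closedBall, dist_eq_norm] at hx
    rw [mem_ball, dist_zero_right]
    have h1 : ‖x‖ ≤ ‖x - p‖ + ‖p‖ := by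
      have := norm_add_le (x - p) p
      rwa [sub_add_cancel] at this
    linarith
  · intro x hx u
    rw [mem_closedBall] at hx
    have h0 := hball (lt_of_le_of_lt hx (by linarith : r < r0))
    have h1 : ‖fderiv ℝ (fderiv ℝ φ) x - fderiv ℝ (fderiv ℝ φ) p‖ < M / 2 :=
      lt_of_eq_of_lt (dist_eq_norm (E := EuclideanSpace ℝ (Fin 2) →L[ℝ]
        EuclideanSpace ℝ (Fin 2) →L[ℝ] ℝ) _ _).symm h0
    have h2 := (fderiv ℝ (fderiv ℝ φ) x - fderiv ℝ (fderiv ℝ φ) p).le_opNorm₂ u u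
    have h3 : (fderiv ℝ (fderiv ℝ φ) x - fderiv ℝ (fderiv ℝ φ) p) u u
        = fderiv ℝ (fderiv ℝ φ) x u u - fderiv ℝ (fderiv ℝ φ) p u u := rfl
    rw [h3, Real.norm_eq_abs] at h2
    have h4 := (abs_le.1 h2).1
    have h5 := hhom u
    have h6 : ‖fderiv ℝ (fderiv ℝ φ) x - fderiv ℝ (fderiv ℝ φ) p‖ * ‖u‖ * ‖u‖
        ≤ M / 2 * ‖u‖ ^ 2 := by
      rw [mul_assoc, ← pow_two]
      exact mul_le_mul_of_nonneg_right h1.le (by positivity)
    nlinarith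

end Pool.Agent.Lib_MP_752436_gt
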