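import Pool.Agent.Lib_MP_752436_gt.Meas

/-!
Piece B5: the determinant of the second fundamental form in a normal direction.
-/

open MeasureTheory Metric Set
open scoped ContDiff ENNReal

namespace Pool.Agent.Lib_MP_752436_gt

theorem d2_symm {F : EuclideanSpace ℝ (Fin 2) → EuclideanSpace ℝ (Fin 4)}
    (hF : ContDiff ℝ ∞ F) (i j : Fin 2) (x : EuclideanSpace ℝ (Fin 2)) :
    d2 F i j x = d2 F j i x := by
  have h : IsSymmSndFDerivAt ℝ F x := hF.contDiffAt.isSymmSndFDerivAt (by
    simp only [minSmoothness_of_isRCLikeNormedField]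
    exact WithTop.coe_le_coe.2 (le_top : (2 : ℕ∞) ≤ ⊤))
  exact h.eq _ _

/-- algebra: a positive semidefinite form and a positive definite form -/
theorem curv_algebra {a b c p q r : ℝ} (ha : 0 ≤ a) (hD : 0 < a * c - b ^ 2)
    (hq : ∀ s t : ℝ, 0 ≤ s ^ 2 * p + 2 * (s * t) * q + t ^ 2 * r) :
    0 ≤ (c * p - 2 * b * q + a * r) / (2 * (a * c - b ^ 2)) ∧ 0 ≤ p * r - q ^ 2 ∧
      p * r - q ^ 2 ≤ (a * c - b ^ 2) *
        ((c * p - 2 * b * q + a * r) / (2 * (a * c - b ^ 2))) ^ 2 := by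
  have ha' : 0 < a := by
    rcases ha.lt_or_eq with h | h
    · exact h
    · exfalso; rw [← h] at hD; nlinarith [sq_nonneg b]
  have hp : 0 ≤ p := by simpa using hq 1 0
  have hr : 0 ≤ r := by simpa using hq 0 1
  have hdet : 0 ≤ p * r - q ^ 2 := by
    have h1 := hq (-q) p
    have h2 : (-q) ^ 2 * p + 2 * (-q * p) * q + p ^ 2 * r = p * (p * r - q ^ 2) := by ring
    rw [h2] at h1
    rcases hp.lt_or_eq with h | h
    · exact nonneg_of_mul_nonneg_right h1 h
    · have h3 := hq r (-q)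
      have h4 : r ^ 2 * p + 2 * (r * -q) * q + (-q) ^ 2 * r = r * (p * r - q ^ 2) := by ring
      rw [h4] at h3
      rcases hr.lt_or_eq with h5 | h5
      · exact nonneg_of_mul_nonneg_right h3 h5
      · -- p = r = 0, so q = 0
        have h6 := hq 1 1
        have h7 := hq 1 (-1)
        rw [← h, ← h5] at h6 h7
        have : q = 0 := by linarith
        rw [this, ← h]; simp
  set N := c * p - 2 * b * q + a * r with hN
  set Δ := a * c - b ^ 2 with hΔ
  have hN0 : 0 ≤ a * N := by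
    have h1 := hq b (-a)
    have h2 : a * N = Δ * p + (b ^ 2 * p + 2 * (b * -a) * q + (-a) ^ 2 * r) := by
      rw [hN, hΔ]; ring
    rw [h2]
    have := mul_nonneg hD.le hp
    linarith
  have hN1 : 0 ≤ N := nonneg_of_mul_nonneg_right hN0 ha'
  refine ⟨by positivity, hdet, ?_⟩
  have key : 0 ≤ a ^ 2 * (N ^ 2 - 4 * Δ * (p * r - q ^ 2)) := by
    have : a ^ 2 * (N ^ 2 - 4 * Δ * (p * r - q ^ 2)) =
        (Δ * p - (b ^ 2 * p - 2 * (b * a) * q + a ^ 2 * r)) ^ 2
          + 4 * Δ * (a * q - b * p) ^ 2 := by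
      rw [hN, hΔ]; ring
    rw [this]
    positivity
  have key2 : 0 ≤ N ^ 2 - 4 * Δ * (p * r - q ^ 2) :=
    nonneg_of_mul_nonneg_right key (by positivity)
  have h1 : Δ * (N / (2 * Δ)) ^ 2 = N ^ 2 / (4 * Δ) := by
    field_simp; norm_num
  rw [h1, le_div_iff₀ (by positivity)]
  linarith

/-- B5 (file Curv.lean): the determinant of the second fundamental form in a normal direction
is at most the square of the mean curvature in this direction. -/
theorem det_qf_le {F : EuclideanSpace ℝ (Fin 2) → EuclideanSpace ℝ (Fin 4)}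
    (hF : ContDiff ℝ ∞ F) {x : EuclideanSpace ℝ (Fin 2)} (hg : 0 < gdet F x)
    {v : EuclideanSpace ℝ (Fin 4)} (hv : ∀ u, inner ℝ v (fderiv ℝ F x u) = 0)
    (hq : ∀ u, 0 ≤ inner ℝ v (fderiv ℝ (fderiv ℝ F) x u u)) :
    0 ≤ (inner ℝ (meanCurv F x) v : ℝ) ∧
    0 ≤ qf F 0 0 x v * qf F 1 1 x v - qf F 0 1 x v ^ 2 ∧
    qf F 0 0 x v * qf F 1 1 x v - qf F 0 1 x v ^ 2 ≤
      gdet F x * (inner ℝ (meanCurv F x) v : ℝ) ^ 2 := by
  have h0 : inner ℝ (d1 F 0 x) v = 0 := by
    rw [real_inner_comm]; exact hv _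
  have h1 : inner ℝ (d1 F 1 x) v = 0 := by
    rw [real_inner_comm]; exact hv _
  have q00 : inner ℝ (d2 F 0 0 x) v = qf F 0 0 x v := real_inner_comm _ _
  have q01 : inner ℝ (d2 F 0 1 x) v = qf F 0 1 x v := real_inner_comm _ _
  have q11 : inner ℝ (d2 F 1 1 x) v = qf F 1 1 x v := real_inner_comm _ _
  have hM : inner ℝ (meanCurv F x) v =
      (gm F 1 1 x * qf F 0 0 x v - 2 * gm F 0 1 x * qf F 0 1 x v + gm F 0 0 x * qf F 1 1 x v) /
        (2 * (gm F 0 0 x * gm F 1 1 x - gm F 0 1 x ^ 2)) := by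
    rw [meanCurv_eq hg, inner_sub_left, inner_sub_left, real_inner_smul_left (d1 F 0 x),
      real_inner_smul_left (d1 F 1 x), h0, h1, mul_zero, mul_zero, sub_zero, sub_zero]
    unfold hvec
    rw [real_inner_smul_left, inner_add_left, inner_sub_left, real_inner_smul_left,
      real_inner_smul_left, real_inner_smul_left, q00, q01, q11]
    unfold gdet
    rw [inv_mul_eq_div]
  have hform : ∀ s t : ℝ, 0 ≤ s ^ 2 * qf F 0 0 x v + 2 * (s * t) * qf F 0 1 x v
      + t ^ 2 * qf F 1 1 x v := by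
    intro s t
    have h2 := hq (s • EuclideanSpace.single 0 1 + t • EuclideanSpace.single 1 1)
    have h3 : fderiv ℝ (fderiv ℝ F) x (s • EuclideanSpace.single 0 1
        + t • EuclideanSpace.single 1 1) (s • EuclideanSpace.single 0 1
        + t • EuclideanSpace.single 1 1) = (s ^ 2) • d2 F 0 0 x + (2 * (s * t)) • d2 F 0 1 x
        + (t ^ 2) • d2 F 1 1 x := by
      have h4 : fderiv ℝ (fderiv ℝ F) x (EuclideanSpace.single 1 1) (EuclideanSpace.single 0 1)
        = d2 F 0 1 x := d2_symm hF 1 0 x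
      have h5 : fderiv ℝ (fderiv ℝ F) x (EuclideanSpace.single 0 1) (EuclideanSpace.single 1 1)
        = d2 F 0 1 x := rfl
      have h6 : fderiv ℝ (fderiv ℝ F) x (EuclideanSpace.single 0 1) (EuclideanSpace.single 0 1)
        = d2 F 0 0 x := rfl
      have h7 : fderiv ℝ (fderiv ℝ F) x (EuclideanSpace.single 1 1) (EuclideanSpace.single 1 1)
        = d2 F 1 1 x := rfl
      simp only [map_add, map_smul, add_apply, smul_apply,
        h4, h5, h6, h7]
      module
    rw [h3, inner_add_right, inner_add_right, real_inner_smul_right, real_inner_smul_right,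
      real_inner_smul_right] at h2
    exact h2
  rw [hM]
  exact curv_algebra (a := gm F 0 0 x) (b := gm F 0 1 x) (c := gm F 1 1 x)
    real_inner_self_nonneg hg hform

end Pool.Agent.Lib_MP_752436_gt
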