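import Pool.Agent.Lib_MP_752436_gt.Defs2

/-!
Piece B11: at an immersed point some coordinate permutation has a nonzero minor.
-/

open MeasureTheory Metric Set
open scoped ContDiff ENNReal

namespace Pool.Agent.Lib_MP_752436_gt

theorem exists_perm_of_ne : ∀ i j : Fin 4, i ≠ j →
    ∃ e : Equiv.Perm (Fin 4), e.symm 0 = i ∧ e.symm 1 = j := by
  decide

theorem d1_comp_perm (e : Equiv.Perm (Fin 4))
    {F : EuclideanSpace ℝ (Fin 2) → EuclideanSpace ℝ (Fin 4)}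
    (x : EuclideanSpace ℝ (Fin 2)) (i : Fin 2) (j : Fin 4) :
    d1 (fun y => LinearIsometryEquiv.piLpCongrLeft 2 ℝ ℝ e (F y)) i x j =
      d1 F i x (e.symm j) := by
  unfold d1
  have h := (LinearIsometryEquiv.piLpCongrLeft 2 ℝ ℝ e).comp_fderiv (f := F) (x := x)
  have h2 : fderiv ℝ (fun y => LinearIsometryEquiv.piLpCongrLeft 2 ℝ ℝ e (F y)) x =
      fderiv ℝ ((LinearIsometryEquiv.piLpCongrLeft 2 ℝ ℝ e) ∘ F) x := rfl
  rw [h2, h]
  rfl

/-- B11 (file Cover.lean): at an immersed point some coordinate permutation has nonzero minor. -/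
theorem exists_perm_minor {F : EuclideanSpace ℝ (Fin 2) → EuclideanSpace ℝ (Fin 4)}
    (hF : ContDiff ℝ ∞ F) {x : EuclideanSpace ℝ (Fin 2)} (hg : 0 < gdet F x) :
    ∃ e : Equiv.Perm (Fin 4),
      minor (fun y => LinearIsometryEquiv.piLpCongrLeft 2 ℝ ℝ e (F y)) x ≠ 0 := by
  by_contra hcon
  push Not at hcon
  have key : ∀ i j : Fin 4, i ≠ j →
      d1 F 0 x i * d1 F 1 x j - d1 F 0 x j * d1 F 1 x i = 0 := by
    intro i j hij
    obtain ⟨e, h0, h1⟩ := exists_perm_of_ne i j hij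
    have := hcon e
    unfold minor at this
    rw [d1_comp_perm, d1_comp_perm, d1_comp_perm, d1_comp_perm, h0, h1] at this
    exact this
  have hz : gdet F x = 0 := by
    have e1 : gdet F x =
        (d1 F 0 x 0 * d1 F 1 x 1 - d1 F 0 x 1 * d1 F 1 x 0) ^ 2 +
        (d1 F 0 x 0 * d1 F 1 x 2 - d1 F 0 x 2 * d1 F 1 x 0) ^ 2 +
        (d1 F 0 x 0 * d1 F 1 x 3 - d1 F 0 x 3 * d1 F 1 x 0) ^ 2 +
        (d1 F 0 x 1 * d1 F 1 x 2 - d1 F 0 x 2 * d1 F 1 x 1) ^ 2 +
        (d1 F 0 x 1 * d1 F 1 x 3 - d1 F 0 x 3 * d1 F 1 x 1) ^ 2 +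
        (d1 F 0 x 2 * d1 F 1 x 3 - d1 F 0 x 3 * d1 F 1 x 2) ^ 2 := by
      unfold gdet gm
      simp only [PiLp.inner_apply, Fin.sum_univ_four, RCLike.inner_apply, conj_trivial]
      ring
    rw [e1, key 0 1 (by decide), key 0 2 (by decide), key 0 3 (by decide), key 1 2 (by decide),
      key 1 3 (by decide), key 2 3 (by decide)]
    norm_num
  linarith

end Pool.Agent.Lib_MP_752436_gt
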