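import Pool.Agent.Lib_MP_752436_gt.Defs2

open MeasureTheory Metric Set
open scoped ContDiff ENNReal

namespace Pool.Agent.Lib_MP_752436_gt

theorem fderiv_rot (R : EuclideanSpace ℝ (Fin 4) ≃ₗᵢ[ℝ] EuclideanSpace ℝ (Fin 4))
    {F : EuclideanSpace ℝ (Fin 2) → EuclideanSpace ℝ (Fin 4)} (hF : ContDiff ℝ ∞ F)
    (x : EuclideanSpace ℝ (Fin 2)) :
    fderiv ℝ (fun y => R (F y)) x =
      (R.toContinuousLinearEquiv : EuclideanSpace ℝ (Fin 4) →L[ℝ] EuclideanSpace ℝ (Fin 4)).comp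
        (fderiv ℝ F x) := by
  have h1 : HasFDerivAt F (fderiv ℝ F x) x := (hF.differentiable (by simp) x).hasFDerivAt
  exact ((R.toContinuousLinearEquiv :
    EuclideanSpace ℝ (Fin 4) →L[ℝ] EuclideanSpace ℝ (Fin 4)).hasFDerivAt.comp x h1).fderiv

theorem fderiv_rot_apply (R : EuclideanSpace ℝ (Fin 4) ≃ₗᵢ[ℝ] EuclideanSpace ℝ (Fin 4))
    {F : EuclideanSpace ℝ (Fin 2) → EuclideanSpace ℝ (Fin 4)} (hF : ContDiff ℝ ∞ F)
    (x u : EuclideanSpace ℝ (Fin 2)) :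
    fderiv ℝ (fun y => R (F y)) x u = R (fderiv ℝ F x u) := by
  rw [fderiv_rot R hF x]; rfl

theorem fderiv2_rot_apply (R : EuclideanSpace ℝ (Fin 4) ≃ₗᵢ[ℝ] EuclideanSpace ℝ (Fin 4))
    {F : EuclideanSpace ℝ (Fin 2) → EuclideanSpace ℝ (Fin 4)} (hF : ContDiff ℝ ∞ F)
    (x u w : EuclideanSpace ℝ (Fin 2)) :
    fderiv ℝ (fderiv ℝ (fun y => R (F y))) x u w = R (fderiv ℝ (fderiv ℝ F) x u w) := by
  have e : fderiv ℝ (fun y => R (F y)) = fun y =>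
      (R.toContinuousLinearEquiv : EuclideanSpace ℝ (Fin 4) →L[ℝ] EuclideanSpace ℝ (Fin 4)).comp
        (fderiv ℝ F y) := by
    funext y; exact fderiv_rot R hF y
  have h1 : HasFDerivAt (fderiv ℝ F) (fderiv ℝ (fderiv ℝ F) x) x :=
    (((hF.fderiv_right (m := ∞) (le_of_eq rfl)).differentiable (by simp)) x).hasFDerivAt
  rw [e]
  have h2 := (ContinuousLinearMap.compL ℝ (EuclideanSpace ℝ (Fin 2)) (EuclideanSpace ℝ (Fin 4))
    (EuclideanSpace ℝ (Fin 4))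
    (R.toContinuousLinearEquiv : EuclideanSpace ℝ (Fin 4) →L[ℝ] EuclideanSpace ℝ (Fin 4))).hasFDerivAt
      (x := fderiv ℝ F x)
  have h3 := (h2.comp x h1).fderiv
  have e2 : (fun y =>
      (R.toContinuousLinearEquiv : EuclideanSpace ℝ (Fin 4) →L[ℝ] EuclideanSpace ℝ (Fin 4)).comp
        (fderiv ℝ F y)) = (ContinuousLinearMap.compL ℝ (EuclideanSpace ℝ (Fin 2))
        (EuclideanSpace ℝ (Fin 4)) (EuclideanSpace ℝ (Fin 4))
    (R.toContinuousLinearEquiv : EuclideanSpace ℝ (Fin 4) →L[ℝ] EuclideanSpace ℝ (Fin 4))) ∘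
      fderiv ℝ F := rfl
  rw [e2, h3]
  rfl

theorem d1_rot (R : EuclideanSpace ℝ (Fin 4) ≃ₗᵢ[ℝ] EuclideanSpace ℝ (Fin 4))
    {F : EuclideanSpace ℝ (Fin 2) → EuclideanSpace ℝ (Fin 4)} (hF : ContDiff ℝ ∞ F) (i : Fin 2)
    (x : EuclideanSpace ℝ (Fin 2)) : d1 (fun y => R (F y)) i x = R (d1 F i x) :=
  fderiv_rot_apply R hF x _

theorem d2_rot (R : EuclideanSpace ℝ (Fin 4) ≃ₗᵢ[ℝ] EuclideanSpace ℝ (Fin 4))
    {F : EuclideanSpace ℝ (Fin 2) → EuclideanSpace ℝ (Fin 4)} (hF : ContDiff ℝ ∞ F) (i j : Fin 2)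
    (x : EuclideanSpace ℝ (Fin 2)) : d2 (fun y => R (F y)) i j x = R (d2 F i j x) :=
  fderiv2_rot_apply R hF x _ _

theorem gm_rot (R : EuclideanSpace ℝ (Fin 4) ≃ₗᵢ[ℝ] EuclideanSpace ℝ (Fin 4))
    {F : EuclideanSpace ℝ (Fin 2) → EuclideanSpace ℝ (Fin 4)} (hF : ContDiff ℝ ∞ F) (i j : Fin 2)
    (x : EuclideanSpace ℝ (Fin 2)) : gm (fun y => R (F y)) i j x = gm F i j x := by
  unfold gm
  rw [d1_rot R hF, d1_rot R hF, R.inner_map_map]

/-- B10 (file Rotate.lean): invariance under linear isometries. -/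
theorem gdet_comp (R : EuclideanSpace ℝ (Fin 4) ≃ₗᵢ[ℝ] EuclideanSpace ℝ (Fin 4))
    {F : EuclideanSpace ℝ (Fin 2) → EuclideanSpace ℝ (Fin 4)} (hF : ContDiff ℝ ∞ F)
    (x : EuclideanSpace ℝ (Fin 2)) : gdet (fun y => R (F y)) x = gdet F x := by
  unfold gdet
  rw [gm_rot R hF, gm_rot R hF, gm_rot R hF]

theorem starProj_congr {K K' : Submodule ℝ (EuclideanSpace ℝ (Fin 4))}
    [K.HasOrthogonalProjection] [K'.HasOrthogonalProjection] (h : K = K')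
    (v : EuclideanSpace ℝ (Fin 4)) : K.starProjection v = K'.starProjection v := by
  subst h; rfl

theorem meanCurv_rot (R : EuclideanSpace ℝ (Fin 4) ≃ₗᵢ[ℝ] EuclideanSpace ℝ (Fin 4))
    {F : EuclideanSpace ℝ (Fin 2) → EuclideanSpace ℝ (Fin 4)} (hF : ContDiff ℝ ∞ F)
    (x : EuclideanSpace ℝ (Fin 2)) : meanCurv (fun y => R (F y)) x = R (meanCurv F x) := by
  have h1 : (Submodule.span ℝ {d1 (fun y => R (F y)) 0 x, d1 (fun y => R (F y)) 1 x})ᗮ =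
      ((Submodule.span ℝ {d1 F 0 x, d1 F 1 x})ᗮ).map
        (R.toLinearEquiv : EuclideanSpace ℝ (Fin 4) →ₗ[ℝ] EuclideanSpace ℝ (Fin 4)) := by
    rw [Submodule.map_orthogonal_equiv, Submodule.map_span, Set.image_pair, d1_rot R hF,
      d1_rot R hF]
    rfl
  have h3 : ((2 * gdet (fun y => R (F y)) x)⁻¹ • (gm (fun y => R (F y)) 1 1 x •
      d2 (fun y => R (F y)) 0 0 x - (2 * gm (fun y => R (F y)) 0 1 x) •
      d2 (fun y => R (F y)) 0 1 x + gm (fun y => R (F y)) 0 0 x • d2 (fun y => R (F y)) 1 1 x)) =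
      R ((2 * gdet F x)⁻¹ • (gm F 1 1 x • d2 F 0 0 x - (2 * gm F 0 1 x) • d2 F 0 1 x
      + gm F 0 0 x • d2 F 1 1 x)) := by
    rw [gm_rot R hF, gm_rot R hF, gm_rot R hF, d2_rot R hF, d2_rot R hF,
      d2_rot R hF, gdet_comp R hF]
    simp only [map_smul, map_sub, map_add]
  have h2 := Submodule.starProjection_map_apply R ((Submodule.span ℝ {d1 F 0 x, d1 F 1 x})ᗮ)
    (R ((2 * gdet F x)⁻¹ • (gm F 1 1 x • d2 F 0 0 x - (2 * gm F 0 1 x) • d2 F 0 1 x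
      + gm F 0 0 x • d2 F 1 1 x)))
  rw [R.symm_apply_apply] at h2
  unfold meanCurv
  rw [← h2, h3]
  exact starProj_congr h1 _

theorem norm_meanCurv_comp (R : EuclideanSpace ℝ (Fin 4) ≃ₗᵢ[ℝ] EuclideanSpace ℝ (Fin 4))
    {F : EuclideanSpace ℝ (Fin 2) → EuclideanSpace ℝ (Fin 4)} (hF : ContDiff ℝ ∞ F)
    (x : EuclideanSpace ℝ (Fin 2)) : ‖meanCurv (fun y => R (F y)) x‖ = ‖meanCurv F x‖ := by
  rw [meanCurv_rot R hF, R.norm_map]

theorem volume_badSet_comp (R : EuclideanSpace ℝ (Fin 4) ≃ₗᵢ[ℝ] EuclideanSpace ℝ (Fin 4))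
    {F : EuclideanSpace ℝ (Fin 2) → EuclideanSpace ℝ (Fin 4)} (hF : ContDiff ℝ ∞ F)
    (s : Set (EuclideanSpace ℝ (Fin 2))) :
    volume (badSet (fun y => R (F y)) s ∩ ball 0 1) = volume (badSet F s ∩ ball 0 1) := by
  have key : ∀ v w : EuclideanSpace ℝ (Fin 4), (inner ℝ v (R w) : ℝ) = inner ℝ (R.symm v) w := by
    intro v w
    rw [← R.inner_map_map (R.symm v) w, R.apply_symm_apply]
  have h : badSet (fun y => R (F y)) s ∩ ball 0 1 = R.symm ⁻¹' (badSet F s ∩ ball 0 1) := by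
    ext v
    simp only [badSet, mem_inter_iff, mem_ofPred_eq, mem_preimage, mem_ball_zero_iff,
      fderiv_rot_apply R hF, fderiv2_rot_apply R hF, key, LinearIsometryEquiv.norm_map]
  rw [h]
  exact R.symm.measurePreserving.measure_preimage_emb R.symm.toHomeomorph.measurableEmbedding _

end Pool.Agent.Lib_MP_752436_gt
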