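import Pool.Agent.Lib_MP_752436_gt.PieceIneq
import Pool.Agent.Lib_MP_752436_gt.Rotate
import Pool.Agent.Lib_MP_752436_gt.Cover

/-!
The area inequality on the whole disc.
-/

open MeasureTheory Metric Set
open scoped ContDiff ENNReal

namespace Pool.Agent.Lib_MP_752436_gt

/-- The piece of the disc attached to a coordinate permutation. -/
def permPiece (F : EuclideanSpace ℝ (Fin 2) → EuclideanSpace ℝ (Fin 4))
    (e : Equiv.Perm (Fin 4)) : Set (EuclideanSpace ℝ (Fin 2)) :=
  {x | minor (fun y => LinearIsometryEquiv.piLpCongrLeft 2 ℝ ℝ e (F y)) x ≠ 0}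

theorem contDiff_comp_isometry (R : EuclideanSpace ℝ (Fin 4) ≃ₗᵢ[ℝ] EuclideanSpace ℝ (Fin 4))
    {F : EuclideanSpace ℝ (Fin 2) → EuclideanSpace ℝ (Fin 4)} (hF : ContDiff ℝ ∞ F) :
    ContDiff ℝ ∞ (fun y => R (F y)) :=
  R.contDiff.comp hF

theorem measurableSet_permPiece {F : EuclideanSpace ℝ (Fin 2) → EuclideanSpace ℝ (Fin 4)}
    (hF : ContDiff ℝ ∞ F) (e : Equiv.Perm (Fin 4)) : MeasurableSet (permPiece F e) := by
  have h := measurable_minor (contDiff_comp_isometry (LinearIsometryEquiv.piLpCongrLeft 2 ℝ ℝ e) hF)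
  exact (h (measurableSet_singleton (0 : ℝ))).compl

/-- The area inequality on a subset of the piece of a coordinate permutation. -/
theorem badSet_perm_piece {F : EuclideanSpace ℝ (Fin 2) → EuclideanSpace ℝ (Fin 4)}
    (hF : ContDiff ℝ ∞ F) (e : Equiv.Perm (Fin 4)) {O : Set (EuclideanSpace ℝ (Fin 2))}
    (hO : MeasurableSet O) (hm : O ⊆ permPiece F e) (hg : ∀ x ∈ O, 0 < gdet F x) :
    volume (badSet F O ∩ ball 0 1) ≤
      ∫⁻ x in O, ENNReal.ofReal (Real.pi / 8 * (‖meanCurv F x‖ ^ 2 * Real.sqrt (gdet F x))) := by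
  rw [← volume_badSet_comp (LinearIsometryEquiv.piLpCongrLeft 2 ℝ ℝ e) hF O]
  refine le_trans (badSet_piece (contDiff_comp_isometry _ hF) hO (fun x hx => hm hx)
    (fun x hx => by rw [gdet_comp _ hF]; exact hg x hx)) (le_of_eq ?_)
  apply lintegral_congr
  intro x
  rw [gdet_comp _ hF, norm_meanCurv_comp _ hF]

/-- The area inequality on a measurable set of immersed points. -/
theorem badSet_le {F : EuclideanSpace ℝ (Fin 2) → EuclideanSpace ℝ (Fin 4)}
    (hF : ContDiff ℝ ∞ F) {O : Set (EuclideanSpace ℝ (Fin 2))}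
    (hO : MeasurableSet O) (hg : ∀ x ∈ O, 0 < gdet F x) :
    volume (badSet F O ∩ ball 0 1) ≤
      ∫⁻ x in O, ENNReal.ofReal (Real.pi / 8 * (‖meanCurv F x‖ ^ 2 * Real.sqrt (gdet F x))) := by
  classical
  -- enumeration of the permutations
  obtain ⟨en⟩ := Fintype.truncEquivFin (Equiv.Perm (Fin 4))
  set f : ℕ → Set (EuclideanSpace ℝ (Fin 2)) := fun n =>
    if h : n < Fintype.card (Equiv.Perm (Fin 4)) then O ∩ permPiece F (en.symm ⟨n, h⟩) else ∅
    with hf
  have hfm : ∀ n, MeasurableSet (f n) := by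
    intro n
    simp only [hf]
    split_ifs with h
    · exact hO.inter (measurableSet_permPiece hF _)
    · exact MeasurableSet.empty
  have hcover : O = ⋃ n, disjointed f n := by
    rw [iUnion_disjointed]
    apply Subset.antisymm
    · intro x hx
      obtain ⟨e, he⟩ := exists_perm_minor hF (hg x hx)
      rw [mem_iUnion]
      refine ⟨(en e).1, ?_⟩
      simp only [hf]
      rw [dif_pos (en e).2]
      refine ⟨hx, ?_⟩
      have : en.symm ⟨(en e).1, (en e).2⟩ = e := by simp
      rw [this]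
      exact he
    · intro x hx
      rw [mem_iUnion] at hx
      obtain ⟨n, hn⟩ := hx
      simp only [hf] at hn
      split_ifs at hn with h
      · exact hn.1
      · exact absurd hn (notMem_empty x)
  have hdm : ∀ n, MeasurableSet (disjointed f n) := fun n => MeasurableSet.disjointed hfm n
  have hpiece : ∀ n, volume (badSet F (disjointed f n) ∩ ball 0 1) ≤
      ∫⁻ x in disjointed f n,
        ENNReal.ofReal (Real.pi / 8 * (‖meanCurv F x‖ ^ 2 * Real.sqrt (gdet F x))) := by
    intro n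
    have hsub : disjointed f n ⊆ f n := disjointed_subset f n
    by_cases h : n < Fintype.card (Equiv.Perm (Fin 4))
    · have hfn : f n = O ∩ permPiece F (en.symm ⟨n, h⟩) := by simp only [hf]; rw [dif_pos h]
      rw [hfn] at hsub
      exact badSet_perm_piece hF (en.symm ⟨n, h⟩) (hdm n) (fun x hx => (hsub hx).2)
        (fun x hx => hg x (hsub hx).1)
    · have hfn : f n = ∅ := by simp only [hf]; rw [dif_neg h]
      rw [hfn] at hsub
      have : disjointed f n = ∅ := subset_empty_iff.1 hsub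
      rw [this]
      have h2 : badSet F ∅ = ∅ := by
        ext v
        simp [badSet]
      simp [h2]
  have hbad : badSet F O ∩ ball 0 1 ⊆ ⋃ n, (badSet F (disjointed f n) ∩ ball 0 1) := by
    rintro v ⟨⟨x, hx, hv⟩, hb⟩
    rw [hcover, mem_iUnion] at hx
    obtain ⟨n, hn⟩ := hx
    rw [mem_iUnion]
    exact ⟨n, ⟨x, hn, hv⟩, hb⟩
  calc volume (badSet F O ∩ ball 0 1)
      ≤ volume (⋃ n, (badSet F (disjointed f n) ∩ ball 0 1)) := measure_mono hbad
    _ ≤ ∑' n, volume (badSet F (disjointed f n) ∩ ball 0 1) := measure_iUnion_le _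
    _ ≤ ∑' n, ∫⁻ x in disjointed f n,
        ENNReal.ofReal (Real.pi / 8 * (‖meanCurv F x‖ ^ 2 * Real.sqrt (gdet F x))) :=
        ENNReal.tsum_le_tsum hpiece
    _ = ∫⁻ x in ⋃ n, disjointed f n,
        ENNReal.ofReal (Real.pi / 8 * (‖meanCurv F x‖ ^ 2 * Real.sqrt (gdet F x))) :=
        (lintegral_iUnion hdm (disjoint_disjointed f) _).symm
    _ = ∫⁻ x in O,
        ENNReal.ofReal (Real.pi / 8 * (‖meanCurv F x‖ ^ 2 * Real.sqrt (gdet F x))) := by
        rw [← hcover]

/-- The area inequality for a slice disc. -/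
theorem badSet_volume_le {F : EuclideanSpace ℝ (Fin 2) → EuclideanSpace ℝ (Fin 4)}
    (hF : IsSliceDisc F) :
    volume (badSet F (closedBall 0 1) ∩ ball 0 1) ≤
      ENNReal.ofReal (Real.pi / 8 * willmore F) := by
  have hg : ∀ x ∈ closedBall (0 : EuclideanSpace ℝ (Fin 2)) 1, 0 < gdet F x :=
    fun x hx => gdet_pos (hF.immersion x hx)
  have hcont : ContinuousOn (fun x => ‖meanCurv F x‖ ^ 2 * Real.sqrt (gdet F x))
      (closedBall (0 : EuclideanSpace ℝ (Fin 2)) 1) := by
    have h1 : ContinuousOn (meanCurv F) (closedBall (0 : EuclideanSpace ℝ (Fin 2)) 1) :=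
      (continuousOn_meanCurv hF.smooth).mono (fun x hx => hg x hx)
    have h2 := (continuous_gdet hF.smooth).sqrt
    exact (h1.norm.pow 2).mul h2.continuousOn
  have hint : IntegrableOn (fun x => ‖meanCurv F x‖ ^ 2 * Real.sqrt (gdet F x))
      (ball (0 : EuclideanSpace ℝ (Fin 2)) 1) :=
    (hcont.integrableOn_compact (isCompact_closedBall _ _)).mono_set ball_subset_closedBall
  calc volume (badSet F (closedBall 0 1) ∩ ball 0 1)
      ≤ ∫⁻ x in closedBall (0 : EuclideanSpace ℝ (Fin 2)) 1,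
        ENNReal.ofReal (Real.pi / 8 * (‖meanCurv F x‖ ^ 2 * Real.sqrt (gdet F x))) :=
        badSet_le hF.smooth measurableSet_closedBall hg
    _ = ∫⁻ x in ball (0 : EuclideanSpace ℝ (Fin 2)) 1,
        ENNReal.ofReal (Real.pi / 8 * (‖meanCurv F x‖ ^ 2 * Real.sqrt (gdet F x))) := by
        apply setLIntegral_congr
        have h1 : closedBall (0 : EuclideanSpace ℝ (Fin 2)) 1
            = ball (0 : EuclideanSpace ℝ (Fin 2)) 1 ∪ sphere 0 1 := ball_union_sphere.symm
        rw [h1]
        have h2 : volume (sphere (0 : EuclideanSpace ℝ (Fin 2)) 1) = 0 :=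
          Measure.addHaar_sphere _ _ _
        exact union_ae_eq_left_of_ae_eq_empty (ae_eq_empty.2 h2)
    _ = ENNReal.ofReal (∫ x in ball (0 : EuclideanSpace ℝ (Fin 2)) 1,
        Real.pi / 8 * (‖meanCurv F x‖ ^ 2 * Real.sqrt (gdet F x))) := by
        rw [ofReal_integral_eq_lintegral_ofReal (hint.const_mul _)]
        exact Filter.Eventually.of_forall (fun x => by positivity)
    _ = ENNReal.ofReal (Real.pi / 8 * willmore F) := by
        congr 1
        unfold willmore
        rw [integral_const_mul]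

end Pool.Agent.Lib_MP_752436_gt
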