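import Pool.Agent.Lib_MP_752436_gt.CurvDefs

/-!
The volume of the unit ball of `R^3`.
-/

open MeasureTheory Metric Set
open scoped ContDiff ENNReal Topology

namespace Pool.Agent.Lib_MP_752436_gt

/-- C4 (file BallThree.lean): the volume of the unit ball of `R^3`. -/
theorem volume_ball_three :
    volume (ball (0 : EuclideanSpace ℝ (Fin 3)) 1) = ENNReal.ofReal (4 * Real.pi / 3) := by
  rw [EuclideanSpace.volume_ball_fin_three]
  rw [ENNReal.ofReal_one, one_pow, one_mul]
  congr 1
  ring

end Pool.Agent.Lib_MP_752436_gt
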