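import Pool.Agent.Lib_MP_752436_gt.Criterion
import Pool.Agent.Lib_MP_752436_gt.NegDirOn
import Pool.Agent.Lib_MP_752436_gt.UniqueCrit
import Pool.Agent.Lib_MP_752436_gt.BirthDefs
import Pool.Agent.Lib_MP_752436_gt.NoTrap

open MeasureTheory Metric Set
open scoped ContDiff ENNReal Topology

namespace Pool.Agent.Lib_MP_752436_gt

/-- C (file Births.lean, uses A, B, B2; adapts ribbon_of_monotone of Criterion.lean) -/
theorem births_of_monotone {F : EuclideanSpace ℝ (Fin 2) → EuclideanSpace ℝ (Fin 4)}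
    (hF : IsSliceDisc F) {φ : EuclideanSpace ℝ (Fin 2) → ℝ} (hφ : ContDiff ℝ ∞ φ)
    (hmono : ∀ x ∈ closedBall (0 : EuclideanSpace ℝ (Fin 2)) 1,
      ∀ y ∈ closedBall (0 : EuclideanSpace ℝ (Fin 2)) 1, (∀ i, i ≠ 3 → F x i = F y i) →
      F y 3 < F x 3 → φ y ≤ φ x)
    (hker : ∀ x ∈ closedBall (0 : EuclideanSpace ℝ (Fin 2)) 1, ∀ u,
      (∀ i, i ≠ 3 → fderiv ℝ F x u i = 0) → 0 ≤ fderiv ℝ F x u 3 → 0 ≤ fderiv ℝ φ x u)
    (P : Finset (EuclideanSpace ℝ (Fin 2)))
    (hP : ∀ p ∈ P, p ∈ ball (0 : EuclideanSpace ℝ (Fin 2)) 1 ∧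
      ∀ u, u ≠ 0 → 0 < fderiv ℝ (fderiv ℝ φ) p u u)
    (hcrit : ∀ x ∈ closedBall (0 : EuclideanSpace ℝ (Fin 2)) 1,
      fderiv ℝ φ x = 0 → (∃ u, fderiv ℝ (fderiv ℝ φ) x u u < 0) ∨ x ∈ P)
    {δ : ℝ} (hδ : 0 < δ) :
    ∃ G, MorseDisc G ∧ (births G).encard ≤ P.card ∧
      (∀ x ∈ births G, ∃ p ∈ P, dist x p < δ) ∧ (∀ x, ∀ i, i ≠ 3 → G x i = F x i) ∧
      ∀ s ∈ Icc (0 : ℝ) 1, IsSliceDisc (fun x => (1 - s) • F x + s • G x) := by
  obtain ⟨c, hc, hbl, hbd⟩ := exists_bilip hF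
  -- the height tau
  set ε : ℝ := c / 4 with hεdef
  have hε : 0 < ε := by positivity
  have hτs := contDiff_tau hF.smooth ε
  have hneat : ∀ x ∈ closedBall (0 : EuclideanSpace ℝ (Fin 2)) 1, tau F ε x = 0 →
      fderiv ℝ (tau F ε) x ≠ 0 := by
    intro x hx h0 h1
    rcases ball_or_sphere hx with h | h
    · exact (tau_pos hF hε h).ne' h0
    · have := fderiv_tau_sphere hF hε h
      rw [h1] at this
      simp at this
  -- the convex balls around the points of `P`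
  have hballs : ∀ p ∈ P, ∃ r m : ℝ, 0 < r ∧ r < δ ∧ 0 < m ∧ closedBall p r ⊆ ball 0 1 ∧
      ∀ x ∈ closedBall p r, ∀ u, m * ‖u‖ ^ 2 ≤ fderiv ℝ (fderiv ℝ φ) x u u := fun p hp =>
    exists_convex_ball hφ (hP p hp).1 (hP p hp).2 hδ
  choose! r m hr hrδ hm hrsub hconv using hballs
  set K : Set (EuclideanSpace ℝ (Fin 2)) := closedBall 0 1 \ ⋃ p ∈ P, ball p (r p) with hK
  have hKc : IsCompact K :=
    (isCompact_closedBall _ _).diff (isOpen_biUnion fun p _ => isOpen_ball)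
  have hKb : K ⊆ closedBall 0 1 := sdiff_subset
  have hcritK : ∀ x ∈ K, fderiv ℝ φ x = 0 → ∃ u, fderiv ℝ (fderiv ℝ φ) x u u < 0 := by
    intro x hx h0
    rcases hcrit x (hKb hx) h0 with h1 | h1
    · exact h1
    · exact absurd (mem_iUnion₂.2 ⟨x, h1, mem_ball_self (hr x h1)⟩) hx.2
  obtain ⟨lam0, hlam0, hneg0⟩ := neg_direction_on hKc hKb hτs hφ
    (fun x hx => tau_nonneg hF hε hx) hneat hcritK
  have huniq0 : ∀ p ∈ P, ∃ lam1 : ℝ, 0 < lam1 ∧ ∀ lam, lam1 ≤ lam →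
      ∀ a : EuclideanSpace ℝ (Fin 2), ∀ x ∈ closedBall p (r p), ∀ y ∈ closedBall p (r p),
      (∀ u, fderiv ℝ (tau F ε) x u = - (tau F ε x * (lam * fderiv ℝ φ x u + inner ℝ a u))) →
      (∀ u, fderiv ℝ (tau F ε) y u = - (tau F ε y * (lam * fderiv ℝ φ y u + inner ℝ a u))) →
      x = y := fun p hp =>
    unique_crit hτs hφ (hr p hp) (hm p hp) (fun x hx => tau_pos hF hε (hrsub p hp hx))
      (hconv p hp)
  choose! lam1 hlam1 huniq1 using huniq0
  set lam : ℝ := lam0 + ∑ p ∈ P, lam1 p with hlamdef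
  have hlam0le : lam0 ≤ lam := by
    have : 0 ≤ ∑ p ∈ P, lam1 p := Finset.sum_nonneg fun p hp => (hlam1 p hp).le
    linarith
  have hlam1le : ∀ p ∈ P, lam1 p ≤ lam := by
    intro p hp
    have : lam1 p ≤ ∑ q ∈ P, lam1 q :=
      Finset.single_le_sum (fun q hq => (hlam1 q hq).le) hp
    linarith
  have hlam : 0 < lam := lt_of_lt_of_le hlam0 hlam0le
  have hneg := hneg0 lam hlam0le
  -- bound of tau
  obtain ⟨M, hM⟩ := (isCompact_closedBall (0 : EuclideanSpace ℝ (Fin 2))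
    1).exists_bound_of_continuousOn (hτs.continuous.continuousOn)
  have hM0 : 0 ≤ M := le_trans (norm_nonneg _) (hM 0 (by simp))
  have hMτ : ∀ x ∈ closedBall (0 : EuclideanSpace ℝ (Fin 2)) 1, tau F ε x ≤ M := fun x hx =>
    le_trans (le_abs_self _) (hM x hx)
  set T : EuclideanSpace ℝ (Fin 2) → ℝ := fun y => tau F ε y * Real.exp (lam * φ y) with hTdef
  have hTs : ContDiff ℝ ∞ T := hτs.mul ((contDiff_const.mul hφ).exp)
  have hδ' : 0 < min 1 (c / 2 / (M + 1)) := by positivity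
  obtain ⟨a, ha, hmorse⟩ := exists_small_morse hTs hδ'
  have ha1 : ‖a‖ ≤ 1 := (ha.trans_le (min_le_left _ _)).le
  have haM : M * ‖a‖ < c / 2 := by
    have h1 : ‖a‖ < c / 2 / (M + 1) := ha.trans_le (min_le_right _ _)
    rw [lt_div_iff₀ (by positivity)] at h1
    nlinarith [norm_nonneg a]
  set E : EuclideanSpace ℝ (Fin 2) → ℝ := fun y => lam * φ y + inner ℝ a y with hEdef
  have hEs : ContDiff ℝ ∞ E := (contDiff_const.mul hφ).add (contDiff_const.inner ℝ contDiff_id)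
  have hEd : ∀ x u, fderiv ℝ E x u = lam * fderiv ℝ φ x u + inner ℝ a u := by
    intro x u
    have h1 : HasFDerivAt φ (fderiv ℝ φ x) x :=
      ((hφ.differentiable (by simp)) x).hasFDerivAt
    have h2 : HasFDerivAt (fun y => (inner ℝ a y : ℝ)) (innerSL ℝ a) x :=
      (innerSL ℝ a).hasFDerivAt
    have h3 : fderiv ℝ E x = _ := ((h1.const_mul lam).add h2).fderiv
    rw [h3]
    simp
  have hEdd : ∀ x u, fderiv ℝ (fderiv ℝ E) x u u
      = lam * fderiv ℝ (fderiv ℝ φ) x u u := by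
    intro x u
    have h0 : fderiv ℝ E = fun z => lam • fderiv ℝ φ z + innerSL ℝ a := by
      funext z
      ext u
      rw [hEd]
      simp
    have hd : DifferentiableAt ℝ (fderiv ℝ φ) x :=
      ((hφ.fderiv_right (m := ∞) (by simp)).differentiable (by simp)) x
    have h3 : fderiv ℝ (fderiv ℝ E) x
        = lam • fderiv ℝ (fderiv ℝ φ) x := by
      rw [h0]
      exact ((hd.hasFDerivAt.const_smul lam).add_const (innerSL ℝ a)).fderiv
    rw [h3]
    simp
  have hh : (fun y => T y * Real.exp (inner ℝ a y)) = fun y => tau F ε y * Real.exp (E y) := by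
    funext y
    simp only [hTdef, hEdef, Real.exp_add]
    ring
  set h : EuclideanSpace ℝ (Fin 2) → ℝ := fun y => tau F ε y * Real.exp (E y) with hhdef
  have hhs : ContDiff ℝ ∞ h := hτs.mul hEs.exp
  rw [hh] at hmorse
  have hd : ∀ x u, fderiv ℝ h x u = Real.exp (E x) * (fderiv ℝ (tau F ε) x u
      + tau F ε x * fderiv ℝ E x u) := by
    intro x u
    have h4 : HasFDerivAt (tau F ε) (fderiv ℝ (tau F ε) x) x :=
      ((hτs.differentiable (by simp)) x).hasFDerivAt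
    have h5 : HasFDerivAt E (fderiv ℝ E x) x :=
      ((hEs.differentiable (by simp)) x).hasFDerivAt
    have h6 : fderiv ℝ h x = _ := (h4.mul h5.exp).fderiv
    rw [h6]
    simp
    ring
  have key1 : ∀ x ∈ closedBall (0 : EuclideanSpace ℝ (Fin 2)) 1,
      ∀ y ∈ closedBall (0 : EuclideanSpace ℝ (Fin 2)) 1, (∀ i, i ≠ 3 → F x i = F y i) →
      F y 3 < F x 3 → h y < h x := by
    intro x hx y hy hi h3
    have hx1 : ‖x‖ ≤ 1 := by simpa using hx
    have hy1 : ‖y‖ ≤ 1 := by simpa using hy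
    have hv : ∀ i, i ≠ 3 → (F x - F y) i = 0 := fun i hi3 => by simp [hi i hi3]
    have hn : ‖F x - F y‖ = F x 3 - F y 3 := by
      rw [norm_vertical hv]
      simp only [PiLp.sub_apply]
      exact abs_of_pos (by linarith)
    have h1 := hbl x hx y hy
    rw [hn] at h1
    have h2 : |‖x‖ ^ 2 - ‖y‖ ^ 2| ≤ 2 * ‖x - y‖ := by
      have h5 : ‖x‖ ^ 2 - ‖y‖ ^ 2 = (‖x‖ - ‖y‖) * (‖x‖ + ‖y‖) := by ring
      rw [h5, abs_mul]
      have h6 := abs_norm_sub_norm_le x y
      have h7 : |‖x‖ + ‖y‖| ≤ 2 := by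
        rw [abs_of_nonneg (by positivity)]; linarith
      calc |‖x‖ - ‖y‖| * |‖x‖ + ‖y‖| ≤ ‖x - y‖ * 2 :=
            mul_le_mul h6 h7 (abs_nonneg _) (norm_nonneg _)
        _ = 2 * ‖x - y‖ := by ring
    have h4 : c / 2 * ‖x - y‖ ≤ tau F ε x - tau F ε y := by
      unfold tau
      have h8 := abs_le.1 h2
      have h9 : ε * (‖x‖ ^ 2 - ‖y‖ ^ 2) ≤ ε * (2 * ‖x - y‖) :=
        mul_le_mul_of_nonneg_left h8.2 hε.le
      have h10 : ε * (2 * ‖x - y‖) = c / 2 * ‖x - y‖ := by rw [hεdef]; ring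
      nlinarith
    have hxy : 0 < ‖x - y‖ := by
      rw [norm_pos_iff, sub_ne_zero]
      rintro rfl
      exact lt_irrefl _ h3
    have hψxy : φ y ≤ φ x := hmono x hx y hy hi h3
    have hE1 : -(‖a‖ * ‖x - y‖) ≤ E x - E y := by
      simp only [hEdef]
      have h5 : (inner ℝ a x : ℝ) - inner ℝ a y = inner ℝ a (x - y) := by
        rw [inner_sub_right]
      have h6 := abs_real_inner_le_norm a (x - y)
      have h7 := (abs_le.1 h6).1
      have h8 : 0 ≤ lam * (φ x - φ y) := mul_nonneg hlam.le (by linarith)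
      nlinarith
    have hexp : 1 + (E x - E y) ≤ Real.exp (E x - E y) := by
      have := Real.add_one_le_exp (E x - E y); linarith
    have hτx0 := tau_nonneg hF hε hx
    have hτxM := hMτ x hx
    have hfin : tau F ε y < tau F ε x * Real.exp (E x - E y) := by
      have h5 : tau F ε x * (1 + (E x - E y)) ≤ tau F ε x * Real.exp (E x - E y) :=
        mul_le_mul_of_nonneg_left hexp hτx0
      have h6 : tau F ε x * (1 - ‖a‖ * ‖x - y‖) ≤ tau F ε x * (1 + (E x - E y)) :=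
        mul_le_mul_of_nonneg_left (by linarith) hτx0
      have h7 : tau F ε x * (‖a‖ * ‖x - y‖) ≤ M * (‖a‖ * ‖x - y‖) :=
        mul_le_mul_of_nonneg_right hτxM (by positivity)
      have h8 : M * (‖a‖ * ‖x - y‖) < c / 2 * ‖x - y‖ := by
        rw [← mul_assoc]
        exact mul_lt_mul_of_pos_right haM hxy
      nlinarith
    show tau F ε y * Real.exp (E y) < tau F ε x * Real.exp (E x)
    have h5 : Real.exp (E x) = Real.exp (E x - E y) * Real.exp (E y) := by
      rw [← Real.exp_add]; congr 1; ring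
    rw [h5, ← mul_assoc]
    exact mul_lt_mul_of_pos_right hfin (Real.exp_pos _)
  have key2 : ∀ x ∈ closedBall (0 : EuclideanSpace ℝ (Fin 2)) 1, ∀ u,
      (∀ i, i ≠ 3 → fderiv ℝ F x u i = 0) → 0 < fderiv ℝ F x u 3 → 0 < fderiv ℝ h x u := by
    intro x hx u hi h3
    have hn : ‖fderiv ℝ F x u‖ = fderiv ℝ F x u 3 := by
      rw [norm_vertical hi]; exact abs_of_pos h3
    have h1 := hbd x hx u
    rw [hn] at h1
    have hx1 : ‖x‖ ≤ 1 := by simpa using hx
    have hu : 0 < ‖u‖ := by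
      rw [norm_pos_iff]
      rintro rfl
      simp at h3
    have h2 : c / 2 * ‖u‖ ≤ fderiv ℝ (tau F ε) x u := by
      rw [fderiv_tau hF.smooth]
      have h4 := (abs_le.1 (abs_real_inner_le_norm x u)).2
      have h5 : ‖x‖ * ‖u‖ ≤ ‖u‖ := by nlinarith
      have h6 : 2 * ε * inner ℝ x u ≤ 2 * ε * ‖u‖ :=
        mul_le_mul_of_nonneg_left (h4.trans h5) (by positivity)
      have h7 : 2 * ε * ‖u‖ = c / 2 * ‖u‖ := by rw [hεdef]; ring
      nlinarith
    rw [hd]
    apply mul_pos (Real.exp_pos _)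
    rw [hEd]
    have h4 := hker x hx u hi h3.le
    have h5 := (abs_le.1 (abs_real_inner_le_norm a u)).1
    have hτx0 := tau_nonneg hF hε hx
    have hτxM := hMτ x hx
    have h6 : 0 ≤ tau F ε x * (lam * fderiv ℝ φ x u) :=
      mul_nonneg hτx0 (mul_nonneg hlam.le h4)
    have h7 : -(M * (‖a‖ * ‖u‖)) ≤ tau F ε x * inner ℝ a u := by
      have h8 : tau F ε x * -(‖a‖ * ‖u‖) ≤ tau F ε x * inner ℝ a u :=
        mul_le_mul_of_nonneg_left h5 hτx0
      have h9 : tau F ε x * (‖a‖ * ‖u‖) ≤ M * (‖a‖ * ‖u‖) :=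
        mul_le_mul_of_nonneg_right hτxM (by positivity)
      linarith
    have h8 : M * (‖a‖ * ‖u‖) < c / 2 * ‖u‖ := by
      rw [← mul_assoc]
      exact mul_lt_mul_of_pos_right haM hu
    nlinarith
  have key3 : ∀ x ∈ sphere (0 : EuclideanSpace ℝ (Fin 2)) 1, h x = 0 := by
    intro x hx
    simp [hhdef, tau_sphere hF ε hx]
  have key4 : ∀ x ∈ ball (0 : EuclideanSpace ℝ (Fin 2)) 1, 0 < h x := fun x hx =>
    mul_pos (tau_pos hF hε hx) (Real.exp_pos _)
  have hG3 : (fun y => setHeight F h y 3) = h := by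
    funext y; exact setHeight_three F h y
  have hhG : height (setHeight F h) = h := hG3
  -- critical points
  have hcritpt : ∀ x ∈ births (setHeight F h), (∀ u, fderiv ℝ (tau F ε) x u =
      - (tau F ε x * (lam * fderiv ℝ φ x u + inner ℝ a u))) ∧
      ∃ p ∈ P, x ∈ ball p (r p) := by
    rintro x ⟨hx, hmin⟩
    rw [hhG] at hmin
    have h0 : fderiv ℝ h x = 0 := hmin.fderiv_eq_zero
    obtain ⟨h4, h5⟩ := critical_mul_exp hτs hEs (tau_pos hF hε hx) h0
    have h6 : ∀ u, fderiv ℝ (tau F ε) x u =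
        - (tau F ε x * (lam * fderiv ℝ φ x u + inner ℝ a u)) := fun u => by
      rw [h4 u, hEd]
    refine ⟨h6, ?_⟩
    by_contra hcon
    have hxK : x ∈ K := by
      refine ⟨ball_subset_closedBall hx, ?_⟩
      rw [mem_iUnion₂]
      rintro ⟨p, hp, hxp⟩
      exact hcon ⟨p, hp, hxp⟩
    obtain ⟨u, hu⟩ := hneg a ha1 x hxK (tau_pos hF hε hx) h6
    have h7 : fderiv ℝ (fderiv ℝ h) x u u < 0 := by
      rw [hhdef, h5 u u, hEdd]
      exact mul_neg_of_pos_of_neg (Real.exp_pos _) hu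
    have := noTrap_second hhs hmin u
    linarith
  refine ⟨setHeight F h, ⟨isSliceDisc_setHeight hF hhs key1 key2 key3 key4, ?_, ?_⟩, ?_, ?_,
    fun x i hi => setHeight_ne F h x hi, isSliceDisc_interpolate hF hhs key1 key2 key3 key4⟩
  · -- neat
    intro x hx
    rw [hhG]
    by_contra hcon
    push Not at hcon
    have h0 : fderiv ℝ h x (-x) = 0 := hcon (-x)
    have hd' := hd x (-x)
    rw [h0, tau_sphere hF ε hx] at hd'
    have h5 := fderiv_tau_sphere hF hε hx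
    have h6 : 0 < Real.exp (E x) * fderiv ℝ (tau F ε) x (-x) := mul_pos (Real.exp_pos _) h5
    rw [zero_mul, add_zero] at hd'
    linarith
  · -- Morse
    intro x hx h0 u hu
    rw [hhG] at h0 ⊢
    have h00 : fderiv ℝ h x = 0 := by
      ext w
      exact h0 w
    obtain ⟨w, hw⟩ := hmorse x (mul_pos (tau_pos hF hε hx) (Real.exp_pos _)) h00 u hu
    exact ⟨w, by rw [dd_dd hhs]; exact hw⟩
  · -- the number of births
    have hex : ∀ x ∈ births (setHeight F h), ∃ p, p ∈ P ∧ x ∈ ball p (r p) := fun x hx => by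
      obtain ⟨p, hp, hxp⟩ := (hcritpt x hx).2
      exact ⟨p, hp, hxp⟩
    choose! f hfP hfb using hex
    have hinj : InjOn f (births (setHeight F h)) := by
      intro x hx y hy hxy
      refine huniq1 (f x) (hfP x hx) lam (hlam1le _ (hfP x hx)) a x
        (ball_subset_closedBall (hfb x hx)) y ?_ (hcritpt x hx).1 (hcritpt y hy).1
      rw [hxy]
      exact ball_subset_closedBall (hfb y hy)
    have hmaps : MapsTo f (births (setHeight F h)) (P : Set (EuclideanSpace ℝ (Fin 2))) :=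
      fun x hx => hfP x hx
    have := Set.encard_le_encard_of_injOn hmaps hinj
    rwa [Set.encard_coe_eq_coe_finsetCard] at this
  · intro x hx
    obtain ⟨p, hp, hxp⟩ := (hcritpt x hx).2
    exact ⟨p, hp, (mem_ball.1 hxp).trans (hrδ p hp)⟩

end Pool.Agent.Lib_MP_752436_gt
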