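import Pool.Agent.Lib_MP_752436_gt.TestFun
import Pool.Agent.Lib_MP_752436_gt.NegDir

open MeasureTheory Metric Set
open scoped ContDiff ENNReal Topology

namespace Pool.Agent.Lib_MP_752436_gt

/-- Properties of the explicit test function (as in `exists_test`). -/
theorem tfun_spec (a : EuclideanSpace ℝ (Fin 2)) {s R : ℝ} (hs : 0 < s) (hsR : s < R) :
    ∃ c : ℝ, 0 < c ∧ ContDiff ℝ ∞ (tfun a c R) ∧ (∀ x, 0 ≤ tfun a c R x) ∧
      (∀ x, R ≤ ‖x - a‖ → tfun a c R x = 0) ∧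
      (∀ x, s ≤ ‖x - a‖ → 0 ≤ lap (tfun a c R) x) := by
  have hR : 0 < R := hs.trans hsR
  set c : ℝ := s ^ 2 / (2 * (2 * R ^ 2 * s ^ 2 + R ^ 4)) with hc
  have hden : 0 < 2 * R ^ 2 * s ^ 2 + R ^ 4 := by positivity
  have hcpos : 0 < c := by positivity
  have hc2 : c * (2 * R ^ 2 * s ^ 2 + R ^ 4) = s ^ 2 / 2 := by
    rw [hc]
    field_simp
  have hpos : ∀ x, s ≤ ‖x - a‖ → ‖x - a‖ < R → 0 < lap (tfun a c R) x := by
    intro x hx hxR
    have hq := tfun_lap a c R x _ rfl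
    set N : ℝ := ‖x - a‖ ^ 2 with hN
    have hN1 : s ^ 2 ≤ N := by
      rw [hN]
      exact pow_le_pow_left₀ hs.le hx 2
    have hN2 : N < R ^ 2 := by
      rw [hN]
      exact pow_lt_pow_left₀ hxR (norm_nonneg _) (by norm_num)
    have hqpos : 0 < c * (R ^ 2 - N) := mul_pos hcpos (by linarith)
    rw [hq]
    set q : ℝ := c * (R ^ 2 - N) with hqd
    have hqle : q ≤ c * R ^ 2 := by
      rw [hqd]
      apply mul_le_mul_of_nonneg_left _ hcpos.le
      nlinarith [sq_nonneg s]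
    have hE := expNegInvGlue.pos_of_pos hqpos
    have e : c * N * ((q⁻¹) ^ 4 - 2 * (q⁻¹) ^ 3) - (q⁻¹) ^ 2
        = (c * N * (1 - 2 * q) - q ^ 2) * (q⁻¹) ^ 4 := by
      field_simp
    rw [e]
    have hkey : 0 < c * N * (1 - 2 * q) - q ^ 2 := by
      have h1 : q ^ 2 ≤ (c * R ^ 2) ^ 2 := pow_le_pow_left₀ hqpos.le hqle 2
      have h2 : 2 * c * R ^ 2 < 1 := by
        have : c * (2 * R ^ 2) * s ^ 2 < 1 * s ^ 2 := by
          nlinarith [hc2, mul_pos hcpos (pow_pos hR 4), pow_pos hs 2]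
        have := lt_of_mul_lt_mul_right this (by positivity)
        linarith
      have h3 : c * s ^ 2 * (1 - 2 * (c * R ^ 2)) ≤ c * N * (1 - 2 * q) := by
        apply mul_le_mul
        · exact mul_le_mul_of_nonneg_left hN1 hcpos.le
        · linarith
        · linarith
        · exact mul_nonneg hcpos.le (by nlinarith [sq_nonneg s])
      have h4 : c * s ^ 2 * (1 - 2 * (c * R ^ 2)) - (c * R ^ 2) ^ 2 = c * (s ^ 2 / 2) := by
        rw [← hc2]
        have : c * s ^ 2 * (1 - 2 * (c * R ^ 2)) - (c * R ^ 2) ^ 2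
          = c * (s ^ 2 - c * (2 * R ^ 2 * s ^ 2 + R ^ 4)) := by ring
        rw [this, hc2]
        ring
      have h5 : 0 < c * (s ^ 2 / 2) := by positivity
      linarith
    positivity
  refine ⟨c, hcpos, ?_, ?_, ?_, ?_⟩
  · unfold tfun
    apply expNegInvGlue.contDiff.comp
    exact contDiff_const.mul (contDiff_const.sub ((contDiff_id.sub contDiff_const).norm_sq ℝ))
  · intro x
    exact expNegInvGlue.nonneg _
  · intro x hx
    apply expNegInvGlue.zero_of_nonpos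
    have : R ^ 2 ≤ ‖x - a‖ ^ 2 := pow_le_pow_left₀ hR.le hx 2
    exact mul_nonpos_of_nonneg_of_nonpos hcpos.le (by linarith)
  · intro x hx
    rcases lt_or_ge ‖x - a‖ R with h | h
    · exact (hpos x hx h).le
    · rw [tfun_lap a c R x _ rfl, expNegInvGlue.zero_of_nonpos]
      · simp
      · have : R ^ 2 ≤ ‖x - a‖ ^ 2 := pow_le_pow_left₀ hR.le h 2
        exact mul_nonpos_of_nonneg_of_nonpos hcpos.le (by linarith)

/-- A function with positive definite second derivative on a closed ball has at most one critical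
point there. -/
theorem crit_unique_of_convex {f : EuclideanSpace ℝ (Fin 2) → ℝ} (hf : ContDiff ℝ ∞ f)
    {p : EuclideanSpace ℝ (Fin 2)} {r : ℝ}
    (hconv : ∀ x ∈ closedBall p r, ∀ u, u ≠ 0 → 0 < fderiv ℝ (fderiv ℝ f) x u u)
    {x y : EuclideanSpace ℝ (Fin 2)} (hx : x ∈ closedBall p r) (hy : y ∈ closedBall p r)
    (hfx : fderiv ℝ f x = 0) (hfy : fderiv ℝ f y = 0) : x = y := by
  by_contra hne
  have hu : y - x ≠ 0 := sub_ne_zero.mpr (Ne.symm hne)
  set F := fderiv ℝ f with hF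
  have hFd : Differentiable ℝ F := (hf.fderiv_right (m := ∞) (by simp)).differentiable (by simp)
  set g : ℝ → ℝ := fun t => F (x + t • (y - x)) (y - x) with hg
  have hder : ∀ t : ℝ, HasDerivAt g (fderiv ℝ F (x + t • (y - x)) (y - x) (y - x)) t := by
    intro t
    have h1 : HasDerivAt (fun t : ℝ => x + t • (y - x)) (y - x) t := by
      have := ((hasDerivAt_id t).smul_const (y - x)).const_add x
      simpa using this
    have h2 : HasDerivAt (fun t : ℝ => F (x + t • (y - x)))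
        (fderiv ℝ F (x + t • (y - x)) (y - x)) t :=
      (hFd (x + t • (y - x))).hasFDerivAt.comp_hasDerivAt t h1
    have h3 := h2.clm_apply (hasDerivAt_const t (y - x))
    rw [map_zero, add_zero] at h3
    exact h3
  have hmono : StrictMonoOn g (Icc 0 1) := by
    apply strictMonoOn_of_deriv_pos (convex_Icc 0 1)
    · exact fun t _ => (hder t).continuousAt.continuousWithinAt
    · intro t ht
      rw [interior_Icc] at ht
      rw [(hder t).deriv]
      apply hconv _ _ _ hu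
      have hc := convex_closedBall p r
      have := hc hx hy (a := 1 - t) (b := t) (by linarith [ht.2]) ht.1.le (by ring)
      have e : (1 - t) • x + t • y = x + t • (y - x) := by
        rw [sub_smul, one_smul, smul_sub]
        abel
      rwa [e] at this
  have h01 : g 0 < g 1 := hmono (by simp) (by simp) one_pos
  have e0 : g 0 = 0 := by simp [hg, hfx]
  have e1 : g 1 = 0 := by simp [hg, hfy]
  rw [e0, e1] at h01
  exact lt_irrefl _ h01

/-- J (file Bump.lean; see TestFun.lean, take b = tfun p c R) -/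
theorem exists_bump (p : EuclideanSpace ℝ (Fin 2)) {ε R : ℝ} (hε : 0 < ε) (hεR : ε < R) :
    ∃ b : EuclideanSpace ℝ (Fin 2) → ℝ, ContDiff ℝ ∞ b ∧ (∀ x, 0 ≤ b x) ∧
      (∀ x, R ≤ ‖x - p‖ → b x = 0) ∧ (∀ x, ε ≤ ‖x - p‖ → 0 ≤ lap b x) ∧
      ∀ ψ : EuclideanSpace ℝ (Fin 2) → ℝ, ContDiff ℝ ∞ ψ → ∃ M0 : ℝ, 0 ≤ M0 ∧ ∀ M, M0 ≤ M →
        (∀ x ∈ closedBall p ε, ∀ y ∈ closedBall p ε,
          fderiv ℝ (fun z => ψ z - M * b z) x = 0 → fderiv ℝ (fun z => ψ z - M * b z) y = 0 →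
          x = y) ∧
        ∀ x ∈ closedBall p ε, fderiv ℝ (fun z => ψ z - M * b z) x = 0 →
          ∀ u, u ≠ 0 → 0 < fderiv ℝ (fderiv ℝ (fun z => ψ z - M * b z)) x u u := by
  obtain ⟨c, hc, hbs, hb0, hbR, hbl⟩ := tfun_spec p hε hεR
  have hR : 0 < R := hε.trans hεR
  refine ⟨tfun p c R, hbs, hb0, hbR, hbl, ?_⟩
  intro ψ hψ
  -- bounds for the derivatives of ψ
  have hcomp : IsCompact (closedBall p ε) := isCompact_closedBall p ε
  have hψ1' : ContDiff ℝ ∞ (fderiv ℝ ψ) := hψ.fderiv_right (by simp)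
  have hψ2' : ContDiff ℝ ∞ (fderiv ℝ (fderiv ℝ ψ)) := hψ1'.fderiv_right (by simp)
  obtain ⟨C1, hC1⟩ := hcomp.exists_bound_of_continuousOn (f := fderiv ℝ ψ)
    hψ1'.continuous.continuousOn
  obtain ⟨C2, hC2⟩ := hcomp.exists_bound_of_continuousOn (f := fderiv ℝ (fderiv ℝ ψ))
    hψ2'.continuous.continuousOn
  have hpmem : p ∈ closedBall p ε := mem_closedBall_self hε.le
  have hC1n : 0 ≤ C1 := (norm_nonneg _).trans (hC1 p hpmem)
  have hC2n : 0 ≤ C2 := (norm_nonneg _).trans (hC2 p hpmem)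
  -- constants
  set q0 : ℝ := c * (R ^ 2 - ε ^ 2) with hq0
  set q1 : ℝ := c * R ^ 2 with hq1
  have hq0p : 0 < q0 := mul_pos hc (by nlinarith)
  have hq1p : 0 < q1 := by positivity
  set e0 : ℝ := expNegInvGlue q0 with he0
  set e1 : ℝ := expNegInvGlue q1 with he1
  have he0p : 0 < e0 := expNegInvGlue.pos_of_pos hq0p
  have he1p : 0 < e1 := expNegInvGlue.pos_of_pos hq1p
  set g0 : ℝ := (q1⁻¹) ^ 2 * e0 with hg0
  have hg0p : 0 < g0 := by positivity
  set K : ℝ := (q0⁻¹) ^ 4 * e1 with hK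
  have hKp : 0 < K := by positivity
  -- pointwise bounds on the ball
  have hqb : ∀ x ∈ closedBall p ε, q0 ≤ c * (R ^ 2 - ‖x - p‖ ^ 2) ∧
      c * (R ^ 2 - ‖x - p‖ ^ 2) ≤ q1 := by
    intro x hx
    rw [mem_closedBall, dist_eq_norm] at hx
    have h1 : ‖x - p‖ ^ 2 ≤ ε ^ 2 := pow_le_pow_left₀ (norm_nonneg _) hx 2
    have h2 : 0 ≤ ‖x - p‖ ^ 2 := sq_nonneg _
    exact ⟨mul_le_mul_of_nonneg_left (by linarith) hc.le,
      mul_le_mul_of_nonneg_left (by linarith) hc.le⟩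
  have hgb : ∀ x ∈ closedBall p ε, g0 ≤ ((c * (R ^ 2 - ‖x - p‖ ^ 2))⁻¹) ^ 2 *
      expNegInvGlue (c * (R ^ 2 - ‖x - p‖ ^ 2)) := by
    intro x hx
    obtain ⟨h1, h2⟩ := hqb x hx
    have hqp : 0 < c * (R ^ 2 - ‖x - p‖ ^ 2) := hq0p.trans_le h1
    rw [hg0]
    apply mul_le_mul
    · exact pow_le_pow_left₀ (by positivity) (inv_anti₀ hqp h2) 2
    · exact expNegInvGlue.monotone h1
    · exact he0p.le
    · positivity
  have hKb : ∀ x ∈ closedBall p ε, (((c * (R ^ 2 - ‖x - p‖ ^ 2))⁻¹) ^ 4 -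
      2 * ((c * (R ^ 2 - ‖x - p‖ ^ 2))⁻¹) ^ 3) *
      expNegInvGlue (c * (R ^ 2 - ‖x - p‖ ^ 2)) ≤ K := by
    intro x hx
    obtain ⟨h1, h2⟩ := hqb x hx
    set q := c * (R ^ 2 - ‖x - p‖ ^ 2) with hq
    have hqp : 0 < q := hq0p.trans_le h1
    have hep : 0 < expNegInvGlue q := expNegInvGlue.pos_of_pos hqp
    have h3 : ((q⁻¹) ^ 4 - 2 * (q⁻¹) ^ 3) * expNegInvGlue q ≤ (q⁻¹) ^ 4 * expNegInvGlue q := by
      apply mul_le_mul_of_nonneg_right _ hep.le
      have : 0 < (q⁻¹) ^ 3 := by positivity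
      linarith
    refine h3.trans ?_
    rw [hK]
    apply mul_le_mul
    · exact pow_le_pow_left₀ (by positivity) (inv_anti₀ hq0p h1) 4
    · exact expNegInvGlue.monotone h2
    · exact hep.le
    · positivity
  -- radius of convexity
  set r2 : ℝ := min ε (Real.sqrt (g0 / (4 * c * K))) with hr2
  have hr2p : 0 < r2 := lt_min hε (Real.sqrt_pos.mpr (by positivity))
  have hr2s : 4 * c ^ 2 * K * r2 ^ 2 ≤ c * g0 := by
    have h1 : r2 ^ 2 ≤ g0 / (4 * c * K) := by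
      have := pow_le_pow_left₀ hr2p.le (min_le_right ε (Real.sqrt (g0 / (4 * c * K)))) 2
      rwa [Real.sq_sqrt (by positivity)] at this
    calc 4 * c ^ 2 * K * r2 ^ 2 ≤ 4 * c ^ 2 * K * (g0 / (4 * c * K)) := by gcongr
      _ = c * g0 := by field_simp
  set M0 : ℝ := max ((C2 + 1) / (c * g0)) ((C1 + 1) / (2 * c * g0 * r2)) with hM0
  have hM0p : 0 < M0 := lt_max_of_lt_left (by positivity)
  refine ⟨M0, hM0p.le, ?_⟩
  intro M hM
  have hMp : 0 < M := hM0p.trans_le hM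
  have hMa : C2 + 1 ≤ M * (c * g0) := by
    have := (le_max_left _ _).trans hM
    rwa [div_le_iff₀ (by positivity)] at this
  have hMb : C1 + 1 ≤ M * (2 * c * g0 * r2) := by
    have := (le_max_right _ _).trans hM
    rwa [div_le_iff₀ (by positivity)] at this
  set b := tfun p c R with hb
  have hbd : Differentiable ℝ b := hbs.differentiable (by simp)
  have hψd : Differentiable ℝ ψ := hψ.differentiable (by simp)
  have hb1' : ContDiff ℝ ∞ (fderiv ℝ b) := hbs.fderiv_right (by simp)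
  have hbd1 : Differentiable ℝ (fderiv ℝ b) := hb1'.differentiable (by simp)
  have hψd1 : Differentiable ℝ (fderiv ℝ ψ) := hψ1'.differentiable (by simp)
  set f : EuclideanSpace ℝ (Fin 2) → ℝ := fun z => ψ z - M * b z with hf
  have hfs : ContDiff ℝ ∞ f := hψ.sub (contDiff_const.mul hbs)
  have hf1 : fderiv ℝ f = fun x => fderiv ℝ ψ x - M • fderiv ℝ b x := by
    funext x
    exact ((hψd x).hasFDerivAt.sub ((hbd x).hasFDerivAt.const_mul M)).fderiv
  have hf2 : ∀ x, fderiv ℝ (fderiv ℝ f) x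
      = fderiv ℝ (fderiv ℝ ψ) x - M • fderiv ℝ (fderiv ℝ b) x := by
    intro x
    rw [hf1]
    exact ((hψd1 x).hasFDerivAt.sub ((hbd1 x).hasFDerivAt.const_smul M)).fderiv
  -- convexity on the small ball
  have hconv : ∀ x ∈ closedBall p r2, ∀ u, u ≠ 0 → 0 < fderiv ℝ (fderiv ℝ f) x u u := by
    intro x hx u hu
    have hxε : x ∈ closedBall p ε := closedBall_subset_closedBall (min_le_left _ _) hx
    have hxr : ‖x - p‖ ≤ r2 := by rwa [mem_closedBall, dist_eq_norm] at hx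
    rw [hf2 x]
    have hup : 0 < ‖u‖ := norm_pos_iff.mpr hu
    have h1 : -(C2 * ‖u‖ ^ 2) ≤ fderiv ℝ (fderiv ℝ ψ) x u u := by
      have := (fderiv ℝ (fderiv ℝ ψ) x).le_opNorm₂ u u
      have h2 : ‖fderiv ℝ (fderiv ℝ ψ) x‖ * ‖u‖ * ‖u‖ ≤ C2 * ‖u‖ ^ 2 := by
        rw [pow_two, ← mul_assoc]
        gcongr
        exact hC2 x hxε
      have h3 := neg_abs_le (fderiv ℝ (fderiv ℝ ψ) x u u)
      rw [Real.norm_eq_abs] at this
      linarith
    have h2 : c * g0 * ‖u‖ ^ 2 ≤ - fderiv ℝ (fderiv ℝ b) x u u := by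
      rw [hb, tfun_fderiv_two p c R x u _ rfl]
      have ha := hgb x hxε
      have hk := hKb x hxε
      set q := c * (R ^ 2 - ‖x - p‖ ^ 2) with hq
      have hin : (inner ℝ (x - p) u) ^ 2 ≤ r2 ^ 2 * ‖u‖ ^ 2 := by
        have h4 := abs_real_inner_le_norm (x - p) u
        have h5 : |inner ℝ (x - p) u| ≤ r2 * ‖u‖ := h4.trans (by gcongr)
        have := pow_le_pow_left₀ (abs_nonneg _) h5 2
        rwa [sq_abs, mul_pow] at this
      have h6 : 4 * c ^ 2 * (((q⁻¹) ^ 4 - 2 * (q⁻¹) ^ 3) * expNegInvGlue q) *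
          (inner ℝ (x - p) u) ^ 2 ≤ 4 * c ^ 2 * K * (r2 ^ 2 * ‖u‖ ^ 2) := by
        have h7 : 4 * c ^ 2 * (((q⁻¹) ^ 4 - 2 * (q⁻¹) ^ 3) * expNegInvGlue q) ≤ 4 * c ^ 2 * K := by
          gcongr
        calc _ ≤ 4 * c ^ 2 * K * (inner ℝ (x - p) u) ^ 2 := by
              exact mul_le_mul_of_nonneg_right h7 (sq_nonneg _)
          _ ≤ _ := by gcongr
      have h8 : 2 * c * g0 * ‖u‖ ^ 2 ≤ 2 * c * ((q⁻¹) ^ 2 * expNegInvGlue q) * ‖u‖ ^ 2 := by
        gcongr
      have h9 : 4 * c ^ 2 * K * (r2 ^ 2 * ‖u‖ ^ 2) ≤ c * g0 * ‖u‖ ^ 2 := by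
        calc _ = (4 * c ^ 2 * K * r2 ^ 2) * ‖u‖ ^ 2 := by ring
          _ ≤ _ := by gcongr
      linarith
    have h3 : (C2 + 1) * ‖u‖ ^ 2 ≤ M * (c * g0) * ‖u‖ ^ 2 := by gcongr
    have h4 : M * (c * g0 * ‖u‖ ^ 2) ≤ M * (- fderiv ℝ (fderiv ℝ b) x u u) := by gcongr
    have h5 : (fderiv ℝ (fderiv ℝ ψ) x - M • fderiv ℝ (fderiv ℝ b) x) u u
        = fderiv ℝ (fderiv ℝ ψ) x u u - M * fderiv ℝ (fderiv ℝ b) x u u := by
      simp
    rw [h5]
    have h6 : 0 < ‖u‖ ^ 2 := by positivity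
    nlinarith
  -- critical points lie in the small ball
  have hcrit : ∀ x ∈ closedBall p ε, fderiv ℝ f x = 0 → x ∈ closedBall p r2 := by
    intro x hx hfx
    rw [mem_closedBall, dist_eq_norm]
    by_contra hlt
    push Not at hlt
    have hxp : 0 < ‖x - p‖ := hr2p.trans hlt
    have h1 : fderiv ℝ ψ x (x - p) = M * fderiv ℝ b x (x - p) := by
      have h0 : (fderiv ℝ f x) (x - p) = 0 := by rw [hfx]; rfl
      have h0' : fderiv ℝ f x = fderiv ℝ ψ x - M • fderiv ℝ b x := by rw [hf1]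
      rw [h0'] at h0
      simp only [sub_apply, smul_apply, smul_eq_mul] at h0
      linarith
    have h2 : fderiv ℝ b x (x - p) = -(2 * c) * (((c * (R ^ 2 - ‖x - p‖ ^ 2))⁻¹) ^ 2 *
        expNegInvGlue (c * (R ^ 2 - ‖x - p‖ ^ 2))) * ‖x - p‖ ^ 2 := by
      rw [hb, tfun_fderiv]
      simp only [smul_apply, innerSL_apply_apply, smul_eq_mul]
      rw [real_inner_self_eq_norm_sq]
    have h3 : |fderiv ℝ ψ x (x - p)| ≤ C1 * ‖x - p‖ := by
      have := (fderiv ℝ ψ x).le_opNorm (x - p)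
      rw [Real.norm_eq_abs] at this
      exact this.trans (by gcongr; exact hC1 x hx)
    have h4 := hgb x hx
    set g := ((c * (R ^ 2 - ‖x - p‖ ^ 2))⁻¹) ^ 2 *
        expNegInvGlue (c * (R ^ 2 - ‖x - p‖ ^ 2)) with hg
    rw [h1, h2] at h3
    have h5 : M * (2 * c * g * ‖x - p‖ ^ 2) ≤ C1 * ‖x - p‖ := by
      refine le_trans ?_ h3
      have : M * (-(2 * c) * g * ‖x - p‖ ^ 2) = -(M * (2 * c * g * ‖x - p‖ ^ 2)) := by ring
      rw [this, abs_neg]
      exact le_abs_self _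
    have h6 : M * (2 * c * g0 * r2) * ‖x - p‖ ≤ M * (2 * c * g * ‖x - p‖ ^ 2) := by
      have hgp : 0 ≤ 2 * c * g := by
        have : 0 < g := hg0p.trans_le h4
        positivity
      have h7 : 2 * c * g0 * r2 ≤ 2 * c * g * ‖x - p‖ := by gcongr
      calc _ = M * ((2 * c * g0 * r2) * ‖x - p‖) := by ring
        _ ≤ M * ((2 * c * g * ‖x - p‖) * ‖x - p‖) := by gcongr
        _ = _ := by ring
    have h8 : (C1 + 1) * ‖x - p‖ ≤ M * (2 * c * g0 * r2) * ‖x - p‖ := by gcongr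
    nlinarith
  refine ⟨?_, ?_⟩
  · intro x hx y hy hfx hfy
    exact crit_unique_of_convex hfs hconv (hcrit x hx hfx) (hcrit y hy hfy) hfx hfy
  · intro x hx hfx u hu
    exact hconv x (hcrit x hx hfx) u hu

end Pool.Agent.Lib_MP_752436_gt
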