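import Pool.Agent.Lib_MP_752436_gt.Obstacle
import Pool.Agent.Lib_MP_752436_gt.Trap

/-!
Superharmonic functions in the cone of the functions which do not decrease upwards.
-/

open MeasureTheory Metric Set
open scoped ContDiff ENNReal Topology

namespace Pool.Agent.Lib_MP_752436_gt

/-- A smooth function which does not decrease upwards. -/
structure Rising (F : EuclideanSpace ℝ (Fin 2) → EuclideanSpace ℝ (Fin 4))
    (φ : EuclideanSpace ℝ (Fin 2) → ℝ) : Prop where
  smooth : ContDiff ℝ ∞ φ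
  mono : ∀ x ∈ closedBall (0 : EuclideanSpace ℝ (Fin 2)) 1,
    ∀ y ∈ closedBall (0 : EuclideanSpace ℝ (Fin 2)) 1, Above F x y → φ y ≤ φ x
  ker : ∀ x ∈ closedBall (0 : EuclideanSpace ℝ (Fin 2)) 1, ∀ u,
    (∀ i, i ≠ 3 → fderiv ℝ F x u i = 0) → 0 ≤ fderiv ℝ F x u 3 → 0 ≤ fderiv ℝ φ x u

section

variable {F : EuclideanSpace ℝ (Fin 2) → EuclideanSpace ℝ (Fin 4)}
  {φ ψ : EuclideanSpace ℝ (Fin 2) → ℝ}

theorem Rising.zero : Rising F (fun _ => 0) := by
  refine ⟨contDiff_const, fun _ _ _ _ _ => le_refl _, fun x _ u _ _ => ?_⟩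
  simp

theorem Rising.add (hφ : Rising F φ) (hψ : Rising F ψ) : Rising F (φ + ψ) := by
  refine ⟨hφ.smooth.add hψ.smooth, ?_, ?_⟩
  · intro x hx y hy hxy
    exact add_le_add (hφ.mono x hx y hy hxy) (hψ.mono x hx y hy hxy)
  · intro x hx u hu h3
    rw [((hasFDerivAt_self hφ.smooth x).add (hasFDerivAt_self hψ.smooth x)).fderiv]
    exact add_nonneg (hφ.ker x hx u hu h3) (hψ.ker x hx u hu h3)

theorem Rising.smul {c : ℝ} (hc : 0 ≤ c) (hφ : Rising F φ) : Rising F (c • φ) := by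
  refine ⟨contDiff_const.smul hφ.smooth, ?_, ?_⟩
  · intro x hx y hy hxy
    exact mul_le_mul_of_nonneg_left (hφ.mono x hx y hy hxy) hc
  · intro x hx u hu h3
    rw [((hasFDerivAt_self hφ.smooth x).const_smul c).fderiv]
    exact mul_nonneg hc (hφ.ker x hx u hu h3)

/-- The negative of a nonnegative function which vanishes near the obstacle. -/
theorem Rising.neg_of_support (hF : ContDiff ℝ ∞ F) (hφ : ContDiff ℝ ∞ φ) (h0 : ∀ x, 0 ≤ φ x)
    (hU : ∀ x ∈ upperSet F ∪ singularSet F, ∀ᶠ y in 𝓝 x, φ y = 0) : Rising F (-φ) := by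
  refine ⟨hφ.neg, ?_, ?_⟩
  · intro x hx y hy hxy
    have h1 : φ x = 0 := (hU x (Or.inl ⟨hx, y, hy, hxy⟩)).self_of_nhds
    have h2 := h0 y
    show - φ y ≤ - φ x
    rw [h1]
    linarith
  · intro x hx u hu h3
    by_cases hn : nvec (projThree F) x = 0
    · have h1 : (-φ) =ᶠ[𝓝 x] fun _ => 0 := by
        filter_upwards [hU x (Or.inr ⟨hx, hn⟩)] with y hy
        show - φ y = 0
        rw [hy, neg_zero]
      rw [h1.fderiv_eq]
      simp
    · rw [immersed_of_nvec hF hn hu, map_zero]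

/-- Composition with a nondecreasing function. -/
theorem Rising.comp {h : ℝ → ℝ} (hh : ContDiff ℝ ∞ h) (hm : Monotone h) (hφ : Rising F φ) :
    Rising F (fun x => h (φ x)) := by
  refine ⟨hh.comp hφ.smooth, ?_, ?_⟩
  · intro x hx y hy hxy
    exact hm (hφ.mono x hx y hy hxy)
  · intro x hx u hu h3
    have h1 : HasDerivAt h (deriv h (φ x)) (φ x) :=
      ((hh.differentiable (by simp)) (φ x)).hasDerivAt
    have h2 : HasFDerivAt (fun x => h (φ x)) (deriv h (φ x) • fderiv ℝ φ x) x :=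
      h1.comp_hasFDerivAt x (hasFDerivAt_self hφ.smooth x)
    rw [h2.fderiv]
    exact mul_nonneg hm.deriv_nonneg (hφ.ker x hx u hu h3)

end

/-- The function `-exp(-1/(c - φ))`, extended by zero. -/
noncomputable def wfun (c : ℝ) (φ : EuclideanSpace ℝ (Fin 2) → ℝ)
    (x : EuclideanSpace ℝ (Fin 2)) : ℝ :=
  -expNegInvGlue (c - φ x)

theorem wfun_fderiv {φ : EuclideanSpace ℝ (Fin 2) → ℝ} (hφ : ContDiff ℝ ∞ φ) (c : ℝ) :
    fderiv ℝ (wfun c φ) = fun x =>
      (((c - φ x)⁻¹) ^ 2 * expNegInvGlue (c - φ x)) • fderiv ℝ φ x := by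
  funext x
  have h1 : HasFDerivAt (fun x => c - φ x) (-fderiv ℝ φ x) x :=
    (hasFDerivAt_self hφ x).const_sub c
  have h := ((glue_deriv_one (c - φ x)).comp_hasFDerivAt x h1).neg
  have h' : HasFDerivAt (wfun c φ) _ x := h
  rw [h'.fderiv]
  simp

theorem wfun_fderiv_two {φ : EuclideanSpace ℝ (Fin 2) → ℝ} (hφ : ContDiff ℝ ∞ φ) (c : ℝ)
    (x u : EuclideanSpace ℝ (Fin 2)) :
    fderiv ℝ (fderiv ℝ (wfun c φ)) x u u =
      ((c - φ x)⁻¹) ^ 2 * expNegInvGlue (c - φ x) * fderiv ℝ (fderiv ℝ φ) x u u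
      - ((((c - φ x)⁻¹) ^ 4 - 2 * ((c - φ x)⁻¹) ^ 3) * expNegInvGlue (c - φ x))
        * (fderiv ℝ φ x u) ^ 2 := by
  rw [wfun_fderiv hφ]
  have h1 : HasFDerivAt (fun x => c - φ x) (-fderiv ℝ φ x) x :=
    (hasFDerivAt_self hφ x).const_sub c
  have h2 := (glue_deriv_two (c - φ x)).comp_hasFDerivAt x h1
  have h3 := h2.smul (hasFDerivAt_fderiv hφ x)
  have h4 := h3.fderiv
  rw [show (fun x => (((c - φ x)⁻¹) ^ 2 * expNegInvGlue (c - φ x)) • fderiv ℝ φ x) = _ from rfl]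
  erw [h4]
  simp only [Function.comp_apply, add_apply, smul_apply,
    ContinuousLinearMap.smulRight_apply, smul_eq_mul, neg_apply]
  ring

theorem wfun_lap {φ : EuclideanSpace ℝ (Fin 2) → ℝ} (hφ : ContDiff ℝ ∞ φ) (c : ℝ)
    (x : EuclideanSpace ℝ (Fin 2)) :
    lap (wfun c φ) x =
      ((c - φ x)⁻¹) ^ 2 * expNegInvGlue (c - φ x) * lap φ x
      - ((((c - φ x)⁻¹) ^ 4 - 2 * ((c - φ x)⁻¹) ^ 3) * expNegInvGlue (c - φ x))
        * ((fderiv ℝ φ x (EuclideanSpace.single 0 1)) ^ 2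
          + (fderiv ℝ φ x (EuclideanSpace.single 1 1)) ^ 2) := by
  unfold lap
  rw [wfun_fderiv_two hφ, wfun_fderiv_two hφ]
  ring

theorem Rising.wfun {F : EuclideanSpace ℝ (Fin 2) → EuclideanSpace ℝ (Fin 4)}
    {φ : EuclideanSpace ℝ (Fin 2) → ℝ} (hφ : Rising F φ) (c : ℝ) : Rising F (wfun c φ) := by
  have h1 : ContDiff ℝ ∞ (fun t : ℝ => -expNegInvGlue (c - t)) := by
    have h0 : ContDiff ℝ ∞ (fun t : ℝ => c - t) := contDiff_const.sub contDiff_id
    exact (expNegInvGlue.contDiff.comp h0).neg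
  have h2 : Monotone (fun t : ℝ => -expNegInvGlue (c - t)) := by
    intro s t hst
    exact neg_le_neg (expNegInvGlue.monotone (by linarith))
  exact Rising.comp (h := fun t : ℝ => -expNegInvGlue (c - t)) h1 h2 hφ

/-- A function without critical points at its minimum over a compact set can be composed such
that the Laplacian is nowhere positive on the set and somewhere negative. -/
theorem exists_wfun {φ : EuclideanSpace ℝ (Fin 2) → ℝ} (hφ : ContDiff ℝ ∞ φ)
    {Z : Set (EuclideanSpace ℝ (Fin 2))} (hZ : IsCompact Z) {z₀ : EuclideanSpace ℝ (Fin 2)}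
    (hz₀ : z₀ ∈ Z) (hmin : ∀ z ∈ Z, φ z₀ ≤ φ z)
    (hcrit : ∀ z ∈ Z, φ z = φ z₀ → fderiv ℝ φ z ≠ 0) :
    ∃ c : ℝ, (∀ z ∈ Z, lap (wfun c φ) z ≤ 0) ∧ lap (wfun c φ) z₀ < 0 := by
  set g : EuclideanSpace ℝ (Fin 2) → ℝ := fun x =>
    (fderiv ℝ φ x (EuclideanSpace.single 0 1)) ^ 2
      + (fderiv ℝ φ x (EuclideanSpace.single 1 1)) ^ 2 with hg
  have hfc : Continuous (fderiv ℝ φ) := hφ.continuous_fderiv (by simp)
  have hgc : Continuous g := by
    have e0 : Continuous fun x => fderiv ℝ φ x (EuclideanSpace.single (0 : Fin 2) (1 : ℝ)) :=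
      hfc.clm_apply continuous_const
    have e1 : Continuous fun x => fderiv ℝ φ x (EuclideanSpace.single (1 : Fin 2) (1 : ℝ)) :=
      hfc.clm_apply continuous_const
    exact (e0.pow 2).add (e1.pow 2)
  have hg0 : ∀ x, fderiv ℝ φ x ≠ 0 → 0 < g x := by
    intro x hx
    by_contra hcon
    push Not at hcon
    apply hx
    have a0 : fderiv ℝ φ x (EuclideanSpace.single 0 1) = 0 := by
      have h1 := sq_nonneg (fderiv ℝ φ x (EuclideanSpace.single (0 : Fin 2) (1 : ℝ)))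
      have h2 := sq_nonneg (fderiv ℝ φ x (EuclideanSpace.single (1 : Fin 2) (1 : ℝ)))
      exact pow_eq_zero_iff (two_ne_zero) |>.1 (by simp only [hg] at hcon; linarith)
    have a1 : fderiv ℝ φ x (EuclideanSpace.single 1 1) = 0 := by
      have h1 := sq_nonneg (fderiv ℝ φ x (EuclideanSpace.single (0 : Fin 2) (1 : ℝ)))
      have h2 := sq_nonneg (fderiv ℝ φ x (EuclideanSpace.single (1 : Fin 2) (1 : ℝ)))
      exact pow_eq_zero_iff (two_ne_zero) |>.1 (by simp only [hg] at hcon; linarith)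
    ext u
    have hu : u = u 0 • EuclideanSpace.single (0 : Fin 2) (1 : ℝ)
        + u 1 • EuclideanSpace.single (1 : Fin 2) (1 : ℝ) := by
      ext i
      fin_cases i <;> simp
    rw [hu, map_add, map_smul, map_smul, a0, a1]
    simp
  -- a level above the minimum without critical points below it
  obtain ⟨c₁, hc₁, hc₁g⟩ : ∃ c₁, φ z₀ < c₁ ∧ ∀ z ∈ Z, φ z ≤ c₁ → 0 < g z := by
    set Y : Set (EuclideanSpace ℝ (Fin 2)) := Z ∩ {z | g z ≤ 0} with hY
    have hYc : IsCompact Y := hZ.inter_right (isClosed_le hgc continuous_const)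
    rcases Y.eq_empty_or_nonempty with h | h
    · refine ⟨φ z₀ + 1, by linarith, fun z hz _ => ?_⟩
      by_contra hcon
      push Not at hcon
      have : z ∈ Y := ⟨hz, hcon⟩
      rw [h] at this
      exact this
    · obtain ⟨y, hy, hymin⟩ := hYc.exists_isMinOn h hφ.continuous.continuousOn
      have h1 : φ z₀ < φ y := by
        refine lt_of_le_of_ne (hmin y hy.1) fun he => ?_
        exact absurd (hg0 y (hcrit y hy.1 he.symm)) (not_lt.2 hy.2)
      refine ⟨(φ z₀ + φ y) / 2, by linarith, fun z hz hzc => ?_⟩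
      by_contra hcon
      push Not at hcon
      have h2 : φ y ≤ φ z := hymin ⟨hz, hcon⟩
      linarith
  have hWc : IsCompact (Z ∩ {z | φ z ≤ c₁}) :=
    hZ.inter_right (isClosed_le hφ.continuous continuous_const)
  obtain ⟨y, hy, hymin⟩ := hWc.exists_isMinOn ⟨z₀, hz₀, hc₁.le⟩ hgc.continuousOn
  have hη : 0 < g y := hc₁g y hy.1 hy.2
  obtain ⟨B, hB⟩ := hZ.exists_bound_of_continuousOn (continuous_lap hφ).continuousOn
  have hB0 : 0 ≤ B := le_trans (norm_nonneg _) (hB z₀ hz₀)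
  -- a small number
  obtain ⟨d, hd0, hd1, hd2, hd3⟩ : ∃ d : ℝ, 0 < d ∧ d ≤ c₁ - φ z₀ ∧ d ≤ 1 / 4 ∧
      d ^ 2 * B < g y / 2 := by
    have hpos : 0 < min (min (c₁ - φ z₀) (1 / 4)) (g y / (2 * (B + 1))) := by
      have : 0 < c₁ - φ z₀ := by linarith
      positivity
    refine ⟨_, hpos, (min_le_left _ _).trans (min_le_left _ _),
      (min_le_left _ _).trans (min_le_right _ _), ?_⟩
    set d := min (min (c₁ - φ z₀) (1 / 4)) (g y / (2 * (B + 1))) with hd
    have h1 : d ≤ 1 / 4 := (min_le_left _ _).trans (min_le_right _ _)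
    have h2 : d ≤ g y / (2 * (B + 1)) := min_le_right _ _
    rw [le_div_iff₀ (by positivity)] at h2
    nlinarith [mul_pos hpos hpos, mul_nonneg hpos.le hB0]
  set c : ℝ := φ z₀ + d with hc
  have hneg : ∀ z ∈ Z, φ z < c → lap (wfun c φ) z < 0 := by
    intro z hz hzc
    have hq : 0 < c - φ z := by linarith
    have hqd : c - φ z ≤ d := by
      have := hmin z hz
      linarith
    have hgz : g y ≤ g z := hymin ⟨hz, by
      show φ z ≤ c₁
      linarith⟩
    have hlapz : lap φ z ≤ B := le_trans (le_abs_self _) (hB z hz)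
    rw [wfun_lap hφ]
    set q : ℝ := c - φ z with hqdef
    have hE := expNegInvGlue.pos_of_pos hq
    have e : (q⁻¹) ^ 2 * expNegInvGlue q * lap φ z
        - (((q⁻¹) ^ 4 - 2 * (q⁻¹) ^ 3) * expNegInvGlue q) * g z
        = -((expNegInvGlue q * (q⁻¹) ^ 4) * ((1 - 2 * q) * g z - q ^ 2 * lap φ z)) := by
      field_simp
      ring
    show (q⁻¹) ^ 2 * expNegInvGlue q * lap φ z
        - (((q⁻¹) ^ 4 - 2 * (q⁻¹) ^ 3) * expNegInvGlue q) * g z < 0
    rw [e]
    have hkey : 0 < (1 - 2 * q) * g z - q ^ 2 * lap φ z := by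
      have h1 : g y / 2 ≤ (1 - 2 * q) * g z := by nlinarith
      have h2 : q ^ 2 * lap φ z ≤ d ^ 2 * B := by
        have h3 : q ^ 2 ≤ d ^ 2 := pow_le_pow_left₀ hq.le hqd 2
        calc q ^ 2 * lap φ z ≤ q ^ 2 * B := mul_le_mul_of_nonneg_left hlapz (sq_nonneg _)
          _ ≤ d ^ 2 * B := mul_le_mul_of_nonneg_right h3 hB0
      linarith
    have : 0 < (expNegInvGlue q * (q⁻¹) ^ 4) * ((1 - 2 * q) * g z - q ^ 2 * lap φ z) := by
      positivity
    linarith
  refine ⟨c, ?_, hneg z₀ hz₀ (by linarith)⟩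
  intro z hz
  rcases lt_or_ge (φ z) c with h | h
  · exact (hneg z hz h).le
  · rw [wfun_lap hφ, expNegInvGlue.zero_of_nonpos (by linarith : c - φ z ≤ 0)]
    simp

/-- K2 (file Cone.lean): if a rising function has no critical point on the obstacle and no
critical point without a negative direction in the enclosed part of `K`, then there is a rising
function which is superharmonic on `K`. -/
theorem exists_super_cone {F : EuclideanSpace ℝ (Fin 2) → EuclideanSpace ℝ (Fin 4)}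
    (hF : IsSliceDisc F) {K : Set (EuclideanSpace ℝ (Fin 2))}
    (hK : IsCompact K) (hKb : K ⊆ closedBall 0 1) {φ₀ : EuclideanSpace ℝ (Fin 2) → ℝ}
    (hφ₀ : Rising F φ₀)
    (hav : ∀ x ∈ upperSet F ∪ singularSet F, fderiv ℝ φ₀ x ≠ 0)
    (hneg : ∀ x ∈ K, x ∈ enclosedBy (upperSet F ∪ singularSet F) → fderiv ℝ φ₀ x = 0 →
      ∃ u, fderiv ℝ (fderiv ℝ φ₀) x u u < 0) :
    ∃ φ : EuclideanSpace ℝ (Fin 2) → ℝ, Rising F φ ∧ ∀ x ∈ K, lap φ x < 0 := by
  by_contra hcon0
  have hUc : IsClosed (upperSet F ∪ singularSet F) := (isCompact_obstacle hF).isClosed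
  set A : Set (EuclideanSpace ℝ (Fin 2) → ℝ) := {g | ∃ φ, Rising F φ ∧ g = lap φ} with hA
  have hAc : ∀ g ∈ A, Continuous g := by
    rintro g ⟨φ, hφ, rfl⟩
    exact continuous_lap hφ.smooth
  have hAne : A.Nonempty := ⟨lap (fun _ => 0), fun _ => 0, Rising.zero, rfl⟩
  have hAadd : ∀ g ∈ A, ∀ h ∈ A, g + h ∈ A := by
    rintro g ⟨φ, hφ, rfl⟩ h ⟨ψ, hψ, rfl⟩
    exact ⟨φ + ψ, hφ.add hψ, (lap_add hφ.smooth hψ.smooth).symm⟩
  have hAsmul : ∀ c : ℝ, 0 ≤ c → ∀ g ∈ A, c • g ∈ A := by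
    rintro c hc g ⟨φ, hφ, rfl⟩
    exact ⟨c • φ, hφ.smul hc, (lap_smul c hφ.smooth).symm⟩
  have hAno : ∀ g ∈ A, ∃ x ∈ K, 0 ≤ g x := by
    rintro g ⟨φ, hφ, rfl⟩
    by_contra hcon
    push Not at hcon
    exact hcon0 ⟨φ, hφ, hcon⟩
  obtain ⟨ν, hνf, hν0, hνK, hνA⟩ := exists_dual_measure hK A hAc hAne hAadd hAsmul hAno
  obtain ⟨Z, hZc, hZne, hZK', _, hZpos⟩ := exists_support hK ν hν0 hνK
  have hZK : Z ⊆ closedBall (0 : EuclideanSpace ℝ (Fin 2)) 1 := hZK'.trans hKb
  -- the frontier of the support lies in the obstacle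
  have key : frontier Z ⊆ upperSet F ∪ singularSet F := by
    intro x₀ hx₀
    by_contra hcon
    obtain ⟨r, hr, hball0⟩ := Metric.isOpen_iff.1 hUc.isOpen_compl x₀ hcon
    have hx₀Z : x₀ ∈ Z := by
      have := frontier_subset_closure hx₀
      rwa [hZc.isClosed.closure_eq] at this
    have hx₀c : x₀ ∈ closure Zᶜ := by
      have := hx₀
      rw [frontier_eq_closure_inter_closure] at this
      exact this.2
    obtain ⟨a, haZ, hax⟩ := Metric.mem_closure_iff.1 hx₀c (r / 4) (by positivity)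
    obtain ⟨s₀, hs₀, hball⟩ := Metric.isOpen_iff.1 hZc.isClosed.isOpen_compl a haZ
    have hsR : min s₀ (r / 4) < r / 2 := lt_of_le_of_lt (min_le_right _ _) (by linarith)
    have hs : 0 < min s₀ (r / 4) := by positivity
    obtain ⟨φ₁, hφ₁, hφ₁0, hφ₁R, _, hlap0, hlap1⟩ := exists_test a hs hsR
    have hZs : ∀ z ∈ Z, min s₀ (r / 4) ≤ ‖z - a‖ := by
      intro z hz
      by_contra hlt
      push Not at hlt
      have : z ∈ ball a s₀ := by
        rw [mem_ball, dist_eq_norm]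
        exact lt_of_lt_of_le hlt (min_le_left _ _)
      exact hball this hz
    have hx₀a : ‖x₀ - a‖ < r / 2 := by
      rw [dist_eq_norm] at hax
      linarith
    have hmem : lap (-φ₁) ∈ A := by
      refine ⟨-φ₁, Rising.neg_of_support hF.smooth hφ₁ hφ₁0 ?_, rfl⟩
      intro x hx
      have hxr : r ≤ dist x x₀ := by
        by_contra hlt
        push Not at hlt
        exact hball0 (mem_ball.2 hlt) hx
      filter_upwards [ball_mem_nhds x (show 0 < r / 4 by positivity)] with y hy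
      apply hφ₁R
      rw [mem_ball] at hy
      rw [← dist_eq_norm]
      have h1 := dist_triangle x y x₀
      have h2 := dist_triangle y a x₀
      rw [dist_comm] at hy
      have h3 : dist a x₀ < r / 4 := by
        rw [dist_comm]
        exact hax
      linarith
    have h1 := hνA _ hmem
    have hl : lap (-φ₁) = fun x => -lap φ₁ x := by
      have : (-φ₁) = (-1 : ℝ) • φ₁ := by
        funext x
        simp
      rw [this, lap_smul _ hφ₁]
      funext x
      simp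
    have h2 := hZpos (lap φ₁) (continuous_lap hφ₁)
      (fun z hz => hlap0 z (hZs z hz))
      ⟨x₀, hx₀Z, hlap1 x₀ (hZs x₀ hx₀Z) hx₀a⟩
    rw [hl, integral_neg] at h1
    linarith
  have hsub := subset_enclosedBy hZK key hZc.isClosed
  obtain ⟨z₀, hz₀, hmin⟩ := hZc.exists_isMinOn hZne hφ₀.smooth.continuous.continuousOn
  have hcrit : ∀ z ∈ Z, φ₀ z = φ₀ z₀ → fderiv ℝ φ₀ z ≠ 0 := by
    intro z hz hzz h0
    have hzU : z ∉ upperSet F ∪ singularSet F := fun h => hav z h h0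
    have hint : z ∈ interior Z := by
      by_contra hni
      exact hzU (key (by
        rw [hZc.isClosed.frontier_eq]
        exact ⟨hz, hni⟩))
    have hloc : IsLocalMin φ₀ z := by
      filter_upwards [mem_interior_iff_mem_nhds.1 hint] with y hy
      rw [hzz]
      exact hmin hy
    obtain ⟨u, hu⟩ := hneg z (hZK' hz) (hsub hz) h0
    have := noTrap_second hφ₀.smooth hloc u
    linarith
  obtain ⟨c, hc1, hc2⟩ := exists_wfun hφ₀.smooth hZc hz₀ (fun z hz => hmin hz) hcrit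
  have h1 := hνA _ ⟨wfun c φ₀, hφ₀.wfun c, rfl⟩
  have h2 := hZpos (fun x => - lap (wfun c φ₀) x) (continuous_lap (hφ₀.wfun c).smooth).neg
    (fun z hz => by
      have := hc1 z hz
      linarith)
    ⟨z₀, hz₀, by linarith⟩
  rw [integral_neg] at h2
  linarith

end Pool.Agent.Lib_MP_752436_gt
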