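import Pool.Agent.Lib_MP_752436_gt.Disc

/-!
The Gauss curvature of a parametrised surface in `R^3` and the projection of a slice disc.
-/

open MeasureTheory Metric Set
open scoped ContDiff ENNReal Topology

namespace Pool.Agent.Lib_MP_752436_gt

/-- The cross product. -/
def cross (a b : EuclideanSpace ℝ (Fin 3)) : EuclideanSpace ℝ (Fin 3) :=
  !₂[a 1 * b 2 - a 2 * b 1, a 2 * b 0 - a 0 * b 2, a 0 * b 1 - a 1 * b 0]

/-- Partial derivatives of a map from the plane to `R^3`. -/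
noncomputable def pd (f : EuclideanSpace ℝ (Fin 2) → EuclideanSpace ℝ (Fin 3)) (i : Fin 2)
    (x : EuclideanSpace ℝ (Fin 2)) : EuclideanSpace ℝ (Fin 3) :=
  fderiv ℝ f x (EuclideanSpace.single i 1)

/-- The normal vector `f_0 × f_1`; its length is the area element. -/
noncomputable def nvec (f : EuclideanSpace ℝ (Fin 2) → EuclideanSpace ℝ (Fin 3))
    (x : EuclideanSpace ℝ (Fin 2)) : EuclideanSpace ℝ (Fin 3) :=
  cross (pd f 0 x) (pd f 1 x)

/-- `⟨n, f_00⟩ ⟨n, f_11⟩ - ⟨n, f_01⟩²` for `n = f_0 × f_1`. -/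
noncomputable def secDet (f : EuclideanSpace ℝ (Fin 2) → EuclideanSpace ℝ (Fin 3))
    (x : EuclideanSpace ℝ (Fin 2)) : ℝ :=
  inner ℝ (nvec f x) (pd (pd f 0) 0 x) * inner ℝ (nvec f x) (pd (pd f 1) 1 x)
    - inner ℝ (nvec f x) (pd (pd f 1) 0 x) ^ 2

/-- The Gauss curvature of the surface parametrised by `f`. -/
noncomputable def gaussCurvature (f : EuclideanSpace ℝ (Fin 2) → EuclideanSpace ℝ (Fin 3))
    (x : EuclideanSpace ℝ (Fin 2)) : ℝ :=
  secDet f x / ‖nvec f x‖ ^ 4

/-- The total positive curvature: the integral of the positive part of the Gauss curvature with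
respect to the area. -/
noncomputable def totalPosCurvature (f : EuclideanSpace ℝ (Fin 2) → EuclideanSpace ℝ (Fin 3)) :
    ℝ≥0∞ :=
  ∫⁻ x in ball (0 : EuclideanSpace ℝ (Fin 2)) 1,
    ENNReal.ofReal (gaussCurvature f x * ‖nvec f x‖)

/-- The projection of the disc to `R^3`. -/
def projThree (F : EuclideanSpace ℝ (Fin 2) → EuclideanSpace ℝ (Fin 4)) :
    EuclideanSpace ℝ (Fin 2) → EuclideanSpace ℝ (Fin 3) :=
  fun x => !₂[F x 0, F x 1, F x 2]

end Pool.Agent.Lib_MP_752436_gt
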