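import Pool.Agent.Lib_MP_752436_gt.CurvDefs

/-!
Piece C2: the integral over the normal line.
-/

open MeasureTheory Metric Set
open scoped ContDiff ENNReal Topology

namespace Pool.Agent.Lib_MP_752436_gt

private lemma lintegral_half_pos {L : ℝ} (hL : 0 < L) (q : ℝ) (hq : 0 < q) :
    ∫⁻ s in Icc (0 : ℝ) L, ENNReal.ofReal (s ^ 2 * q) = ENNReal.ofReal (q * L ^ 3 / 3) := by
  rw [← ofReal_integral_eq_lintegral_ofReal]
  · congr 1
    rw [integral_Icc_eq_integral_Ioc, ← intervalIntegral.integral_of_le hL.le]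
    rw [intervalIntegral.integral_mul_const, integral_pow]
    norm_num
    ring
  · exact (by fun_prop : Continuous fun s : ℝ => s ^ 2 * q).continuousOn.integrableOn_compact
      isCompact_Icc
  · exact Filter.Eventually.of_forall fun s => by positivity

private lemma lintegral_half_neg {L : ℝ} (hL : 0 < L) (q : ℝ) (hq : 0 < q) :
    ∫⁻ s in Icc (-L) 0, ENNReal.ofReal (s ^ 2 * q) = ENNReal.ofReal (q * L ^ 3 / 3) := by
  rw [← ofReal_integral_eq_lintegral_ofReal]
  · congr 1
    rw [integral_Icc_eq_integral_Ioc, ← intervalIntegral.integral_of_le (by linarith)]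
    rw [intervalIntegral.integral_mul_const, integral_pow]
    norm_num
    ring
  · exact (by fun_prop : Continuous fun s : ℝ => s ^ 2 * q).continuousOn.integrableOn_compact
      isCompact_Icc
  · exact Filter.Eventually.of_forall fun s => by positivity

/-- C2 (file LineInt.lean): the integral over the normal line. -/
theorem line_integral_le {q m a c b : ℝ} (hm : 0 < m) (hq : q = a * c - b ^ 2) :
    ∫⁻ s in {s : ℝ | |s| * m < 1 ∧ 0 ≤ s * a ∧ 0 ≤ s * c ∧ 0 ≤ s ^ 2 * q},
      ENNReal.ofReal (s ^ 2 * |q|) ≤ ENNReal.ofReal (q / m ^ 3 / 3) := by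
  rcases lt_trichotomy q 0 with hq0 | hq0 | hq0
  · -- the set is contained in `{0}`
    have hsub : {s : ℝ | |s| * m < 1 ∧ 0 ≤ s * a ∧ 0 ≤ s * c ∧ 0 ≤ s ^ 2 * q} ⊆ {0} := by
      rintro s ⟨-, -, -, h⟩
      by_contra hs
      have : 0 < s ^ 2 := by
        have : s ≠ 0 := hs
        positivity
      nlinarith
    calc _ ≤ ∫⁻ s in ({0} : Set ℝ), ENNReal.ofReal (s ^ 2 * |q|) := lintegral_mono_set hsub
      _ = 0 := by simp
      _ ≤ _ := zero_le
  · subst hq0
    simp
  · have hac : 0 < a * c := by nlinarith [sq_nonneg b]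
    have hL : 0 < 1 / m := by positivity
    have hval : q / m ^ 3 / 3 = q * (1 / m) ^ 3 / 3 := by
      field_simp
    rw [abs_of_pos hq0, hval]
    rcases lt_or_gt_of_ne (show a ≠ 0 from fun h => by simp [h] at hac) with ha | ha
    · have hc : c < 0 := by
        by_contra hc
        push Not at hc
        nlinarith [mul_nonneg_of_nonpos_of_nonpos ha.le (neg_nonpos.mpr hc)]
      have hsub : {s : ℝ | |s| * m < 1 ∧ 0 ≤ s * a ∧ 0 ≤ s * c ∧ 0 ≤ s ^ 2 * q}
          ⊆ Icc (-(1 / m)) 0 := by
        rintro s ⟨h1, h2, -, -⟩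
        have h3 : |s| < 1 / m := by rwa [lt_div_iff₀ hm]
        have h4 := (abs_lt.mp h3).1
        refine ⟨h4.le, ?_⟩
        by_contra hs
        push Not at hs
        nlinarith
      exact (lintegral_mono_set hsub).trans (lintegral_half_neg hL q hq0).le
    · have hsub : {s : ℝ | |s| * m < 1 ∧ 0 ≤ s * a ∧ 0 ≤ s * c ∧ 0 ≤ s ^ 2 * q}
          ⊆ Icc 0 (1 / m) := by
        rintro s ⟨h1, h2, -, -⟩
        have h3 : |s| < 1 / m := by rwa [lt_div_iff₀ hm]
        have h4 := (abs_lt.mp h3).2
        refine ⟨?_, h4.le⟩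
        by_contra hs
        push Not at hs
        nlinarith
      exact (lintegral_mono_set hsub).trans (lintegral_half_pos hL q hq0).le

end Pool.Agent.Lib_MP_752436_gt
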