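import Pool.Agent.Lib_MP_752436_gt.GaussJac
import Pool.Agent.Lib_MP_752436_gt.LineInt
import Pool.Agent.Lib_MP_752436_gt.SplitThree
import Pool.Agent.Lib_MP_752436_gt.BallThree
import Pool.Agent.Lib_MP_752436_gt.CrossLem
import Pool.Agent.Lib_MP_752436_gt.Main

/-!
Slice discs whose projection to `R^3` has total positive curvature smaller than `4π` are ribbon.
-/

open MeasureTheory Metric Set
open scoped ContDiff ENNReal Topology

namespace Pool.Agent.Lib_MP_752436_gt

/-- The linear projection from `R^4` to `R^3`. -/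
noncomputable def P3 : EuclideanSpace ℝ (Fin 4) →L[ℝ] EuclideanSpace ℝ (Fin 3) :=
  LinearMap.toContinuousLinearMap
    { toFun := fun q => !₂[q 0, q 1, q 2]
      map_add' := fun p q => by ext i; fin_cases i <;> simp
      map_smul' := fun c q => by ext i; fin_cases i <;> simp }

theorem P3_apply (q : EuclideanSpace ℝ (Fin 4)) : P3 q = !₂[q 0, q 1, q 2] := rfl

theorem projThree_eq (F : EuclideanSpace ℝ (Fin 2) → EuclideanSpace ℝ (Fin 4)) :
    projThree F = fun x => P3 (F x) := rfl

/-- The horizontal lift of a vector of `R^3`. -/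
noncomputable def lift3 (v : EuclideanSpace ℝ (Fin 3)) : EuclideanSpace ℝ (Fin 4) :=
  !₂[v 0, v 1, v 2, 0]

theorem inner_lift3 (v : EuclideanSpace ℝ (Fin 3)) (q : EuclideanSpace ℝ (Fin 4)) :
    (inner ℝ (lift3 v) q : ℝ) = inner ℝ v (P3 q) := by
  simp [lift3, P3_apply, PiLp.inner_apply, Fin.sum_univ_four, Fin.sum_univ_three]

section

variable {F : EuclideanSpace ℝ (Fin 2) → EuclideanSpace ℝ (Fin 4)}

theorem contDiff_projThree (hF : ContDiff ℝ ∞ F) : ContDiff ℝ ∞ (projThree F) :=
  P3.contDiff.comp hF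

theorem fderiv_projThree (hF : ContDiff ℝ ∞ F) (x u : EuclideanSpace ℝ (Fin 2)) :
    fderiv ℝ (projThree F) x u = P3 (fderiv ℝ F x u) := by
  have h1 : HasFDerivAt F (fderiv ℝ F x) x := ((hF.differentiable (by simp)) x).hasFDerivAt
  have h2 : fderiv ℝ (projThree F) x = P3.comp (fderiv ℝ F x) :=
    (P3.hasFDerivAt.comp x h1).fderiv
  rw [h2]
  rfl

theorem pd_projThree (hF : ContDiff ℝ ∞ F) (i : Fin 2) :
    pd (projThree F) i = fun x => P3 (d1 F i x) := by
  funext x
  exact fderiv_projThree hF x _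

theorem contDiff_d1 (hF : ContDiff ℝ ∞ F) (i : Fin 2) : ContDiff ℝ ∞ (d1 F i) :=
  (hF.fderiv_right (m := ∞) (by simp)).clm_apply contDiff_const

theorem pd_pd_projThree (hF : ContDiff ℝ ∞ F) (i j : Fin 2) (x : EuclideanSpace ℝ (Fin 2)) :
    pd (pd (projThree F) j) i x = P3 (d2 F i j x) := by
  rw [pd_projThree hF j]
  have h := fderiv_projThree (contDiff_d1 hF j) x (EuclideanSpace.single i 1)
  rw [← d1_d1 hF]
  exact h

end

section

variable {f : EuclideanSpace ℝ (Fin 2) → EuclideanSpace ℝ (Fin 3)}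

theorem contDiff_pd (hf : ContDiff ℝ ∞ f) (i : Fin 2) : ContDiff ℝ ∞ (pd f i) :=
  (hf.fderiv_right (m := ∞) (by simp)).clm_apply contDiff_const

theorem continuous_cross {α : Type*} [TopologicalSpace α] {a b : α → EuclideanSpace ℝ (Fin 3)}
    (ha : Continuous a) (hb : Continuous b) : Continuous (fun x => cross (a x) (b x)) := by
  unfold cross
  apply (PiLp.continuous_toLp 2 (fun _ : Fin 3 => ℝ)).comp
  apply continuous_pi
  intro i
  fin_cases i <;> simp <;> fun_prop

theorem continuous_nvec (hf : ContDiff ℝ ∞ f) : Continuous (nvec f) :=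
  continuous_cross (contDiff_pd hf 0).continuous (contDiff_pd hf 1).continuous

theorem continuous_secDet (hf : ContDiff ℝ ∞ f) : Continuous (secDet f) := by
  have h0 := continuous_nvec hf
  have h1 := (contDiff_pd (contDiff_pd hf 0) 0).continuous
  have h2 := (contDiff_pd (contDiff_pd hf 1) 1).continuous
  have h3 := (contDiff_pd (contDiff_pd hf 1) 0).continuous
  unfold secDet
  fun_prop

end

/-- The parameters on the normal lines. -/
def lineParam (f : EuclideanSpace ℝ (Fin 2) → EuclideanSpace ℝ (Fin 3))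
    (x : EuclideanSpace ℝ (Fin 2)) : Set ℝ :=
  {s : ℝ | |s| * ‖nvec f x‖ < 1 ∧ 0 ≤ s * inner ℝ (nvec f x) (pd (pd f 0) 0 x) ∧
    0 ≤ s * inner ℝ (nvec f x) (pd (pd f 1) 1 x) ∧ 0 ≤ s ^ 2 * secDet f x}

/-- The set of good base points. -/
def goodBase (f : EuclideanSpace ℝ (Fin 2) → EuclideanSpace ℝ (Fin 3)) :
    Set (EuclideanSpace ℝ (Fin 2)) :=
  {x | x ∈ closedBall (0 : EuclideanSpace ℝ (Fin 2)) 1 ∧ nvec f x ≠ 0}

/-- The integrand on `R^2 x R`. -/
noncomputable def gint (f : EuclideanSpace ℝ (Fin 2) → EuclideanSpace ℝ (Fin 3))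
    (x : EuclideanSpace ℝ (Fin 2)) (s : ℝ) : ℝ≥0∞ :=
  {p : EuclideanSpace ℝ (Fin 2) × ℝ | p.1 ∈ goodBase f ∧ p.2 ∈ lineParam f p.1}.indicator
    (fun p => ENNReal.ofReal (p.2 ^ 2 * |secDet f p.1|)) (x, s)

section

variable {f : EuclideanSpace ℝ (Fin 2) → EuclideanSpace ℝ (Fin 3)}

theorem measurableSet_goodBase (hf : ContDiff ℝ ∞ f) : MeasurableSet (goodBase f) := by
  have h1 : MeasurableSet {x | nvec f x ≠ 0} :=
    ((continuous_nvec hf).measurable (measurableSet_singleton _)).compl
  exact measurableSet_closedBall.inter h1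

theorem measurableSet_param (hf : ContDiff ℝ ∞ f) :
    MeasurableSet {p : EuclideanSpace ℝ (Fin 2) × ℝ | p.1 ∈ goodBase f ∧ p.2 ∈ lineParam f p.1} := by
  have h0 := continuous_nvec hf
  have h1 := (contDiff_pd (contDiff_pd hf 0) 0).continuous
  have h2 := (contDiff_pd (contDiff_pd hf 1) 1).continuous
  have h3 := continuous_secDet hf
  have m0 : MeasurableSet {p : EuclideanSpace ℝ (Fin 2) × ℝ | p.1 ∈ goodBase f} :=
    measurable_fst (measurableSet_goodBase hf)
  have c1 : Continuous (fun p : EuclideanSpace ℝ (Fin 2) × ℝ => |p.2| * ‖nvec f p.1‖) := by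
    fun_prop
  have c2 : Continuous (fun p : EuclideanSpace ℝ (Fin 2) × ℝ =>
      p.2 * (inner ℝ (nvec f p.1) (pd (pd f 0) 0 p.1) : ℝ)) := by
    fun_prop
  have c3 : Continuous (fun p : EuclideanSpace ℝ (Fin 2) × ℝ =>
      p.2 * (inner ℝ (nvec f p.1) (pd (pd f 1) 1 p.1) : ℝ)) := by
    fun_prop
  have c4 : Continuous (fun p : EuclideanSpace ℝ (Fin 2) × ℝ => p.2 ^ 2 * secDet f p.1) := by
    fun_prop
  have m1 : MeasurableSet {p : EuclideanSpace ℝ (Fin 2) × ℝ | |p.2| * ‖nvec f p.1‖ < 1} :=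
    measurableSet_lt c1.measurable measurable_const
  have m2 : MeasurableSet {p : EuclideanSpace ℝ (Fin 2) × ℝ |
      0 ≤ p.2 * (inner ℝ (nvec f p.1) (pd (pd f 0) 0 p.1) : ℝ)} :=
    measurableSet_le measurable_const c2.measurable
  have m3 : MeasurableSet {p : EuclideanSpace ℝ (Fin 2) × ℝ |
      0 ≤ p.2 * (inner ℝ (nvec f p.1) (pd (pd f 1) 1 p.1) : ℝ)} :=
    measurableSet_le measurable_const c3.measurable
  have m4 : MeasurableSet {p : EuclideanSpace ℝ (Fin 2) × ℝ | 0 ≤ p.2 ^ 2 * secDet f p.1} :=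
    measurableSet_le measurable_const c4.measurable
  exact m0.inter (m1.inter (m2.inter (m3.inter m4)))

theorem measurable_gint (hf : ContDiff ℝ ∞ f) : Measurable (Function.uncurry (gint f)) := by
  have h3 := continuous_secDet hf
  have c4 : Continuous (fun p : EuclideanSpace ℝ (Fin 2) × ℝ => p.2 ^ 2 * |secDet f p.1|) := by
    fun_prop
  have : Function.uncurry (gint f) = {p : EuclideanSpace ℝ (Fin 2) × ℝ |
      p.1 ∈ goodBase f ∧ p.2 ∈ lineParam f p.1}.indicator
      (fun p => ENNReal.ofReal (p.2 ^ 2 * |secDet f p.1|)) := by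
    funext p
    rfl
  rw [this]
  exact Measurable.indicator c4.measurable.ennreal_ofReal (measurableSet_param hf)

/-- The inner integral over the normal line. -/
theorem lintegral_gint_le (x : EuclideanSpace ℝ (Fin 2)) (hx : x ∈ goodBase f)
    (hm : MeasurableSet (lineParam f x)) :
    ∫⁻ s, gint f x s ≤ ENNReal.ofReal (gaussCurvature f x * ‖nvec f x‖ / 3) := by
  have hn : 0 < ‖nvec f x‖ := norm_pos_iff.2 hx.2
  have h1 : ∫⁻ s, gint f x s = ∫⁻ s in lineParam f x, ENNReal.ofReal (s ^ 2 * |secDet f x|) := by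
    rw [← lintegral_indicator hm]
    apply lintegral_congr
    intro s
    unfold gint
    by_cases hs : s ∈ lineParam f x
    · have e1 : (x, s) ∈ {p : EuclideanSpace ℝ (Fin 2) × ℝ |
          p.1 ∈ goodBase f ∧ p.2 ∈ lineParam f p.1} := ⟨hx, hs⟩
      rw [indicator_of_mem e1, indicator_of_mem hs]
    · have e1 : (x, s) ∉ {p : EuclideanSpace ℝ (Fin 2) × ℝ |
          p.1 ∈ goodBase f ∧ p.2 ∈ lineParam f p.1} := fun h => hs h.2
      rw [indicator_of_notMem e1, indicator_of_notMem hs]
  rw [h1]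
  have h2 := line_integral_le (q := secDet f x) (m := ‖nvec f x‖)
    (a := inner ℝ (nvec f x) (pd (pd f 0) 0 x)) (c := inner ℝ (nvec f x) (pd (pd f 1) 1 x))
    (b := inner ℝ (nvec f x) (pd (pd f 1) 0 x)) hn rfl
  refine le_trans h2 (le_of_eq ?_)
  congr 1
  unfold gaussCurvature
  field_simp

theorem measurableSet_lineParam (x : EuclideanSpace ℝ (Fin 2)) :
    MeasurableSet (lineParam f x) := by
  have c1 : Continuous (fun s : ℝ => |s| * ‖nvec f x‖) := by fun_prop
  have c2 : Continuous (fun s : ℝ => s * (inner ℝ (nvec f x) (pd (pd f 0) 0 x) : ℝ)) := by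
    fun_prop
  have c3 : Continuous (fun s : ℝ => s * (inner ℝ (nvec f x) (pd (pd f 1) 1 x) : ℝ)) := by
    fun_prop
  have c4 : Continuous (fun s : ℝ => s ^ 2 * secDet f x) := by fun_prop
  have m1 : MeasurableSet {s : ℝ | |s| * ‖nvec f x‖ < 1} :=
    measurableSet_lt c1.measurable measurable_const
  have m2 : MeasurableSet {s : ℝ | 0 ≤ s * (inner ℝ (nvec f x) (pd (pd f 0) 0 x) : ℝ)} :=
    measurableSet_le measurable_const c2.measurable
  have m3 : MeasurableSet {s : ℝ | 0 ≤ s * (inner ℝ (nvec f x) (pd (pd f 1) 1 x) : ℝ)} :=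
    measurableSet_le measurable_const c3.measurable
  have m4 : MeasurableSet {s : ℝ | 0 ≤ s ^ 2 * secDet f x} :=
    measurableSet_le measurable_const c4.measurable
  exact m1.inter (m2.inter (m3.inter m4))

/-- The set of parameters in `R^3`. -/
def paramThree (f : EuclideanSpace ℝ (Fin 2) → EuclideanSpace ℝ (Fin 3)) :
    Set (EuclideanSpace ℝ (Fin 3)) :=
  {z | (!₂[z 0, z 1] : EuclideanSpace ℝ (Fin 2)) ∈ goodBase f ∧ z 2 ∈ lineParam f !₂[z 0, z 1]}

theorem measurableSet_paramThree (hf : ContDiff ℝ ∞ f) : MeasurableSet (paramThree f) := by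
  have hx : Measurable (fun z : EuclideanSpace ℝ (Fin 3) =>
      ((!₂[z 0, z 1] : EuclideanSpace ℝ (Fin 2)), z 2)) :=
    (measurable_mk2 (by fun_prop) (by fun_prop)).prodMk (by fun_prop)
  exact hx (measurableSet_param hf)

/-- The area inequality for the Gauss map. -/
theorem volume_image_param_le (hf : ContDiff ℝ ∞ f) :
    volume ((fun z : EuclideanSpace ℝ (Fin 3) => z 2 • nvec f !₂[z 0, z 1]) '' paramThree f)
      ≤ ENNReal.ofReal (1 / 3) * totalPosCurvature f := by
  have hS := measurableSet_paramThree hf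
  calc volume ((fun z : EuclideanSpace ℝ (Fin 3) => z 2 • nvec f !₂[z 0, z 1]) '' paramThree f)
      ≤ ∫⁻ z in paramThree f, ENNReal.ofReal |(fderiv ℝ (fun z : EuclideanSpace ℝ (Fin 3) =>
        z 2 • nvec f !₂[z 0, z 1]) z).det| :=
        addHaar_image_le_lintegral_abs_det_fderiv volume hS (fun z _ =>
          ((gauss_jac hf z).1.hasFDerivAt).hasFDerivWithinAt)
    _ = ∫⁻ z : EuclideanSpace ℝ (Fin 3) in paramThree f, gint f !₂[z 0, z 1] (z 2) := by
        apply setLIntegral_congr_fun hS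
        intro z hz
        have e1 : ((!₂[z 0, z 1] : EuclideanSpace ℝ (Fin 2)), z 2) ∈
            {p : EuclideanSpace ℝ (Fin 2) × ℝ |
              p.1 ∈ goodBase f ∧ p.2 ∈ lineParam f p.1} := hz
        show ENNReal.ofReal |(fderiv ℝ (fun z : EuclideanSpace ℝ (Fin 3) =>
          z 2 • nvec f !₂[z 0, z 1]) z).det| = gint f !₂[z 0, z 1] (z 2)
        rw [(gauss_jac hf z).2, gint, indicator_of_mem e1]
    _ ≤ ∫⁻ z : EuclideanSpace ℝ (Fin 3), gint f !₂[z 0, z 1] (z 2) :=
        setLIntegral_le_lintegral _ _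
    _ = ∫⁻ x, ∫⁻ s, gint f x s := lintegral_split_three (measurable_gint hf)
    _ = ∫⁻ x in goodBase f, ∫⁻ s, gint f x s := by
        rw [← lintegral_indicator (measurableSet_goodBase hf)]
        apply lintegral_congr
        intro x
        by_cases hx : x ∈ goodBase f
        · rw [indicator_of_mem hx]
        · rw [indicator_of_notMem hx]
          have : ∀ s, gint f x s = 0 := by
            intro s
            unfold gint
            apply indicator_of_notMem
            rintro ⟨h, _⟩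
            exact hx h
          simp [this]
    _ ≤ ∫⁻ x in goodBase f, ENNReal.ofReal (gaussCurvature f x * ‖nvec f x‖ / 3) := by
        apply setLIntegral_mono' (measurableSet_goodBase hf)
        intro x hx
        exact lintegral_gint_le x hx (measurableSet_lineParam x)
    _ ≤ ∫⁻ x in closedBall (0 : EuclideanSpace ℝ (Fin 2)) 1,
          ENNReal.ofReal (gaussCurvature f x * ‖nvec f x‖ / 3) :=
        lintegral_mono_set (fun x hx => hx.1)
    _ = ∫⁻ x in ball (0 : EuclideanSpace ℝ (Fin 2)) 1,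
          ENNReal.ofReal (gaussCurvature f x * ‖nvec f x‖ / 3) := by
        apply setLIntegral_congr
        have h1 : closedBall (0 : EuclideanSpace ℝ (Fin 2)) 1
            = ball (0 : EuclideanSpace ℝ (Fin 2)) 1 ∪ sphere 0 1 := ball_union_sphere.symm
        rw [h1]
        have h2 : volume (sphere (0 : EuclideanSpace ℝ (Fin 2)) 1) = 0 :=
          Measure.addHaar_sphere _ _ _
        exact union_ae_eq_left_of_ae_eq_empty (ae_eq_empty.2 h2)
    _ = ENNReal.ofReal (1 / 3) * totalPosCurvature f := by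
        unfold totalPosCurvature
        rw [← lintegral_const_mul' _ _ ENNReal.ofReal_ne_top]
        apply lintegral_congr
        intro x
        rw [← ENNReal.ofReal_mul (by norm_num)]
        congr 1
        ring

end

/-- At a point of the disc some projected partial derivative does not vanish. -/
theorem exists_pd_ne_zero {F : EuclideanSpace ℝ (Fin 2) → EuclideanSpace ℝ (Fin 4)}
    (hF : IsSliceDisc F) {x : EuclideanSpace ℝ (Fin 2)}
    (hx : x ∈ closedBall (0 : EuclideanSpace ℝ (Fin 2)) 1) :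
    ∃ i, pd (projThree F) i x ≠ 0 := by
  by_contra hcon
  push Not at hcon
  have hg := gdet_pos (hF.immersion x hx)
  have h : ∀ i, ∀ j, j ≠ 3 → d1 F i x j = 0 := by
    intro i j hj
    have h1 := hcon i
    rw [pd_projThree hF.smooth] at h1
    simp only [P3_apply] at h1
    have h2 : ∀ k : Fin 3, (!₂[d1 F i x 0, d1 F i x 1, d1 F i x 2] : EuclideanSpace ℝ (Fin 3)) k
        = 0 := by
      intro k
      rw [h1]
      rfl
    fin_cases j
    · exact h2 0
    · exact h2 1
    · exact h2 2
    · exact absurd rfl hj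
  have h0 : gdet F x = 0 := by
    unfold gdet gm
    simp only [PiLp.inner_apply, Fin.sum_univ_four, h 0 0 (by decide), h 0 1 (by decide),
      h 0 2 (by decide), h 1 0 (by decide), h 1 1 (by decide), h 1 2 (by decide)]
    simp
    ring
  exact hg.ne' h0

/-- Slice discs whose projection to `R^3` is an immersion off a countable set and has total
positive curvature smaller than `4π` are ribbon. -/
theorem curvature_gap {F : EuclideanSpace ℝ (Fin 2) → EuclideanSpace ℝ (Fin 4)}
    (hF : IsSliceDisc F)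
    (hc : {x | x ∈ closedBall (0 : EuclideanSpace ℝ (Fin 2)) 1 ∧
      nvec (projThree F) x = 0}.Countable)
    (hK : totalPosCurvature (projThree F) < ENNReal.ofReal (4 * Real.pi)) :
    ∃ G, IsRibbonDisc G ∧ (∀ x, ∀ i, i ≠ 3 → G x i = F x i) ∧
      ∀ s ∈ Icc (0 : ℝ) 1, IsSliceDisc (fun x => (1 - s) • F x + s • G x) := by
  by_contra hno
  have hf := contDiff_projThree hF.smooth
  set f := projThree F with hfdef
  set C : Set (EuclideanSpace ℝ (Fin 2)) :=
    {x | x ∈ closedBall (0 : EuclideanSpace ℝ (Fin 2)) 1 ∧ nvec f x = 0} with hC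
  -- every direction is bad
  have hbad : ∀ v : EuclideanSpace ℝ (Fin 3), lift3 v ∈ badSet F (closedBall 0 1) := by
    intro v
    by_contra hv
    exact hno (ribbon_of_good_direction hF (v := lift3 v) (le_of_eq rfl) hv)
  set N : Set (EuclideanSpace ℝ (Fin 3)) :=
    ⋃ x ∈ C, {v | ∃ i, pd f i x ≠ 0 ∧ (inner ℝ v (pd f i x) : ℝ) = 0} with hN
  have hN0 : volume N = 0 := by
    rw [hN, measure_biUnion_null_iff hc]
    intro x _
    have : {v : EuclideanSpace ℝ (Fin 3) | ∃ i, pd f i x ≠ 0 ∧ (inner ℝ v (pd f i x) : ℝ) = 0}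
        ⊆ ⋃ i : Fin 2, {v | pd f i x ≠ 0 ∧ (inner ℝ v (pd f i x) : ℝ) = 0} := by
      rintro v ⟨i, hi⟩
      exact mem_iUnion.2 ⟨i, hi⟩
    refine measure_mono_null this (measure_iUnion_null fun i => ?_)
    by_cases h0 : pd f i x = 0
    · have : {v : EuclideanSpace ℝ (Fin 3) | pd f i x ≠ 0 ∧ (inner ℝ v (pd f i x) : ℝ) = 0}
          = ∅ := by
        ext v
        simp [h0]
      rw [this]
      simp
    · exact measure_mono_null (fun v hv => hv.2) (volume_orthogonal_eq_zero h0)
  have hsub : ball (0 : EuclideanSpace ℝ (Fin 3)) 1 ⊆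
      (fun z : EuclideanSpace ℝ (Fin 3) => z 2 • nvec f !₂[z 0, z 1]) '' paramThree f ∪ N := by
    intro v hv
    have hv1 : ‖v‖ < 1 := by simpa using hv
    obtain ⟨x, hx, hperp, hpsd⟩ := hbad v
    have hpd : ∀ i, (inner ℝ v (pd f i x) : ℝ) = 0 := by
      intro i
      have := hperp (EuclideanSpace.single i 1)
      rw [inner_lift3] at this
      rw [hfdef, pd_projThree hF.smooth]
      exact this
    by_cases hn : nvec f x = 0
    · right
      obtain ⟨i, hi⟩ := exists_pd_ne_zero hF hx
      exact mem_iUnion₂.2 ⟨x, ⟨hx, hn⟩, i, hi, hpd i⟩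
    · left
      obtain ⟨s, hs⟩ := exists_smul_cross hn (hpd 0) (hpd 1)
      have hs' : v = s • nvec f x := hs
      obtain ⟨_, hdet, _⟩ := det_qf_le hF.smooth (gdet_pos (hF.immersion x hx)) hperp hpsd
      have hq : ∀ i j, qf F i j x (lift3 v) = s * inner ℝ (nvec f x) (pd (pd f j) i x) := by
        intro i j
        unfold qf
        rw [inner_lift3, ← pd_pd_projThree hF.smooth, ← hfdef, hs', real_inner_smul_left]
      have hx0 : (!₂[(!₂[x 0, x 1, s] : EuclideanSpace ℝ (Fin 3)) 0,
          (!₂[x 0, x 1, s] : EuclideanSpace ℝ (Fin 3)) 1] : EuclideanSpace ℝ (Fin 2)) = x := by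
        ext i; fin_cases i <;> rfl
      have hx2 : (!₂[x 0, x 1, s] : EuclideanSpace ℝ (Fin 3)) 2 = s := rfl
      refine ⟨!₂[x 0, x 1, s], ?_, ?_⟩
      · have hgood : x ∈ goodBase f := ⟨hx, hn⟩
        have hline : s ∈ lineParam f x := by
          refine ⟨?_, ?_, ?_, ?_⟩
          · rw [hs', norm_smul, Real.norm_eq_abs] at hv1
            exact hv1
          · rw [← hq]
            unfold qf d2
            exact hpsd _
          · rw [← hq]
            unfold qf d2
            exact hpsd _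
          · rw [hq, hq, hq] at hdet
            unfold secDet
            nlinarith
        unfold paramThree
        rw [mem_ofPred_eq]
        have key : ∀ (y : EuclideanSpace ℝ (Fin 2)) (t : ℝ), y = x → t = s →
            y ∈ goodBase f ∧ t ∈ lineParam f y := by
          rintro y t rfl rfl
          exact ⟨hgood, hline⟩
        exact key _ _ hx0 hx2
      · have key : ∀ (y : EuclideanSpace ℝ (Fin 2)) (t : ℝ), y = x → t = s →
            t • nvec f y = v := by
          rintro y t rfl rfl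
          exact hs'.symm
        exact key _ _ hx0 hx2
  have h1 : ENNReal.ofReal (4 * Real.pi / 3) ≤ ENNReal.ofReal (1 / 3) * totalPosCurvature f := by
    rw [← volume_ball_three]
    calc volume (ball (0 : EuclideanSpace ℝ (Fin 3)) 1)
        ≤ volume ((fun z : EuclideanSpace ℝ (Fin 3) => z 2 • nvec f !₂[z 0, z 1]) ''
          paramThree f ∪ N) := measure_mono hsub
      _ ≤ volume ((fun z : EuclideanSpace ℝ (Fin 3) => z 2 • nvec f !₂[z 0, z 1]) ''
          paramThree f) + volume N := measure_union_le _ _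
      _ ≤ ENNReal.ofReal (1 / 3) * totalPosCurvature f := by
          rw [hN0, add_zero]
          exact volume_image_param_le hf
  have h2 : ENNReal.ofReal (1 / 3) * totalPosCurvature f
      < ENNReal.ofReal (1 / 3) * ENNReal.ofReal (4 * Real.pi) := by
    have e0 : ENNReal.ofReal (1 / 3) ≠ 0 := by
      simp
    exact (ENNReal.mul_lt_mul_iff_right e0 ENNReal.ofReal_ne_top).2 hK
  rw [← ENNReal.ofReal_mul (by norm_num)] at h2
  have h3 : (1 / 3 : ℝ) * (4 * Real.pi) = 4 * Real.pi / 3 := by ring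
  rw [h3] at h2
  exact absurd h1 (not_le.2 h2)

end Pool.Agent.Lib_MP_752436_gt
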