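import Pool.Agent.Lib_MP_752436_gt.TrapDefs
import Pool.Agent.Lib_MP_752436_gt.CurvDefs

/-!
The part of a slice disc which is enclosed by its upper double points.
-/

open MeasureTheory Metric Set
open scoped ContDiff ENNReal

namespace Pool.Agent.Lib_MP_752436_gt

/-- The upper double points of a slice disc: the points which lie above another point of the
disc. -/
def upperSet (F : EuclideanSpace ℝ (Fin 2) → EuclideanSpace ℝ (Fin 4)) :
    Set (EuclideanSpace ℝ (Fin 2)) :=
  {x | x ∈ closedBall (0 : EuclideanSpace ℝ (Fin 2)) 1 ∧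
    ∃ y ∈ closedBall (0 : EuclideanSpace ℝ (Fin 2)) 1, Above F x y}

/-- The part of the disc enclosed by the upper double points: the points which cannot be joined
to the unit circle by a path in the closed disc which avoids the upper double points. -/
def enclosedSet (F : EuclideanSpace ℝ (Fin 2) → EuclideanSpace ℝ (Fin 4)) :
    Set (EuclideanSpace ℝ (Fin 2)) :=
  {x | x ∈ closedBall (0 : EuclideanSpace ℝ (Fin 2)) 1 ∧
    ∀ y ∈ sphere (0 : EuclideanSpace ℝ (Fin 2)) 1,
      ¬ JoinedIn (closedBall (0 : EuclideanSpace ℝ (Fin 2)) 1 \ upperSet F) x y}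

/-- The total positive curvature of the part `s` of a surface parametrised by `f`. -/
noncomputable def posCurvatureOn (f : EuclideanSpace ℝ (Fin 2) → EuclideanSpace ℝ (Fin 3))
    (s : Set (EuclideanSpace ℝ (Fin 2))) : ℝ≥0∞ :=
  ∫⁻ x in s, ENNReal.ofReal (gaussCurvature f x * ‖nvec f x‖)

end Pool.Agent.Lib_MP_752436_gt
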