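import Pool.Agent.Lib_MP_752436_gt.CurvMain
import Pool.Agent.Lib_MP_752436_gt.Degen
import Pool.Agent.Lib_MP_752436_gt.EnclosedDefs

open MeasureTheory Metric Set
open scoped ContDiff ENNReal Topology

namespace Pool.Agent.Lib_MP_752436_gt

section

variable {f : EuclideanSpace ℝ (Fin 2) → EuclideanSpace ℝ (Fin 3)}

/-- The set of parameters over `O`. -/
def paramOn (f : EuclideanSpace ℝ (Fin 2) → EuclideanSpace ℝ (Fin 3))
    (O : Set (EuclideanSpace ℝ (Fin 2))) : Set (EuclideanSpace ℝ (Fin 3)) :=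
  {z | (!₂[z 0, z 1] : EuclideanSpace ℝ (Fin 2)) ∈ O ∧ z ∈ paramThree f}

/-- The area inequality for the Gauss map over `O`. -/
theorem volume_image_paramOn_le (hf : ContDiff ℝ ∞ f) {O : Set (EuclideanSpace ℝ (Fin 2))}
    (hO : MeasurableSet O) :
    volume ((fun z : EuclideanSpace ℝ (Fin 3) => z 2 • nvec f !₂[z 0, z 1]) '' paramOn f O)
      ≤ ENNReal.ofReal (1 / 3) * posCurvatureOn f O := by
  have hx : Measurable (fun z : EuclideanSpace ℝ (Fin 3) =>
      (!₂[z 0, z 1] : EuclideanSpace ℝ (Fin 2))) :=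
    measurable_mk2 (by fun_prop) (by fun_prop)
  have hS : MeasurableSet (paramOn f O) := (hx hO).inter (measurableSet_paramThree hf)
  set g : EuclideanSpace ℝ (Fin 2) → ℝ → ℝ≥0∞ := fun x s =>
    {p : EuclideanSpace ℝ (Fin 2) × ℝ | p.1 ∈ O}.indicator
      (Function.uncurry (gint f)) (x, s) with hg
  have hgm : Measurable (Function.uncurry g) := by
    have : Function.uncurry g = {p : EuclideanSpace ℝ (Fin 2) × ℝ | p.1 ∈ O}.indicator
        (Function.uncurry (gint f)) := by
      funext p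
      rfl
    rw [this]
    exact (measurable_gint hf).indicator (measurable_fst hO)
  calc volume ((fun z : EuclideanSpace ℝ (Fin 3) => z 2 • nvec f !₂[z 0, z 1]) '' paramOn f O)
      ≤ ∫⁻ z in paramOn f O, ENNReal.ofReal |(fderiv ℝ (fun z : EuclideanSpace ℝ (Fin 3) =>
        z 2 • nvec f !₂[z 0, z 1]) z).det| :=
        addHaar_image_le_lintegral_abs_det_fderiv volume hS (fun z _ =>
          ((gauss_jac hf z).1.hasFDerivAt).hasFDerivWithinAt)
    _ = ∫⁻ z : EuclideanSpace ℝ (Fin 3) in paramOn f O, g !₂[z 0, z 1] (z 2) := by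
        apply setLIntegral_congr_fun hS
        intro z hz
        have e1 : ((!₂[z 0, z 1] : EuclideanSpace ℝ (Fin 2)), z 2) ∈
            {p : EuclideanSpace ℝ (Fin 2) × ℝ |
              p.1 ∈ goodBase f ∧ p.2 ∈ lineParam f p.1} := hz.2
        have e2 : ((!₂[z 0, z 1] : EuclideanSpace ℝ (Fin 2)), z 2) ∈
            {p : EuclideanSpace ℝ (Fin 2) × ℝ | p.1 ∈ O} := hz.1
        show ENNReal.ofReal |(fderiv ℝ (fun z : EuclideanSpace ℝ (Fin 3) =>
          z 2 • nvec f !₂[z 0, z 1]) z).det| = g !₂[z 0, z 1] (z 2)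
        rw [(gauss_jac hf z).2, hg]
        simp only []
        rw [indicator_of_mem e2]
        show _ = gint f !₂[z 0, z 1] (z 2)
        rw [gint, indicator_of_mem e1]
    _ ≤ ∫⁻ z : EuclideanSpace ℝ (Fin 3), g !₂[z 0, z 1] (z 2) :=
        setLIntegral_le_lintegral _ _
    _ = ∫⁻ x, ∫⁻ s, g x s := lintegral_split_three hgm
    _ = ∫⁻ x in O, ∫⁻ s, gint f x s := by
        rw [← lintegral_indicator hO]
        apply lintegral_congr
        intro x
        by_cases hx : x ∈ O
        · rw [indicator_of_mem hx]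
          apply lintegral_congr
          intro s
          have e2 : (x, s) ∈ {p : EuclideanSpace ℝ (Fin 2) × ℝ | p.1 ∈ O} := hx
          show {p : EuclideanSpace ℝ (Fin 2) × ℝ | p.1 ∈ O}.indicator
            (Function.uncurry (gint f)) (x, s) = _
          rw [indicator_of_mem e2]
          rfl
        · rw [indicator_of_notMem hx]
          have : ∀ s, g x s = 0 := by
            intro s
            have e2 : (x, s) ∉ {p : EuclideanSpace ℝ (Fin 2) × ℝ | p.1 ∈ O} := hx
            show {p : EuclideanSpace ℝ (Fin 2) × ℝ | p.1 ∈ O}.indicator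
              (Function.uncurry (gint f)) (x, s) = 0
            rw [indicator_of_notMem e2]
          simp [this]
    _ ≤ ∫⁻ x in O, ENNReal.ofReal (gaussCurvature f x * ‖nvec f x‖ / 3) := by
        apply setLIntegral_mono' hO
        intro x hx
        by_cases hxg : x ∈ goodBase f
        · exact lintegral_gint_le x hxg (measurableSet_lineParam x)
        · have : ∀ s, gint f x s = 0 := by
            intro s
            unfold gint
            apply indicator_of_notMem
            rintro ⟨h, _⟩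
            exact hxg h
          simp [this]
    _ = ENNReal.ofReal (1 / 3) * posCurvatureOn f O := by
        unfold posCurvatureOn
        rw [← lintegral_const_mul' _ _ ENNReal.ofReal_ne_top]
        apply lintegral_congr
        intro x
        rw [← ENNReal.ofReal_mul (by norm_num)]
        congr 1
        ring

end

/-- H1 (file CurvOn.lean) -/
theorem badSet_lift_le {F : EuclideanSpace ℝ (Fin 2) → EuclideanSpace ℝ (Fin 4)}
    (hF : IsSliceDisc F) {O : Set (EuclideanSpace ℝ (Fin 2))} (hO : MeasurableSet O)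
    (hOb : O ⊆ closedBall 0 1) :
    volume ({v : EuclideanSpace ℝ (Fin 3) |
        ∃ x ∈ O, nvec (projThree F) x ≠ 0 ∧ lift3 v ∈ badSet F {x}} ∩ ball 0 1)
      ≤ ENNReal.ofReal (1 / 3) * posCurvatureOn (projThree F) O := by
  have hf := contDiff_projThree hF.smooth
  refine le_trans (measure_mono ?_) (volume_image_paramOn_le hf hO)
  rintro v ⟨⟨x, hxO, hn, y, hy, hperp, hpsd⟩, hv⟩
  rw [mem_singleton_iff] at hy
  subst hy
  set f := projThree F with hfdef
  have hx := hOb hxO
  have hv1 : ‖v‖ < 1 := by simpa using hv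
  have hpd : ∀ i, (inner ℝ v (pd f i y) : ℝ) = 0 := by
    intro i
    have := hperp (EuclideanSpace.single i 1)
    rw [inner_lift3] at this
    rw [hfdef, pd_projThree hF.smooth]
    exact this
  obtain ⟨s, hs⟩ := exists_smul_cross hn (hpd 0) (hpd 1)
  have hs' : v = s • nvec f y := hs
  obtain ⟨_, hdet, _⟩ := det_qf_le hF.smooth (gdet_pos (hF.immersion y hx)) hperp hpsd
  have hq : ∀ i j, qf F i j y (lift3 v) = s * inner ℝ (nvec f y) (pd (pd f j) i y) := by
    intro i j
    unfold qf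
    rw [inner_lift3, ← pd_pd_projThree hF.smooth, ← hfdef, hs', real_inner_smul_left]
  have hx0 : (!₂[(!₂[y 0, y 1, s] : EuclideanSpace ℝ (Fin 3)) 0,
      (!₂[y 0, y 1, s] : EuclideanSpace ℝ (Fin 3)) 1] : EuclideanSpace ℝ (Fin 2)) = y := by
    ext i; fin_cases i <;> rfl
  have hx2 : (!₂[y 0, y 1, s] : EuclideanSpace ℝ (Fin 3)) 2 = s := rfl
  refine ⟨!₂[y 0, y 1, s], ?_, ?_⟩
  · have hgood : y ∈ goodBase f := ⟨hx, hn⟩
    have hline : s ∈ lineParam f y := by
      refine ⟨?_, ?_, ?_, ?_⟩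
      · rw [hs', norm_smul, Real.norm_eq_abs] at hv1
        exact hv1
      · rw [← hq]
        unfold qf d2
        exact hpsd _
      · rw [← hq]
        unfold qf d2
        exact hpsd _
      · rw [hq, hq, hq] at hdet
        unfold secDet
        nlinarith
    have key : ∀ (w : EuclideanSpace ℝ (Fin 2)) (t : ℝ), w = y → t = s →
        w ∈ O ∧ (w ∈ goodBase f ∧ t ∈ lineParam f w) := by
      rintro w t rfl rfl
      exact ⟨hxO, hgood, hline⟩
    exact key _ _ hx0 hx2
  · have key : ∀ (w : EuclideanSpace ℝ (Fin 2)) (t : ℝ), w = y → t = s →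
        t • nvec f w = v := by
      rintro w t rfl rfl
      exact hs'.symm
    exact key _ _ hx0 hx2

/-- H2 (file CurvOn.lean) -/
theorem volume_deg_lift {F : EuclideanSpace ℝ (Fin 2) → EuclideanSpace ℝ (Fin 4)}
    (hF : IsSliceDisc F) :
    volume {v : EuclideanSpace ℝ (Fin 3) |
      lift3 v ∈ degSet F {x | x ∈ closedBall 0 1 ∧ nvec (projThree F) x ≠ 0}} = 0 := by
  have hf := contDiff_projThree hF.smooth
  set f := projThree F with hfdef
  set Φ : EuclideanSpace ℝ (Fin 3) → EuclideanSpace ℝ (Fin 3) := fun z =>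
    z 2 • nvec f !₂[z 0, z 1] with hΦ
  set S : Set (EuclideanSpace ℝ (Fin 3)) := {z | (fderiv ℝ Φ z).det = 0} with hS
  have hnull : (volume : Measure (EuclideanSpace ℝ (Fin 3))) (Φ '' S) = 0 := by
    apply MeasureTheory.addHaar_image_eq_zero_of_det_fderivWithin_eq_zero
      (f' := fderiv ℝ Φ)
    · intro x hx
      exact ((gauss_jac hf x).1.hasFDerivAt).hasFDerivWithinAt
    · intro x hx
      exact hx
  refine measure_mono_null ?_ hnull
  rintro v ⟨x, hx, hperp, u, hu, hdeg⟩
  have hn : nvec f x ≠ 0 := hx.2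
  have hpd : ∀ i, (inner ℝ v (pd f i x) : ℝ) = 0 := by
    intro i
    have := hperp (EuclideanSpace.single i 1)
    rw [inner_lift3] at this
    rw [hfdef, pd_projThree hF.smooth]
    exact this
  obtain ⟨s, hs⟩ := exists_smul_cross hn (hpd 0) (hpd 1)
  have hs' : v = s • nvec f x := hs
  have hq : ∀ i j, (inner ℝ (lift3 v) (d2 F i j x) : ℝ) =
      s * inner ℝ (nvec f x) (pd (pd f j) i x) := by
    intro i j
    rw [inner_lift3, ← pd_pd_projThree hF.smooth, ← hfdef, hs', real_inner_smul_left]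
  have e0 := hdeg (EuclideanSpace.single 0 1)
  have e1 := hdeg (EuclideanSpace.single 1 1)
  rw [fderiv2_expand] at e0 e1
  simp only [PiLp.single_apply, if_true, inner_add_right, inner_smul_right] at e0 e1
  norm_num at e0 e1
  rw [d2_symm hF.smooth 1 0] at e0
  rw [hq, hq] at e0 e1
  have hsec : s ^ 2 * secDet f x = 0 := by
    unfold secDet
    set A : ℝ := inner ℝ (nvec f x) (pd (pd f 0) 0 x) with hA
    set B : ℝ := inner ℝ (nvec f x) (pd (pd f 1) 0 x) with hB
    set C : ℝ := inner ℝ (nvec f x) (pd (pd f 1) 1 x) with hC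
    by_cases h0 : u 0 = 0
    · have h1 : u 1 ≠ 0 := by
        intro h1
        apply hu
        ext i
        fin_cases i
        · exact h0
        · exact h1
      have a1 : (u 1) * (s ^ 2 * (A * C - B ^ 2)) = 0 := by
        linear_combination (s * A) * e1 - (s * B) * e0
      exact (mul_eq_zero.1 a1).resolve_left h1
    · have a1 : (u 0) * (s ^ 2 * (A * C - B ^ 2)) = 0 := by
        linear_combination (s * C) * e0 - (s * B) * e1
      exact (mul_eq_zero.1 a1).resolve_left h0
  have hx0 : (!₂[(!₂[x 0, x 1, s] : EuclideanSpace ℝ (Fin 3)) 0,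
      (!₂[x 0, x 1, s] : EuclideanSpace ℝ (Fin 3)) 1] : EuclideanSpace ℝ (Fin 2)) = x := by
    ext i; fin_cases i <;> rfl
  have hx2 : (!₂[x 0, x 1, s] : EuclideanSpace ℝ (Fin 3)) 2 = s := rfl
  refine ⟨!₂[x 0, x 1, s], ?_, ?_⟩
  · have hj := (gauss_jac hf (!₂[x 0, x 1, s] : EuclideanSpace ℝ (Fin 3))).2
    have key : ∀ (w : EuclideanSpace ℝ (Fin 2)) (t : ℝ), w = x → t = s →
        t ^ 2 * |secDet f w| = 0 := by
      rintro w t rfl rfl
      rcases mul_eq_zero.1 hsec with h | h
      · rw [h, zero_mul]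
      · rw [h, abs_zero, mul_zero]
    rw [key _ _ hx0 hx2] at hj
    exact abs_eq_zero.1 hj
  · have key : ∀ (w : EuclideanSpace ℝ (Fin 2)) (t : ℝ), w = x → t = s →
        t • nvec f w = v := by
      rintro w t rfl rfl
      exact hs'.symm
    exact key _ _ hx0 hx2

/-- H3 (file CurvOn.lean) -/
theorem volume_sing_lift {F : EuclideanSpace ℝ (Fin 2) → EuclideanSpace ℝ (Fin 4)}
    (hF : IsSliceDisc F)
    (hc : {x | x ∈ closedBall (0 : EuclideanSpace ℝ (Fin 2)) 1 ∧
      nvec (projThree F) x = 0}.Countable) :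
    volume {v : EuclideanSpace ℝ (Fin 3) |
      ∃ x ∈ closedBall (0 : EuclideanSpace ℝ (Fin 2)) 1, nvec (projThree F) x = 0 ∧
        ∀ u, (inner ℝ (lift3 v) (fderiv ℝ F x u) : ℝ) = 0} = 0 := by
  set f := projThree F with hfdef
  set C : Set (EuclideanSpace ℝ (Fin 2)) :=
    {x | x ∈ closedBall (0 : EuclideanSpace ℝ (Fin 2)) 1 ∧ nvec f x = 0} with hC
  set N : Set (EuclideanSpace ℝ (Fin 3)) :=
    ⋃ x ∈ C, {v | ∃ i, pd f i x ≠ 0 ∧ (inner ℝ v (pd f i x) : ℝ) = 0} with hN
  have hN0 : volume N = 0 := by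
    rw [hN, measure_biUnion_null_iff hc]
    intro x _
    have : {v : EuclideanSpace ℝ (Fin 3) | ∃ i, pd f i x ≠ 0 ∧ (inner ℝ v (pd f i x) : ℝ) = 0}
        ⊆ ⋃ i : Fin 2, {v | pd f i x ≠ 0 ∧ (inner ℝ v (pd f i x) : ℝ) = 0} := by
      rintro v ⟨i, hi⟩
      exact mem_iUnion.2 ⟨i, hi⟩
    refine measure_mono_null this (measure_iUnion_null fun i => ?_)
    by_cases h0 : pd f i x = 0
    · have : {v : EuclideanSpace ℝ (Fin 3) | pd f i x ≠ 0 ∧ (inner ℝ v (pd f i x) : ℝ) = 0}
          = ∅ := by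
        ext v
        simp [h0]
      rw [this]
      simp
    · exact measure_mono_null (fun v hv => hv.2) (volume_orthogonal_eq_zero h0)
  refine measure_mono_null ?_ hN0
  rintro v ⟨x, hx, hn, hperp⟩
  obtain ⟨i, hi⟩ := exists_pd_ne_zero hF hx
  refine mem_iUnion₂.2 ⟨x, ⟨hx, hn⟩, i, hi, ?_⟩
  have := hperp (EuclideanSpace.single i 1)
  rw [inner_lift3] at this
  rw [hfdef, pd_projThree hF.smooth]
  exact this

end Pool.Agent.Lib_MP_752436_gt
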