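import Mathlib

/-!
Hahn-Banach and Riesz-Markov-Kakutani: a cone of continuous functions on a compact set none of
which is negative everywhere is nonnegative on some nonzero finite measure.
-/

open MeasureTheory Metric Set
open scoped ContDiff ENNReal Topology CompactlySupported

namespace Pool.Agent.Lib_MP_752436_gt

variable {X : Type*} [MetricSpace X] [SecondCountableTopology X] [MeasurableSpace X]
  [BorelSpace X]

/-- Hahn-Banach and Riesz-Markov-Kakutani. -/
theorem exists_dual_measure_gen {K : Set (X)} (hK : IsCompact K)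
    (A : Set (X → ℝ)) (hc : ∀ g ∈ A, Continuous g)
    (hne : A.Nonempty) (hadd : ∀ g ∈ A, ∀ h ∈ A, g + h ∈ A)
    (hsmul : ∀ c : ℝ, 0 ≤ c → ∀ g ∈ A, c • g ∈ A)
    (hno : ∀ g ∈ A, ∃ x ∈ K, 0 ≤ g x) :
    ∃ ν : Measure (X), IsFiniteMeasure ν ∧ ν ≠ 0 ∧ ν Kᶜ = 0 ∧
      ∀ g ∈ A, 0 ≤ ∫ x, g x ∂ν := by
  classical
  have hKc : CompactSpace K := isCompact_iff_compactSpace.mp hK
  let S1 : Set C(K, ℝ) := {h | ∀ x, h x < 0}
  let S2 : Set C(K, ℝ) := {h | ∃ g ∈ A, ∀ x : K, h x = g x}
  have hS1o : IsOpen S1 := by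
    have := ContinuousMap.isOpen_setOfPred_mapsTo (X := K) (Y := ℝ) (K := univ) (U := Iio 0)
      isCompact_univ isOpen_Iio
    convert this using 1
    ext h
    simp [S1, MapsTo]
  have hS1c : Convex ℝ S1 := by
    intro f hf g hg a b ha hb hab x
    have h1 := hf x
    have h2 := hg x
    simp only [ContinuousMap.add_apply, ContinuousMap.smul_apply, smul_eq_mul]
    rcases ha.eq_or_lt with rfl | ha'
    · have : b = 1 := by linarith
      subst this
      simpa using h2
    · have e1 : a * f x < 0 := mul_neg_of_pos_of_neg ha' h1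
      have e2 : b * g x ≤ 0 := mul_nonpos_of_nonneg_of_nonpos hb h2.le
      linarith
  have hS2c : Convex ℝ S2 := by
    rintro f ⟨f', hf', hf⟩ g ⟨g', hg', hg⟩ a b ha hb hab
    refine ⟨a • f' + b • g', hadd _ (hsmul a ha _ hf') _ (hsmul b hb _ hg'), ?_⟩
    intro x
    simp [hf, hg]
  have hdisj : Disjoint S1 S2 := by
    rw [Set.disjoint_left]
    rintro h h1 ⟨g, hg, hgx⟩
    obtain ⟨x, hx, hx0⟩ := hno g hg
    have := h1 ⟨x, hx⟩
    rw [hgx] at this
    exact absurd hx0 (not_le.2 this)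
  obtain ⟨f, u, hf1, hf2⟩ := geometric_hahn_banach_open hS1c hS1o hS2c hdisj
  have hres : ∀ g ∈ A, ∃ h : C(K, ℝ), ∀ x : K, h x = g x := fun g hg =>
    ⟨⟨fun x => g x, (hc g hg).comp continuous_subtype_val⟩, fun x => rfl⟩
  have hS2cone : ∀ c : ℝ, 0 ≤ c → ∀ h ∈ S2, c • h ∈ S2 := by
    rintro c hc' h ⟨g, hg, hgx⟩
    exact ⟨c • g, hsmul c hc' g hg, fun x => by simp [hgx]⟩
  have hu : u ≤ 0 := by
    obtain ⟨g, hg⟩ := hne
    obtain ⟨h, hh⟩ := hres g hg
    have := hf2 _ (hS2cone 0 le_rfl h ⟨g, hg, hh⟩)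
    simpa using this
  have hf2' : ∀ h ∈ S2, 0 ≤ f h := by
    intro h hh
    by_contra hneg
    push Not at hneg
    have h1 := hf2 _ (hS2cone ((u - 1) / f h) (div_nonneg_of_nonpos (by linarith) hneg.le) h hh)
    rw [map_smul, smul_eq_mul, div_mul_cancel₀ _ hneg.ne] at h1
    linarith
  have hfone : 0 < f 1 := by
    have h1 : (-1 : C(K, ℝ)) ∈ S1 := by
      intro x
      simp
    have h2 := hf1 _ h1
    rw [map_neg] at h2
    linarith
  have hfpos : ∀ h : C(K, ℝ), (∀ x, 0 ≤ h x) → 0 ≤ f h := by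
    intro h hh
    by_contra hneg
    push Not at hneg
    have hε : 0 < -f h / f 1 := div_pos (by linarith) hfone
    have h1 : (-h - (-f h / f 1) • (1 : C(K, ℝ))) ∈ S1 := by
      intro x
      have := hh x
      simp only [ContinuousMap.sub_apply, ContinuousMap.neg_apply, ContinuousMap.smul_apply,
        ContinuousMap.one_apply, smul_eq_mul, mul_one]
      linarith
    have h2 := hf1 _ h1
    rw [map_sub, map_neg, map_smul, smul_eq_mul, div_mul_cancel₀ _ hfone.ne'] at h2
    linarith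
  let Λ : C_c(K, ℝ) →ₚ[ℝ] ℝ := PositiveLinearMap.mk₀
    { toFun := fun g => f (g : C(K, ℝ))
      map_add' := fun g g' => by
        have : ((g + g' : C_c(K, ℝ)) : C(K, ℝ)) = (g : C(K, ℝ)) + (g' : C(K, ℝ)) := by
          ext x; rfl
        rw [this, map_add]
      map_smul' := fun c g => by
        have : ((c • g : C_c(K, ℝ)) : C(K, ℝ)) = c • (g : C(K, ℝ)) := by
          ext x; rfl
        rw [this, map_smul]; rfl }
    (fun g hg => hfpos _ (fun x => hg x))
  let μ : Measure K := RealRMK.rieszMeasure Λ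
  have hμf : IsFiniteMeasure μ := by
    change IsFiniteMeasure (RealRMK.rieszMeasure Λ)
    infer_instance
  have hμ : ∀ h : C(K, ℝ), ∫ x, h x ∂μ = f h := by
    intro h
    have := RealRMK.integral_rieszMeasure Λ (CompactlySupportedContinuousMap.continuousMapEquiv h)
    exact this
  refine ⟨μ.map Subtype.val, inferInstance, ?_, ?_, ?_⟩
  · intro h0
    have h1 : μ = 0 := by
      have h2 : (μ.map Subtype.val) univ = 0 := by rw [h0]; simp
      rw [Measure.map_apply measurable_subtype_coe MeasurableSet.univ] at h2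
      exact Measure.measure_univ_eq_zero.1 (by simpa using h2)
    have h2 := hμ 1
    rw [h1] at h2
    simp at h2
    exact absurd h2.symm hfone.ne'
  · rw [Measure.map_apply measurable_subtype_coe hK.measurableSet.compl]
    simp
  · intro g hg
    rw [integral_map measurable_subtype_coe.aemeasurable (hc g hg).aestronglyMeasurable]
    obtain ⟨h, hh⟩ := hres g hg
    have h1 : ∫ x : K, g x ∂μ = ∫ x, h x ∂μ := by simp only [hh]
    rw [h1, hμ]
    exact hf2' h ⟨g, hg, hh⟩

/-- The support of a finite measure. -/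
theorem exists_support_gen {K : Set (X)} (hK : IsCompact K)
    (ν : Measure (X)) [IsFiniteMeasure ν] (hν : ν ≠ 0) (hνK : ν Kᶜ = 0) :
    ∃ Z : Set (X), IsCompact Z ∧ Z.Nonempty ∧ Z ⊆ K ∧ ν Zᶜ = 0 ∧
      ∀ g : X → ℝ, Continuous g → (∀ z ∈ Z, 0 ≤ g z) →
        (∃ z ∈ Z, 0 < g z) → 0 < ∫ x, g x ∂ν := by
  have hsub : ν.support ⊆ K :=
    Measure.support_subset_of_isClosed hK.isClosed (mem_ae_iff.2 hνK)
  have hcomp : IsCompact ν.support := hK.of_isClosed_subset Measure.isClosed_support hsub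
  have hae : ν.support ∈ ae ν := Measure.support_mem_ae
  refine ⟨ν.support, hcomp, Measure.nonempty_support hν, hsub, mem_ae_iff.1 hae, ?_⟩
  intro g hg hpos hex
  obtain ⟨z, hz, hgz⟩ := hex
  have hnn : 0 ≤ᵐ[ν] g := by
    filter_upwards [hae] with x hx using hpos x hx
  have hrestr : ν.restrict ν.support = ν := Measure.restrict_eq_self_of_ae_mem hae
  have hint : Integrable g ν := by
    have h := hg.continuousOn.integrableOn_compact (μ := ν) hcomp
    rwa [IntegrableOn, hrestr] at h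
  rw [integral_pos_iff_support_of_nonneg_ae hnn hint]
  have hU : {x | 0 < g x} ∈ 𝓝 z := (isOpen_lt continuous_const hg).mem_nhds hgz
  have h1 := (Measure.mem_support_iff_forall z).1 hz _ hU
  refine lt_of_lt_of_le h1 (measure_mono ?_)
  intro x hx
  exact ne_of_gt hx

end Pool.Agent.Lib_MP_752436_gt
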