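import Pool.Agent.Lib_MP_752436_gt.DiagramDefs
import Pool.Agent.Lib_MP_752436_gt.DualGen
import Pool.Agent.Lib_MP_752436_gt.Trap

/-!
An immersed disc in `R^3` with crossing information lifts to a ribbon disc if and only if it has
no trap.
-/

open MeasureTheory Metric Set
open scoped ContDiff ENNReal Topology

namespace Pool.Agent.Lib_MP_752436_gt

section

variable {f : EuclideanSpace ℝ (Fin 2) → EuclideanSpace ℝ (Fin 3)}
  {R : EuclideanSpace ℝ (Fin 2) → EuclideanSpace ℝ (Fin 2) → Prop}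

/-- The set of related pairs. -/
def relSet (R : EuclideanSpace ℝ (Fin 2) → EuclideanSpace ℝ (Fin 2) → Prop) :
    Set (EuclideanSpace ℝ (Fin 2) × EuclideanSpace ℝ (Fin 2)) := {p | R p.1 p.2}

theorem isCompact_relSet (hR : CrossingInfo f R) : IsCompact (relSet R) := by
  refine IsCompact.of_isClosed_subset
    ((isCompact_closedBall (0 : EuclideanSpace ℝ (Fin 2)) 1).prod
      (isCompact_closedBall (0 : EuclideanSpace ℝ (Fin 2)) 1)) hR.closed ?_
  rintro ⟨x, y⟩ hxy
  obtain ⟨h1, h2, _, _⟩ := hR.double x y hxy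
  exact ⟨ball_subset_closedBall h1, h2⟩

/-- Without traps there is a smooth function which increases strictly upwards. -/
theorem exists_strict_mono (hR : CrossingInfo f R) (hno : ¬ ∃ Z, IsTrapOf R Z) :
    ∃ φ : EuclideanSpace ℝ (Fin 2) → ℝ, ContDiff ℝ ∞ φ ∧ ∀ x y, R x y → φ y < φ x := by
  classical
  by_contra hcon
  push Not at hcon
  set A : Set (EuclideanSpace ℝ (Fin 2) × EuclideanSpace ℝ (Fin 2) → ℝ) :=
    {g | ∃ φ : EuclideanSpace ℝ (Fin 2) → ℝ, ContDiff ℝ ∞ φ ∧ g = fun p => φ p.2 - φ p.1}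
    with hA
  have hc : ∀ g ∈ A, Continuous g := by
    rintro g ⟨φ, hφ, rfl⟩
    have := hφ.continuous
    fun_prop
  have hne : A.Nonempty := ⟨_, fun _ => 0, contDiff_const, rfl⟩
  have hadd : ∀ g ∈ A, ∀ h ∈ A, g + h ∈ A := by
    rintro g ⟨φ, hφ, rfl⟩ h ⟨ψ, hψ, rfl⟩
    refine ⟨φ + ψ, hφ.add hψ, ?_⟩
    funext p
    simp only [Pi.add_apply]
    ring
  have hsmul : ∀ c : ℝ, 0 ≤ c → ∀ g ∈ A, c • g ∈ A := by
    rintro c _ g ⟨φ, hφ, rfl⟩
    refine ⟨c • φ, contDiff_const.smul hφ, ?_⟩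
    funext p
    simp only [Pi.smul_apply, smul_eq_mul]
    ring
  have hex : ∀ g ∈ A, ∃ p ∈ relSet R, 0 ≤ g p := by
    rintro g ⟨φ, hφ, rfl⟩
    obtain ⟨x, y, hxy, hle⟩ := hcon φ hφ
    exact ⟨(x, y), hxy, by simpa using hle⟩
  obtain ⟨ν, hνf, hν0, hνK, hνA⟩ := exists_dual_measure_gen (isCompact_relSet hR) A hc hne hadd
    hsmul hex
  obtain ⟨S, hSc, hSne, hSK, _, hSpos⟩ := exists_support_gen (isCompact_relSet hR) ν hν0 hνK
  have hzero : ∀ φ : EuclideanSpace ℝ (Fin 2) → ℝ, ContDiff ℝ ∞ φ →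
      ¬ ((∀ p ∈ S, 0 ≤ φ p.2 - φ p.1) ∧ ∃ p ∈ S, 0 < φ p.2 - φ p.1) := by
    rintro φ hφ ⟨h1, h2⟩
    have hcφ := hφ.continuous
    have e1 := hSpos (fun p => φ p.2 - φ p.1) (by fun_prop) h1 h2
    have e2 := hνA (fun p => (-φ) p.2 - (-φ) p.1) ⟨-φ, hφ.neg, rfl⟩
    have e3 : (fun p : EuclideanSpace ℝ (Fin 2) × EuclideanSpace ℝ (Fin 2) =>
        (-φ) p.2 - (-φ) p.1) = fun p => -(φ p.2 - φ p.1) := by
      funext p
      simp only [Pi.neg_apply]
      ring
    rw [e3, integral_neg] at e2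
    linarith
  apply hno
  refine ⟨Prod.snd '' S, hSc.image continuous_snd, hSne.image _, ?_, ?_⟩
  · rintro _ ⟨⟨x, y⟩, hxy, rfl⟩
    -- `y` is also a first coordinate
    by_contra hy
    have hyK := (hR.double x y (hSK hxy)).2.1
    have hynot : y ∉ Prod.fst '' S := by
      rintro ⟨⟨a, b⟩, hab, rfl⟩
      exact hy (hR.double a b (hSK hab)).1
    have hcl : IsClosed (Prod.fst '' S) := (hSc.image continuous_fst).isClosed
    obtain ⟨φ, hφs, _, hφ, hφr, hφy⟩ :
        ∃ φ : EuclideanSpace ℝ (Fin 2) → ℝ, tsupport φ ⊆ (Prod.fst '' S)ᶜ ∧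
          HasCompactSupport φ ∧ ContDiff ℝ ∞ φ ∧ range φ ⊆ Icc 0 1 ∧ φ y = 1 :=
      exists_contDiff_tsupport_subset (n := ⊤) (hcl.isOpen_compl.mem_nhds hynot)
    have h0 : ∀ p ∈ S, φ p.1 = 0 := by
      intro p hp
      by_contra hne0
      have : p.1 ∈ tsupport φ := subset_tsupport _ hne0
      exact hφs this ⟨p, hp, rfl⟩
    refine hzero φ hφ ⟨fun p hp => ?_, (x, y), hxy, ?_⟩
    · rw [h0 p hp, sub_zero]
      exact (hφr ⟨_, rfl⟩).1
    · rw [h0 _ hxy]
      simp only []
      rw [hφy]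
      norm_num
  · intro x hx
    have hxS : x ∈ Prod.snd '' S := by
      have := frontier_subset_closure hx
      rwa [(hSc.image continuous_snd).isClosed.closure_eq] at this
    obtain ⟨⟨w, x'⟩, hwx, hx'⟩ := hxS
    simp only [] at hx'
    subst hx'
    by_contra hnone
    push Not at hnone
    have hynot : x' ∉ Prod.fst '' S := by
      rintro ⟨⟨a, b⟩, hab, rfl⟩
      exact hnone b ⟨(a, b), hab, rfl⟩ (hSK hab)
    have hcl : IsClosed (Prod.fst '' S) := (hSc.image continuous_fst).isClosed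
    obtain ⟨φ, hφs, _, hφ, hφr, hφy⟩ :
        ∃ φ : EuclideanSpace ℝ (Fin 2) → ℝ, tsupport φ ⊆ (Prod.fst '' S)ᶜ ∧
          HasCompactSupport φ ∧ ContDiff ℝ ∞ φ ∧ range φ ⊆ Icc 0 1 ∧ φ x' = 1 :=
      exists_contDiff_tsupport_subset (n := ⊤) (hcl.isOpen_compl.mem_nhds hynot)
    have h0 : ∀ p ∈ S, φ p.1 = 0 := by
      intro p hp
      by_contra hne0
      have : p.1 ∈ tsupport φ := subset_tsupport _ hne0
      exact hφs this ⟨p, hp, rfl⟩
    refine hzero φ hφ ⟨fun p hp => ?_, (w, x'), hwx, ?_⟩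
    · rw [h0 p hp, sub_zero]
      exact (hφr ⟨_, rfl⟩).1
    · rw [h0 _ hwx]
      simp only []
      rw [hφy]
      norm_num

/-- The disc in `R^4` over `f` with height `t`. -/
noncomputable def graphDisc (f : EuclideanSpace ℝ (Fin 2) → EuclideanSpace ℝ (Fin 3))
    (t : EuclideanSpace ℝ (Fin 2) → ℝ) : EuclideanSpace ℝ (Fin 2) → EuclideanSpace ℝ (Fin 4) :=
  fun x => !₂[f x 0, f x 1, f x 2, t x]

theorem contDiff_graphDisc (hf : ContDiff ℝ ∞ f) {t : EuclideanSpace ℝ (Fin 2) → ℝ}
    (ht : ContDiff ℝ ∞ t) : ContDiff ℝ ∞ (graphDisc f t) := by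
  have h := contDiff_euclidean.1 hf
  rw [contDiff_euclidean]
  intro i
  fin_cases i
  · exact h 0
  · exact h 1
  · exact h 2
  · exact ht

theorem shadow_graphDisc (t : EuclideanSpace ℝ (Fin 2) → ℝ) (x : EuclideanSpace ℝ (Fin 2)) :
    shadow (graphDisc f t) x = f x := by
  ext i
  fin_cases i <;> rfl

theorem shadow_eq_iff {G : EuclideanSpace ℝ (Fin 2) → EuclideanSpace ℝ (Fin 4)}
    {x y : EuclideanSpace ℝ (Fin 2)} :
    shadow G x = shadow G y ↔ ∀ i, i ≠ 3 → G x i = G y i := by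
  constructor
  · intro h i hi
    have h' := fun k : Fin 3 => congrArg (fun v : EuclideanSpace ℝ (Fin 3) => v k) h
    fin_cases i
    · exact h' 0
    · exact h' 1
    · exact h' 2
    · exact absurd rfl hi
  · intro h
    ext k
    fin_cases k
    · exact h 0 (by decide)
    · exact h 1 (by decide)
    · exact h 2 (by decide)

/-- The construction of a slice disc from a crossing information without traps. -/
theorem exists_slice_lift (hf : ContDiff ℝ ∞ f)
    (himm : ∀ x ∈ closedBall (0 : EuclideanSpace ℝ (Fin 2)) 1, Function.Injective (fderiv ℝ f x))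
    (hR : CrossingInfo f R) (hno : ¬ ∃ Z, IsTrapOf R Z) :
    ∃ F, IsSliceDisc F ∧ (∀ x, shadow F x = f x) ∧ ∀ x y, R x y → F y 3 < F x 3 := by
  obtain ⟨φ, hφ, hmono⟩ := exists_strict_mono hR hno
  obtain ⟨M, hM⟩ := (isCompact_closedBall (0 : EuclideanSpace ℝ (Fin 2))
    1).exists_bound_of_continuousOn (hφ.continuous.continuousOn)
  have hM' : ∀ x ∈ closedBall (0 : EuclideanSpace ℝ (Fin 2)) 1, 0 < φ x + (M + 1) := by
    intro x hx
    have := abs_le.1 (hM x hx)
    linarith [this.1]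
  -- the upper points stay away from the circle
  have hUc : IsCompact (Prod.fst '' relSet R) := (isCompact_relSet hR).image continuous_fst
  obtain ⟨ρ, hρ0, hρ1, hρ⟩ : ∃ ρ : ℝ, 0 ≤ ρ ∧ ρ < 1 ∧ ∀ x y, R x y → ‖x‖ ≤ ρ := by
    rcases (Prod.fst '' relSet R).eq_empty_or_nonempty with h0 | h0
    · refine ⟨0, le_refl _, one_pos, fun x y hxy => ?_⟩
      have : x ∈ Prod.fst '' relSet R := ⟨(x, y), hxy, rfl⟩
      rw [h0] at this
      exact absurd this (notMem_empty x)
    · obtain ⟨z, hz, hzmax⟩ := hUc.exists_isMaxOn h0 (continuous_norm.continuousOn)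
      refine ⟨‖z‖, norm_nonneg _, ?_, fun x y hxy => hzmax ⟨(x, y), hxy, rfl⟩⟩
      obtain ⟨⟨a, b⟩, hab, rfl⟩ := hz
      have := (hR.double a b hab).1
      simpa using this
  have hρ2 : 0 < 1 - ρ ^ 2 := by nlinarith
  set χ : EuclideanSpace ℝ (Fin 2) → ℝ :=
    fun x => Real.smoothTransition ((1 - ‖x‖ ^ 2) / (1 - ρ ^ 2)) with hχ
  have hχs : ContDiff ℝ ∞ χ :=
    Real.smoothTransition.contDiff.comp
      ((contDiff_const.sub (contDiff_id.norm_sq ℝ)).div_const _)
  have hχ1 : ∀ x, ‖x‖ ≤ ρ → χ x = 1 := by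
    intro x hx
    apply Real.smoothTransition.one_of_one_le
    rw [le_div_iff₀ hρ2]
    have : ‖x‖ ^ 2 ≤ ρ ^ 2 := by
      have := norm_nonneg x
      nlinarith
    linarith
  have hχle : ∀ x, χ x ≤ 1 := fun x => Real.smoothTransition.le_one _
  have hχ0 : ∀ x, 0 ≤ χ x := fun x => Real.smoothTransition.nonneg _
  have hχpos : ∀ x ∈ ball (0 : EuclideanSpace ℝ (Fin 2)) 1, 0 < χ x := by
    intro x hx
    apply Real.smoothTransition.pos_of_pos
    have hx1 : ‖x‖ < 1 := by simpa using hx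
    have : ‖x‖ ^ 2 < 1 := by
      have := norm_nonneg x
      nlinarith
    exact div_pos (by linarith) hρ2
  have hχs0 : ∀ x ∈ sphere (0 : EuclideanSpace ℝ (Fin 2)) 1, χ x = 0 := by
    intro x hx
    apply Real.smoothTransition.zero_of_nonpos
    have hx1 : ‖x‖ = 1 := by simpa using hx
    rw [hx1]
    simp
  set t : EuclideanSpace ℝ (Fin 2) → ℝ := fun x => χ x * (φ x + (M + 1)) with ht
  have hts : ContDiff ℝ ∞ t := hχs.mul (hφ.add contDiff_const)
  have htR : ∀ x y, R x y → t y < t x := by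
    intro x y hxy
    obtain ⟨_, hy, _, _⟩ := hR.double x y hxy
    have e1 : t x = φ x + (M + 1) := by
      simp only [ht]
      rw [hχ1 x (hρ x y hxy), one_mul]
    have e2 : t y ≤ φ y + (M + 1) := by
      simp only [ht]
      have := hM' y hy
      have := hχle y
      nlinarith
    have := hmono x y hxy
    linarith
  refine ⟨graphDisc f t, ⟨contDiff_graphDisc hf hts, ?_, ?_, ?_, ?_⟩, shadow_graphDisc t,
    fun x y hxy => htR x y hxy⟩
  · intro x hx y hy hxy
    by_contra hne
    have h3 : t x = t y := congrArg (fun v : EuclideanSpace ℝ (Fin 4) => v 3) hxy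
    have hfxy : f x = f y := by
      rw [← shadow_graphDisc (f := f) t x, ← shadow_graphDisc (f := f) t y]
      unfold shadow
      rw [hxy]
    rcases hR.total x hx y hy hne hfxy with h | h
    · exact absurd h3 (htR x y h).ne'
    · exact absurd h3 (htR y x h).ne
  · intro x hx u w huw
    apply himm x hx
    have hG := contDiff_graphDisc hf hts
    ext k
    have hk : ∀ i : Fin 3, ∀ j : Fin 4, (fun x => f x i) = (fun x => graphDisc f t x j) →
        fderiv ℝ f x u i = fderiv ℝ f x w i := by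
      intro i j hij
      have e0 : ∀ v, fderiv ℝ (fun x => f x i) x v = fderiv ℝ f x v i := by
        intro v
        have h1 : HasFDerivAt f (fderiv ℝ f x) x :=
          ((hf.differentiable (by simp)) x).hasFDerivAt
        have h2 := (EuclideanSpace.proj i : EuclideanSpace ℝ (Fin 3) →L[ℝ] ℝ).hasFDerivAt.comp
          x h1
        have h3 : fderiv ℝ (fun x => f x i) x
            = (EuclideanSpace.proj i : EuclideanSpace ℝ (Fin 3) →L[ℝ] ℝ).comp (fderiv ℝ f x) :=
          h2.fderiv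
        rw [h3]
        rfl
      rw [← e0, ← e0, hij, fderiv_coord hG, fderiv_coord hG, huw]
    fin_cases k
    · exact hk 0 0 rfl
    · exact hk 1 1 rfl
    · exact hk 2 2 rfl
  · intro x hx
    show t x = 0
    simp only [ht]
    rw [hχs0 x hx, zero_mul]
  · intro x hx
    show 0 < t x
    exact mul_pos (hχpos x hx) (hM' x (ball_subset_closedBall hx))

/-- An immersed disc with crossing information lifts to a ribbon disc if and only if it has no
trap. -/
theorem diagram_criterion (hf : ContDiff ℝ ∞ f)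
    (himm : ∀ x ∈ closedBall (0 : EuclideanSpace ℝ (Fin 2)) 1, Function.Injective (fderiv ℝ f x))
    (hR : CrossingInfo f R) :
    (∃ G, RibbonDisc G ∧ (∀ x, shadow G x = f x) ∧ ∀ x y, R x y → G y 3 < G x 3) ↔
      ¬ ∃ Z, IsTrapOf R Z := by
  constructor
  · rintro ⟨G, hG', hGf, hGR⟩ ⟨Z, hZ⟩
    have hG := hG'.isRibbonDisc
    have hs : ContDiff ℝ ∞ (fun y => G y 3) := (contDiff_euclidean.1 hG.slice.smooth) 3
    obtain ⟨z, hz, hmin⟩ := hZ.compact.exists_isMinOn hZ.nonempty hs.continuous.continuousOn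
    by_cases hfr : z ∈ frontier Z
    · obtain ⟨y, hy, hab⟩ := hZ.above z hfr
      have h1 := hGR z y hab
      have h2 : G z 3 ≤ G y 3 := hmin hy
      linarith
    · have hint : z ∈ interior Z := by
        by_contra hni
        exact hfr ⟨subset_closure hz, hni⟩
      have hloc : IsLocalMin (fun y => G y 3) z := by
        filter_upwards [mem_interior_iff_mem_nhds.1 hint] with y hy
        exact hmin hy
      have h0 : fderiv ℝ (fun y => G y 3) z = 0 := hloc.fderiv_eq_zero
      obtain ⟨u, hu⟩ := hG.noMin z (hZ.sub hz) h0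
      have := noTrap_second hs hloc u
      linarith
  · intro hno
    obtain ⟨F, hF, hFf, hFR⟩ := exists_slice_lift hf himm hR hno
    have hcoord : ∀ x, ∀ i : Fin 3, ∀ j : Fin 4, (∀ v : EuclideanSpace ℝ (Fin 2),
        shadow F v i = F v j) → ∀ u, fderiv ℝ F x u j = fderiv ℝ f x u i := by
      intro x i j hij u
      rw [← fderiv_coord hF.smooth]
      have e1 : (fun y => F y j) = fun y => f y i := by
        funext y
        rw [← hij y, hFf]
      rw [e1]
      have h1 : HasFDerivAt f (fderiv ℝ f x) x := ((hf.differentiable (by simp)) x).hasFDerivAt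
      have h2 := (EuclideanSpace.proj i : EuclideanSpace ℝ (Fin 3) →L[ℝ] ℝ).hasFDerivAt.comp x h1
      have h3 : fderiv ℝ (fun x => f x i) x
          = (EuclideanSpace.proj i : EuclideanSpace ℝ (Fin 3) →L[ℝ] ℝ).comp (fderiv ℝ f x) :=
        h2.fderiv
      rw [h3]
      rfl
    have himmF : ImmersedProjection F := by
      intro x hx u hu
      by_contra hcon
      push Not at hcon
      apply hu
      apply himm x hx
      rw [map_zero]
      ext k
      fin_cases k
      · exact (hcoord x 0 0 (fun v => rfl) u).symm.trans (hcon 0 (by decide))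
      · exact (hcoord x 1 1 (fun v => rfl) u).symm.trans (hcon 1 (by decide))
      · exact (hcoord x 2 2 (fun v => rfl) u).symm.trans (hcon 2 (by decide))
    have habove : ∀ x ∈ closedBall (0 : EuclideanSpace ℝ (Fin 2)) 1,
        ∀ y ∈ closedBall (0 : EuclideanSpace ℝ (Fin 2)) 1, Above F x y → R x y := by
      intro x hx y hy hxy
      have hne : x ≠ y := by
        rintro rfl
        exact lt_irrefl _ hxy.2
      have hfxy : f x = f y := by
        rw [← hFf x, ← hFf y]
        exact shadow_eq_iff.2 hxy.1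
      rcases hR.total x hx y hy hne hfxy with h | h
      · exact h
      · have h1 := hFR y x h
        have h2 := hxy.2
        linarith
    by_contra hcon
    apply hno
    obtain ⟨Z, hZ⟩ := exists_trap hF himmF (by
      rintro ⟨G, hG, hGF, hiso⟩
      apply hcon
      refine ⟨G, hG.ribbonDisc, ?_, ?_⟩
      · intro x
        rw [← hFf x]
        ext k
        fin_cases k
        · exact hGF x 0 (by decide)
        · exact hGF x 1 (by decide)
        · exact hGF x 2 (by decide)
      · intro x y hxy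
        obtain ⟨h1, h2, _, h4⟩ := hR.double x y hxy
        refine noTrap_above hGF hiso (ball_subset_closedBall h1) h2 ⟨?_, hFR x y hxy⟩
        rw [← shadow_eq_iff, hFf, hFf]
        exact h4)
    refine ⟨Z, hZ.compact, hZ.nonempty, hZ.sub, ?_⟩
    intro x hx
    obtain ⟨y, hy, hxy⟩ := hZ.above x hx
    have hxZ : x ∈ Z := by
      have := frontier_subset_closure hx
      rwa [hZ.compact.isClosed.closure_eq] at this
    exact ⟨y, hy, habove x (ball_subset_closedBall (hZ.sub hxZ)) y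
      (ball_subset_closedBall (hZ.sub hy)) hxy⟩

end

end Pool.Agent.Lib_MP_752436_gt
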