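import Mathlib

/-!
Slice discs and ribbon discs in the half space t >= 0 of four dimensional Euclidean space,
the mean curvature vector and the Willmore energy of a parametrised disc.
-/

open MeasureTheory Metric Set
open scoped ContDiff

namespace Pool.Agent.Lib_MP_752436_gt

/-- `F` is a smooth embedding of the closed unit disc of the plane into the half space
`{p | 0 <= p 3}` of `R^4`, which meets the boundary hyperplane exactly along the image of the
unit circle. Its boundary knot is the restriction of `F` to the unit circle. -/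
structure IsSliceDisc (F : EuclideanSpace ℝ (Fin 2) → EuclideanSpace ℝ (Fin 4)) : Prop where
  smooth : ContDiff ℝ ∞ F
  inj : InjOn F (closedBall 0 1)
  immersion : ∀ x ∈ closedBall (0 : EuclideanSpace ℝ (Fin 2)) 1,
    Function.Injective (fderiv ℝ F x)
  boundary : ∀ x ∈ sphere (0 : EuclideanSpace ℝ (Fin 2)) 1, F x 3 = 0
  interior : ∀ x ∈ ball (0 : EuclideanSpace ℝ (Fin 2)) 1, 0 < F x 3

/-- The directional derivative of a real function at `x` in the direction `u`. -/
noncomputable def dd (h : EuclideanSpace ℝ (Fin 2) → ℝ) (u x : EuclideanSpace ℝ (Fin 2)) : ℝ :=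
  fderiv ℝ h x u

/-- The height of a disc above the boundary hyperplane. -/
def height (G : EuclideanSpace ℝ (Fin 2) → EuclideanSpace ℝ (Fin 4)) :
    EuclideanSpace ℝ (Fin 2) → ℝ :=
  fun x => G x 3

/-- `G` is a ribbon disc: a slice disc, transverse to the boundary hyperplane, on which the
height `G 3` is a Morse function without interior local minima: at every interior critical
point the Hessian `(u, w) ↦ dd (dd (height G) w) u x` of the height is nondegenerate and has a
negative direction. -/
structure RibbonDisc (G : EuclideanSpace ℝ (Fin 2) → EuclideanSpace ℝ (Fin 4)) : Prop where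
  slice : IsSliceDisc G
  neat : ∀ x ∈ sphere (0 : EuclideanSpace ℝ (Fin 2)) 1, ∃ u, dd (height G) u x ≠ 0
  morse : ∀ x ∈ ball (0 : EuclideanSpace ℝ (Fin 2)) 1, (∀ u, dd (height G) u x = 0) →
    ∀ u, u ≠ 0 → ∃ w, dd (dd (height G) w) u x ≠ 0
  noMin : ∀ x ∈ ball (0 : EuclideanSpace ℝ (Fin 2)) 1, (∀ u, dd (height G) u x = 0) →
    ∃ u, dd (dd (height G) u) u x < 0

/-- Partial derivatives of the parametrisation. -/
noncomputable def d1 (F : EuclideanSpace ℝ (Fin 2) → EuclideanSpace ℝ (Fin 4)) (i : Fin 2)
    (x : EuclideanSpace ℝ (Fin 2)) : EuclideanSpace ℝ (Fin 4) :=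
  fderiv ℝ F x (EuclideanSpace.single i 1)

/-- Coefficients of the first fundamental form (the metric). -/
noncomputable def gm (F : EuclideanSpace ℝ (Fin 2) → EuclideanSpace ℝ (Fin 4)) (i j : Fin 2)
    (x : EuclideanSpace ℝ (Fin 2)) : ℝ :=
  inner ℝ (d1 F i x) (d1 F j x)

/-- Determinant of the first fundamental form; the area element is its square root. -/
noncomputable def gdet (F : EuclideanSpace ℝ (Fin 2) → EuclideanSpace ℝ (Fin 4))
    (x : EuclideanSpace ℝ (Fin 2)) : ℝ :=
  gm F 0 0 x * gm F 1 1 x - gm F 0 1 x ^ 2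

/-- The vector `(g11 F_00 - 2 g01 F_01 + g00 F_11) / (2 det g)`, where `F_ij = d1 (d1 F j) i`
are the second partial derivatives. -/
noncomputable def traceVec (F : EuclideanSpace ℝ (Fin 2) → EuclideanSpace ℝ (Fin 4))
    (x : EuclideanSpace ℝ (Fin 2)) : EuclideanSpace ℝ (Fin 4) :=
  (2 * gdet F x)⁻¹ • (gm F 1 1 x • d1 (d1 F 0) 0 x - (2 * gm F 0 1 x) • d1 (d1 F 1) 0 x
      + gm F 0 0 x • d1 (d1 F 1) 1 x)

/-- The mean curvature vector (half the trace of the second fundamental form with respect to the
first fundamental form): the component of `traceVec F x` orthogonal to the tangent plane. -/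
noncomputable def meanCurvature (F : EuclideanSpace ℝ (Fin 2) → EuclideanSpace ℝ (Fin 4))
    (x : EuclideanSpace ℝ (Fin 2)) : EuclideanSpace ℝ (Fin 4) :=
  ((Submodule.span ℝ {d1 F 0 x, d1 F 1 x})ᗮ).starProjection (traceVec F x)

/-- The Willmore energy: the integral of the squared length of the mean curvature vector with
respect to the area of the disc. -/
noncomputable def willmoreEnergy (F : EuclideanSpace ℝ (Fin 2) → EuclideanSpace ℝ (Fin 4)) : ℝ :=
  ∫ x in ball (0 : EuclideanSpace ℝ (Fin 2)) 1, ‖meanCurvature F x‖ ^ 2 * Real.sqrt (gdet F x)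

end Pool.Agent.Lib_MP_752436_gt
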