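import Pool.Agent.Lib_MP_752436_gt.Defs2

open MeasureTheory Metric Set
open scoped ContDiff ENNReal

namespace Pool.Agent.Lib_MP_752436_gt

theorem jac_perp (F : EuclideanSpace ℝ (Fin 2) → EuclideanSpace ℝ (Fin 4))
    (x b : EuclideanSpace ℝ (Fin 2)) (hm : minor F x ≠ 0) (i : Fin 2) :
    (inner ℝ (nrm F x b) (d1 F i x) : ℝ) = 0 := by
  have e : (inner ℝ (nrm F x b) (d1 F i x) : ℝ) =
      ((d1 F 0 x 1 * (b 0 * d1 F 1 x 2 + b 1 * d1 F 1 x 3)
        - d1 F 1 x 1 * (b 0 * d1 F 0 x 2 + b 1 * d1 F 0 x 3)) * d1 F i x 0 +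
     (d1 F 1 x 0 * (b 0 * d1 F 0 x 2 + b 1 * d1 F 0 x 3)
        - d1 F 0 x 0 * (b 0 * d1 F 1 x 2 + b 1 * d1 F 1 x 3)) * d1 F i x 1) / minor F x
      + b 0 * d1 F i x 2 + b 1 * d1 F i x 3 := by
    rw [PiLp.inner_apply, Fin.sum_univ_four]
    simp only [nrm, RCLike.inner_apply, conj_trivial]
    simp
    ring
  rw [e]
  field_simp
  unfold minor
  fin_cases i <;> simp <;> ring

/-- the first two coordinates -/
noncomputable def jacX : EuclideanSpace ℝ (Fin 4) →L[ℝ] EuclideanSpace ℝ (Fin 2) :=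
  LinearMap.toContinuousLinearMap
    { toFun := fun z => !₂[z 0, z 1]
      map_add' := fun z w => by ext i; fin_cases i <;> simp
      map_smul' := fun c z => by ext i; fin_cases i <;> simp }

theorem jacX_apply (z : EuclideanSpace ℝ (Fin 4)) : jacX z = !₂[z 0, z 1] := rfl

theorem jacX_zero : jacX (EuclideanSpace.single 0 1) = EuclideanSpace.single 0 1 := by
  rw [jacX_apply]; ext i; fin_cases i <;> simp

theorem jacX_one : jacX (EuclideanSpace.single 1 1) = EuclideanSpace.single 1 1 := by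
  rw [jacX_apply]; ext i; fin_cases i <;> simp

/-- the parametrisation -/
noncomputable def jacPhi (F : EuclideanSpace ℝ (Fin 2) → EuclideanSpace ℝ (Fin 4))
    (z : EuclideanSpace ℝ (Fin 4)) : EuclideanSpace ℝ (Fin 4) :=
  nrm F !₂[z 0, z 1] !₂[z 2, z 3]

theorem jac_hasFDerivAt_d1 {F : EuclideanSpace ℝ (Fin 2) → EuclideanSpace ℝ (Fin 4)}
    (hF : ContDiff ℝ ∞ F) (i : Fin 2) (x : EuclideanSpace ℝ (Fin 2)) :
    HasFDerivAt (d1 F i) ((ContinuousLinearMap.apply ℝ (EuclideanSpace ℝ (Fin 4))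
      (EuclideanSpace.single i (1 : ℝ))).comp (fderiv ℝ (fderiv ℝ F) x)) x := by
  have h1 : HasFDerivAt (fderiv ℝ F) (fderiv ℝ (fderiv ℝ F) x) x :=
    (((hF.fderiv_right (m := ∞) (le_of_eq rfl)).differentiable (by simp)) x).hasFDerivAt
  exact ((ContinuousLinearMap.apply ℝ (EuclideanSpace ℝ (Fin 4))
      (EuclideanSpace.single i (1 : ℝ))).hasFDerivAt).comp x h1

theorem jac_comp {F : EuclideanSpace ℝ (Fin 2) → EuclideanSpace ℝ (Fin 4)}
    (hF : ContDiff ℝ ∞ F) (i : Fin 2) (y : EuclideanSpace ℝ (Fin 4)) :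
    HasFDerivAt (fun z => d1 F i (jacX z)) (((ContinuousLinearMap.apply ℝ (EuclideanSpace ℝ (Fin 4))
      (EuclideanSpace.single i (1 : ℝ))).comp (fderiv ℝ (fderiv ℝ F) (jacX y))).comp jacX) y :=
  (jac_hasFDerivAt_d1 hF i (jacX y)).comp y jacX.hasFDerivAt

theorem jac_differentiable {F : EuclideanSpace ℝ (Fin 2) → EuclideanSpace ℝ (Fin 4)}
    (hF : ContDiff ℝ ∞ F) (y : EuclideanSpace ℝ (Fin 4)) (hm : minor F (jacX y) ≠ 0) :
    DifferentiableAt ℝ (jacPhi F) y := by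
  have ha : ∀ i k, DifferentiableAt ℝ (fun z : EuclideanSpace ℝ (Fin 4) => d1 F i (jacX z) k) y :=
    fun i k => (differentiableAt_euclidean.1 (jac_comp hF i y).differentiableAt) k
  have hz : ∀ k, DifferentiableAt ℝ (fun z : EuclideanSpace ℝ (Fin 4) => z k) y :=
    fun k => (differentiableAt_euclidean.1 differentiableAt_id) k
  have hmin : DifferentiableAt ℝ (fun z => minor F (jacX z)) y :=
    ((ha 0 0).mul (ha 1 1)).sub ((ha 0 1).mul (ha 1 0))
  have n0 := (((ha 0 1).mul (((hz 2).mul (ha 1 2)).add ((hz 3).mul (ha 1 3)))).sub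
      ((ha 1 1).mul (((hz 2).mul (ha 0 2)).add ((hz 3).mul (ha 0 3)))))
  have n1 := (((ha 1 0).mul (((hz 2).mul (ha 0 2)).add ((hz 3).mul (ha 0 3)))).sub
      ((ha 0 0).mul (((hz 2).mul (ha 1 2)).add ((hz 3).mul (ha 1 3)))))
  have hinv : DifferentiableAt ℝ (fun z => (minor F (jacX z))⁻¹) y :=
    DifferentiableAt.inv (h := fun z => minor F (jacX z)) hmin hm
  have d0 := n0.mul hinv
  have d1' := n1.mul hinv
  rw [differentiableAt_euclidean]
  intro k
  fin_cases k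
  · exact d0
  · exact d1'
  · exact hz 2
  · exact hz 3

theorem jac_last {F : EuclideanSpace ℝ (Fin 2) → EuclideanSpace ℝ (Fin 4)}
    (hF : ContDiff ℝ ∞ F) (y : EuclideanSpace ℝ (Fin 4)) (hm : minor F (jacX y) ≠ 0)
    (k : Fin 4) (hk : k = 2 ∨ k = 3) (v : EuclideanSpace ℝ (Fin 4)) :
    fderiv ℝ (jacPhi F) y v k = v k := by
  have h1 := (jac_differentiable hF y hm).hasFDerivAt
  have h2 : HasFDerivAt (fun z => (EuclideanSpace.proj k : EuclideanSpace ℝ (Fin 4) →L[ℝ] ℝ)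
      (jacPhi F z)) ((EuclideanSpace.proj k : EuclideanSpace ℝ (Fin 4) →L[ℝ] ℝ).comp
        (fderiv ℝ (jacPhi F) y)) y :=
    (EuclideanSpace.proj k : EuclideanSpace ℝ (Fin 4) →L[ℝ] ℝ).hasFDerivAt.comp y h1
  have h3 : (fun z => (EuclideanSpace.proj k : EuclideanSpace ℝ (Fin 4) →L[ℝ] ℝ)
      (jacPhi F z)) = (EuclideanSpace.proj k : EuclideanSpace ℝ (Fin 4) →L[ℝ] ℝ) := by
    funext z
    rcases hk with rfl | rfl <;> rfl
  rw [h3] at h2
  have h4 := h2.unique (EuclideanSpace.proj k : EuclideanSpace ℝ (Fin 4) →L[ℝ] ℝ).hasFDerivAt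
  exact congrArg (fun L : EuclideanSpace ℝ (Fin 4) →L[ℝ] ℝ => L v) h4

theorem jac_first {F : EuclideanSpace ℝ (Fin 2) → EuclideanSpace ℝ (Fin 4)}
    (hF : ContDiff ℝ ∞ F) (y : EuclideanSpace ℝ (Fin 4)) (hm : minor F (jacX y) ≠ 0)
    (i : Fin 2) (v : EuclideanSpace ℝ (Fin 4)) :
    (inner ℝ (fderiv ℝ (jacPhi F) y v) (d1 F i (jacX y)) : ℝ) =
      - inner ℝ (jacPhi F y) (fderiv ℝ (fderiv ℝ F) (jacX y) (jacX v)
        (EuclideanSpace.single i 1)) := by
  have h1 := (jac_differentiable hF y hm).hasFDerivAt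
  have h2 := jac_comp hF i y
  have h3 := h1.inner ℝ h2
  have hmin : ContinuousAt (fun z => minor F (jacX z)) y := by
    have ha : ∀ i k, DifferentiableAt ℝ (fun z : EuclideanSpace ℝ (Fin 4) => d1 F i (jacX z) k) y :=
      fun i k => (differentiableAt_euclidean.1 (jac_comp hF i y).differentiableAt) k
    exact (((ha 0 0).mul (ha 1 1)).sub ((ha 0 1).mul (ha 1 0))).continuousAt
  have h4 : (fun z => (inner ℝ (jacPhi F z) (d1 F i (jacX z)) : ℝ)) =ᶠ[nhds y] fun _ => 0 := by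
    filter_upwards [hmin.eventually_ne hm] with z hz
    exact jac_perp F (jacX z) _ hz i
  have h5 : HasFDerivAt (fun z => (inner ℝ (jacPhi F z) (d1 F i (jacX z)) : ℝ))
      (0 : EuclideanSpace ℝ (Fin 4) →L[ℝ] ℝ) y := (hasFDerivAt_const (0 : ℝ) y).congr_of_eventuallyEq h4
  have h6 := congrArg (fun L : EuclideanSpace ℝ (Fin 4) →L[ℝ] ℝ => L v) (h3.unique h5)
  simp only [ContinuousLinearMap.comp_apply, ContinuousLinearMap.prod_apply,
    fderivInnerCLM_apply, ContinuousLinearMap.apply_apply, zero_apply] at h6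
  linarith

theorem jac_det (M : Matrix (Fin 4) (Fin 4) ℝ) (h20 : M 2 0 = 0) (h21 : M 2 1 = 0)
    (h22 : M 2 2 = 1) (h23 : M 2 3 = 0) (h30 : M 3 0 = 0) (h31 : M 3 1 = 0) (h32 : M 3 2 = 0)
    (h33 : M 3 3 = 1) : M.det = M 0 0 * M 1 1 - M 0 1 * M 1 0 := by
  rw [Matrix.det_succ_row M 3]
  simp only [Fin.sum_univ_four, h30, h31, h32, h33]
  simp [Matrix.det_fin_three, Fin.succAbove, h20, h21, h22, h23]
  ring

/-- B6 (file Jac.lean): the derivative of the parametrisation of the normal bundle. -/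
theorem nrm_jac {F : EuclideanSpace ℝ (Fin 2) → EuclideanSpace ℝ (Fin 4)}
    (hF : ContDiff ℝ ∞ F) (y : EuclideanSpace ℝ (Fin 4)) (hm : minor F !₂[y 0, y 1] ≠ 0) :
    DifferentiableAt ℝ (fun z : EuclideanSpace ℝ (Fin 4) =>
      nrm F !₂[z 0, z 1] !₂[z 2, z 3]) y ∧
    |(fderiv ℝ (fun z : EuclideanSpace ℝ (Fin 4) =>
      nrm F !₂[z 0, z 1] !₂[z 2, z 3]) y).det| =
      |qf F 0 0 !₂[y 0, y 1] (nrm F !₂[y 0, y 1] !₂[y 2, y 3])
          * qf F 1 1 !₂[y 0, y 1] (nrm F !₂[y 0, y 1] !₂[y 2, y 3])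
        - qf F 0 1 !₂[y 0, y 1] (nrm F !₂[y 0, y 1] !₂[y 2, y 3]) ^ 2|
        / |minor F !₂[y 0, y 1]| := by
  have hm' : minor F (jacX y) ≠ 0 := hm
  refine ⟨jac_differentiable hF y hm', ?_⟩
  change |(fderiv ℝ (jacPhi F) y).det| = |qf F 0 0 (jacX y) (jacPhi F y)
          * qf F 1 1 (jacX y) (jacPhi F y) - qf F 0 1 (jacX y) (jacPhi F y) ^ 2|
        / |minor F (jacX y)|
  set P := fderiv ℝ (jacPhi F) y with hP
  have hlast := jac_last hF y hm'
  have hfirst := jac_first hF y hm'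
  rw [← hP] at hlast hfirst
  -- the matrix of `P`
  set b := (EuclideanSpace.basisFun (Fin 4) ℝ).toBasis with hb
  set M := LinearMap.toMatrix b b (P : EuclideanSpace ℝ (Fin 4) →ₗ[ℝ] EuclideanSpace ℝ (Fin 4))
    with hM
  have hentry : ∀ k j, M k j = P (EuclideanSpace.single j 1) k := by
    intro k j
    rw [hM, LinearMap.toMatrix_apply, hb]
    simp
  have hdet : P.det = M.det := by
    rw [hM, LinearMap.det_toMatrix]
  have hMdet : M.det = M 0 0 * M 1 1 - M 0 1 * M 1 0 := by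
    apply jac_det
    · rw [hentry, hlast 2 (Or.inl rfl)]; simp
    · rw [hentry, hlast 2 (Or.inl rfl)]; simp
    · rw [hentry, hlast 2 (Or.inl rfl)]; simp
    · rw [hentry, hlast 2 (Or.inl rfl)]; simp
    · rw [hentry, hlast 3 (Or.inr rfl)]; simp
    · rw [hentry, hlast 3 (Or.inr rfl)]; simp
    · rw [hentry, hlast 3 (Or.inr rfl)]; simp
    · rw [hentry, hlast 3 (Or.inr rfl)]; simp
  have hinner : ∀ (j : Fin 4) (i : Fin 2), j = 0 ∨ j = 1 →
      (inner ℝ (P (EuclideanSpace.single j 1)) (d1 F i (jacX y)) : ℝ) =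
        M 0 j * d1 F i (jacX y) 0 + M 1 j * d1 F i (jacX y) 1 := by
    intro j i hj
    rw [PiLp.inner_apply, Fin.sum_univ_four, hlast 2 (Or.inl rfl), hlast 3 (Or.inr rfl), hentry,
      hentry]
    rcases hj with rfl | rfl <;> simp <;> ring
  have e00 := hfirst 0 (EuclideanSpace.single 0 1)
  have e01 := hfirst 1 (EuclideanSpace.single 0 1)
  have e10 := hfirst 0 (EuclideanSpace.single 1 1)
  have e11 := hfirst 1 (EuclideanSpace.single 1 1)
  rw [hinner 0 0 (Or.inl rfl), jacX_zero] at e00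
  rw [hinner 0 1 (Or.inl rfl), jacX_zero] at e01
  rw [hinner 1 0 (Or.inr rfl), jacX_one] at e10
  rw [hinner 1 1 (Or.inr rfl), jacX_one] at e11
  have hsymm : fderiv ℝ (fderiv ℝ F) (jacX y) (EuclideanSpace.single 1 1)
      (EuclideanSpace.single 0 1) = fderiv ℝ (fderiv ℝ F) (jacX y) (EuclideanSpace.single 0 1)
      (EuclideanSpace.single 1 1) :=
    (hF.contDiffAt.isSymmSndFDerivAt (by simp; exact WithTop.coe_le_coe.2 le_top)) _ _
  rw [hsymm] at e10
  have hq00 : qf F 0 0 (jacX y) (jacPhi F y) = inner ℝ (jacPhi F y)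
      (fderiv ℝ (fderiv ℝ F) (jacX y) (EuclideanSpace.single 0 1) (EuclideanSpace.single 0 1)) := rfl
  have hq01 : qf F 0 1 (jacX y) (jacPhi F y) = inner ℝ (jacPhi F y)
      (fderiv ℝ (fderiv ℝ F) (jacX y) (EuclideanSpace.single 0 1) (EuclideanSpace.single 1 1)) := rfl
  have hq11 : qf F 1 1 (jacX y) (jacPhi F y) = inner ℝ (jacPhi F y)
      (fderiv ℝ (fderiv ℝ F) (jacX y) (EuclideanSpace.single 1 1) (EuclideanSpace.single 1 1)) := rfl
  rw [← hq00] at e00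
  rw [← hq01] at e01
  rw [← hq01] at e10
  rw [← hq11] at e11
  have key : (M 0 0 * M 1 1 - M 0 1 * M 1 0) * minor F (jacX y) =
      qf F 0 0 (jacX y) (jacPhi F y) * qf F 1 1 (jacX y) (jacPhi F y)
        - qf F 0 1 (jacX y) (jacPhi F y) ^ 2 := by
    have f00 : qf F 0 0 (jacX y) (jacPhi F y) =
      -(M 0 0 * d1 F 0 (jacX y) 0 + M 1 0 * d1 F 0 (jacX y) 1) := by linarith
    have f11 : qf F 1 1 (jacX y) (jacPhi F y) =
      -(M 0 1 * d1 F 1 (jacX y) 0 + M 1 1 * d1 F 1 (jacX y) 1) := by linarith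
    have f01 : qf F 0 1 (jacX y) (jacPhi F y) ^ 2 =
      (M 0 0 * d1 F 1 (jacX y) 0 + M 1 0 * d1 F 1 (jacX y) 1) *
        (M 0 1 * d1 F 0 (jacX y) 0 + M 1 1 * d1 F 0 (jacX y) 1) := by
      rw [e01, e10]; ring
    rw [f00, f11, f01]
    unfold minor
    ring
  rw [hdet, hMdet, ← key, abs_mul]
  field_simp

end Pool.Agent.Lib_MP_752436_gt
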