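import Pool.Agent.Lib_MP_752436_gt.CurvOn
import Pool.Agent.Lib_MP_752436_gt.WBirths

/-!
The number of births is bounded by the total positive curvature of the projection.
-/

open MeasureTheory Metric Set
open scoped ContDiff ENNReal Topology

namespace Pool.Agent.Lib_MP_752436_gt

/-- I (file KBirths.lean, uses D, E2, F, H, G) -/
theorem curvature_births {F : EuclideanSpace ℝ (Fin 2) → EuclideanSpace ℝ (Fin 4)}
    (hF : IsSliceDisc F)
    (hc : {x | x ∈ closedBall (0 : EuclideanSpace ℝ (Fin 2)) 1 ∧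
      nvec (projThree F) x = 0}.Countable) :
    ∃ G, MorseDisc G ∧ (births G).Finite ∧
      ENNReal.ofReal (4 * Real.pi * (births G).ncard) ≤ totalPosCurvature (projThree F) ∧
      (∀ x, ∀ i, i ≠ 3 → G x i = F x i) ∧
      ∀ s ∈ Icc (0 : ℝ) 1, IsSliceDisc (fun x => (1 - s) • F x + s • G x) := by
  have htot : posCurvatureOn (projThree F) (closedBall 0 1) = totalPosCurvature (projThree F) := by
    unfold posCurvatureOn totalPosCurvature
    apply setLIntegral_congr
    have h1 : closedBall (0 : EuclideanSpace ℝ (Fin 2)) 1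
        = ball (0 : EuclideanSpace ℝ (Fin 2)) 1 ∪ sphere 0 1 := ball_union_sphere.symm
    rw [h1]
    have h2 : volume (sphere (0 : EuclideanSpace ℝ (Fin 2)) 1) = 0 :=
      Measure.addHaar_sphere _ _ _
    exact union_ae_eq_left_of_ae_eq_empty (ae_eq_empty.2 h2)
  rw [← htot]
  by_cases htop : posCurvatureOn (projThree F) (closedBall 0 1) = ⊤
  · obtain ⟨G, h1, h2, _, h4, h5⟩ := willmore_births hF
    exact ⟨G, h1, h2, by rw [htop]; exact le_top, h4, h5⟩
  have hpi := Real.pi_pos
  set T : ℝ := (posCurvatureOn (projThree F) (closedBall 0 1)).toReal with hT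
  have hT0 : 0 ≤ T := ENNReal.toReal_nonneg
  have hTeq : posCurvatureOn (projThree F) (closedBall 0 1) = ENNReal.ofReal T :=
    (ENNReal.ofReal_toReal htop).symm
  set n : ℕ := ⌊T / (4 * Real.pi)⌋₊ with hn
  have hn1 : 4 * Real.pi * n ≤ T := by
    have := Nat.floor_le (div_nonneg hT0 (by positivity : (0 : ℝ) ≤ 4 * Real.pi))
    rw [le_div_iff₀ (by positivity)] at this
    linarith
  have hn2 : T < 4 * Real.pi * (n + 1) := by
    have := Nat.lt_floor_add_one (T / (4 * Real.pi))
    rw [div_lt_iff₀ (by positivity)] at this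
    linarith
  set Q : EuclideanSpace ℝ (Fin 2) → EuclideanSpace ℝ (Fin 3) → Prop :=
    fun x v => nvec (projThree F) x ≠ 0 ∧ lift3 v ∈ badSet F {x} with hQ
  set ρ : Measure (EuclideanSpace ℝ (Fin 2)) := ENNReal.ofReal (1 / 3) •
    volume.withDensity (fun x => ENNReal.ofReal
      (gaussCurvature (projThree F) x * ‖nvec (projThree F) x‖)) with hρ
  have hρO : ∀ O, MeasurableSet O →
      ρ O = ENNReal.ofReal (1 / 3) * posCurvatureOn (projThree F) O := by
    intro O hO
    rw [hρ, Measure.smul_apply, withDensity_apply _ hO]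
    rfl
  set E1 : Set (EuclideanSpace ℝ (Fin 3)) :=
    {v | lift3 v ∈ degSet F {x | x ∈ closedBall 0 1 ∧ nvec (projThree F) x ≠ 0}} with hE1
  set E2 : Set (EuclideanSpace ℝ (Fin 3)) :=
    {v | ∃ x ∈ closedBall (0 : EuclideanSpace ℝ (Fin 2)) 1, nvec (projThree F) x = 0 ∧
        ∀ u, (inner ℝ (lift3 v) (fderiv ℝ F x u) : ℝ) = 0} with hE2
  set E3 : Set (EuclideanSpace ℝ (Fin 3)) :=
    {v | ∃ x ∈ sphere (0 : EuclideanSpace ℝ (Fin 2)) 1,
      nvec (projThree F) x ≠ 0 ∧ lift3 v ∈ badSet F {x}} ∩ ball 0 1 with hE3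
  have hE10 : volume E1 = 0 := volume_deg_lift hF
  have hE20 : volume E2 = 0 := volume_sing_lift hF hc
  have hE30 : volume E3 = 0 := by
    have h1 := badSet_lift_le hF (O := sphere (0 : EuclideanSpace ℝ (Fin 2)) 1)
      isClosed_sphere.measurableSet sphere_subset_closedBall
    have h2 : posCurvatureOn (projThree F) (sphere (0 : EuclideanSpace ℝ (Fin 2)) 1) = 0 := by
      unfold posCurvatureOn
      exact setLIntegral_measure_zero _ _ (Measure.addHaar_sphere _ _ _)
    rw [h2, mul_zero] at h1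
    exact le_antisymm h1 bot_le
  have hE0 : volume (E1 ∪ E2 ∪ E3) = 0 :=
    measure_union_null (measure_union_null hE10 hE20) hE30
  obtain ⟨v, hvb, hvE, hfew⟩ := exists_few volume (closedBall 0 1)
    measurableSet_closedBall Q ρ (ball 0 1) (E1 ∪ E2 ∪ E3) hE0 n
    (by
      intro O hO hOK
      rw [hρO O hO]
      exact badSet_lift_le hF hO hOK)
    (by
      rw [hρO _ measurableSet_closedBall, hTeq, volume_ball_three,
        ← ENNReal.ofReal_mul (by norm_num)]
      have e1 : ((n : ℝ≥0∞) + 1) = ENNReal.ofReal ((n : ℝ) + 1) := by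
        rw [ENNReal.ofReal_add (by positivity) (by norm_num), ENNReal.ofReal_natCast,
          ENNReal.ofReal_one]
      rw [e1, ← ENNReal.ofReal_mul (by positivity)]
      apply (ENNReal.ofReal_lt_ofReal_iff (by positivity)).2
      nlinarith)
  have hv1 : v ∉ E1 := fun h => hvE (Or.inl (Or.inl h))
  have hv2 : v ∉ E2 := fun h => hvE (Or.inl (Or.inr h))
  have hv3 : v ∉ E3 := fun h => hvE (Or.inr h)
  have hreg : ∀ x ∈ closedBall (0 : EuclideanSpace ℝ (Fin 2)) 1, lift3 v ∈ badSet F {x} →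
      nvec (projThree F) x ≠ 0 := by
    intro x hx hbad h0
    obtain ⟨y, hy, hp, _⟩ := hbad
    rw [mem_singleton_iff] at hy
    subst hy
    exact hv2 ⟨y, hx, h0, hp⟩
  have hset : {x | x ∈ closedBall (0 : EuclideanSpace ℝ (Fin 2)) 1 ∧ lift3 v ∈ badSet F {x}}
      = {x | x ∈ closedBall (0 : EuclideanSpace ℝ (Fin 2)) 1 ∧ Q x v} := by
    ext x
    constructor
    · rintro ⟨hx, hb⟩
      exact ⟨hx, hreg x hx hb, hb⟩
    · rintro ⟨hx, _, hb⟩
      exact ⟨hx, hb⟩
  obtain ⟨G, h1, h2, h4, h5⟩ := births_of_direction hF (v := lift3 v) (le_of_eq rfl) (n := n)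
    (by rw [hset]; exact hfew)
    (by
      intro x hx hb
      refine ⟨?_, ?_⟩
      · rcases ball_or_sphere hx with h | h
        · exact h
        · exact absurd ⟨⟨x, h, hreg x hx hb, hb⟩, hvb⟩ hv3
      · exact pos_def_of_psd hF.smooth (O := {x | x ∈ closedBall 0 1 ∧
          nvec (projThree F) x ≠ 0}) ⟨hx, hreg x hx hb⟩ hb hv1)
  have hbf : (births G).Finite := Set.finite_of_encard_le_coe h2
  refine ⟨G, h1, hbf, ?_, h4, h5⟩
  rw [hTeq]
  apply ENNReal.ofReal_le_ofReal
  have hnc : (births G).ncard ≤ n := by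
    have := hbf.cast_ncard_eq
    rw [← this] at h2
    exact_mod_cast h2
  have : ((births G).ncard : ℝ) ≤ n := by exact_mod_cast hnc
  have h7 : 4 * Real.pi * ((births G).ncard : ℝ) ≤ 4 * Real.pi * n :=
    mul_le_mul_of_nonneg_left this (by positivity)
  linarith

end Pool.Agent.Lib_MP_752436_gt
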