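import Pool.Agent.Lib_MP_752436_gt.Defs2

/-!
Piece B2: the second moment of half of the unit disc.
-/

open MeasureTheory Metric Set
open scoped ContDiff ENNReal

namespace Pool.Agent.Lib_MP_752436_gt

namespace Moment

/-- rotation by a right angle -/
noncomputable def rot : EuclideanSpace ℝ (Fin 2) ≃ₗᵢ[ℝ] EuclideanSpace ℝ (Fin 2) where
  toFun w := !₂[-(w 1), w 0]
  invFun w := !₂[w 1, -(w 0)]
  map_add' x y := by
    ext i; fin_cases i <;> simp [add_comm]
  map_smul' c x := by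
    ext i; fin_cases i <;> simp
  left_inv x := by
    ext i; fin_cases i <;> simp
  right_inv x := by
    ext i; fin_cases i <;> simp
  norm_map' x := by
    simp [EuclideanSpace.norm_eq, Fin.sum_univ_two, add_comm]

theorem rot_zero (w : EuclideanSpace ℝ (Fin 2)) : rot w 0 = -(w 1) := by
  simp [rot]

theorem rot_one (w : EuclideanSpace ℝ (Fin 2)) : rot w 1 = w 0 := by
  simp [rot]

theorem integral_isometry (L : EuclideanSpace ℝ (Fin 2) ≃ₗᵢ[ℝ] EuclideanSpace ℝ (Fin 2))
    (f : EuclideanSpace ℝ (Fin 2) → ℝ) :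
    ∫ w in ball (0 : EuclideanSpace ℝ (Fin 2)) 1, f (L w) =
      ∫ w in ball (0 : EuclideanSpace ℝ (Fin 2)) 1, f w := by
  have h := L.measurePreserving.setIntegral_preimage_emb
    L.toHomeomorph.measurableEmbedding f (ball 0 1)
  have e : (L : EuclideanSpace ℝ (Fin 2) → EuclideanSpace ℝ (Fin 2)) ⁻¹' (ball 0 1) = ball 0 1 := by
    ext w
    simp
  rw [e] at h
  exact h

theorem integrable_ball (f : EuclideanSpace ℝ (Fin 2) → ℝ) (hf : Continuous f) :
    IntegrableOn f (ball (0 : EuclideanSpace ℝ (Fin 2)) 1) :=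
  (hf.continuousOn.integrableOn_compact
    (isCompact_closedBall (0 : EuclideanSpace ℝ (Fin 2)) 1)).mono_set ball_subset_closedBall

theorem norm_sq_integral :
    ∫ w in ball (0 : EuclideanSpace ℝ (Fin 2)) 1, ‖w‖ ^ 2 = Real.pi / 2 := by
  have h := integral_fun_norm_addHaar (volume : Measure (EuclideanSpace ℝ (Fin 2)))
    (fun y : ℝ => if y < 1 then y ^ 2 else 0)
  have e1 : ∫ w in ball (0 : EuclideanSpace ℝ (Fin 2)) 1, ‖w‖ ^ 2 =
      ∫ w : EuclideanSpace ℝ (Fin 2), (if ‖w‖ < 1 then ‖w‖ ^ 2 else 0) := by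
    rw [← integral_indicator measurableSet_ball]
    refine integral_congr_ae (Filter.Eventually.of_forall fun w => ?_)
    simp only [indicator, mem_ball, dist_zero_right]
  rw [e1, h]
  have e2 : ∫ y in Ioi (0 : ℝ), y ^ (Module.finrank ℝ (EuclideanSpace ℝ (Fin 2)) - 1) •
      (if y < 1 then y ^ 2 else 0) = 1 / 4 := by
    have e3 : ∫ y in Ioi (0 : ℝ), y ^ (Module.finrank ℝ (EuclideanSpace ℝ (Fin 2)) - 1) •
      (if y < 1 then y ^ 2 else 0) = ∫ y in Ioo (0 : ℝ) 1, y ^ 3 := by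
      rw [← integral_indicator measurableSet_Ioi, ← integral_indicator measurableSet_Ioo]
      refine integral_congr_ae (Filter.Eventually.of_forall fun y => ?_)
      simp only [indicator, mem_Ioi, mem_Ioo, finrank_euclideanSpace, Fintype.card_fin,
        smul_eq_mul]
      by_cases h0 : 0 < y
      · by_cases h1 : y < 1
        · simp only [h0, h1, and_self, if_true]; ring
        · simp [h1]
      · simp [h0]
    rw [e3, ← integral_Ioc_eq_integral_Ioo, ← intervalIntegral.integral_of_le zero_le_one,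
      integral_pow]
    norm_num
  rw [e2]
  have e4 : (volume : Measure (EuclideanSpace ℝ (Fin 2))).real (ball 0 1) = Real.pi := by
    rw [measureReal_def, EuclideanSpace.volume_ball]
    simp
    rw [show (1 : ℝ) + 1 = 2 by norm_num, Real.Gamma_two]
    rw [Real.sq_sqrt Real.pi_pos.le, div_one, ENNReal.toReal_ofReal Real.pi_pos.le]
  rw [e4]
  simp
  ring

theorem inner_eq (h w : EuclideanSpace ℝ (Fin 2)) :
    (inner ℝ h w : ℝ) = h 0 * w 0 + h 1 * w 1 := by
  rw [PiLp.inner_apply, Fin.sum_univ_two]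
  simp
  ring

theorem full_moment (h : EuclideanSpace ℝ (Fin 2)) :
    ∫ w in ball (0 : EuclideanSpace ℝ (Fin 2)) 1, (inner ℝ h w : ℝ) ^ 2 =
      Real.pi / 4 * ‖h‖ ^ 2 := by
  have i00 : IntegrableOn (fun w : EuclideanSpace ℝ (Fin 2) => w 0 ^ 2) (ball 0 1) :=
    integrable_ball _ (by fun_prop)
  have i11 : IntegrableOn (fun w : EuclideanSpace ℝ (Fin 2) => w 1 ^ 2) (ball 0 1) :=
    integrable_ball _ (by fun_prop)
  have i01 : IntegrableOn (fun w : EuclideanSpace ℝ (Fin 2) => w 0 * w 1) (ball 0 1) :=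
    integrable_ball _ (by fun_prop)
  have hAB : ∫ w in ball (0 : EuclideanSpace ℝ (Fin 2)) 1, (w 1) ^ 2 =
      ∫ w in ball (0 : EuclideanSpace ℝ (Fin 2)) 1, (w 0) ^ 2 := by
    rw [← integral_isometry rot (fun w => w 0 ^ 2)]
    simp only [rot_zero, neg_sq]
  have hC : ∫ w in ball (0 : EuclideanSpace ℝ (Fin 2)) 1, w 0 * w 1 = 0 := by
    have := integral_isometry rot (fun w => w 0 * w 1)
    simp only [rot_zero, rot_one] at this
    have e : ∫ w in ball (0 : EuclideanSpace ℝ (Fin 2)) 1, -(w 1) * w 0 =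
        - ∫ w in ball (0 : EuclideanSpace ℝ (Fin 2)) 1, w 0 * w 1 := by
      rw [← integral_neg]
      refine integral_congr_ae (Filter.Eventually.of_forall fun w => ?_)
      simp only
      ring
    rw [e] at this
    linarith
  have hA : ∫ w in ball (0 : EuclideanSpace ℝ (Fin 2)) 1, (w 0) ^ 2 = Real.pi / 4 := by
    have h1 := norm_sq_integral
    have e : ∫ w in ball (0 : EuclideanSpace ℝ (Fin 2)) 1, ‖w‖ ^ 2 =
        (∫ w in ball (0 : EuclideanSpace ℝ (Fin 2)) 1, (w 0) ^ 2) +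
        ∫ w in ball (0 : EuclideanSpace ℝ (Fin 2)) 1, (w 1) ^ 2 := by
      rw [← integral_add i00 i11]
      refine integral_congr_ae (Filter.Eventually.of_forall fun w => ?_)
      simp only [EuclideanSpace.norm_sq_eq, Fin.sum_univ_two, Real.norm_eq_abs, sq_abs]
    rw [e, hAB] at h1
    linarith
  have e : ∫ w in ball (0 : EuclideanSpace ℝ (Fin 2)) 1, (inner ℝ h w : ℝ) ^ 2 =
      h 0 ^ 2 * (∫ w in ball (0 : EuclideanSpace ℝ (Fin 2)) 1, (w 0) ^ 2) +
      2 * h 0 * h 1 * (∫ w in ball (0 : EuclideanSpace ℝ (Fin 2)) 1, w 0 * w 1) +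
      h 1 ^ 2 * (∫ w in ball (0 : EuclideanSpace ℝ (Fin 2)) 1, (w 1) ^ 2) := by
    rw [← integral_const_mul, ← integral_const_mul, ← integral_const_mul,
      ← integral_add (i00.const_mul _) (i01.const_mul _),
      ← integral_add (f := fun a : EuclideanSpace ℝ (Fin 2) =>
        h 0 ^ 2 * a 0 ^ 2 + 2 * h 0 * h 1 * (a 0 * a 1))
        ((i00.const_mul _).add (i01.const_mul _)) (i11.const_mul _)]
    refine integral_congr_ae (Filter.Eventually.of_forall fun w => ?_)
    simp only [inner_eq]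
    ring
  rw [e, hC, hAB, hA]
  simp only [EuclideanSpace.norm_sq_eq, Fin.sum_univ_two, Real.norm_eq_abs, sq_abs]
  ring

theorem half_real (h : EuclideanSpace ℝ (Fin 2)) :
    ∫ w in ball (0 : EuclideanSpace ℝ (Fin 2)) 1, (max (inner ℝ h w : ℝ) 0) ^ 2 =
      Real.pi / 8 * ‖h‖ ^ 2 := by
  have hf := full_moment h
  have hc : Continuous fun w : EuclideanSpace ℝ (Fin 2) => (max (inner ℝ h w : ℝ) 0) ^ 2 := by
    fun_prop
  have hc' : Continuous fun w : EuclideanSpace ℝ (Fin 2) =>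
      (max (inner ℝ h (-w) : ℝ) 0) ^ 2 := by
    fun_prop
  have e : ∫ w in ball (0 : EuclideanSpace ℝ (Fin 2)) 1, (inner ℝ h w : ℝ) ^ 2 =
      (∫ w in ball (0 : EuclideanSpace ℝ (Fin 2)) 1, (max (inner ℝ h w : ℝ) 0) ^ 2) +
      ∫ w in ball (0 : EuclideanSpace ℝ (Fin 2)) 1, (max (inner ℝ h (-w) : ℝ) 0) ^ 2 := by
    rw [← integral_add (integrable_ball _ hc) (integrable_ball _ hc')]
    refine integral_congr_ae (Filter.Eventually.of_forall fun w => ?_)
    simp only [inner_neg_right]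
    rcases le_total 0 (inner ℝ h w : ℝ) with h0 | h0
    · rw [max_eq_left h0, max_eq_right (by linarith)]; ring
    · rw [max_eq_right h0, max_eq_left (by linarith)]; ring
  have e2 := integral_isometry (LinearIsometryEquiv.neg ℝ)
    (fun w => (max (inner ℝ h w : ℝ) 0) ^ 2)
  simp only [LinearIsometryEquiv.coe_neg] at e2
  rw [e2, hf] at e
  linarith

end Moment

open Moment

theorem half_moment (h : EuclideanSpace ℝ (Fin 2)) :
    ∫⁻ w in ball (0 : EuclideanSpace ℝ (Fin 2)) 1 ∩ {w | 0 ≤ (inner ℝ h w : ℝ)},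
      ENNReal.ofReal ((inner ℝ h w : ℝ) ^ 2) = ENNReal.ofReal (Real.pi / 8 * ‖h‖ ^ 2) := by
  have hc : Continuous fun w : EuclideanSpace ℝ (Fin 2) => (max (inner ℝ h w : ℝ) 0) ^ 2 := by
    fun_prop
  rw [← half_real h, ofReal_integral_eq_lintegral_ofReal (integrable_ball _ hc)
    (Filter.Eventually.of_forall fun w => by positivity)]
  have hm : MeasurableSet {w : EuclideanSpace ℝ (Fin 2) | 0 ≤ (inner ℝ h w : ℝ)} :=
    (isClosed_le continuous_const (by fun_prop)).measurableSet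
  rw [← lintegral_indicator (measurableSet_ball.inter hm),
    ← lintegral_indicator measurableSet_ball]
  refine lintegral_congr fun w => ?_
  by_cases h1 : w ∈ ball (0 : EuclideanSpace ℝ (Fin 2)) 1
  · by_cases h2 : 0 ≤ (inner ℝ h w : ℝ)
    · have h3 : w ∈ ball (0 : EuclideanSpace ℝ (Fin 2)) 1 ∩ {w | 0 ≤ (inner ℝ h w : ℝ)} :=
        ⟨h1, h2⟩
      rw [indicator_of_mem h3, indicator_of_mem h1, max_eq_left h2]
    · have h3 : w ∉ ball (0 : EuclideanSpace ℝ (Fin 2)) 1 ∩ {w | 0 ≤ (inner ℝ h w : ℝ)} :=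
        fun hh => h2 hh.2
      rw [indicator_of_notMem h3, indicator_of_mem h1, max_eq_right (not_le.1 h2).le]
      simp
  · have h3 : w ∉ ball (0 : EuclideanSpace ℝ (Fin 2)) 1 ∩ {w | 0 ≤ (inner ℝ h w : ℝ)} :=
        fun hh => h1 hh.1
    rw [indicator_of_notMem h3, indicator_of_notMem h1]

end Pool.Agent.Lib_MP_752436_gt
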