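import Pool.Agent.Lib_MP_752436_gt.Defs2

/-!
Piece B4: the explicit parametrisation of the normal spaces.
-/

open MeasureTheory Metric Set
open scoped ContDiff ENNReal

namespace Pool.Agent.Lib_MP_752436_gt

theorem normal_expand (F : EuclideanSpace ℝ (Fin 2) → EuclideanSpace ℝ (Fin 4))
    (x u : EuclideanSpace ℝ (Fin 2)) :
    fderiv ℝ F x u = u 0 • d1 F 0 x + u 1 • d1 F 1 x := by
  have hu : u = u 0 • EuclideanSpace.single (0 : Fin 2) (1 : ℝ)
      + u 1 • EuclideanSpace.single (1 : Fin 2) (1 : ℝ) := by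
    ext i
    fin_cases i <;> simp
  conv_lhs => rw [hu]
  rw [map_add, map_smul, map_smul]
  rfl

theorem normal_inner4 (v w : EuclideanSpace ℝ (Fin 4)) :
    (inner ℝ v w : ℝ) = v 0 * w 0 + v 1 * w 1 + v 2 * w 2 + v 3 * w 3 := by
  rw [PiLp.inner_apply, Fin.sum_univ_four]
  simp only [RCLike.inner_apply, conj_trivial]
  ring

/-- B4 (file Normal.lean) -/
theorem nrm_perp (F : EuclideanSpace ℝ (Fin 2) → EuclideanSpace ℝ (Fin 4))
    (x b : EuclideanSpace ℝ (Fin 2)) (hm : minor F x ≠ 0) (u : EuclideanSpace ℝ (Fin 2)) :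
    inner ℝ (nrm F x b) (fderiv ℝ F x u) = 0 := by
  rw [normal_expand, inner_add_right, inner_smul_right, inner_smul_right]
  have h0 : (inner ℝ (nrm F x b) (d1 F 0 x) : ℝ) = 0 := by
    rw [normal_inner4]
    simp only [nrm, PiLp.toLp_apply, Matrix.cons_val_zero, Matrix.cons_val_one, Matrix.cons_val]
    field_simp
    unfold minor
    ring
  have h1 : (inner ℝ (nrm F x b) (d1 F 1 x) : ℝ) = 0 := by
    rw [normal_inner4]
    simp only [nrm, PiLp.toLp_apply, Matrix.cons_val_zero, Matrix.cons_val_one, Matrix.cons_val]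
    field_simp
    unfold minor
    ring
  rw [h0, h1]
  simp

/-- B4 (file Normal.lean) -/
theorem eq_nrm (F : EuclideanSpace ℝ (Fin 2) → EuclideanSpace ℝ (Fin 4))
    (x : EuclideanSpace ℝ (Fin 2)) (hm : minor F x ≠ 0) (v : EuclideanSpace ℝ (Fin 4))
    (hv : ∀ u, inner ℝ v (fderiv ℝ F x u) = 0) : v = nrm F x !₂[v 2, v 3] := by
  have h0 : (inner ℝ v (d1 F 0 x) : ℝ) = 0 := hv _
  have h1 : (inner ℝ v (d1 F 1 x) : ℝ) = 0 := hv _
  rw [normal_inner4] at h0 h1
  ext i
  fin_cases i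
  · simp only [nrm, PiLp.toLp_apply, Matrix.cons_val_zero, Matrix.cons_val_one, Matrix.cons_val,
      Fin.zero_eta]
    field_simp
    unfold minor
    linear_combination (d1 F 1 x 1) * h0 - (d1 F 0 x 1) * h1
  · simp only [nrm, PiLp.toLp_apply, Matrix.cons_val_zero, Matrix.cons_val_one, Matrix.cons_val,
      Fin.mk_one]
    field_simp
    unfold minor
    linear_combination (d1 F 0 x 0) * h1 - (d1 F 1 x 0) * h0
  · simp [nrm]
  · simp [nrm]

/-- B4 (file Normal.lean) -/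
theorem gram_nrm (F : EuclideanSpace ℝ (Fin 2) → EuclideanSpace ℝ (Fin 4))
    (x : EuclideanSpace ℝ (Fin 2)) (hm : minor F x ≠ 0) :
    (inner ℝ (nrm F x !₂[1, 0]) (nrm F x !₂[1, 0]) : ℝ)
        * inner ℝ (nrm F x !₂[0, 1]) (nrm F x !₂[0, 1])
      - inner ℝ (nrm F x !₂[1, 0]) (nrm F x !₂[0, 1]) ^ 2 = gdet F x / minor F x ^ 2 := by
  unfold gdet gm
  simp only [normal_inner4]
  simp only [nrm, PiLp.toLp_apply, Matrix.cons_val_zero, Matrix.cons_val_one, Matrix.cons_val]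
  field_simp
  unfold minor
  ring

end Pool.Agent.Lib_MP_752436_gt
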