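import Pool.Agent.Lib_MP_752436_gt.Enclosed
import Pool.Agent.Lib_MP_752436_gt.CurvMain

/-!
The obstacle of a slice disc: its upper double points and the singular points of its projection.
-/

open MeasureTheory Metric Set
open scoped ContDiff ENNReal Topology

namespace Pool.Agent.Lib_MP_752436_gt

/-- The singular points of the projection: the points of the disc at which the projection to
`R^3` is not an immersion. -/
def singularSet (F : EuclideanSpace ℝ (Fin 2) → EuclideanSpace ℝ (Fin 4)) :
    Set (EuclideanSpace ℝ (Fin 2)) :=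
  {x | x ∈ closedBall (0 : EuclideanSpace ℝ (Fin 2)) 1 ∧ nvec (projThree F) x = 0}

/-- The part of the disc enclosed by `U`: the points which cannot be joined to the unit circle by
a path in the closed disc which avoids `U`. -/
def enclosedBy (U : Set (EuclideanSpace ℝ (Fin 2))) : Set (EuclideanSpace ℝ (Fin 2)) :=
  {x | x ∈ closedBall (0 : EuclideanSpace ℝ (Fin 2)) 1 ∧
    ∀ y ∈ sphere (0 : EuclideanSpace ℝ (Fin 2)) 1,
      ¬ JoinedIn (closedBall (0 : EuclideanSpace ℝ (Fin 2)) 1 \ U) x y}

/-- Off the singular points the projection is an immersion. -/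
theorem immersed_of_nvec {F : EuclideanSpace ℝ (Fin 2) → EuclideanSpace ℝ (Fin 4)}
    (hF : ContDiff ℝ ∞ F) {x : EuclideanSpace ℝ (Fin 2)} (hn : nvec (projThree F) x ≠ 0)
    {u : EuclideanSpace ℝ (Fin 2)} (hu : ∀ i, i ≠ 3 → fderiv ℝ F x u i = 0) : u = 0 := by
  set a := pd (projThree F) 0 x with ha
  set b := pd (projThree F) 1 x with hb
  have hu' : u = u 0 • EuclideanSpace.single (0 : Fin 2) (1 : ℝ)
      + u 1 • EuclideanSpace.single (1 : Fin 2) (1 : ℝ) := by
    ext i
    fin_cases i <;> simp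
  have h0 : fderiv ℝ (projThree F) x u = 0 := by
    rw [fderiv_projThree hF, P3_apply, hu 0 (by decide), hu 1 (by decide), hu 2 (by decide)]
    ext i
    fin_cases i <;> rfl
  have h1 : u 0 • a + u 1 • b = 0 := by
    rw [← h0]
    conv_rhs => rw [hu']
    rw [map_add, map_smul, map_smul]
    rfl
  have e0 : u 0 * a 0 + u 1 * b 0 = 0 := by
    simpa using congrArg (fun w : EuclideanSpace ℝ (Fin 3) => w 0) h1
  have e1 : u 0 * a 1 + u 1 * b 1 = 0 := by
    simpa using congrArg (fun w : EuclideanSpace ℝ (Fin 3) => w 1) h1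
  have e2 : u 0 * a 2 + u 1 * b 2 = 0 := by
    simpa using congrArg (fun w : EuclideanSpace ℝ (Fin 3) => w 2) h1
  by_contra hne
  have hor : u 0 ≠ 0 ∨ u 1 ≠ 0 := by
    by_contra hcon
    push Not at hcon
    apply hne
    ext i
    fin_cases i
    · exact hcon.1
    · exact hcon.2
  apply hn
  have hkey : ∀ i : Fin 3, cross a b i = 0 := by
    intro i
    rcases hor with h | h
    · apply (mul_eq_zero.1 (?_ : u 0 * cross a b i = 0)).resolve_left h
      fin_cases i
      · show u 0 * (a 1 * b 2 - a 2 * b 1) = 0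
        linear_combination (b 2) * e1 - (b 1) * e2
      · show u 0 * (a 2 * b 0 - a 0 * b 2) = 0
        linear_combination (b 0) * e2 - (b 2) * e0
      · show u 0 * (a 0 * b 1 - a 1 * b 0) = 0
        linear_combination (b 1) * e0 - (b 0) * e1
    · apply (mul_eq_zero.1 (?_ : u 1 * cross a b i = 0)).resolve_left h
      fin_cases i
      · show u 1 * (a 1 * b 2 - a 2 * b 1) = 0
        linear_combination (a 1) * e2 - (a 2) * e1
      · show u 1 * (a 2 * b 0 - a 0 * b 2) = 0
        linear_combination (a 2) * e0 - (a 0) * e2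
      · show u 1 * (a 0 * b 1 - a 1 * b 0) = 0
        linear_combination (a 0) * e1 - (a 1) * e0
  show cross a b = 0
  ext i
  exact hkey i

/-- The projection is injective near every nonsingular point. -/
theorem exists_injOn_nonsing {F : EuclideanSpace ℝ (Fin 2) → EuclideanSpace ℝ (Fin 4)}
    (hF : ContDiff ℝ ∞ F) {x₀ : EuclideanSpace ℝ (Fin 2)} (hn : nvec (projThree F) x₀ ≠ 0) :
    ∃ r : ℝ, 0 < r ∧ InjOn (projThree F) (ball x₀ r) := by
  have hsm := contDiff_projThree hF
  have hst := (hsm.contDiffAt (x := x₀)).hasStrictFDerivAt (by simp)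
  refine shadow_locInj hst ?_
  intro u hu h0
  apply hu
  apply immersed_of_nvec hF hn
  rw [fderiv_projThree hF] at h0
  have h2 : ∀ k : Fin 3, (!₂[fderiv ℝ F x₀ u 0, fderiv ℝ F x₀ u 1, fderiv ℝ F x₀ u 2] :
      EuclideanSpace ℝ (Fin 3)) k = 0 := by
    intro k
    rw [← P3_apply, h0]
    rfl
  intro i hi
  fin_cases i
  · exact h2 0
  · exact h2 1
  · exact h2 2
  · exact absurd rfl hi

theorem isClosed_singularSet {F : EuclideanSpace ℝ (Fin 2) → EuclideanSpace ℝ (Fin 4)}
    (hF : ContDiff ℝ ∞ F) : IsClosed (singularSet F) :=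
  isClosed_closedBall.inter (isClosed_eq (continuous_nvec (contDiff_projThree hF))
    continuous_const)

/-- The upper double points and the singular points form a compact set. -/
theorem isCompact_obstacle {F : EuclideanSpace ℝ (Fin 2) → EuclideanSpace ℝ (Fin 4)}
    (hF : IsSliceDisc F) : IsCompact (upperSet F ∪ singularSet F) := by
  have hcont : ∀ i : Fin 4, Continuous (fun x => F x i) := fun i =>
    (contDiff_euclidean.mp hF.smooth i).continuous
  have hD : IsCompact (closedBall (0 : EuclideanSpace ℝ (Fin 2)) 1) := isCompact_closedBall _ _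
  refine hD.of_isClosed_subset ?_ (by
    rintro x (hx | hx)
    · exact hx.1
    · exact hx.1)
  apply IsSeqClosed.isClosed
  intro xs x hxs hx
  have hxD : x ∈ closedBall (0 : EuclideanSpace ℝ (Fin 2)) 1 := by
    refine isClosed_closedBall.mem_of_tendsto hx (Filter.Eventually.of_forall fun n => ?_)
    rcases hxs n with h | h
    · exact h.1
    · exact h.1
  by_cases hsing : nvec (projThree F) x = 0
  · exact Or.inr ⟨hxD, hsing⟩
  left
  have hev : ∀ᶠ n in Filter.atTop, nvec (projThree F) (xs n) ≠ 0 :=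
    ((continuous_nvec (contDiff_projThree hF.smooth)).continuousAt.tendsto.comp hx).eventually_ne
      hsing
  obtain ⟨N, hN⟩ := Filter.eventually_atTop.1 hev
  have hup : ∀ n, xs (n + N) ∈ upperSet F := by
    intro n
    rcases hxs (n + N) with h | h
    · exact h
    · exact absurd h.2 (hN _ (Nat.le_add_left _ _))
  choose hu1 ys hys hab using hup
  obtain ⟨y, hy, φ, hφ, hlim⟩ := hD.tendsto_subseq hys
  have hx' : Filter.Tendsto (fun n => xs (φ n + N)) Filter.atTop (𝓝 x) :=
    hx.comp ((Filter.tendsto_add_atTop_nat N).comp hφ.tendsto_atTop)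
  have hproj : ∀ i, i ≠ 3 → F x i = F y i := by
    intro i hi
    have h1 := ((hcont i).tendsto x).comp hx'
    have h2 := ((hcont i).tendsto y).comp hlim
    refine tendsto_nhds_unique h1 (h2.congr fun n => ?_)
    exact ((hab (φ n)).1 i hi).symm
  have hle : F y 3 ≤ F x 3 := by
    have h1 := ((hcont 3).tendsto x).comp hx'
    have h2 := ((hcont 3).tendsto y).comp hlim
    exact le_of_tendsto_of_tendsto' h2 h1 fun n => (hab (φ n)).2.le
  have hne : x ≠ y := by
    rintro rfl
    obtain ⟨r, hr, hinj⟩ := exists_injOn_nonsing hF.smooth hsing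
    have e1 := hx'.eventually (ball_mem_nhds x hr)
    have e2 := hlim.eventually (ball_mem_nhds x hr)
    obtain ⟨n, h1, h2⟩ := (e1.and e2).exists
    have h3 : xs (φ n + N) = ys (φ n) := by
      apply hinj h1 h2
      have := (hab (φ n)).1
      show (!₂[F (xs (φ n + N)) 0, F (xs (φ n + N)) 1, F (xs (φ n + N)) 2] :
        EuclideanSpace ℝ (Fin 3)) = !₂[F (ys (φ n)) 0, F (ys (φ n)) 1, F (ys (φ n)) 2]
      rw [this 0 (by decide), this 1 (by decide), this 2 (by decide)]
    have h4 := (hab (φ n)).2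
    rw [h3] at h4
    exact lt_irrefl _ h4
  refine ⟨hxD, y, hy, hproj, lt_of_le_of_ne hle fun h => hne ?_⟩
  apply hF.inj hxD hy
  ext i
  by_cases hi : i = 3
  · subst hi
    exact h.symm
  · exact hproj i hi

/-- The enclosed part is compact. -/
theorem isCompact_enclosedBy {U : Set (EuclideanSpace ℝ (Fin 2))} (hU : IsClosed U) :
    IsCompact (enclosedBy U) := by
  refine (isCompact_closedBall (0 : EuclideanSpace ℝ (Fin 2)) 1).of_isClosed_subset ?_
    (fun x hx => hx.1)
  refine isClosed_of_closure_subset ?_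
  intro x hx
  have hxD : x ∈ closedBall (0 : EuclideanSpace ℝ (Fin 2)) 1 :=
    closure_minimal (fun z hz => hz.1) isClosed_closedBall hx
  refine ⟨hxD, ?_⟩
  intro y hy hj
  have hxU : x ∈ Uᶜ := hj.source_mem.2
  obtain ⟨ε, hε, hball⟩ := Metric.isOpen_iff.mp hU.isOpen_compl x hxU
  obtain ⟨x', hx', hd⟩ := Metric.mem_closure_iff.mp hx ε hε
  refine hx'.2 y hy (JoinedIn.trans ?_ hj)
  have hconv : Convex ℝ (closedBall (0 : EuclideanSpace ℝ (Fin 2)) 1 ∩ ball x ε) :=
    (convex_closedBall _ _).inter (convex_ball _ _)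
  have h1 : x' ∈ closedBall (0 : EuclideanSpace ℝ (Fin 2)) 1 ∩ ball x ε := by
    refine ⟨hx'.1, ?_⟩
    rw [mem_ball, dist_comm]
    exact hd
  have h2 : x ∈ closedBall (0 : EuclideanSpace ℝ (Fin 2)) 1 ∩ ball x ε :=
    ⟨hxD, mem_ball_self hε⟩
  have h3 := (hconv.isPathConnected ⟨x, h2⟩).joinedIn x' h1 x h2
  exact h3.mono fun z hz => ⟨hz.1, hball hz.2⟩

/-- A subset of the disc with frontier in `U` is enclosed by `U`. -/
theorem subset_enclosedBy {U Z : Set (EuclideanSpace ℝ (Fin 2))}
    (hZ : Z ⊆ closedBall 0 1) (hfr : frontier Z ⊆ U) (hZc : IsClosed Z) : Z ⊆ enclosedBy U := by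
  intro z hz
  refine ⟨hZ hz, ?_⟩
  intro y hy hj
  obtain ⟨γ, hγ⟩ := hj
  have hyZ : y ∉ Z := by
    intro h
    have h1 : y ∈ frontier Z := by
      rw [hZc.frontier_eq]
      refine ⟨h, fun hyi => ?_⟩
      have h2 := interior_mono hZ hyi
      rw [interior_closedBall _ (one_ne_zero)] at h2
      rw [mem_ball] at h2
      rw [mem_sphere] at hy
      linarith
    have h3 := (hγ 1).2
    rw [γ.target] at h3
    exact h3 (hfr h1)
  have hne : (frontier (γ ⁻¹' Z)).Nonempty := by
    rw [nonempty_frontier_iff]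
    refine ⟨⟨0, ?_⟩, ?_⟩
    · change γ 0 ∈ Z
      rw [γ.source]
      exact hz
    · intro h
      have h1 : (1 : unitInterval) ∈ γ ⁻¹' Z := by
        rw [h]
        trivial
      have h2 : γ 1 ∈ Z := h1
      rw [γ.target] at h2
      exact hyZ h2
  obtain ⟨t, ht⟩ := hne
  have ht' : γ t ∈ frontier Z := γ.continuous.frontier_preimage_subset Z ht
  exact (hγ t).2 (hfr ht')

end Pool.Agent.Lib_MP_752436_gt
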