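import Pool.Agent.Lib_MP_752436_gt.PlaneInt
import Pool.Agent.Lib_MP_752436_gt.Normal
import Pool.Agent.Lib_MP_752436_gt.Curv
import Pool.Agent.Lib_MP_752436_gt.Jac
import Pool.Agent.Lib_MP_752436_gt.Split
import Pool.Agent.Lib_MP_752436_gt.Meas

/-!
The area inequality for the normal bundle parametrisation on a piece of the disc on which the
first minor does not vanish.
-/

open MeasureTheory Metric Set
open scoped ContDiff ENNReal

namespace Pool.Agent.Lib_MP_752436_gt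

theorem measurable_mk4 {α : Type*} [MeasurableSpace α] {f g h k : α → ℝ} (hf : Measurable f)
    (hg : Measurable g) (hh : Measurable h) (hk : Measurable k) :
    Measurable (fun a => (!₂[f a, g a, h a, k a] : EuclideanSpace ℝ (Fin 4))) := by
  apply (WithLp.measurable_toLp 2 (Fin 4 → ℝ)).comp
  rw [measurable_pi_iff]
  intro i
  fin_cases i <;> assumption

theorem measurable_mk2 {α : Type*} [MeasurableSpace α] {f g : α → ℝ} (hf : Measurable f)
    (hg : Measurable g) :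
    Measurable (fun a => (!₂[f a, g a] : EuclideanSpace ℝ (Fin 2))) := by
  apply (WithLp.measurable_toLp 2 (Fin 2 → ℝ)).comp
  rw [measurable_pi_iff]
  intro i
  fin_cases i <;> assumption

section meas

variable {F : EuclideanSpace ℝ (Fin 2) → EuclideanSpace ℝ (Fin 4)}

theorem measurable_d1 (hF : ContDiff ℝ ∞ F) (i : Fin 2) : Measurable (d1 F i) :=
  (continuous_d1 hF i).measurable

theorem measurable_d2 (hF : ContDiff ℝ ∞ F) (i j : Fin 2) : Measurable (d2 F i j) :=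
  (continuous_d2 hF i j).measurable

theorem measurable_gm (hF : ContDiff ℝ ∞ F) (i j : Fin 2) : Measurable (gm F i j) := by
  have h1 := measurable_d1 hF i
  have h2 := measurable_d1 hF j
  unfold gm
  fun_prop

theorem measurable_gdet (hF : ContDiff ℝ ∞ F) : Measurable (gdet F) := by
  have h1 := measurable_gm hF 0 0
  have h2 := measurable_gm hF 0 1
  have h3 := measurable_gm hF 1 1
  unfold gdet
  fun_prop

theorem measurable_minor (hF : ContDiff ℝ ∞ F) : Measurable (minor F) := by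
  have h1 := measurable_d1 hF 0
  have h2 := measurable_d1 hF 1
  unfold minor
  fun_prop

theorem measurable_hvec (hF : ContDiff ℝ ∞ F) : Measurable (hvec F) := by
  have h1 := measurable_gm hF 0 0
  have h2 := measurable_gm hF 0 1
  have h3 := measurable_gm hF 1 1
  have h4 := measurable_gdet hF
  have h5 := measurable_d2 hF 0 0
  have h6 := measurable_d2 hF 0 1
  have h7 := measurable_d2 hF 1 1
  unfold hvec
  fun_prop

theorem measurable_nrm (hF : ContDiff ℝ ∞ F) {α : Type*} [MeasurableSpace α]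
    {f g : α → EuclideanSpace ℝ (Fin 2)} (hf : Measurable f) (hg : Measurable g) :
    Measurable (fun a => nrm F (f a) (g a)) := by
  have h1 := (measurable_d1 hF 0).comp hf
  have h2 := (measurable_d1 hF 1).comp hf
  have h3 := (measurable_minor hF).comp hf
  simp only [Function.comp_def] at h1 h2 h3
  unfold nrm
  apply measurable_mk4 <;> fun_prop

theorem measurable_qf (hF : ContDiff ℝ ∞ F) (i j : Fin 2) {α : Type*} [MeasurableSpace α]
    {f : α → EuclideanSpace ℝ (Fin 2)} {g : α → EuclideanSpace ℝ (Fin 4)} (hf : Measurable f)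
    (hg : Measurable g) :
    Measurable (fun a => qf F i j (f a) (g a)) := by
  have h1 := (measurable_d2 hF i j).comp hf
  simp only [Function.comp_def] at h1
  unfold qf
  fun_prop

end meas

theorem inner_hvec_eq {F : EuclideanSpace ℝ (Fin 2) → EuclideanSpace ℝ (Fin 4)}
    {x : EuclideanSpace ℝ (Fin 2)} (hg : 0 < gdet F x)
    {v : EuclideanSpace ℝ (Fin 4)} (hv : ∀ u, inner ℝ v (fderiv ℝ F x u) = 0) :
    (inner ℝ (meanCurv F x) v : ℝ) = inner ℝ (hvec F x) v := by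
  have h0 : (inner ℝ (d1 F 0 x) v : ℝ) = 0 := by rw [real_inner_comm]; exact hv _
  have h1 : (inner ℝ (d1 F 1 x) v : ℝ) = 0 := by rw [real_inner_comm]; exact hv _
  rw [meanCurv_eq hg, inner_sub_left, inner_sub_left, real_inner_smul_left, real_inner_smul_left,
    h0, h1]
  simp

theorem nrm_eq_smul (F : EuclideanSpace ℝ (Fin 2) → EuclideanSpace ℝ (Fin 4))
    (x b : EuclideanSpace ℝ (Fin 2)) :
    nrm F x b = b 0 • nrm F x !₂[1, 0] + b 1 • nrm F x !₂[0, 1] := by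
  ext i
  fin_cases i <;> simp [nrm] <;> ring

/-- The inner integral. -/
theorem inner_integral_le {F : EuclideanSpace ℝ (Fin 2) → EuclideanSpace ℝ (Fin 4)}
    {x : EuclideanSpace ℝ (Fin 2)} (hm : minor F x ≠ 0) (hg : 0 < gdet F x) :
    ∫⁻ b in {b : EuclideanSpace ℝ (Fin 2) | ‖nrm F x b‖ < 1 ∧
        0 ≤ (inner ℝ (hvec F x) (nrm F x b) : ℝ)},
      ENNReal.ofReal (gdet F x / |minor F x| * (inner ℝ (hvec F x) (nrm F x b) : ℝ) ^ 2) ≤
      ENNReal.ofReal (Real.pi / 8 * (‖meanCurv F x‖ ^ 2 * Real.sqrt (gdet F x))) := by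
  have hinner : ∀ b, (inner ℝ (hvec F x) (nrm F x b) : ℝ)
      = inner ℝ (meanCurv F x) (b 0 • nrm F x !₂[1, 0] + b 1 • nrm F x !₂[0, 1]) := by
    intro b
    rw [← nrm_eq_smul, inner_hvec_eq hg (nrm_perp F x b hm)]
  have hset : {b : EuclideanSpace ℝ (Fin 2) | ‖nrm F x b‖ < 1 ∧
        0 ≤ (inner ℝ (hvec F x) (nrm F x b) : ℝ)}
      = {b : EuclideanSpace ℝ (Fin 2) | ‖b 0 • nrm F x !₂[1, 0] + b 1 • nrm F x !₂[0, 1]‖ < 1 ∧
        0 ≤ (inner ℝ (meanCurv F x)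
          (b 0 • nrm F x !₂[1, 0] + b 1 • nrm F x !₂[0, 1]) : ℝ)} := by
    ext b
    simp only [mem_ofPred_eq]
    rw [hinner b, ← nrm_eq_smul]
  have hmpos : 0 < |minor F x| := abs_pos.2 hm
  have hsq : 0 < Real.sqrt (gdet F x) := Real.sqrt_pos.2 hg
  have hD : 0 < Real.sqrt (gdet F x) / |minor F x| := div_pos hsq hmpos
  have hG := gram_nrm F x hm
  have hG' : (inner ℝ (nrm F x !₂[1, 0]) (nrm F x !₂[1, 0]) : ℝ)
        * inner ℝ (nrm F x !₂[0, 1]) (nrm F x !₂[0, 1])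
      - inner ℝ (nrm F x !₂[1, 0]) (nrm F x !₂[0, 1]) ^ 2
      = (Real.sqrt (gdet F x) / |minor F x|) ^ 2 := by
    rw [hG, div_pow, Real.sq_sqrt hg.le, sq_abs]
  have hmain := plane_moment (nrm F x !₂[1, 0]) (nrm F x !₂[0, 1]) (meanCurv F x) _ hD hG'
  rw [hset]
  calc ∫⁻ b in {b : EuclideanSpace ℝ (Fin 2) |
          ‖b 0 • nrm F x !₂[1, 0] + b 1 • nrm F x !₂[0, 1]‖ < 1 ∧
          0 ≤ (inner ℝ (meanCurv F x)
            (b 0 • nrm F x !₂[1, 0] + b 1 • nrm F x !₂[0, 1]) : ℝ)},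
        ENNReal.ofReal (gdet F x / |minor F x| * (inner ℝ (hvec F x) (nrm F x b) : ℝ) ^ 2)
      = ∫⁻ b in {b : EuclideanSpace ℝ (Fin 2) |
          ‖b 0 • nrm F x !₂[1, 0] + b 1 • nrm F x !₂[0, 1]‖ < 1 ∧
          0 ≤ (inner ℝ (meanCurv F x)
            (b 0 • nrm F x !₂[1, 0] + b 1 • nrm F x !₂[0, 1]) : ℝ)},
        ENNReal.ofReal (gdet F x / |minor F x|) * ENNReal.ofReal ((inner ℝ (meanCurv F x)
            (b 0 • nrm F x !₂[1, 0] + b 1 • nrm F x !₂[0, 1]) : ℝ) ^ 2) := by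
        refine lintegral_congr fun b => ?_
        rw [hinner b, ENNReal.ofReal_mul (by positivity)]
    _ = ENNReal.ofReal (gdet F x / |minor F x|) * ∫⁻ b in {b : EuclideanSpace ℝ (Fin 2) |
          ‖b 0 • nrm F x !₂[1, 0] + b 1 • nrm F x !₂[0, 1]‖ < 1 ∧
          0 ≤ (inner ℝ (meanCurv F x)
            (b 0 • nrm F x !₂[1, 0] + b 1 • nrm F x !₂[0, 1]) : ℝ)},
        ENNReal.ofReal ((inner ℝ (meanCurv F x)
            (b 0 • nrm F x !₂[1, 0] + b 1 • nrm F x !₂[0, 1]) : ℝ) ^ 2) :=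
        lintegral_const_mul' _ _ ENNReal.ofReal_ne_top
    _ ≤ ENNReal.ofReal (gdet F x / |minor F x|) *
        ENNReal.ofReal (Real.pi / 8 * ‖meanCurv F x‖ ^ 2
          / (Real.sqrt (gdet F x) / |minor F x|)) := by gcongr
    _ = ENNReal.ofReal (Real.pi / 8 * (‖meanCurv F x‖ ^ 2 * Real.sqrt (gdet F x))) := by
        rw [← ENNReal.ofReal_mul (by positivity)]
        congr 1
        have h1 : gdet F x = Real.sqrt (gdet F x) * Real.sqrt (gdet F x) :=
          (Real.mul_self_sqrt hg.le).symm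
        have h2 : gdet F x / |minor F x| = Real.sqrt (gdet F x) * Real.sqrt (gdet F x)
          / |minor F x| := by rw [← h1]
        rw [h2]
        field_simp

/-- The set of parameters used in the area inequality. -/
def goodParam (F : EuclideanSpace ℝ (Fin 2) → EuclideanSpace ℝ (Fin 4))
    (O : Set (EuclideanSpace ℝ (Fin 2))) : Set (EuclideanSpace ℝ (Fin 4)) :=
  {z | (!₂[z 0, z 1] : EuclideanSpace ℝ (Fin 2)) ∈ O ∧
    ‖nrm F !₂[z 0, z 1] !₂[z 2, z 3]‖ < 1 ∧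
    0 ≤ (inner ℝ (hvec F !₂[z 0, z 1]) (nrm F !₂[z 0, z 1] !₂[z 2, z 3]) : ℝ) ∧
    0 ≤ qf F 0 0 !₂[z 0, z 1] (nrm F !₂[z 0, z 1] !₂[z 2, z 3])
          * qf F 1 1 !₂[z 0, z 1] (nrm F !₂[z 0, z 1] !₂[z 2, z 3])
        - qf F 0 1 !₂[z 0, z 1] (nrm F !₂[z 0, z 1] !₂[z 2, z 3]) ^ 2 ∧
    qf F 0 0 !₂[z 0, z 1] (nrm F !₂[z 0, z 1] !₂[z 2, z 3])
          * qf F 1 1 !₂[z 0, z 1] (nrm F !₂[z 0, z 1] !₂[z 2, z 3])
        - qf F 0 1 !₂[z 0, z 1] (nrm F !₂[z 0, z 1] !₂[z 2, z 3]) ^ 2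
      ≤ gdet F !₂[z 0, z 1] *
        (inner ℝ (hvec F !₂[z 0, z 1]) (nrm F !₂[z 0, z 1] !₂[z 2, z 3]) : ℝ) ^ 2}

theorem measurableSet_goodParam {F : EuclideanSpace ℝ (Fin 2) → EuclideanSpace ℝ (Fin 4)}
    (hF : ContDiff ℝ ∞ F) {O : Set (EuclideanSpace ℝ (Fin 2))} (hO : MeasurableSet O) :
    MeasurableSet (goodParam F O) := by
  have hx : Measurable (fun z : EuclideanSpace ℝ (Fin 4) =>
      (!₂[z 0, z 1] : EuclideanSpace ℝ (Fin 2))) := measurable_mk2 (by fun_prop) (by fun_prop)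
  have hb : Measurable (fun z : EuclideanSpace ℝ (Fin 4) =>
      (!₂[z 2, z 3] : EuclideanSpace ℝ (Fin 2))) := measurable_mk2 (by fun_prop) (by fun_prop)
  have hn := measurable_nrm hF hx hb
  have h00 := measurable_qf hF 0 0 hx hn
  have h01 := measurable_qf hF 0 1 hx hn
  have h11 := measurable_qf hF 1 1 hx hn
  have hh := (measurable_hvec hF).comp hx
  have hg := (measurable_gdet hF).comp hx
  simp only [Function.comp_def] at hh hg
  have m1 : MeasurableSet {z : EuclideanSpace ℝ (Fin 4) |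
      ‖nrm F !₂[z 0, z 1] !₂[z 2, z 3]‖ < 1} := measurableSet_lt hn.norm measurable_const
  have m2 : MeasurableSet {z : EuclideanSpace ℝ (Fin 4) |
      0 ≤ (inner ℝ (hvec F !₂[z 0, z 1]) (nrm F !₂[z 0, z 1] !₂[z 2, z 3]) : ℝ)} :=
    measurableSet_le measurable_const (by fun_prop)
  have m3 : MeasurableSet {z : EuclideanSpace ℝ (Fin 4) |
      0 ≤ qf F 0 0 !₂[z 0, z 1] (nrm F !₂[z 0, z 1] !₂[z 2, z 3])
          * qf F 1 1 !₂[z 0, z 1] (nrm F !₂[z 0, z 1] !₂[z 2, z 3])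
        - qf F 0 1 !₂[z 0, z 1] (nrm F !₂[z 0, z 1] !₂[z 2, z 3]) ^ 2} :=
    measurableSet_le measurable_const (by fun_prop)
  have m4 : MeasurableSet {z : EuclideanSpace ℝ (Fin 4) |
      qf F 0 0 !₂[z 0, z 1] (nrm F !₂[z 0, z 1] !₂[z 2, z 3])
          * qf F 1 1 !₂[z 0, z 1] (nrm F !₂[z 0, z 1] !₂[z 2, z 3])
        - qf F 0 1 !₂[z 0, z 1] (nrm F !₂[z 0, z 1] !₂[z 2, z 3]) ^ 2
      ≤ gdet F !₂[z 0, z 1] *
        (inner ℝ (hvec F !₂[z 0, z 1]) (nrm F !₂[z 0, z 1] !₂[z 2, z 3]) : ℝ) ^ 2} :=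
    measurableSet_le (by fun_prop) (by fun_prop)
  exact (hx hO).inter (m1.inter (m2.inter (m3.inter m4)))

theorem mem_goodParam {F : EuclideanSpace ℝ (Fin 2) → EuclideanSpace ℝ (Fin 4)}
    {O : Set (EuclideanSpace ℝ (Fin 2))} {z : EuclideanSpace ℝ (Fin 4)}
    {x b : EuclideanSpace ℝ (Fin 2)} (h1 : !₂[z 0, z 1] = x) (h2 : !₂[z 2, z 3] = b)
    (hx : x ∈ O) (hn : ‖nrm F x b‖ < 1) (hh : 0 ≤ (inner ℝ (hvec F x) (nrm F x b) : ℝ))
    (hq : 0 ≤ qf F 0 0 x (nrm F x b) * qf F 1 1 x (nrm F x b) - qf F 0 1 x (nrm F x b) ^ 2)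
    (hq' : qf F 0 0 x (nrm F x b) * qf F 1 1 x (nrm F x b) - qf F 0 1 x (nrm F x b) ^ 2 ≤
      gdet F x * (inner ℝ (hvec F x) (nrm F x b) : ℝ) ^ 2) : z ∈ goodParam F O := by
  subst h1 h2
  exact ⟨hx, hn, hh, hq, hq'⟩

theorem badSet_subset_image {F : EuclideanSpace ℝ (Fin 2) → EuclideanSpace ℝ (Fin 4)}
    (hF : ContDiff ℝ ∞ F) {O : Set (EuclideanSpace ℝ (Fin 2))}
    (hm : ∀ x ∈ O, minor F x ≠ 0) (hg : ∀ x ∈ O, 0 < gdet F x) :
    badSet F O ∩ ball 0 1 ⊆
      (fun z : EuclideanSpace ℝ (Fin 4) => nrm F !₂[z 0, z 1] !₂[z 2, z 3]) '' goodParam F O := by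
  rintro v ⟨⟨x, hx, hv, hq⟩, hvb⟩
  have hxx : (!₂[x 0, x 1] : EuclideanSpace ℝ (Fin 2)) = x := by
    ext i; fin_cases i <;> rfl
  have hvn := eq_nrm F x (hm x hx) v hv
  have hvb' : ‖v‖ < 1 := by simpa using hvb
  obtain ⟨h1, h2, h3⟩ := det_qf_le hF (hg x hx) hv hq
  rw [inner_hvec_eq (hg x hx) hv] at h1 h3
  have hz1 : (!₂[(!₂[x 0, x 1, v 2, v 3] : EuclideanSpace ℝ (Fin 4)) 0,
      (!₂[x 0, x 1, v 2, v 3] : EuclideanSpace ℝ (Fin 4)) 1] : EuclideanSpace ℝ (Fin 2)) = x := by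
    ext i; fin_cases i <;> rfl
  have hz2 : (!₂[(!₂[x 0, x 1, v 2, v 3] : EuclideanSpace ℝ (Fin 4)) 2,
      (!₂[x 0, x 1, v 2, v 3] : EuclideanSpace ℝ (Fin 4)) 3] : EuclideanSpace ℝ (Fin 2))
      = !₂[v 2, v 3] := by
    ext i; fin_cases i <;> rfl
  refine ⟨!₂[x 0, x 1, v 2, v 3], ?_, ?_⟩
  · refine mem_goodParam hz1 hz2 hx ?_ ?_ ?_ ?_ <;> rw [← hvn] <;> assumption
  · show nrm F (!₂[(!₂[x 0, x 1, v 2, v 3] : EuclideanSpace ℝ (Fin 4)) 0,
      (!₂[x 0, x 1, v 2, v 3] : EuclideanSpace ℝ (Fin 4)) 1] : EuclideanSpace ℝ (Fin 2))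
      (!₂[(!₂[x 0, x 1, v 2, v 3] : EuclideanSpace ℝ (Fin 4)) 2,
      (!₂[x 0, x 1, v 2, v 3] : EuclideanSpace ℝ (Fin 4)) 3] : EuclideanSpace ℝ (Fin 2)) = v
    rw [hz1, hz2, ← hvn]

/-- The integrand on `R^2 x R^2`. -/
noncomputable def fint (F : EuclideanSpace ℝ (Fin 2) → EuclideanSpace ℝ (Fin 4))
    (O : Set (EuclideanSpace ℝ (Fin 2))) (x b : EuclideanSpace ℝ (Fin 2)) : ℝ≥0∞ :=
  {p : EuclideanSpace ℝ (Fin 2) × EuclideanSpace ℝ (Fin 2) | p.1 ∈ O ∧ ‖nrm F p.1 p.2‖ < 1 ∧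
    0 ≤ (inner ℝ (hvec F p.1) (nrm F p.1 p.2) : ℝ)}.indicator
    (fun p => ENNReal.ofReal (gdet F p.1 / |minor F p.1| *
      (inner ℝ (hvec F p.1) (nrm F p.1 p.2) : ℝ) ^ 2)) (x, b)

theorem measurable_fint {F : EuclideanSpace ℝ (Fin 2) → EuclideanSpace ℝ (Fin 4)}
    (hF : ContDiff ℝ ∞ F) {O : Set (EuclideanSpace ℝ (Fin 2))} (hO : MeasurableSet O) :
    Measurable (Function.uncurry (fint F O)) := by
  have hn := measurable_nrm hF (measurable_fst : Measurable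
    (Prod.fst : EuclideanSpace ℝ (Fin 2) × EuclideanSpace ℝ (Fin 2) → _))
    (measurable_snd : Measurable
    (Prod.snd : EuclideanSpace ℝ (Fin 2) × EuclideanSpace ℝ (Fin 2) → _))
  have hh := (measurable_hvec hF).comp (measurable_fst : Measurable
    (Prod.fst : EuclideanSpace ℝ (Fin 2) × EuclideanSpace ℝ (Fin 2) → _))
  have hg := (measurable_gdet hF).comp (measurable_fst : Measurable
    (Prod.fst : EuclideanSpace ℝ (Fin 2) × EuclideanSpace ℝ (Fin 2) → _))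
  have hmi := (measurable_minor hF).comp (measurable_fst : Measurable
    (Prod.fst : EuclideanSpace ℝ (Fin 2) × EuclideanSpace ℝ (Fin 2) → _))
  simp only [Function.comp_def] at hh hg hmi
  have habs : Measurable (fun p : EuclideanSpace ℝ (Fin 2) × EuclideanSpace ℝ (Fin 2) =>
      |minor F p.1|) := by
    exact continuous_abs.measurable.comp hmi
  have hset : MeasurableSet {p : EuclideanSpace ℝ (Fin 2) × EuclideanSpace ℝ (Fin 2) |
      p.1 ∈ O ∧ ‖nrm F p.1 p.2‖ < 1 ∧ 0 ≤ (inner ℝ (hvec F p.1) (nrm F p.1 p.2) : ℝ)} := by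
    have m1 : MeasurableSet {p : EuclideanSpace ℝ (Fin 2) × EuclideanSpace ℝ (Fin 2) |
      ‖nrm F p.1 p.2‖ < 1} := measurableSet_lt hn.norm measurable_const
    have m2 : MeasurableSet {p : EuclideanSpace ℝ (Fin 2) × EuclideanSpace ℝ (Fin 2) |
      0 ≤ (inner ℝ (hvec F p.1) (nrm F p.1 p.2) : ℝ)} :=
      measurableSet_le measurable_const (by fun_prop)
    exact (measurable_fst hO).inter (m1.inter m2)
  have : Function.uncurry (fint F O) = {p : EuclideanSpace ℝ (Fin 2) × EuclideanSpace ℝ (Fin 2) |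
      p.1 ∈ O ∧ ‖nrm F p.1 p.2‖ < 1 ∧
      0 ≤ (inner ℝ (hvec F p.1) (nrm F p.1 p.2) : ℝ)}.indicator
      (fun p => ENNReal.ofReal (gdet F p.1 / |minor F p.1| *
      (inner ℝ (hvec F p.1) (nrm F p.1 p.2) : ℝ) ^ 2)) := by
    funext p
    rfl
  rw [this]
  apply Measurable.indicator _ hset
  fun_prop

/-- The area inequality on a piece. -/
theorem badSet_piece {F : EuclideanSpace ℝ (Fin 2) → EuclideanSpace ℝ (Fin 4)}
    (hF : ContDiff ℝ ∞ F) {O : Set (EuclideanSpace ℝ (Fin 2))} (hO : MeasurableSet O)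
    (hm : ∀ x ∈ O, minor F x ≠ 0) (hg : ∀ x ∈ O, 0 < gdet F x) :
    volume (badSet F O ∩ ball 0 1) ≤
      ∫⁻ x in O, ENNReal.ofReal (Real.pi / 8 * (‖meanCurv F x‖ ^ 2 * Real.sqrt (gdet F x))) := by
  have hS := measurableSet_goodParam hF hO
  calc volume (badSet F O ∩ ball 0 1)
      ≤ volume ((fun z : EuclideanSpace ℝ (Fin 4) => nrm F !₂[z 0, z 1] !₂[z 2, z 3]) ''
        goodParam F O) := measure_mono (badSet_subset_image hF hm hg)
    _ ≤ ∫⁻ z in goodParam F O, ENNReal.ofReal |(fderiv ℝ (fun z : EuclideanSpace ℝ (Fin 4) =>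
        nrm F !₂[z 0, z 1] !₂[z 2, z 3]) z).det| :=
        addHaar_image_le_lintegral_abs_det_fderiv volume hS (fun z hz =>
          ((nrm_jac hF z (hm _ hz.1)).1.hasFDerivAt).hasFDerivWithinAt)
    _ ≤ ∫⁻ z : EuclideanSpace ℝ (Fin 4) in goodParam F O,
          fint F O !₂[z 0, z 1] !₂[z 2, z 3] := by
        apply setLIntegral_mono' hS
        intro z hz
        rw [(nrm_jac hF z (hm _ hz.1)).2]
        obtain ⟨h1, h2, h3, h4, h5⟩ := hz
        have hmem : ((!₂[z 0, z 1] : EuclideanSpace ℝ (Fin 2)),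
            (!₂[z 2, z 3] : EuclideanSpace ℝ (Fin 2))) ∈
            {p : EuclideanSpace ℝ (Fin 2) × EuclideanSpace ℝ (Fin 2) |
              p.1 ∈ O ∧ ‖nrm F p.1 p.2‖ < 1 ∧
              0 ≤ (inner ℝ (hvec F p.1) (nrm F p.1 p.2) : ℝ)} := ⟨h1, h2, h3⟩
        unfold fint
        rw [indicator_of_mem hmem]
        apply ENNReal.ofReal_le_ofReal
        rw [abs_of_nonneg h4]
        simp only []
        rw [div_mul_eq_mul_div]
        have hmpos : 0 < |minor F !₂[z 0, z 1]| := abs_pos.2 (hm _ h1)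
        gcongr
    _ ≤ ∫⁻ z : EuclideanSpace ℝ (Fin 4), fint F O !₂[z 0, z 1] !₂[z 2, z 3] := setLIntegral_le_lintegral _ _
    _ = ∫⁻ x, ∫⁻ b, fint F O x b := lintegral_split (measurable_fint hF hO)
    _ = ∫⁻ x in O, ∫⁻ b, fint F O x b := by
        rw [← lintegral_indicator hO]
        apply lintegral_congr
        intro x
        by_cases hx : x ∈ O
        · rw [indicator_of_mem hx]
        · rw [indicator_of_notMem hx]
          have : ∀ b, fint F O x b = 0 := by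
            intro b
            unfold fint
            apply indicator_of_notMem
            rintro ⟨h, _⟩
            exact hx h
          simp [this]
    _ ≤ ∫⁻ x in O, ENNReal.ofReal
          (Real.pi / 8 * (‖meanCurv F x‖ ^ 2 * Real.sqrt (gdet F x))) := by
        apply setLIntegral_mono' hO
        intro x hx
        refine le_trans (le_of_eq ?_) (inner_integral_le (hm x hx) (hg x hx))
        have hn := measurable_nrm hF (measurable_const : Measurable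
          (fun _ : EuclideanSpace ℝ (Fin 2) => x)) (measurable_id : Measurable
          (fun b : EuclideanSpace ℝ (Fin 2) => b))
        have hset : MeasurableSet {b : EuclideanSpace ℝ (Fin 2) | ‖nrm F x b‖ < 1 ∧
            0 ≤ (inner ℝ (hvec F x) (nrm F x b) : ℝ)} := by
          have m1 : MeasurableSet {b : EuclideanSpace ℝ (Fin 2) | ‖nrm F x b‖ < 1} :=
            measurableSet_lt hn.norm measurable_const
          have m2 : MeasurableSet {b : EuclideanSpace ℝ (Fin 2) |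
              0 ≤ (inner ℝ (hvec F x) (nrm F x b) : ℝ)} :=
            measurableSet_le measurable_const (by fun_prop)
          exact m1.inter m2
        rw [← lintegral_indicator hset]
        apply lintegral_congr
        intro b
        unfold fint
        by_cases hb : ‖nrm F x b‖ < 1 ∧ 0 ≤ (inner ℝ (hvec F x) (nrm F x b) : ℝ)
        · have h1 : (x, b) ∈ {p : EuclideanSpace ℝ (Fin 2) × EuclideanSpace ℝ (Fin 2) |
              p.1 ∈ O ∧ ‖nrm F p.1 p.2‖ < 1 ∧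
              0 ≤ (inner ℝ (hvec F p.1) (nrm F p.1 p.2) : ℝ)} := ⟨hx, hb⟩
          have h2 : b ∈ {b : EuclideanSpace ℝ (Fin 2) | ‖nrm F x b‖ < 1 ∧
              0 ≤ (inner ℝ (hvec F x) (nrm F x b) : ℝ)} := hb
          rw [indicator_of_mem h1, indicator_of_mem h2]
        · have h1 : (x, b) ∉ {p : EuclideanSpace ℝ (Fin 2) × EuclideanSpace ℝ (Fin 2) |
              p.1 ∈ O ∧ ‖nrm F p.1 p.2‖ < 1 ∧
              0 ≤ (inner ℝ (hvec F p.1) (nrm F p.1 p.2) : ℝ)} := fun h => hb h.2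
          have h2 : b ∉ {b : EuclideanSpace ℝ (Fin 2) | ‖nrm F x b‖ < 1 ∧
              0 ≤ (inner ℝ (hvec F x) (nrm F x b) : ℝ)} := hb
          rw [indicator_of_notMem h1, indicator_of_notMem h2]

end Pool.Agent.Lib_MP_752436_gt
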