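import Pool.Agent.Lib_MP_752436_gt.Cone
import Pool.Agent.Lib_MP_752436_gt.Pierce

/-!
Births from the bad points of a rising function in the enclosed part of the disc.
-/

open MeasureTheory Metric Set
open scoped ContDiff ENNReal Topology

namespace Pool.Agent.Lib_MP_752436_gt

/-- L2 (file Pierce2.lean) -/
theorem births_of_rising {F : EuclideanSpace ℝ (Fin 2) → EuclideanSpace ℝ (Fin 4)}
    (hF : IsSliceDisc F) {φ₀ : EuclideanSpace ℝ (Fin 2) → ℝ} (hφ₀ : Rising F φ₀)
    (hav : ∀ x ∈ upperSet F ∪ singularSet F, fderiv ℝ φ₀ x ≠ 0)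
    (P : Finset (EuclideanSpace ℝ (Fin 2)))
    (hP : ∀ p ∈ P, p ∈ closedBall (0 : EuclideanSpace ℝ (Fin 2)) 1 ∧
      p ∉ upperSet F ∪ singularSet F)
    (hneg : ∀ x ∈ enclosedBy (upperSet F ∪ singularSet F), fderiv ℝ φ₀ x = 0 →
      (∃ u, fderiv ℝ (fderiv ℝ φ₀) x u u < 0) ∨ x ∈ P) :
    ∃ G, MorseDisc G ∧ (births G).encard ≤ P.card ∧ (∀ x, ∀ i, i ≠ 3 → G x i = F x i) ∧
      ∀ s ∈ Icc (0 : ℝ) 1, IsSliceDisc (fun x => (1 - s) • F x + s • G x) := by
  classical
  have hUc := isCompact_obstacle hF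
  set U := upperSet F ∪ singularSet F with hUdef
  set P0 : Finset (EuclideanSpace ℝ (Fin 2)) :=
    P.filter (fun p => p ∈ ball (0 : EuclideanSpace ℝ (Fin 2)) 1) with hP0
  obtain ⟨R, hR, _, hRU, hRd⟩ := exists_pierce_radius P0
    (U := ball (0 : EuclideanSpace ℝ (Fin 2)) 1 \ U)
    (isOpen_ball.sdiff hUc.isClosed) (fun p hp => by
      rw [hP0, Finset.mem_filter] at hp
      exact ⟨hp.2, (hP p hp.1).2⟩) (one_pos)
  set K : Set (EuclideanSpace ℝ (Fin 2)) :=
    closedBall (0 : EuclideanSpace ℝ (Fin 2)) 1 \ ⋃ p ∈ P0, ball p (R / 2) with hK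
  have hKc : IsCompact K := (isCompact_closedBall _ _).diff
    (isOpen_biUnion fun p _ => isOpen_ball)
  obtain ⟨φ, hφ, hφlap⟩ := exists_super_cone hF hKc sdiff_subset hφ₀ hav (by
    intro x hxK hxe h0
    rcases hneg x hxe h0 with h | h
    · exact h
    · exfalso
      have hxU : x ∉ U := (hP x h).2
      have hxb : x ∈ ball (0 : EuclideanSpace ℝ (Fin 2)) 1 := by
        rcases ball_or_sphere hxe.1 with h1 | h1
        · exact h1
        · have h2 : x ∈ closedBall (0 : EuclideanSpace ℝ (Fin 2)) 1 \ U := ⟨hxe.1, hxU⟩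
          exact absurd (JoinedIn.refl h2) (hxe.2 x h1)
      apply hxK.2
      simp only [mem_iUnion]
      refine ⟨x, ?_, mem_ball_self (half_pos hR)⟩
      rw [hP0, Finset.mem_filter]
      exact ⟨h, hxb⟩)
  obtain ⟨ψ, P', hψ, hψle, hψeq, hcard, hP', hcrit⟩ := exists_lowering (P := P0) (half_pos hR)
    (half_lt_self hR) (fun p hp => (hRU p hp).trans sdiff_subset) hRd hφ.smooth
    (fun x hx hxp => by
      apply hφlap x
      refine ⟨hx, ?_⟩
      simp only [mem_iUnion, not_exists, mem_ball, not_lt]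
      exact hxp)
  have hfar : ∀ x ∈ U, ∀ p ∈ P0, R < dist x p := by
    intro x hx p hp
    by_contra hlt
    push Not at hlt
    exact (hRU p hp (mem_closedBall.2 hlt)).2 hx
  obtain ⟨G, hG, hGc, hGd, hGF, hGs⟩ := births_of_monotone hF hψ (fun x hx y hy hi h3 => by
      have hxu : x ∈ U := Or.inl ⟨hx, y, hy, hi, h3⟩
      rw [hψeq x (fun p hp => (hfar x hxu p hp).le)]
      exact (hψle y).trans (hφ.mono x hx y hy ⟨hi, h3⟩))
    (fun x hx u hi h3 => by
      by_cases hn : nvec (projThree F) x = 0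
      · have hxU : x ∈ U := Or.inr ⟨hx, hn⟩
        have hev : ψ =ᶠ[𝓝 x] φ := by
          have h1 : ∀ᶠ y in 𝓝 x, ∀ p ∈ P0, R < dist y p := by
            rw [Finset.eventually_all]
            intro p hp
            exact (isOpen_lt continuous_const (continuous_id.dist continuous_const)).mem_nhds
              (hfar x hxU p hp)
          filter_upwards [h1] with y hy
          exact hψeq y fun p hp => (hy p hp).le
        rw [hev.fderiv_eq]
        exact hφ.ker x hx u hi h3
      · rw [immersed_of_nvec hF.smooth hn hi, map_zero])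
    P' (fun p hp => ⟨(hP' p hp).2.1, (hP' p hp).2.2⟩) hcrit one_pos
  refine ⟨G, hG, hGc.trans ?_, hGF, hGs⟩
  have h1 : P'.card ≤ P.card := hcard.trans (Finset.card_filter_le _ _)
  exact_mod_cast h1

end Pool.Agent.Lib_MP_752436_gt
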