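import Pool.Agent.Lib_MP_752436_gt.Defs2
import Pool.Agent.Lib_MP_752436_gt.Moment

/-!
The half moment of a linear map onto a plane of four dimensional space.
-/

open MeasureTheory Metric Set
open scoped ContDiff ENNReal

namespace Pool.Agent.Lib_MP_752436_gt

/-- B3 (file PlaneInt.lean): the half moment of a linear map onto a plane of `R^4` -/
theorem plane_moment (p q H : EuclideanSpace ℝ (Fin 4)) (D : ℝ) (hD : 0 < D)
    (hG : (inner ℝ p p : ℝ) * inner ℝ q q - inner ℝ p q ^ 2 = D ^ 2) :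
    ∫⁻ b in {b : EuclideanSpace ℝ (Fin 2) | ‖b 0 • p + b 1 • q‖ < 1 ∧
        0 ≤ (inner ℝ H (b 0 • p + b 1 • q) : ℝ)},
      ENNReal.ofReal ((inner ℝ H (b 0 • p + b 1 • q) : ℝ) ^ 2) ≤
      ENNReal.ofReal (Real.pi / 8 * ‖H‖ ^ 2 / D) := by
  have hp : p ≠ 0 := by
    rintro rfl
    simp only [inner_zero_left] at hG
    nlinarith
  have ha : 0 < ‖p‖ := norm_pos_iff.mpr hp
  set a : ℝ := ‖p‖ with hadef
  set β : ℝ := inner ℝ p q / a with hβ
  set c : ℝ := D / a with hc
  have hcpos : 0 < c := div_pos hD ha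
  have hpp : (inner ℝ p p : ℝ) = a ^ 2 := real_inner_self_eq_norm_sq p
  have hpq : (inner ℝ p q : ℝ) = a * β := by
    rw [hβ]; field_simp
  have hqq : (inner ℝ q q : ℝ) = β ^ 2 + c ^ 2 := by
    have h1 : a ^ 2 * (inner ℝ q q : ℝ) = a ^ 2 * (β ^ 2 + c ^ 2) := by
      have h2 : a * c = D := by rw [hc]; field_simp
      have h3 : a ^ 2 * (inner ℝ q q : ℝ) = D ^ 2 + (a * β) ^ 2 := by
        rw [← hpp, ← hpq]; linarith [hG]
      rw [h3, ← h2]; ring
    exact mul_left_cancel₀ (by positivity) h1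
  have hqn : ‖q‖ ^ 2 = β ^ 2 + c ^ 2 := by rw [← real_inner_self_eq_norm_sq q, hqq]
  set h₀ : ℝ := inner ℝ H p / a with hh₀
  set h₁ : ℝ := (inner ℝ H q - β * h₀) / c with hh₁
  have hHp : (inner ℝ H p : ℝ) = a * h₀ := by rw [hh₀]; field_simp
  have hHq : (inner ℝ H q : ℝ) = β * h₀ + c * h₁ := by rw [hh₁]; field_simp; ring
  set h : EuclideanSpace ℝ (Fin 2) := !₂[h₀, h₁] with hh
  set M : Matrix (Fin 2) (Fin 2) ℝ := !![a, β; 0, c] with hM
  set T : EuclideanSpace ℝ (Fin 2) →ₗ[ℝ] EuclideanSpace ℝ (Fin 2) := Matrix.toEuclideanLin M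
    with hT
  have hT0 : ∀ b : EuclideanSpace ℝ (Fin 2), T b 0 = a * b 0 + β * b 1 := by
    intro b
    simp [hT, hM, Matrix.toEuclideanLin_apply, Matrix.mulVec, dotProduct, Fin.sum_univ_two]
  have hT1 : ∀ b : EuclideanSpace ℝ (Fin 2), T b 1 = c * b 1 := by
    intro b
    simp [hT, hM, Matrix.toEuclideanLin_apply, Matrix.mulVec, dotProduct, Fin.sum_univ_two]
  have hdet : LinearMap.det T = D := by
    rw [hT, Matrix.toEuclideanLin_eq_toLin, LinearMap.det_toLin, hM, Matrix.det_fin_two_of, hc]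
    field_simp
    ring
  have hnorm : ∀ b : EuclideanSpace ℝ (Fin 2), ‖T b‖ = ‖b 0 • p + b 1 • q‖ := by
    intro b
    have h1 : ‖T b‖ ^ 2 = ‖b 0 • p + b 1 • q‖ ^ 2 := by
      have e1 : ‖T b‖ ^ 2 = (a * b 0 + β * b 1) ^ 2 + (c * b 1) ^ 2 := by
        rw [EuclideanSpace.norm_sq_eq, Fin.sum_univ_two, hT0, hT1]
        simp only [Real.norm_eq_abs, sq_abs]
      rw [e1, norm_add_sq_real, norm_smul,
        norm_smul, real_inner_smul_left, real_inner_smul_right, hpq]
      simp only [mul_pow, Real.norm_eq_abs, sq_abs, hqn]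
      ring
    exact (sq_eq_sq₀ (norm_nonneg _) (norm_nonneg _)).mp h1
  have hinner : ∀ b : EuclideanSpace ℝ (Fin 2),
      (inner ℝ H (b 0 • p + b 1 • q) : ℝ) = inner ℝ h (T b) := by
    intro b
    rw [inner_add_right, real_inner_smul_right, real_inner_smul_right, hHp, hHq,
      PiLp.inner_apply, Fin.sum_univ_two, hT0, hT1]
    simp only [hh, RCLike.inner_apply, conj_trivial]
    simp
    ring
  have hbessel : ‖h‖ ^ 2 ≤ ‖H‖ ^ 2 := by
    set y : ℝ := h₁ / c with hy
    set x : ℝ := (h₀ - y * β) / a with hx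
    have hxa : x * a = h₀ - y * β := by rw [hx]; field_simp
    have hyc : y * c = h₁ := by rw [hy]; field_simp
    have h1 : 0 ≤ ‖H - (x • p + y • q)‖ ^ 2 := sq_nonneg _
    rw [norm_sub_sq_real, inner_add_right, real_inner_smul_right, real_inner_smul_right, hHp, hHq,
      norm_add_sq_real, norm_smul, norm_smul, real_inner_smul_left, real_inner_smul_right, hpq]
      at h1
    simp only [mul_pow, Real.norm_eq_abs, sq_abs, hqn] at h1
    have h2 : ‖h‖ ^ 2 = h₀ ^ 2 + h₁ ^ 2 := by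
      rw [EuclideanSpace.norm_sq_eq, Fin.sum_univ_two]
      simp [hh]
    rw [h2]
    have h3 : ‖H‖ ^ 2 - 2 * (x * (a * h₀) + y * (β * h₀ + c * h₁)) +
        (x ^ 2 * a ^ 2 + 2 * (x * (y * (a * β))) + y ^ 2 * (β ^ 2 + c ^ 2)) =
        ‖H‖ ^ 2 - 2 * ((x * a + y * β) * h₀ + (y * c) * h₁) + (x * a + y * β) ^ 2
          + (y * c) ^ 2 := by ring
    rw [h3, hyc, hxa] at h1
    nlinarith [h1]
  have hset : {b : EuclideanSpace ℝ (Fin 2) | ‖b 0 • p + b 1 • q‖ < 1 ∧
        0 ≤ (inner ℝ H (b 0 • p + b 1 • q) : ℝ)} =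
      T ⁻¹' (ball (0 : EuclideanSpace ℝ (Fin 2)) 1 ∩ {w | 0 ≤ (inner ℝ h w : ℝ)}) := by
    ext b
    simp only [mem_setOf_eq, mem_preimage, mem_inter_iff, mem_ball_zero_iff, hnorm, hinner]
  have hTm : Measurable T := by
    have : Continuous T := LinearMap.continuous_of_finiteDimensional T
    exact this.measurable
  have hSm : MeasurableSet (ball (0 : EuclideanSpace ℝ (Fin 2)) 1 ∩
      {w | 0 ≤ (inner ℝ h w : ℝ)}) := by
    refine measurableSet_ball.inter ?_
    exact (isClosed_le continuous_const (continuous_const.inner continuous_id)).measurableSet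
  have hfm : Measurable fun w : EuclideanSpace ℝ (Fin 2) =>
      ENNReal.ofReal ((inner ℝ h w : ℝ) ^ 2) := by
    refine ENNReal.measurable_ofReal.comp ?_
    exact ((continuous_const.inner continuous_id).pow 2).measurable
  have hmap : Measure.map T (volume : Measure (EuclideanSpace ℝ (Fin 2))) =
      ENNReal.ofReal |(LinearMap.det T)⁻¹| • volume :=
    Measure.map_linearMap_addHaar_eq_smul_addHaar volume (by rw [hdet]; exact hD.ne')
  have key := setLIntegral_map (μ := (volume : Measure (EuclideanSpace ℝ (Fin 2)))) hSm hfm hTm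
  rw [hset]
  simp_rw [hinner]
  rw [← key, hmap, Measure.restrict_smul, lintegral_smul_measure, half_moment h, hdet,
    abs_of_pos (inv_pos.mpr hD), smul_eq_mul, ← ENNReal.ofReal_mul (inv_pos.mpr hD).le]
  apply ENNReal.ofReal_le_ofReal
  have hπ := Real.pi_pos
  rw [div_eq_inv_mul (Real.pi / 8 * ‖H‖ ^ 2) D]
  apply mul_le_mul_of_nonneg_left _ (inv_pos.mpr hD).le
  exact mul_le_mul_of_nonneg_left hbessel (by positivity)

end Pool.Agent.Lib_MP_752436_gt
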