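import Pool.Agent.Lib_MP_752436_gt.Disc

/-!
Traps of a slice disc.
-/

open MeasureTheory Metric Set
open scoped ContDiff

namespace Pool.Agent.Lib_MP_752436_gt

/-- The projection of the disc to `R^3` (forgetting the height, the coordinate `3`) is an
immersion of the closed disc. -/
def ImmersedProjection (F : EuclideanSpace ℝ (Fin 2) → EuclideanSpace ℝ (Fin 4)) : Prop :=
  ∀ x ∈ closedBall (0 : EuclideanSpace ℝ (Fin 2)) 1, ∀ u, u ≠ 0 →
    ∃ i, i ≠ 3 ∧ fderiv ℝ F x u i ≠ 0

/-- The point `x` of the disc lies above the point `y`: same projection, larger height. -/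
def Above (F : EuclideanSpace ℝ (Fin 2) → EuclideanSpace ℝ (Fin 4))
    (x y : EuclideanSpace ℝ (Fin 2)) : Prop :=
  (∀ i, i ≠ 3 → F x i = F y i) ∧ F y 3 < F x 3

/-- A trap: a nonempty compact subset of the open disc such that every point of its frontier
lies above a point of the set. -/
structure IsTrap (F : EuclideanSpace ℝ (Fin 2) → EuclideanSpace ℝ (Fin 4))
    (Z : Set (EuclideanSpace ℝ (Fin 2))) : Prop where
  compact : IsCompact Z
  nonempty : Z.Nonempty
  sub : Z ⊆ ball 0 1
  above : ∀ x ∈ frontier Z, ∃ y ∈ Z, Above F x y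

end Pool.Agent.Lib_MP_752436_gt
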